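import Pool.Agent.Lib.MP_4c1f79_al.P.P_BND
import Pool.Agent.Lib.MP_4c1f79_al.P.P_BRK
import Pool.Agent.Lib.MP_4c1f79_al.P.P_DES
import Pool.Agent.Lib.MP_4c1f79_al.P.P_DIM
import Pool.Agent.Lib.MP_4c1f79_al.P.P_DQ1
import Pool.Agent.Lib.MP_4c1f79_al.P.P_DQ2
import Pool.Agent.Lib.MP_4c1f79_al.P.P_DQ3
import Pool.Agent.Lib.MP_4c1f79_al.P.P_E8l
import Pool.Agent.Lib.MP_4c1f79_al.P.P_E8m
import Pool.Agent.Lib.MP_4c1f79_al.P.P_E8n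
import Pool.Agent.Lib.MP_4c1f79_al.P.P_EU1
import Pool.Agent.Lib.MP_4c1f79_al.P.P_EXT
import Pool.Agent.Lib.MP_4c1f79_al.P.P_FAM
import Pool.Agent.Lib.MP_4c1f79_al.P.P_FGR
import Pool.Agent.Lib.MP_4c1f79_al.P.P_FIB
import Pool.Agent.Lib.MP_4c1f79_al.P.P_FID
import Pool.Agent.Lib.MP_4c1f79_al.P.P_FQM
import Pool.Agent.Lib.MP_4c1f79_al.P.P_FTY
import Pool.Agent.Lib.MP_4c1f79_al.P.P_FUN
import Pool.Agent.Lib.MP_4c1f79_al.P.P_G1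
import Pool.Agent.Lib.MP_4c1f79_al.P.P_G2A
import Pool.Agent.Lib.MP_4c1f79_al.P.P_G2B
import Pool.Agent.Lib.MP_4c1f79_al.P.P_G6A
import Pool.Agent.Lib.MP_4c1f79_al.P.P_G6B
import Pool.Agent.Lib.MP_4c1f79_al.P.P_G9
import Pool.Agent.Lib.MP_4c1f79_al.P.P_GC1
import Pool.Agent.Lib.MP_4c1f79_al.P.P_GC2
import Pool.Agent.Lib.MP_4c1f79_al.P.P_GC3
import Pool.Agent.Lib.MP_4c1f79_al.P.P_GC4
import Pool.Agent.Lib.MP_4c1f79_al.P.P_GNV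
import Pool.Agent.Lib.MP_4c1f79_al.P.P_H1
import Pool.Agent.Lib.MP_4c1f79_al.P.P_H2
import Pool.Agent.Lib.MP_4c1f79_al.P.P_HF
import Pool.Agent.Lib.MP_4c1f79_al.P.P_ISO
import Pool.Agent.Lib.MP_4c1f79_al.P.P_LD
import Pool.Agent.Lib.MP_4c1f79_al.P.P_LIN
import Pool.Agent.Lib.MP_4c1f79_al.P.P_LN2
import Pool.Agent.Lib.MP_4c1f79_al.P.P_MON
import Pool.Agent.Lib.MP_4c1f79_al.P.P_NO1
import Pool.Agent.Lib.MP_4c1f79_al.P.P_PE0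
import Pool.Agent.Lib.MP_4c1f79_al.P.P_RG1
import Pool.Agent.Lib.MP_4c1f79_al.P.P_RG2
import Pool.Agent.Lib.MP_4c1f79_al.P.P_RG3
import Pool.Agent.Lib.MP_4c1f79_al.P.P_RST
import Pool.Agent.Lib.MP_4c1f79_al.P.P_RTR
import Pool.Agent.Lib.MP_4c1f79_al.P.P_SAG
import Pool.Agent.Lib.MP_4c1f79_al.P.P_SOC
import Pool.Agent.Lib.MP_4c1f79_al.P.P_SOE
import Pool.Agent.Lib.MP_4c1f79_al.P.P_TAB
import Pool.Agent.Lib.MP_4c1f79_al.P.P_TBB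
import Pool.Agent.Lib.MP_4c1f79_al.P.P_THN
import Pool.Agent.Lib.MP_4c1f79_al.P.P_TOR
import Pool.Agent.Lib.MP_4c1f79_al.P.P_TPU
import Pool.Agent.Lib.MP_4c1f79_al.P.P_TRC
import Pool.Agent.Lib.MP_4c1f79_al.P.P_UPB
import Pool.Agent.Lib.MP_4c1f79_al.P.P_DMS
import Pool.Agent.Lib.MP_4c1f79_al.P.P_E8h
import Pool.Agent.Lib.MP_4c1f79_al.P.P_EUL
import Pool.Agent.Lib.MP_4c1f79_al.P.P_EXF
import Pool.Agent.Lib.MP_4c1f79_al.P.P_EXM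
import Pool.Agent.Lib.MP_4c1f79_al.P.P_FD3
import Pool.Agent.Lib.MP_4c1f79_al.P.P_FI8
import Pool.Agent.Lib.MP_4c1f79_al.P.P_H1Q
import Pool.Agent.Lib.MP_4c1f79_al.P.P_HD
import Pool.Agent.Lib.MP_4c1f79_al.P.P_HYP
import Pool.Agent.Lib.MP_4c1f79_al.P.P_PEE
import Pool.Agent.Lib.MP_4c1f79_al.P.P_RPE
import Pool.Agent.Lib.MP_4c1f79_al.P.P_RSP
import Pool.Agent.Lib.MP_4c1f79_al.P.P_SPL
import Pool.Agent.Lib.MP_4c1f79_al.P.P_T8a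
import Pool.Agent.Lib.MP_4c1f79_al.P.P_T8b
import Pool.Agent.Lib.MP_4c1f79_al.P.P_T8c
import Pool.Agent.Lib.MP_4c1f79_al.P.P_T8d
import Pool.Agent.Lib.MP_4c1f79_al.P.P_T8e
import Pool.Agent.Lib.MP_4c1f79_al.P.P_T8f
import Pool.Agent.Lib.MP_4c1f79_al.P.P_TBM
import Pool.Agent.Lib.MP_4c1f79_al.P.P_UNI
import Pool.Agent.Lib.MP_4c1f79_al.P.P_CCD
import Pool.Agent.Lib.MP_4c1f79_al.P.P_E8a
import Pool.Agent.Lib.MP_4c1f79_al.P.P_E8b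
import Pool.Agent.Lib.MP_4c1f79_al.P.P_E8c
import Pool.Agent.Lib.MP_4c1f79_al.P.P_E8d
import Pool.Agent.Lib.MP_4c1f79_al.P.P_E8e
import Pool.Agent.Lib.MP_4c1f79_al.P.P_E8g
import Pool.Agent.Lib.MP_4c1f79_al.P.P_E8i
import Pool.Agent.Lib.MP_4c1f79_al.P.P_EMB
import Pool.Agent.Lib.MP_4c1f79_al.P.P_FD1
import Pool.Agent.Lib.MP_4c1f79_al.P.P_FD2
import Pool.Agent.Lib.MP_4c1f79_al.P.P_FNV
import Pool.Agent.Lib.MP_4c1f79_al.P.P_FPT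
import Pool.Agent.Lib.MP_4c1f79_al.P.P_G5
import Pool.Agent.Lib.MP_4c1f79_al.P.P_G7
import Pool.Agent.Lib.MP_4c1f79_al.P.P_SPC
import Pool.Agent.Lib.MP_4c1f79_al.P.P_CR1
import Pool.Agent.Lib.MP_4c1f79_al.P.P_CR2
import Pool.Agent.Lib.MP_4c1f79_al.P.P_CSP
import Pool.Agent.Lib.MP_4c1f79_al.P.P_E8j
import Pool.Agent.Lib.MP_4c1f79_al.P.P_PEM
import Pool.Agent.Lib.MP_4c1f79_al.P.P_TH1
import Pool.Agent.Lib.MP_4c1f79_al.P.P_COR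
import Pool.Agent.Lib.MP_4c1f79_al.P.P_E8p
import Pool.Agent.Lib.MP_4c1f79_al.P.P_E8q
import Pool.Agent.Lib.MP_4c1f79_al.P.P_E8r
import Pool.Agent.Lib.MP_4c1f79_al.P.P_FW1
import Pool.Agent.Lib.MP_4c1f79_al.P.P_FW2
import Pool.Agent.Lib.MP_4c1f79_al.P.P_G8
import Pool.Agent.Lib.MP_4c1f79_al.P.P_COA
import Pool.Agent.Lib.MP_4c1f79_al.P.P_E8k
import Pool.Agent.Lib.MP_4c1f79_al.P.P_E8s
import Pool.Agent.Lib.MP_4c1f79_al.P.P_E8z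
import Pool.Agent.Lib.MP_4c1f79_al.P.P_FS0
import Pool.Agent.Lib.MP_4c1f79_al.P.P_G10
import Pool.Agent.Lib.MP_4c1f79_al.P.P_G11
import Pool.Agent.Lib.MP_4c1f79_al.P.P_G12

/-! closed theorems (assembled automatically) -/

set_option autoImplicit false

namespace Pool.Agent.Lib.MP_4c1f79_al

theorem c_BND : S_BND := BND_holds 
theorem c_BRK : S_BRK := BRK_holds 
theorem c_DES : S_DES := DES_holds 
theorem c_DIM : S_DIM := DIM_holds 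
theorem c_DQ1 : S_DQ1 := DQ1_holds 
theorem c_DQ2 : S_DQ2 := DQ2_holds 
theorem c_DQ3 : S_DQ3 := DQ3_holds 
theorem c_E8l : S_E8l := E8l_holds 
theorem c_E8m : S_E8m := E8m_holds 
theorem c_E8n : S_E8n := E8n_holds 
theorem c_EU1 : S_EU1 := EU1_holds 
theorem c_EXT : S_EXT := EXT_holds 
theorem c_FAM : S_FAM := FAM_holds 
theorem c_FGR : S_FGR := FGR_holds c_DQ1
theorem c_FIB : S_FIB := FIB_holds 
theorem c_FID : S_FID := FID_holds 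
theorem c_FQM : S_FQM := FQM_holds 
theorem c_FTY : S_FTY := FTY_holds 
theorem c_FUN : S_FUN := FUN_holds 
theorem c_G1 : S_G1 := G1_holds 
theorem c_G2A : S_G2A := G2A_holds 
theorem c_G2B : S_G2B := G2B_holds c_G1 c_G2A
theorem c_G6A : S_G6A := G6A_holds c_G1 c_G2A c_G2B
theorem c_G6B : S_G6B := G6B_holds c_G1 c_G2A c_G2B
theorem c_G9 : S_G9 := G9_holds c_BND
theorem c_GC1 : S_GC1 := GC1_holds 
theorem c_GC2 : S_GC2 := GC2_holds c_GC1 c_DQ1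
theorem c_GC3 : S_GC3 := GC3_holds c_GC1 c_DQ1 c_DQ3
theorem c_GC4 : S_GC4 := GC4_holds c_GC1 c_DQ1 c_DQ3
theorem c_GNV : S_GNV := GNV_holds 
theorem c_H1 : S_H1 := H1_holds 
theorem c_H2 : S_H2 := H2_holds 
theorem c_HF : S_HF := HF_holds c_DES
theorem c_ISO : S_ISO := ISO_holds 
theorem c_LD : S_LD := LD_holds 
theorem c_LIN : S_LIN := LIN_holds c_DES
theorem c_LN2 : S_LN2 := LN2_holds 
theorem c_MON : S_MON := MON_holds c_EXT c_DQ3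
theorem c_NO1 : S_NO1 := NO1_holds 
theorem c_PE0 : S_PE0 := PE0_holds 
theorem c_RG1 : S_RG1 := RG1_holds c_LD
theorem c_RG2 : S_RG2 := RG2_holds c_LD
theorem c_RG3 : S_RG3 := RG3_holds 
theorem c_RST : S_RST := RST_holds c_GC1 c_GC2 c_GC3 c_GC4
theorem c_RTR : S_RTR := RTR_holds c_EXT c_DQ3
theorem c_SAG : S_SAG := SAG_holds 
theorem c_SOC : S_SOC := SOC_holds c_DQ3
theorem c_SOE : S_SOE := SOE_holds c_DIM
theorem c_TAB : S_TAB := TAB_holds c_BRK c_DIM c_BND c_DQ3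
theorem c_TBB : S_TBB := TBB_holds c_TAB c_BND
theorem c_THN : S_THN := THN_holds c_RST c_BND c_SOC c_DQ1 c_DQ3
theorem c_TOR : S_TOR := TOR_holds 
theorem c_TPU : S_TPU := TPU_holds c_BRK c_DIM c_BND c_DQ1 c_DQ3
theorem c_TRC : S_TRC := TRC_holds 
theorem c_UPB : S_UPB := UPB_holds c_EXT
theorem c_DMS : S_DMS := DMS_holds c_MON c_DQ2
theorem c_E8h : S_E8h := E8h_holds c_EU1 c_SAG
theorem c_EUL : S_EUL := EUL_holds c_LD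
theorem c_EXF : S_EXF := EXF_holds c_EXT c_TRC
theorem c_EXM : S_EXM := EXM_holds c_FUN c_DQ2
theorem c_FD3 : S_FD3 := FD3_holds c_TBB
theorem c_FI8 : S_FI8 := FI8_holds c_FID
theorem c_H1Q : S_H1Q := H1Q_holds c_H2 c_H1 c_DQ1
theorem c_HD : S_HD := HD_holds c_EUL c_H1Q c_H2 c_DQ1
theorem c_HYP : S_HYP := HYP_holds c_LIN
theorem c_PEE : S_PEE := PEE_holds c_EXF c_DES c_SOC c_ISO c_DQ2 c_DQ3
theorem c_RPE : S_RPE := RPE_holds c_EXM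
theorem c_RSP : S_RSP := RSP_holds c_RST c_BND
theorem c_SPL : S_SPL := SPL_holds c_FIB c_HF c_HD c_DQ1 c_DQ3
theorem c_T8a : S_T8a := T8a_holds c_TBB
theorem c_T8b : S_T8b := T8b_holds c_TBB
theorem c_T8c : S_T8c := T8c_holds c_TBB
theorem c_T8d : S_T8d := T8d_holds c_TBB
theorem c_T8e : S_T8e := T8e_holds c_TBB
theorem c_T8f : S_T8f := T8f_holds c_TBB
theorem c_TBM : S_TBM := TBM_holds c_TBB c_RPE c_DMS
theorem c_UNI : S_UNI := UNI_holds c_PEE c_FUN c_ISO c_DQ3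
theorem c_CCD : S_CCD := CCD_holds c_UNI c_ISO
theorem c_E8a : S_E8a := E8a_holds c_T8a c_FID c_FI8 c_GC1 c_DQ1
theorem c_E8b : S_E8b := E8b_holds c_E8a c_GC1 c_GC2 c_GC3 c_FID c_FI8 c_DQ1 c_DQ3
theorem c_E8c : S_E8c := E8c_holds c_E8a c_E8n c_BRK c_RG1 c_RG2 c_RG3 c_RTR c_RPE c_DMS c_T8a c_T8d c_SAG c_EU1 c_FID c_FI8 c_DQ3
theorem c_E8d : S_E8d := E8d_holds c_E8a c_E8b c_E8c c_UNI c_GC1 c_GC2 c_GC3 c_BRK c_FID c_FI8 c_GNV c_DQ1 c_DQ3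
theorem c_E8e : S_E8e := E8e_holds c_E8a c_E8d c_RST c_UNI c_ISO c_FID c_FI8 c_GNV c_T8a c_DQ1
theorem c_E8g : S_E8g := E8g_holds c_E8m c_GNV c_UPB c_RPE c_T8e c_SAG c_FID c_FI8 c_DQ1 c_DQ2 c_DQ3 c_BND
theorem c_E8i : S_E8i := E8i_holds c_FID c_FI8 c_BND c_DQ1 c_DQ3
theorem c_EMB : S_EMB := EMB_holds c_EXF c_DES c_SOC c_DQ3
theorem c_FD1 : S_FD1 := FD1_holds c_TBM
theorem c_FD2 : S_FD2 := FD2_holds c_TBM c_MON c_RPE c_DQ3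
theorem c_FNV : S_FNV := FNV_holds c_FQM c_EMB c_FD1 c_DQ1 c_GC1 c_FGR
theorem c_FPT : S_FPT := FPT_holds c_FGR c_NO1 c_DQ1 c_FD1
theorem c_G5 : S_G5 := G5_holds c_G1 c_G2A c_G2B c_HYP
theorem c_G7 : S_G7 := G7_holds c_FAM c_LN2 c_G1 c_G5 c_G6A c_G6B
theorem c_SPC : S_SPC := SPC_holds c_SPL c_DQ2
theorem c_CR1 : S_CR1 := CR1_holds c_GC1 c_GC2 c_GC3 c_UNI c_EMB c_BND c_DQ1 c_DQ3
theorem c_CR2 : S_CR2 := CR2_holds c_CR1 c_TOR c_FIB c_HF c_ISO c_DQ1 c_DQ2 c_DQ3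
theorem c_CSP : S_CSP := CSP_holds c_CCD c_EXM c_SPC c_DQ2
theorem c_E8j : S_E8j := E8j_holds c_E8i c_FID c_FI8 c_SPC c_RSP c_ISO c_BND c_DQ1 c_DQ2 c_DQ3
theorem c_PEM : S_PEM := PEM_holds c_SPC c_PEE c_FUN c_ISO c_BND c_DQ3
theorem c_TH1 : S_TH1 := TH1_holds c_THN c_PEM
theorem c_COR : S_COR := COR_holds c_CR2
theorem c_E8p : S_E8p := E8p_holds c_THN c_PEM c_MON c_RPE c_FID c_FI8 c_T8c
theorem c_E8q : S_E8q := E8q_holds c_TH1 c_MON c_RPE c_FID c_FI8 c_T8b c_T8c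
theorem c_E8r : S_E8r := E8r_holds c_THN c_FI8 c_E8p c_E8q c_T8a c_DQ1
theorem c_FW1 : S_FW1 := FW1_holds c_TH1 c_THN c_PEM c_FD2
theorem c_FW2 : S_FW2 := FW2_holds c_THN c_FD1 c_FW1 c_DQ1
theorem c_G8 : S_G8 := G8_holds c_TH1 c_PE0
theorem c_COA : S_COA := COA_holds c_COR c_SPC c_UNI c_EXM c_ISO c_BND c_DQ2
theorem c_E8k : S_E8k := E8k_holds c_E8g c_E8h c_RST c_COA c_T8f c_UNI c_ISO c_FID c_FI8 c_DQ1 c_DQ2
theorem c_E8s : S_E8s := E8s_holds c_E8e c_E8i c_E8j c_E8k c_E8l c_RSP c_EXM c_T8a c_T8e c_FID c_FI8 c_DQ1 c_DQ2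
theorem c_E8z : S_E8z := E8z_holds c_E8r c_E8s
theorem c_FS0 : S_FS0 := FS0_holds c_RST c_CCD c_COA c_FD3 c_FNV c_FPT c_FGR c_FTY
theorem c_G10 : S_G10 := G10_holds c_THN c_G8 c_G9
theorem c_G11 : S_G11 := G11_holds c_THN c_G8 c_G1 c_G7
theorem c_G12 : S_G12 := G12_holds c_PEM c_G10 c_G11

end Pool.Agent.Lib.MP_4c1f79_al
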