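import Pool.Agent.Lib.MP_4c1f79_al.P.P_K1
import Pool.Agent.Lib.MP_4c1f79_al.P.P_K2
import Pool.Agent.Lib.MP_4c1f79_al.P.P_KA
import Pool.Agent.Lib.MP_4c1f79_al.P.P_KA1
import Pool.Agent.Lib.MP_4c1f79_al.P.P_KA2
import Pool.Agent.Lib.MP_4c1f79_al.P.P_KCL
import Pool.Agent.Lib.MP_4c1f79_al.P.P_KD1
import Pool.Agent.Lib.MP_4c1f79_al.P.P_KD2
import Pool.Agent.Lib.MP_4c1f79_al.P.P_KFI
import Pool.Agent.Lib.MP_4c1f79_al.P.P_KIN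
import Pool.Agent.Lib.MP_4c1f79_al.P.P_KL
import Pool.Agent.Lib.MP_4c1f79_al.P.P_KL1
import Pool.Agent.Lib.MP_4c1f79_al.P.P_KLF
import Pool.Agent.Lib.MP_4c1f79_al.P.P_KNO
import Pool.Agent.Lib.MP_4c1f79_al.P.P_KR1
import Pool.Agent.Lib.MP_4c1f79_al.P.P_KR2
import Pool.Agent.Lib.MP_4c1f79_al.P.P_KR3
import Pool.Agent.Lib.MP_4c1f79_al.P.P_KRI
import Pool.Agent.Lib.MP_4c1f79_al.P.P_KSA
import Pool.Agent.Lib.MP_4c1f79_al.P.P_KSF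
import Pool.Agent.Lib.MP_4c1f79_al.P.P_KSL
import Pool.Agent.Lib.MP_4c1f79_al.P.P_KSM
import Pool.Agent.Lib.MP_4c1f79_al.P.P_KSO
import Pool.Agent.Lib.MP_4c1f79_al.P.P_KSP
import Pool.Agent.Lib.MP_4c1f79_al.P.P_KSU
import Pool.Agent.Lib.MP_4c1f79_al.P.P_KT
import Pool.Agent.Lib.MP_4c1f79_al.P.P_KT1
import Pool.Agent.Lib.MP_4c1f79_al.P.P_KT2
import Pool.Agent.Lib.MP_4c1f79_al.P.P_KTP

/-!
MP_4c1f79_al: the classification pieces, without hypotheses.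
-/

set_option autoImplicit false

namespace Pool.Agent.Lib.MP_4c1f79_al

theorem c_K1 : S_K1 := K1_holds
theorem c_KLF : S_KLF := KLF_holds
theorem c_KTP : S_KTP := KTP_holds c_K1
theorem c_K2 : S_K2 := K2_holds
theorem c_KA1 : S_KA1 := KA1_holds c_K2
theorem c_KSA : S_KSA := KSA_holds
theorem c_KSL : S_KSL := KSL_holds
theorem c_KSM : S_KSM := KSM_holds c_KSL
theorem c_KSO : S_KSO := KSO_holds
theorem c_KSP : S_KSP := KSP_holds c_K2 c_KSA c_KSM c_KSO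
theorem c_KSU : S_KSU := KSU_holds
theorem c_KA2 : S_KA2 := KA2_holds c_K2 c_KSP c_KSU c_KSL
theorem c_KA : S_KA := KA_holds c_K1 c_KTP c_KA1 c_KA2
theorem c_KL1 : S_KL1 := KL1_holds c_KSP c_KSU c_KSL c_KSO
theorem c_KL : S_KL := KL_holds c_K2 c_KL1
theorem c_KT1 : S_KT1 := KT1_holds c_KSP c_KSU c_KSL c_KSO
theorem c_KT2 : S_KT2 := KT2_holds
theorem c_KT : S_KT := KT_holds c_K1 c_K2 c_KT1 c_KT2
theorem c_KIN : S_KIN := KIN_holds c_K1 c_KLF c_KTP c_KA c_KL c_KT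
theorem c_KR1 : S_KR1 := KR1_holds c_KSP c_KSA c_KSM c_KSU c_KSL c_KSO
theorem c_KR2 : S_KR2 := KR2_holds c_KSP c_KSU c_KSL
theorem c_KR3 : S_KR3 := KR3_holds c_KR2 c_KT2
theorem c_KD1 : S_KD1 := KD1_holds
theorem c_KD2 : S_KD2 := KD2_holds
theorem c_KCL : S_KCL := KCL_holds c_K1 c_KIN c_KR1 c_KR3 c_KD1 c_KD2
theorem c_KNO : S_KNO := KNO_holds c_KCL
theorem c_KSF : S_KSF := KSF_holds c_K1 c_KNO
theorem c_KRI : S_KRI := KRI_holds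
theorem c_KFI : S_KFI := KFI_holds c_KSF c_KRI

end Pool.Agent.Lib.MP_4c1f79_al
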