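import Pool.Agent.Lib.J4c.Asm
import Pool.Agent.Lib.MP_4c1f79_al.Asm
import Pool.Agent.Lib.MP_4c1f79_al.P.P_CDA
import Pool.Agent.Lib.MP_4c1f79_al.P.P_CDD
import Pool.Agent.Lib.MP_4c1f79_al.P.P_CKA
import Pool.Agent.Lib.MP_4c1f79_al.P.P_CKD
import Pool.Agent.Lib.MP_4c1f79_al.P.P_CLA
import Pool.Agent.Lib.MP_4c1f79_al.P.P_CLB
import Pool.Agent.Lib.MP_4c1f79_al.P.P_CLC
import Pool.Agent.Lib.MP_4c1f79_al.P.P_CLD
import Pool.Agent.Lib.MP_4c1f79_al.P.P_CSO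
import Pool.Agent.Lib.MP_4c1f79_al.P.P_GEN
import Pool.Agent.Lib.MP_4c1f79_al.P.P_IA1
import Pool.Agent.Lib.MP_4c1f79_al.P.P_IA2
import Pool.Agent.Lib.MP_4c1f79_al.P.P_IBA
import Pool.Agent.Lib.MP_4c1f79_al.P.P_IBE
import Pool.Agent.Lib.MP_4c1f79_al.P.P_IDD
import Pool.Agent.Lib.MP_4c1f79_al.P.P_IDM
import Pool.Agent.Lib.MP_4c1f79_al.P.P_IEU
import Pool.Agent.Lib.MP_4c1f79_al.P.P_IEX
import Pool.Agent.Lib.MP_4c1f79_al.P.P_IFD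
import Pool.Agent.Lib.MP_4c1f79_al.P.P_INM
import Pool.Agent.Lib.MP_4c1f79_al.P.P_ITH
import Pool.Agent.Lib.MP_4c1f79_al.P.P_IX1
import Pool.Agent.Lib.MP_4c1f79_al.P.P_IX2
import Pool.Agent.Lib.MP_4c1f79_al.P.P_IX3
import Pool.Agent.Lib.MP_4c1f79_al.P.P_IY1
import Pool.Agent.Lib.MP_4c1f79_al.P.P_IY2
import Pool.Agent.Lib.MP_4c1f79_al.P.P_IY3
import Pool.Agent.Lib.MP_4c1f79_al.P.P_LNK
import Pool.Agent.Lib.MP_4c1f79_al.P.P_NPA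
import Pool.Agent.Lib.MP_4c1f79_al.P.P_NPB
import Pool.Agent.Lib.MP_4c1f79_al.P.P_NPC
import Pool.Agent.Lib.MP_4c1f79_al.P.P_NPD
import Pool.Agent.Lib.MP_4c1f79_al.P.P_ONT

/-!
MP_4c1f79_al: the link and the classical types, without hypotheses.
-/

set_option autoImplicit false

namespace Pool.Agent.Lib.MP_4c1f79_al

theorem c_IDM : S_IDM := IDM_holds c_TAB
theorem c_INM : S_INM := INM_holds
theorem c_IDD : S_IDD := IDD_holds c_IDM c_RPE c_DMS c_EXM c_CCD c_INM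
theorem c_IBA : S_IBA := IBA_holds c_CCD c_EXM c_DQ1 c_DQ3
theorem c_IA1 : S_IA1 := IA1_holds c_CSP c_IDD c_INM c_IBA
theorem c_IEU : S_IEU := IEU_holds
theorem c_IEX : S_IEX := IEX_holds c_IEU c_INM
theorem c_IBE : S_IBE := IBE_holds
theorem c_IA2 : S_IA2 := IA2_holds c_CSP c_IDD c_INM c_IBA c_IEX c_IEU c_IBE
theorem c_IX1 : S_IX1 := IX1_holds c_IDD c_INM c_SOC c_CCD c_EXM c_DQ1 c_DQ3
theorem c_IX2 : S_IX2 := IX2_holds c_CSP c_IDD c_INM c_IBA c_IEX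
theorem c_IX3 : S_IX3 := IX3_holds J4c.c_marks c_IX1 c_IX2 c_IBA c_INM
theorem c_ONT : S_ONT := ONT_holds
theorem c_GEN : S_GEN := GEN_holds c_ONT c_IDD
theorem c_IY1 : S_IY1 := IY1_holds c_IDD c_INM c_GEN c_DQ1
theorem c_IY2 : S_IY2 := IY2_holds c_CSP c_IDD c_INM c_IBA c_IEX
theorem c_IY3 : S_IY3 := IY3_holds J4c.c_marks c_IY1 c_IY2 c_IBA c_IDD c_INM
theorem c_ITH : S_ITH := ITH_holds J4c.c_identity c_IA1 c_IA2 c_IX3 c_IY3 c_IBA c_IDD c_INM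
theorem c_IFD : S_IFD := IFD_holds
theorem c_LNK : S_LNK := LNK_holds c_ITH c_IFD c_CCD c_EXM c_INM
theorem c_CKA : S_CKA := CKA_holds
theorem c_CDA : S_CDA := CDA_holds c_CKA c_TAB
theorem c_CSO : S_CSO := CSO_holds c_DMS c_RPE
theorem c_CLA : S_CLA := CLA_holds c_CDA c_CSO c_TH1 c_PE0
theorem c_NPA : S_NPA := NPA_holds c_LNK c_CKA c_CLA J4c.c_good_A
theorem c_CLB : S_CLB := CLB_holds c_CDA c_CSO c_TH1 c_PE0
theorem c_NPB : S_NPB := NPB_holds c_LNK c_CKA c_CLB J4c.c_good_B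
theorem c_CKD : S_CKD := CKD_holds
theorem c_CDD : S_CDD := CDD_holds c_CKD c_TAB
theorem c_CLC : S_CLC := CLC_holds c_CDD c_CSO c_TH1 c_CLA
theorem c_NPC : S_NPC := NPC_holds c_LNK c_CKD c_CLC J4c.c_good_C
theorem c_CLD : S_CLD := CLD_holds c_CDD c_CSO c_TH1 c_CLA
theorem c_NPD : S_NPD := NPD_holds c_LNK c_CKD c_CLD J4c.c_good_D

end Pool.Agent.Lib.MP_4c1f79_al
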