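import Mathlib

/-!
# MP_4c1f79_al : modules over a mesh quiver with a Frobenius map (definitions)

Paper proof: note on MP_4c1f79_al (COMPLETE PAPER PROOF, helper42). All statements about these
definitions are in `StmA.lean`, `StmB.lean`, ...
-/

set_option autoImplicit false

namespace Pool.Agent.Lib.MP_4c1f79_al

open Finset Module

/-- A mesh quiver on the set of positions `P`: arrows `Ar p q` go one level down, `Tau p r` means
`r = τ p` (two levels down), and the arrows out of `p` correspond to the arrows into `τ p`. -/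
structure Mesh (P : Type) where
  Ar : P → P → Prop
  Tau : P → P → Prop
  lv : P → ℕ
  lv_ar : ∀ p q, Ar p q → lv p = lv q + 1
  lv_tau : ∀ p r, Tau p r → lv p = lv r + 2
  tau_fun : ∀ p r r', Tau p r → Tau p r' → r = r'
  tau_inj : ∀ p p' r, Tau p r → Tau p' r → p = p'
  mesh_ar : ∀ p r q, Tau p r → (Ar p q ↔ Ar q r)

/-- The permutation `s` of the positions is a symmetry of the mesh quiver. -/
structure Sym {P : Type} (M : Mesh P) (s : Equiv.Perm P) : Prop where
  ar : ∀ p q, M.Ar (s p) (s q) ↔ M.Ar p q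
  tau : ∀ p q, M.Tau (s p) (s q) ↔ M.Tau p q
  lv : ∀ p, M.lv (s p) = M.lv p

/-- A Frobenius datum: a finite field `K` with an automorphism `φ` with `φ ^ r = 1`, whose fixed
field has `q` elements, and `|K| = q ^ r`. -/
structure Fd (K : Type) [Field K] where
  φ : K ≃+* K
  r : ℕ
  q : ℕ
  r_pos : 0 < r
  q_gt : 1 < q
  φ_r : ∀ c : K, (⇑φ)^[r] c = c
  card_fix : Nat.card {c : K // φ c = c} = q
  card_K : Nat.card K = q ^ r

/-- A representation of the mesh quiver over `K`: total space `T`, idempotents `e p`, and one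
operator `a` which is the sum of all arrow maps. -/
structure Rp {P : Type} [Fintype P] (M : Mesh P) (K : Type) [Field K] where
  T : Type
  [ac : AddCommGroup T]
  [md : Module K T]
  [fn : Finite T]
  e : P → T →ₗ[K] T
  a : T →ₗ[K] T
  e_e : ∀ p x, e p (e p x) = e p x
  e_ne : ∀ p q x, p ≠ q → e p (e q x) = 0
  e_sum : ∀ x, ∑ p, e p x = x
  a_ar : ∀ p q x, ¬ M.Ar p q → e q (a (e p x)) = 0
  mesh : ∀ p r x, M.Tau p r → e r (a (a (e p x))) = 0

attribute [instance] Rp.ac Rp.md Rp.fn

/-- An `F`-module: a representation with a semilinear map `F` which moves the positions by `s`. -/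
structure FM {P : Type} [Fintype P] (M : Mesh P) (s : Equiv.Perm P) (K : Type) [Field K]
    (D : Fd K) extends Rp M K where
  F : T →ₛₗ[(D.φ : K →+* K)] T
  F_e : ∀ p x, F (e p x) = e (s p) (F x)
  F_a : ∀ x, F (a x) = a (F x)
  F_r : ∀ x, (⇑F)^[D.r] x = x

variable {P : Type} [Fintype P] {M : Mesh P} {s : Equiv.Perm P} {K : Type} [Field K] {D : Fd K}

namespace Rp

/-- Subrepresentations. -/
def St (R : Rp M K) (W : Submodule K R.T) : Prop :=
  (∀ p, ∀ x ∈ W, R.e p x ∈ W) ∧ ∀ x ∈ W, R.a x ∈ W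

/-- Dimension vector of a graded subspace. -/
noncomputable def dmS (R : Rp M K) (W : Submodule K R.T) (p : P) : ℕ := finrank K (W.map (R.e p))

/-- Dimension vector. -/
noncomputable def dm (R : Rp M K) (p : P) : ℕ := finrank K (LinearMap.range (R.e p))

/-- Socle type: `sc R p` is the dimension of the space of the elements at `p` killed by `a`. -/
noncomputable def sc (R : Rp M K) (p : P) : ℕ :=
  finrank K (LinearMap.range (R.e p) ⊓ LinearMap.ker R.a : Submodule K R.T)

/-- Goodness at the position `p`: every family `y` on the successors of `p` with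
`e (τ p) (a y) = 0` is of the form `a x` with `x` at `p`. -/
def GoodAt (R : Rp M K) (p : P) : Prop :=
  ∀ y : R.T, (∀ q, ¬ M.Ar p q → R.e q y = 0) → (∀ r, M.Tau p r → R.e r (R.a y) = 0) →
    ∃ x, R.e p x = x ∧ R.a x = y

/-- Good over the window `U`. -/
def Good (R : Rp M K) (U : Set P) : Prop :=
  (∀ p, p ∉ U → ∀ x, R.e p x = 0) ∧ ∀ p ∈ U, R.GoodAt p

/-- The subrepresentation on a stable subspace. -/
def sub (R : Rp M K) (W : Submodule K R.T) (h : R.St W) : Rp M K where
  T := W
  e p := (R.e p).restrict (h.1 p)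
  a := R.a.restrict h.2
  e_e p x := Subtype.ext (R.e_e p x)
  e_ne p q x hpq := Subtype.ext (R.e_ne p q x hpq)
  e_sum x := by
    apply Subtype.ext
    rw [AddSubmonoidClass.coe_finsetSum]
    exact R.e_sum x
  a_ar p q x hpq := Subtype.ext (R.a_ar p q x hpq)
  mesh p r x hpr := Subtype.ext (R.mesh p r x hpr)

/-- The quotient by a stable subspace. -/
def quo (R : Rp M K) (W : Submodule K R.T) (h : R.St W) : Rp M K where
  T := R.T ⧸ W
  fn := Finite.of_surjective W.mkQ W.mkQ_surjective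
  e p := W.mapQ W (R.e p) (fun x hx => h.1 p x hx)
  a := W.mapQ W R.a (fun x hx => h.2 x hx)
  e_e p x := by
    obtain ⟨x, rfl⟩ := W.mkQ_surjective x
    simp [R.e_e]
  e_ne p q x hpq := by
    obtain ⟨x, rfl⟩ := W.mkQ_surjective x
    simp [R.e_ne p q x hpq]
  e_sum x := by
    obtain ⟨x, rfl⟩ := W.mkQ_surjective x
    have h1 : W.mkQ (∑ p, R.e p x) = W.mkQ x := congrArg _ (R.e_sum x)
    rw [map_sum] at h1
    exact h1
  a_ar p q x hpq := by
    obtain ⟨x, rfl⟩ := W.mkQ_surjective x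
    simp [R.a_ar p q x hpq]
  mesh p r x hpr := by
    obtain ⟨x, rfl⟩ := W.mkQ_surjective x
    simp [R.mesh p r x hpr]

/-- Direct sum. -/
def prod (R₁ R₂ : Rp M K) : Rp M K where
  T := R₁.T × R₂.T
  e p := (R₁.e p).prodMap (R₂.e p)
  a := R₁.a.prodMap R₂.a
  e_e p x := by simp [R₁.e_e, R₂.e_e]
  e_ne p q x hpq := by simp [R₁.e_ne p q _ hpq, R₂.e_ne p q _ hpq]
  e_sum x := by
    ext
    · simp [Prod.fst_sum, R₁.e_sum]
    · simp [Prod.snd_sum, R₂.e_sum]
  a_ar p q x hpq := by simp [R₁.a_ar p q _ hpq, R₂.a_ar p q _ hpq]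
  mesh p r x hpr := by simp [R₁.mesh p r _ hpr, R₂.mesh p r _ hpr]

/-- Morphisms of representations. -/
def Hm (X Y : Rp M K) : Submodule K (X.T →ₗ[K] Y.T) where
  carrier := {f | (∀ p x, f (X.e p x) = Y.e p (f x)) ∧ ∀ x, f (X.a x) = Y.a (f x)}
  zero_mem' := ⟨fun p x => by simp, fun x => by simp⟩
  add_mem' := fun {f g} hf hg => ⟨fun p x => by simp [hf.1 p x, hg.1 p x],
    fun x => by simp [hf.2 x, hg.2 x]⟩
  smul_mem' := fun c f hf => ⟨fun p x => by simp [hf.1 p x], fun x => by simp [hf.2 x]⟩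

end Rp

namespace FM

/-- `F`-stable subrepresentations (subs). -/
def St (N : FM M s K D) (W : Submodule K N.T) : Prop :=
  N.toRp.St W ∧ ∀ x ∈ W, N.F x ∈ W

/-- The number of subs with dimension vector `d`. -/
noncomputable def cnt (N : FM M s K D) (d : P → ℕ) : ℕ :=
  Nat.card {W : Submodule K N.T // N.St W ∧ ∀ p, N.toRp.dmS W p = d p}

/-- Good over `U` of type `m`. -/
def GT (N : FM M s K D) (U : Set P) (m : P → ℕ) : Prop :=
  N.toRp.Good U ∧ ∀ p, N.toRp.sc p = m p

theorem iter_coe {T : Type} [AddCommGroup T] [Module K T] {W : Submodule K T} (F : T → T)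
    (h : ∀ x ∈ W, F x ∈ W) (n : ℕ) (x : W) :
    (((fun y : W => (⟨F y.1, h y.1 y.2⟩ : W))^[n] x : W) : T) = F^[n] x.1 := by
  induction n generalizing x with
  | zero => rfl
  | succ n ih => rw [Function.iterate_succ_apply, Function.iterate_succ_apply, ih]

/-- The sub on an `F`-stable subspace. -/
def sub (N : FM M s K D) (W : Submodule K N.T) (h : N.St W) : FM M s K D where
  toRp := N.toRp.sub W h.1
  F :=
    { toFun := fun x => ⟨N.F x.1, h.2 x.1 x.2⟩
      map_smul' := fun c x => Subtype.ext (N.F.map_smulₛₗ c x.1)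
      map_add' := fun x y => Subtype.ext (map_add N.F x.1 y.1) }
  F_e p x := Subtype.ext (N.F_e p x.1)
  F_a x := Subtype.ext (N.F_a x.1)
  F_r x := Subtype.ext ((iter_coe (⇑N.F) h.2 D.r x).trans (N.F_r x.1))

/-- The quotient by an `F`-stable subspace. -/
def quo (N : FM M s K D) (W : Submodule K N.T) (h : N.St W) : FM M s K D where
  toRp := N.toRp.quo W h.1
  F := W.mapQ W N.F (fun x hx => h.2 x hx)
  F_e p x := by
    obtain ⟨x, rfl⟩ := Submodule.mkQ_surjective (p := W) x
    exact congrArg (W.mkQ) (N.F_e p x)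
  F_a x := by
    obtain ⟨x, rfl⟩ := Submodule.mkQ_surjective (p := W) x
    exact congrArg (W.mkQ) (N.F_a x)
  F_r x := by
    obtain ⟨x, rfl⟩ := Submodule.mkQ_surjective (p := W) x
    have key : ∀ n : ℕ, ∀ y : N.T,
        (⇑(W.mapQ W N.F (fun x hx => h.2 x hx)))^[n] (W.mkQ y) = W.mkQ ((⇑N.F)^[n] y) := by
      intro n
      induction n with
      | zero => intro y; rfl
      | succ n ih =>
        intro y
        rw [Function.iterate_succ_apply, Function.iterate_succ_apply]
        exact ih (N.F y)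
    exact (key D.r x).trans (congrArg _ (N.F_r x))

/-- Direct sum. -/
def prod (N₁ N₂ : FM M s K D) : FM M s K D where
  toRp := N₁.toRp.prod N₂.toRp
  F :=
    { toFun := fun x => (N₁.F x.1, N₂.F x.2)
      map_smul' := fun c x => Prod.ext (N₁.F.map_smulₛₗ c x.1) (N₂.F.map_smulₛₗ c x.2)
      map_add' := fun x y => Prod.ext (map_add N₁.F x.1 y.1) (map_add N₂.F x.2 y.2) }
  F_e p x := Prod.ext (N₁.F_e p x.1) (N₂.F_e p x.2)
  F_a x := Prod.ext (N₁.F_a x.1) (N₂.F_a x.2)
  F_r x := by
    have key : ∀ n : ℕ, ∀ y : N₁.T × N₂.T,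
        (fun x : N₁.T × N₂.T => (N₁.F x.1, N₂.F x.2))^[n] y
          = ((⇑N₁.F)^[n] y.1, (⇑N₂.F)^[n] y.2) := by
      intro n
      induction n with
      | zero => intro y; rfl
      | succ n ih =>
        intro y
        rw [Function.iterate_succ_apply, ih]
        rfl
    exact (key D.r x).trans (Prod.ext (N₁.F_r x.1) (N₂.F_r x.2))

/-- Morphisms of `F`-modules. -/
def HmF (X Y : FM M s K D) : Set (X.T →ₗ[K] Y.T) :=
  {f | f ∈ Rp.Hm X.toRp Y.toRp ∧ ∀ x, f (X.F x) = Y.F (f x)}

/-- Isomorphic `F`-modules. -/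
def Iso (X Y : FM M s K D) : Prop := ∃ f ∈ HmF X Y, Function.Bijective f

/-- The sub generated by `B`. -/
def gen (N : FM M s K D) (B : Submodule K N.T) : Submodule K N.T :=
  sInf {W | N.St W ∧ B ≤ W}

end FM

open Classical in
/-- The finite set of all vectors `≤ d`. -/
noncomputable def box (d : P → ℕ) : Finset (P → ℕ) := Fintype.piFinset fun p => range (d p + 1)

theorem mem_box {d x : P → ℕ} : x ∈ box d ↔ x ≤ d := by
  classical
  simp [box, Pi.le_def, Nat.lt_succ_iff]

open Classical in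
/-- The Euler form of the mesh quiver. -/
noncomputable def eul (M : Mesh P) (x y : P → ℤ) : ℤ :=
  ∑ p, x p * y p - ∑ p, ∑ q, (if M.Ar p q then x p * y q else 0)
    + ∑ p, ∑ r, (if M.Tau p r then x p * y r else 0)

/-- `eul` on natural vectors. -/
noncomputable def eulN (M : Mesh P) (x y : P → ℕ) : ℤ :=
  eul M (fun p => (x p : ℤ)) (fun p => (y p : ℤ))

/-- The concrete mesh quiver on `V × Fin L` of a graph with symmetric adjacency `adj`: arrows
`(v, k+1) → (w, k)` for `adj v w`, and `τ (v, k+2) = (v, k)`. -/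
def grid {V : Type} (adj : V → V → Prop) (hs : ∀ v w, adj v w → adj w v) (L : ℕ) :
    Mesh (V × Fin L) where
  Ar p q := adj p.1 q.1 ∧ (p.2 : ℕ) = q.2 + 1
  Tau p r := p.1 = r.1 ∧ (p.2 : ℕ) = r.2 + 2
  lv p := p.2
  lv_ar _ _ h := h.2
  lv_tau _ _ h := h.2
  tau_fun p r r' h h' := Prod.ext (h.1.symm.trans h'.1) (Fin.ext (by omega))
  tau_inj p p' r h h' := Prod.ext (h.1.trans h'.1.symm) (Fin.ext (by omega))
  mesh_ar p r q h := by
    constructor
    · rintro ⟨h1, h2⟩
      exact ⟨h.1 ▸ hs _ _ h1, by omega⟩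
    · rintro ⟨h1, h2⟩
      exact ⟨h.1 ▸ hs _ _ h1, by omega⟩

/-- The permutation of the positions given by a permutation of the vertices. -/
def gperm {V : Type} (σ : Equiv.Perm V) (L : ℕ) : Equiv.Perm (V × Fin L) :=
  σ.prodCongr (Equiv.refl _)

theorem grid_sym {V : Type} (adj : V → V → Prop) (hs : ∀ v w, adj v w → adj w v) (L : ℕ)
    (σ : Equiv.Perm V) (h : ∀ v w, adj (σ v) (σ w) ↔ adj v w) :
    Sym (grid adj hs L) (gperm σ L) where
  ar p q := by simp [grid, gperm, h]
  tau p q := by simp [grid, gperm]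
  lv p := by simp [grid, gperm]

end Pool.Agent.Lib.MP_4c1f79_al
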