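import Pool.Agent.Lib.MP_4c1f79_al.P.P_DQ1
import Pool.Agent.Lib.MP_4c1f79_al.P.P_DQ2
import Pool.Agent.Lib.MP_4c1f79_al.P.P_DQ3
import Pool.Agent.Lib.MP_4c1f79_al.P.P_BND
import Pool.Agent.Lib.MP_4c1f79_al.P.P_BRK
import Pool.Agent.Lib.MP_4c1f79_al.P.P_DIM
import Pool.Agent.Lib.MP_4c1f79_al.P.P_TAB
import Pool.Agent.Lib.MP_4c1f79_al.P.P_TBB
import Pool.Agent.Lib.MP_4c1f79_al.P.P_TBM
import Pool.Agent.Lib.MP_4c1f79_al.P.P_FD1
import Pool.Agent.Lib.MP_4c1f79_al.P.P_FD2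
import Pool.Agent.Lib.MP_4c1f79_al.P.P_FD3
import Pool.Agent.Lib.MP_4c1f79_al.P.P_FW1
import Pool.Agent.Lib.MP_4c1f79_al.P.P_FW2
import Pool.Agent.Lib.MP_4c1f79_al.P.P_FGR
import Pool.Agent.Lib.MP_4c1f79_al.P.P_NO1
import Pool.Agent.Lib.MP_4c1f79_al.P.P_FPT
import Pool.Agent.Lib.MP_4c1f79_al.P.P_FQM
import Pool.Agent.Lib.MP_4c1f79_al.P.P_FNV
import Pool.Agent.Lib.MP_4c1f79_al.P.P_FTY
import Pool.Agent.Lib.MP_4c1f79_al.P.P_FS0
import Pool.Agent.Lib.MP_4c1f79_al.P.P_GC1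
import Pool.Agent.Lib.MP_4c1f79_al.P.P_PE0
import Pool.Agent.Lib.MP_4c1f79_al.P.P_FAL
import Pool.Agent.Lib.MP_4c1f79_al.P.P_F4D

/-! MP_4c1f79_al : the block for type F4, assembled. -/

set_option autoImplicit false

namespace Pool.Agent.Lib.MP_4c1f79_al

/-- Positivity for the orbit `{(1, 0), (3, 0)}` over the full window of E6 with the reflection,
given positivity over the rows `1, 2, 3, 5`. -/
theorem F4_pos (hRST : S_RST) (hTHN : S_THN) (hTH1 : S_TH1) (hPEM : S_PEM) (hMON : S_MON)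
    (hRPE : S_RPE) (hDMS : S_DMS) (hEMB : S_EMB) (hCCD : S_CCD) (hCOA : S_COA) :
    PosC MF sF 2 U4F → PosT MF sF 2 Set.univ (ind bF) := by
  have hTBB := TBB_holds (TAB_holds BRK_holds DIM_holds BND_holds DQ3_holds) BND_holds
  have hTBM := TBM_holds hTBB hRPE hDMS
  have hFD1 := FD1_holds hTBM
  have hFD2 := FD2_holds hTBM hMON hRPE DQ3_holds
  have hFGR := FGR_holds DQ1_holds
  have hFNV := FNV_holds FQM_holds hEMB hFD1 DQ1_holds GC1_holds hFGR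
  have hFPT := FPT_holds hFGR NO1_holds DQ1_holds hFD1
  exact F_holds (FW2_holds hTHN hFD1 (FW1_holds hTH1 hTHN hPEM hFD2) DQ1_holds)
    (FS0_holds hRST hCCD hCOA (FD3_holds hTBB) hFNV hFPT hFGR FTY_holds)

/-- Positivity for all types over the full window of E6 with the reflection whose support on the
rows `1, 3` is at level `0`. -/
theorem F4_final (hRST : S_RST) (hTHN : S_THN) (hTH1 : S_TH1) (hPEM : S_PEM) (hMON : S_MON)
    (hRPE : S_RPE) (hDMS : S_DMS) (hEMB : S_EMB) (hCCD : S_CCD) (hCOA : S_COA)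
    (m : Fin 6 × Fin 12 → ℕ) (hm : ∀ p, (p.1 = 1 ∨ p.1 = 3) → p.2 ≠ 0 → m p = 0) :
    PosT MF sF 2 Set.univ m := by
  have hTBB := TBB_holds (TAB_holds BRK_holds DIM_holds BND_holds DQ3_holds) BND_holds
  have hTBM := TBM_holds hTBB hRPE hDMS
  have hU4 := F4_U4 hTH1 PE0_holds hTBM
  exact F4_all hTHN hPEM hTBM hU4
    (F4_pos hRST hTHN hTH1 hPEM hMON hRPE hDMS hEMB hCCD hCOA hU4) m hm

end Pool.Agent.Lib.MP_4c1f79_al
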