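import Pool.Agent.Lib.MP_4c1f79_al.MainBase
import Pool.Agent.Lib.MP_4c1f79_al.MainF

/-! MP_4c1f79_al : the block for type F4, without hypotheses. -/

set_option autoImplicit false

namespace Pool.Agent.Lib.MP_4c1f79_al

/-- Positivity for all types over the full window of E6 with the reflection whose support on the
rows `1, 3` is at level `0`. -/
theorem F4_done (m : Fin 6 × Fin 12 → ℕ) (hm : ∀ p, (p.1 = 1 ∨ p.1 = 3) → p.2 ≠ 0 → m p = 0) :
    PosT MF sF 2 Set.univ m :=
  F4_final base_RST base_THN base_TH1 base_PEM base_MON base_RPE base_DMS base_EMB base_CCD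
    base_COA m hm

end Pool.Agent.Lib.MP_4c1f79_al
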