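import Pool.Agent.Lib.MP_4c1f79_al.Core

/-!
# MP_4c1f79_al : the graph of type E8 (and its subgraphs), table format
-/

set_option autoImplicit false

namespace Pool.Agent.Lib.MP_4c1f79_al

/-- The graph E8 on `Fin 8`: the path `0 - 1 - 2 - 3 - 4 - 5 - 6` and the edge `2 - 7`. -/
def eB (v w : Fin 8) : Bool :=
  (v.1 + 1 == w.1 && w.1 ≤ 6) || (w.1 + 1 == v.1 && v.1 ≤ 6) || (v.1 == 2 && w.1 == 7)
    || (v.1 == 7 && w.1 == 2)

theorem eB_symm : ∀ v w, eB v w = true → eB w v = true := by decide

/-- The mesh quiver of E8 with levels `0, …, 29`. -/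
def M8 : Mesh (Fin 8 × Fin 30) := grid (fun v w => eB v w = true) eB_symm 30

/-- The trivial permutation of the positions. -/
def s8 : Equiv.Perm (Fin 8 × Fin 30) := gperm (Equiv.refl (Fin 8)) 30

/-- The rows `0, …, 5, 7` (type E7). -/
def U7 : Set (Fin 8 × Fin 30) := {p | p.1 ≠ 6}

/-- A window of the grid on `Fin n × Fin L` given by a Boolean function. -/
def winB {n L : ℕ} (U : Fin n → ℕ → Bool) : Set (Fin n × Fin L) := {p | U p.1 p.2 = true}

/-- Entry of a table (list of rows; the row of level `k` is the `k`-th list). -/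
def tval (T : List (List ℕ)) (v k : ℕ) : ℕ := (T.getD k []).getD v 0

/-- Sum of the entries at the neighbours of `v` in row `k`. -/
def nsum {n : ℕ} (adj : Fin n → Fin n → Bool) (T : List (List ℕ)) (v : Fin n) (k : ℕ) : ℕ :=
  ((List.finRange n).map fun w => if adj v w then tval T w k else 0).sum

/-- The table `T` satisfies the hypotheses of the table theorem for the window `U`, the socle at
`(v₀, l₀)`, and all levels `≤ k₀`. -/
def okT {n : ℕ} (adj : Fin n → Fin n → Bool) (U : Fin n → ℕ → Bool) (T : List (List ℕ))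
    (v₀ : Fin n) (l₀ k₀ : ℕ) : Bool :=
  U v₀ l₀ &&
  (List.range (k₀ + 1)).all fun k => (List.finRange n).all fun v =>
    if k < l₀ then tval T v k == 0
    else if k = l₀ then tval T v k == (if v = v₀ then 1 else 0)
    else if U v k = false then tval T v k == 0
    else
      (tval T v k + (if 2 ≤ k ∧ U v (k - 2) = true then tval T v (k - 2) else 0)
        == nsum adj T v (k - 1))
      || (tval T v k == 0 && (List.finRange n).all fun w => tval T w (k - 1) == 0)

/-- The window has no upper cut up to level `k₀`. -/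
def ncT {n : ℕ} (U : Fin n → ℕ → Bool) (k₀ : ℕ) : Bool :=
  (List.range (k₀ + 1)).all fun k => (List.finRange n).all fun v =>
    !(U v k && k + 2 ≤ k₀) || U v (k + 2)

end Pool.Agent.Lib.MP_4c1f79_al
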