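import Pool.Agent.Lib.MP_4c1f79_al.StmI
import Pool.Agent.Lib.MP_4c1f79_al.Graphs

/-! MP_4c1f79_al : the dimension tables of D4, E6, E7, E8 (all levels `0, …, h - 1`). -/

set_option autoImplicit false

namespace Pool.Agent.Lib.MP_4c1f79_al

/-- Boolean check of the table conditions of the structure `Dt`. -/
def okG {n : ℕ} (L : ℕ) (adj : Fin n → Fin n → Bool) (T : Fin n → List (List ℕ))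
    (st : Fin n → Fin n) : Bool :=
  (List.finRange n).all fun v => (List.finRange n).all fun w =>
    (((((tval (T v) w 0 == if w = v then 1 else 0) && (tval (T v) w 1 == if adj w v then 1 else 0))
    && (tval (T v) w (L - 2) == if w = st v then 1 else 0)) && (tval (T v) w (L - 1) == 0))
    && (List.range (L - 2)).all fun k =>
      tval (T v) w (k + 2) + tval (T v) w k == nsum adj (T v) w (k + 1))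

theorem okG_all {n L : ℕ} {adj : Fin n → Fin n → Bool} {T : Fin n → List (List ℕ)}
    {st : Fin n → Fin n} (h : okG L adj T st = true) (v w : Fin n) :
    (tval (T v) w 0 = if w = v then 1 else 0) ∧
    (tval (T v) w 1 = if adj w v = true then 1 else 0) ∧
    (tval (T v) w (L - 2) = if w = st v then 1 else 0) ∧ (tval (T v) w (L - 1) = 0) ∧
    (∀ k, k + 2 < L → tval (T v) w (k + 2) + tval (T v) w k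
      = ∑ u, if adj w u = true then tval (T v) u (k + 1) else 0) := by
  unfold okG at h
  rw [List.all_eq_true] at h
  have h1 := h v (List.mem_finRange v)
  rw [List.all_eq_true] at h1
  have h2 := h1 w (List.mem_finRange w)
  simp only [Bool.and_eq_true, beq_iff_eq, List.all_eq_true, List.mem_range] at h2
  obtain ⟨⟨⟨⟨a1, a2⟩, a3⟩, a4⟩, a5⟩ := h2
  refine ⟨a1, a2, a3, a4, fun k hk => ?_⟩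
  rw [a5 k (by omega)]
  unfold nsum
  rw [Fin.sum_univ_def]

/-- Tables of D4. -/
def TG4 : Fin 4 → List (List ℕ)
  | 0 => [[1, 0, 0, 0],
    [0, 0, 0, 1],
    [0, 1, 1, 0],
    [0, 0, 0, 1],
    [1, 0, 0, 0],
    [0, 0, 0, 0]]
  | 1 => [[0, 1, 0, 0],
    [0, 0, 0, 1],
    [1, 0, 1, 0],
    [0, 0, 0, 1],
    [0, 1, 0, 0],
    [0, 0, 0, 0]]
  | 2 => [[0, 0, 1, 0],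
    [0, 0, 0, 1],
    [1, 1, 0, 0],
    [0, 0, 0, 1],
    [0, 0, 1, 0],
    [0, 0, 0, 0]]
  | 3 => [[0, 0, 0, 1],
    [1, 1, 1, 0],
    [0, 0, 0, 2],
    [1, 1, 1, 0],
    [0, 0, 0, 1],
    [0, 0, 0, 0]]

/-- Tables of E6. -/
def TE6 : Fin 6 → List (List ℕ)
  | 0 => [[1, 0, 0, 0, 0, 0],
    [0, 1, 0, 0, 0, 0],
    [0, 0, 1, 0, 0, 0],
    [0, 0, 0, 1, 0, 1],
    [0, 0, 1, 0, 1, 0],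
    [0, 1, 0, 1, 0, 0],
    [1, 0, 1, 0, 0, 0],
    [0, 1, 0, 0, 0, 1],
    [0, 0, 1, 0, 0, 0],
    [0, 0, 0, 1, 0, 0],
    [0, 0, 0, 0, 1, 0],
    [0, 0, 0, 0, 0, 0]]
  | 1 => [[0, 1, 0, 0, 0, 0],
    [1, 0, 1, 0, 0, 0],
    [0, 1, 0, 1, 0, 1],
    [0, 0, 2, 0, 1, 0],
    [0, 1, 0, 2, 0, 1],
    [1, 0, 2, 0, 1, 0],
    [0, 2, 0, 1, 0, 1],
    [1, 0, 2, 0, 0, 0],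
    [0, 1, 0, 1, 0, 1],
    [0, 0, 1, 0, 1, 0],
    [0, 0, 0, 1, 0, 0],
    [0, 0, 0, 0, 0, 0]]
  | 2 => [[0, 0, 1, 0, 0, 0],
    [0, 1, 0, 1, 0, 1],
    [1, 0, 2, 0, 1, 0],
    [0, 2, 0, 2, 0, 1],
    [1, 0, 3, 0, 1, 0],
    [0, 2, 0, 2, 0, 2],
    [1, 0, 3, 0, 1, 0],
    [0, 2, 0, 2, 0, 1],
    [1, 0, 2, 0, 1, 0],
    [0, 1, 0, 1, 0, 1],
    [0, 0, 1, 0, 0, 0],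
    [0, 0, 0, 0, 0, 0]]
  | 3 => [[0, 0, 0, 1, 0, 0],
    [0, 0, 1, 0, 1, 0],
    [0, 1, 0, 1, 0, 1],
    [1, 0, 2, 0, 0, 0],
    [0, 2, 0, 1, 0, 1],
    [1, 0, 2, 0, 1, 0],
    [0, 1, 0, 2, 0, 1],
    [0, 0, 2, 0, 1, 0],
    [0, 1, 0, 1, 0, 1],
    [1, 0, 1, 0, 0, 0],
    [0, 1, 0, 0, 0, 0],
    [0, 0, 0, 0, 0, 0]]
  | 4 => [[0, 0, 0, 0, 1, 0],
    [0, 0, 0, 1, 0, 0],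
    [0, 0, 1, 0, 0, 0],
    [0, 1, 0, 0, 0, 1],
    [1, 0, 1, 0, 0, 0],
    [0, 1, 0, 1, 0, 0],
    [0, 0, 1, 0, 1, 0],
    [0, 0, 0, 1, 0, 1],
    [0, 0, 1, 0, 0, 0],
    [0, 1, 0, 0, 0, 0],
    [1, 0, 0, 0, 0, 0],
    [0, 0, 0, 0, 0, 0]]
  | 5 => [[0, 0, 0, 0, 0, 1],
    [0, 0, 1, 0, 0, 0],
    [0, 1, 0, 1, 0, 0],
    [1, 0, 1, 0, 1, 0],
    [0, 1, 0, 1, 0, 1],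
    [0, 0, 2, 0, 0, 0],
    [0, 1, 0, 1, 0, 1],
    [1, 0, 1, 0, 1, 0],
    [0, 1, 0, 1, 0, 0],
    [0, 0, 1, 0, 0, 0],
    [0, 0, 0, 0, 0, 1],
    [0, 0, 0, 0, 0, 0]]

/-- Tables of E7. -/
def TE7 : Fin 7 → List (List ℕ)
  | 0 => [[1, 0, 0, 0, 0, 0, 0],
    [0, 1, 0, 0, 0, 0, 0],
    [0, 0, 1, 0, 0, 0, 0],
    [0, 0, 0, 1, 0, 0, 1],
    [0, 0, 1, 0, 1, 0, 0],
    [0, 1, 0, 1, 0, 1, 0],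
    [1, 0, 1, 0, 1, 0, 0],
    [0, 1, 0, 1, 0, 0, 1],
    [0, 0, 2, 0, 0, 0, 0],
    [0, 1, 0, 1, 0, 0, 1],
    [1, 0, 1, 0, 1, 0, 0],
    [0, 1, 0, 1, 0, 1, 0],
    [0, 0, 1, 0, 1, 0, 0],
    [0, 0, 0, 1, 0, 0, 1],
    [0, 0, 1, 0, 0, 0, 0],
    [0, 1, 0, 0, 0, 0, 0],
    [1, 0, 0, 0, 0, 0, 0],
    [0, 0, 0, 0, 0, 0, 0]]
  | 1 => [[0, 1, 0, 0, 0, 0, 0],
    [1, 0, 1, 0, 0, 0, 0],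
    [0, 1, 0, 1, 0, 0, 1],
    [0, 0, 2, 0, 1, 0, 0],
    [0, 1, 0, 2, 0, 1, 1],
    [1, 0, 2, 0, 2, 0, 0],
    [0, 2, 0, 2, 0, 1, 1],
    [1, 0, 3, 0, 1, 0, 0],
    [0, 2, 0, 2, 0, 0, 2],
    [1, 0, 3, 0, 1, 0, 0],
    [0, 2, 0, 2, 0, 1, 1],
    [1, 0, 2, 0, 2, 0, 0],
    [0, 1, 0, 2, 0, 1, 1],
    [0, 0, 2, 0, 1, 0, 0],
    [0, 1, 0, 1, 0, 0, 1],
    [1, 0, 1, 0, 0, 0, 0],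
    [0, 1, 0, 0, 0, 0, 0],
    [0, 0, 0, 0, 0, 0, 0]]
  | 2 => [[0, 0, 1, 0, 0, 0, 0],
    [0, 1, 0, 1, 0, 0, 1],
    [1, 0, 2, 0, 1, 0, 0],
    [0, 2, 0, 2, 0, 1, 1],
    [1, 0, 3, 0, 2, 0, 0],
    [0, 2, 0, 3, 0, 1, 2],
    [1, 0, 4, 0, 2, 0, 0],
    [0, 3, 0, 3, 0, 1, 2],
    [2, 0, 4, 0, 2, 0, 0],
    [0, 3, 0, 3, 0, 1, 2],
    [1, 0, 4, 0, 2, 0, 0],
    [0, 2, 0, 3, 0, 1, 2],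
    [1, 0, 3, 0, 2, 0, 0],
    [0, 2, 0, 2, 0, 1, 1],
    [1, 0, 2, 0, 1, 0, 0],
    [0, 1, 0, 1, 0, 0, 1],
    [0, 0, 1, 0, 0, 0, 0],
    [0, 0, 0, 0, 0, 0, 0]]
  | 3 => [[0, 0, 0, 1, 0, 0, 0],
    [0, 0, 1, 0, 1, 0, 0],
    [0, 1, 0, 1, 0, 1, 1],
    [1, 0, 2, 0, 1, 0, 0],
    [0, 2, 0, 2, 0, 0, 1],
    [1, 0, 3, 0, 1, 0, 0],
    [0, 2, 0, 2, 0, 1, 2],
    [1, 0, 3, 0, 2, 0, 0],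
    [0, 2, 0, 3, 0, 1, 1],
    [1, 0, 3, 0, 2, 0, 0],
    [0, 2, 0, 2, 0, 1, 2],
    [1, 0, 3, 0, 1, 0, 0],
    [0, 2, 0, 2, 0, 0, 1],
    [1, 0, 2, 0, 1, 0, 0],
    [0, 1, 0, 1, 0, 1, 1],
    [0, 0, 1, 0, 1, 0, 0],
    [0, 0, 0, 1, 0, 0, 0],
    [0, 0, 0, 0, 0, 0, 0]]
  | 4 => [[0, 0, 0, 0, 1, 0, 0],
    [0, 0, 0, 1, 0, 1, 0],
    [0, 0, 1, 0, 1, 0, 0],
    [0, 1, 0, 1, 0, 0, 1],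
    [1, 0, 2, 0, 0, 0, 0],
    [0, 2, 0, 1, 0, 0, 1],
    [1, 0, 2, 0, 1, 0, 0],
    [0, 1, 0, 2, 0, 1, 1],
    [0, 0, 2, 0, 2, 0, 0],
    [0, 1, 0, 2, 0, 1, 1],
    [1, 0, 2, 0, 1, 0, 0],
    [0, 2, 0, 1, 0, 0, 1],
    [1, 0, 2, 0, 0, 0, 0],
    [0, 1, 0, 1, 0, 0, 1],
    [0, 0, 1, 0, 1, 0, 0],
    [0, 0, 0, 1, 0, 1, 0],
    [0, 0, 0, 0, 1, 0, 0],
    [0, 0, 0, 0, 0, 0, 0]]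
  | 5 => [[0, 0, 0, 0, 0, 1, 0],
    [0, 0, 0, 0, 1, 0, 0],
    [0, 0, 0, 1, 0, 0, 0],
    [0, 0, 1, 0, 0, 0, 0],
    [0, 1, 0, 0, 0, 0, 1],
    [1, 0, 1, 0, 0, 0, 0],
    [0, 1, 0, 1, 0, 0, 0],
    [0, 0, 1, 0, 1, 0, 0],
    [0, 0, 0, 1, 0, 1, 1],
    [0, 0, 1, 0, 1, 0, 0],
    [0, 1, 0, 1, 0, 0, 0],
    [1, 0, 1, 0, 0, 0, 0],
    [0, 1, 0, 0, 0, 0, 1],
    [0, 0, 1, 0, 0, 0, 0],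
    [0, 0, 0, 1, 0, 0, 0],
    [0, 0, 0, 0, 1, 0, 0],
    [0, 0, 0, 0, 0, 1, 0],
    [0, 0, 0, 0, 0, 0, 0]]
  | 6 => [[0, 0, 0, 0, 0, 0, 1],
    [0, 0, 1, 0, 0, 0, 0],
    [0, 1, 0, 1, 0, 0, 0],
    [1, 0, 1, 0, 1, 0, 0],
    [0, 1, 0, 1, 0, 1, 1],
    [0, 0, 2, 0, 1, 0, 0],
    [0, 1, 0, 2, 0, 0, 1],
    [1, 0, 2, 0, 1, 0, 0],
    [0, 2, 0, 1, 0, 1, 1],
    [1, 0, 2, 0, 1, 0, 0],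
    [0, 1, 0, 2, 0, 0, 1],
    [0, 0, 2, 0, 1, 0, 0],
    [0, 1, 0, 1, 0, 1, 1],
    [1, 0, 1, 0, 1, 0, 0],
    [0, 1, 0, 1, 0, 0, 0],
    [0, 0, 1, 0, 0, 0, 0],
    [0, 0, 0, 0, 0, 0, 1],
    [0, 0, 0, 0, 0, 0, 0]]

/-- Tables of E8. -/
def TE8 : Fin 8 → List (List ℕ)
  | 0 => [[1, 0, 0, 0, 0, 0, 0, 0],
    [0, 1, 0, 0, 0, 0, 0, 0],
    [0, 0, 1, 0, 0, 0, 0, 0],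
    [0, 0, 0, 1, 0, 0, 0, 1],
    [0, 0, 1, 0, 1, 0, 0, 0],
    [0, 1, 0, 1, 0, 1, 0, 0],
    [1, 0, 1, 0, 1, 0, 1, 0],
    [0, 1, 0, 1, 0, 1, 0, 1],
    [0, 0, 2, 0, 1, 0, 0, 0],
    [0, 1, 0, 2, 0, 0, 0, 1],
    [1, 0, 2, 0, 1, 0, 0, 0],
    [0, 2, 0, 1, 0, 1, 0, 1],
    [1, 0, 2, 0, 1, 0, 1, 0],
    [0, 1, 0, 2, 0, 1, 0, 1],
    [0, 0, 2, 0, 2, 0, 0, 0],
    [0, 1, 0, 2, 0, 1, 0, 1],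
    [1, 0, 2, 0, 1, 0, 1, 0],
    [0, 2, 0, 1, 0, 1, 0, 1],
    [1, 0, 2, 0, 1, 0, 0, 0],
    [0, 1, 0, 2, 0, 0, 0, 1],
    [0, 0, 2, 0, 1, 0, 0, 0],
    [0, 1, 0, 1, 0, 1, 0, 1],
    [1, 0, 1, 0, 1, 0, 1, 0],
    [0, 1, 0, 1, 0, 1, 0, 0],
    [0, 0, 1, 0, 1, 0, 0, 0],
    [0, 0, 0, 1, 0, 0, 0, 1],
    [0, 0, 1, 0, 0, 0, 0, 0],
    [0, 1, 0, 0, 0, 0, 0, 0],
    [1, 0, 0, 0, 0, 0, 0, 0],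
    [0, 0, 0, 0, 0, 0, 0, 0]]
  | 1 => [[0, 1, 0, 0, 0, 0, 0, 0],
    [1, 0, 1, 0, 0, 0, 0, 0],
    [0, 1, 0, 1, 0, 0, 0, 1],
    [0, 0, 2, 0, 1, 0, 0, 0],
    [0, 1, 0, 2, 0, 1, 0, 1],
    [1, 0, 2, 0, 2, 0, 1, 0],
    [0, 2, 0, 2, 0, 2, 0, 1],
    [1, 0, 3, 0, 2, 0, 1, 0],
    [0, 2, 0, 3, 0, 1, 0, 2],
    [1, 0, 4, 0, 2, 0, 0, 0],
    [0, 3, 0, 3, 0, 1, 0, 2],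
    [2, 0, 4, 0, 2, 0, 1, 0],
    [0, 3, 0, 3, 0, 2, 0, 2],
    [1, 0, 4, 0, 3, 0, 1, 0],
    [0, 2, 0, 4, 0, 2, 0, 2],
    [1, 0, 4, 0, 3, 0, 1, 0],
    [0, 3, 0, 3, 0, 2, 0, 2],
    [2, 0, 4, 0, 2, 0, 1, 0],
    [0, 3, 0, 3, 0, 1, 0, 2],
    [1, 0, 4, 0, 2, 0, 0, 0],
    [0, 2, 0, 3, 0, 1, 0, 2],
    [1, 0, 3, 0, 2, 0, 1, 0],
    [0, 2, 0, 2, 0, 2, 0, 1],
    [1, 0, 2, 0, 2, 0, 1, 0],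
    [0, 1, 0, 2, 0, 1, 0, 1],
    [0, 0, 2, 0, 1, 0, 0, 0],
    [0, 1, 0, 1, 0, 0, 0, 1],
    [1, 0, 1, 0, 0, 0, 0, 0],
    [0, 1, 0, 0, 0, 0, 0, 0],
    [0, 0, 0, 0, 0, 0, 0, 0]]
  | 2 => [[0, 0, 1, 0, 0, 0, 0, 0],
    [0, 1, 0, 1, 0, 0, 0, 1],
    [1, 0, 2, 0, 1, 0, 0, 0],
    [0, 2, 0, 2, 0, 1, 0, 1],
    [1, 0, 3, 0, 2, 0, 1, 0],
    [0, 2, 0, 3, 0, 2, 0, 2],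
    [1, 0, 4, 0, 3, 0, 1, 0],
    [0, 3, 0, 4, 0, 2, 0, 2],
    [2, 0, 5, 0, 3, 0, 1, 0],
    [0, 4, 0, 4, 0, 2, 0, 3],
    [2, 0, 6, 0, 3, 0, 1, 0],
    [0, 4, 0, 5, 0, 2, 0, 3],
    [2, 0, 6, 0, 4, 0, 1, 0],
    [0, 4, 0, 5, 0, 3, 0, 3],
    [2, 0, 6, 0, 4, 0, 2, 0],
    [0, 4, 0, 5, 0, 3, 0, 3],
    [2, 0, 6, 0, 4, 0, 1, 0],
    [0, 4, 0, 5, 0, 2, 0, 3],
    [2, 0, 6, 0, 3, 0, 1, 0],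
    [0, 4, 0, 4, 0, 2, 0, 3],
    [2, 0, 5, 0, 3, 0, 1, 0],
    [0, 3, 0, 4, 0, 2, 0, 2],
    [1, 0, 4, 0, 3, 0, 1, 0],
    [0, 2, 0, 3, 0, 2, 0, 2],
    [1, 0, 3, 0, 2, 0, 1, 0],
    [0, 2, 0, 2, 0, 1, 0, 1],
    [1, 0, 2, 0, 1, 0, 0, 0],
    [0, 1, 0, 1, 0, 0, 0, 1],
    [0, 0, 1, 0, 0, 0, 0, 0],
    [0, 0, 0, 0, 0, 0, 0, 0]]
  | 3 => [[0, 0, 0, 1, 0, 0, 0, 0],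
    [0, 0, 1, 0, 1, 0, 0, 0],
    [0, 1, 0, 1, 0, 1, 0, 1],
    [1, 0, 2, 0, 1, 0, 1, 0],
    [0, 2, 0, 2, 0, 1, 0, 1],
    [1, 0, 3, 0, 2, 0, 0, 0],
    [0, 2, 0, 3, 0, 1, 0, 2],
    [1, 0, 4, 0, 2, 0, 1, 0],
    [0, 3, 0, 3, 0, 2, 0, 2],
    [2, 0, 4, 0, 3, 0, 1, 0],
    [0, 3, 0, 4, 0, 2, 0, 2],
    [1, 0, 5, 0, 3, 0, 1, 0],
    [0, 3, 0, 4, 0, 2, 0, 3],
    [2, 0, 5, 0, 3, 0, 1, 0],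
    [0, 4, 0, 4, 0, 2, 0, 2],
    [2, 0, 5, 0, 3, 0, 1, 0],
    [0, 3, 0, 4, 0, 2, 0, 3],
    [1, 0, 5, 0, 3, 0, 1, 0],
    [0, 3, 0, 4, 0, 2, 0, 2],
    [2, 0, 4, 0, 3, 0, 1, 0],
    [0, 3, 0, 3, 0, 2, 0, 2],
    [1, 0, 4, 0, 2, 0, 1, 0],
    [0, 2, 0, 3, 0, 1, 0, 2],
    [1, 0, 3, 0, 2, 0, 0, 0],
    [0, 2, 0, 2, 0, 1, 0, 1],
    [1, 0, 2, 0, 1, 0, 1, 0],
    [0, 1, 0, 1, 0, 1, 0, 1],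
    [0, 0, 1, 0, 1, 0, 0, 0],
    [0, 0, 0, 1, 0, 0, 0, 0],
    [0, 0, 0, 0, 0, 0, 0, 0]]
  | 4 => [[0, 0, 0, 0, 1, 0, 0, 0],
    [0, 0, 0, 1, 0, 1, 0, 0],
    [0, 0, 1, 0, 1, 0, 1, 0],
    [0, 1, 0, 1, 0, 1, 0, 1],
    [1, 0, 2, 0, 1, 0, 0, 0],
    [0, 2, 0, 2, 0, 0, 0, 1],
    [1, 0, 3, 0, 1, 0, 0, 0],
    [0, 2, 0, 2, 0, 1, 0, 2],
    [1, 0, 3, 0, 2, 0, 1, 0],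
    [0, 2, 0, 3, 0, 2, 0, 1],
    [1, 0, 3, 0, 3, 0, 1, 0],
    [0, 2, 0, 3, 0, 2, 0, 2],
    [1, 0, 4, 0, 2, 0, 1, 0],
    [0, 3, 0, 3, 0, 1, 0, 2],
    [2, 0, 4, 0, 2, 0, 0, 0],
    [0, 3, 0, 3, 0, 1, 0, 2],
    [1, 0, 4, 0, 2, 0, 1, 0],
    [0, 2, 0, 3, 0, 2, 0, 2],
    [1, 0, 3, 0, 3, 0, 1, 0],
    [0, 2, 0, 3, 0, 2, 0, 1],
    [1, 0, 3, 0, 2, 0, 1, 0],
    [0, 2, 0, 2, 0, 1, 0, 2],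
    [1, 0, 3, 0, 1, 0, 0, 0],
    [0, 2, 0, 2, 0, 0, 0, 1],
    [1, 0, 2, 0, 1, 0, 0, 0],
    [0, 1, 0, 1, 0, 1, 0, 1],
    [0, 0, 1, 0, 1, 0, 1, 0],
    [0, 0, 0, 1, 0, 1, 0, 0],
    [0, 0, 0, 0, 1, 0, 0, 0],
    [0, 0, 0, 0, 0, 0, 0, 0]]
  | 5 => [[0, 0, 0, 0, 0, 1, 0, 0],
    [0, 0, 0, 0, 1, 0, 1, 0],
    [0, 0, 0, 1, 0, 1, 0, 0],
    [0, 0, 1, 0, 1, 0, 0, 0],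
    [0, 1, 0, 1, 0, 0, 0, 1],
    [1, 0, 2, 0, 0, 0, 0, 0],
    [0, 2, 0, 1, 0, 0, 0, 1],
    [1, 0, 2, 0, 1, 0, 0, 0],
    [0, 1, 0, 2, 0, 1, 0, 1],
    [0, 0, 2, 0, 2, 0, 1, 0],
    [0, 1, 0, 2, 0, 2, 0, 1],
    [1, 0, 2, 0, 2, 0, 1, 0],
    [0, 2, 0, 2, 0, 1, 0, 1],
    [1, 0, 3, 0, 1, 0, 0, 0],
    [0, 2, 0, 2, 0, 0, 0, 2],
    [1, 0, 3, 0, 1, 0, 0, 0],
    [0, 2, 0, 2, 0, 1, 0, 1],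
    [1, 0, 2, 0, 2, 0, 1, 0],
    [0, 1, 0, 2, 0, 2, 0, 1],
    [0, 0, 2, 0, 2, 0, 1, 0],
    [0, 1, 0, 2, 0, 1, 0, 1],
    [1, 0, 2, 0, 1, 0, 0, 0],
    [0, 2, 0, 1, 0, 0, 0, 1],
    [1, 0, 2, 0, 0, 0, 0, 0],
    [0, 1, 0, 1, 0, 0, 0, 1],
    [0, 0, 1, 0, 1, 0, 0, 0],
    [0, 0, 0, 1, 0, 1, 0, 0],
    [0, 0, 0, 0, 1, 0, 1, 0],
    [0, 0, 0, 0, 0, 1, 0, 0],
    [0, 0, 0, 0, 0, 0, 0, 0]]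
  | 6 => [[0, 0, 0, 0, 0, 0, 1, 0],
    [0, 0, 0, 0, 0, 1, 0, 0],
    [0, 0, 0, 0, 1, 0, 0, 0],
    [0, 0, 0, 1, 0, 0, 0, 0],
    [0, 0, 1, 0, 0, 0, 0, 0],
    [0, 1, 0, 0, 0, 0, 0, 1],
    [1, 0, 1, 0, 0, 0, 0, 0],
    [0, 1, 0, 1, 0, 0, 0, 0],
    [0, 0, 1, 0, 1, 0, 0, 0],
    [0, 0, 0, 1, 0, 1, 0, 1],
    [0, 0, 1, 0, 1, 0, 1, 0],
    [0, 1, 0, 1, 0, 1, 0, 0],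
    [1, 0, 1, 0, 1, 0, 0, 0],
    [0, 1, 0, 1, 0, 0, 0, 1],
    [0, 0, 2, 0, 0, 0, 0, 0],
    [0, 1, 0, 1, 0, 0, 0, 1],
    [1, 0, 1, 0, 1, 0, 0, 0],
    [0, 1, 0, 1, 0, 1, 0, 0],
    [0, 0, 1, 0, 1, 0, 1, 0],
    [0, 0, 0, 1, 0, 1, 0, 1],
    [0, 0, 1, 0, 1, 0, 0, 0],
    [0, 1, 0, 1, 0, 0, 0, 0],
    [1, 0, 1, 0, 0, 0, 0, 0],
    [0, 1, 0, 0, 0, 0, 0, 1],
    [0, 0, 1, 0, 0, 0, 0, 0],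
    [0, 0, 0, 1, 0, 0, 0, 0],
    [0, 0, 0, 0, 1, 0, 0, 0],
    [0, 0, 0, 0, 0, 1, 0, 0],
    [0, 0, 0, 0, 0, 0, 1, 0],
    [0, 0, 0, 0, 0, 0, 0, 0]]
  | 7 => [[0, 0, 0, 0, 0, 0, 0, 1],
    [0, 0, 1, 0, 0, 0, 0, 0],
    [0, 1, 0, 1, 0, 0, 0, 0],
    [1, 0, 1, 0, 1, 0, 0, 0],
    [0, 1, 0, 1, 0, 1, 0, 1],
    [0, 0, 2, 0, 1, 0, 1, 0],
    [0, 1, 0, 2, 0, 1, 0, 1],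
    [1, 0, 2, 0, 2, 0, 0, 0],
    [0, 2, 0, 2, 0, 1, 0, 1],
    [1, 0, 3, 0, 1, 0, 1, 0],
    [0, 2, 0, 2, 0, 1, 0, 2],
    [1, 0, 3, 0, 2, 0, 0, 0],
    [0, 2, 0, 3, 0, 1, 0, 1],
    [1, 0, 3, 0, 2, 0, 1, 0],
    [0, 2, 0, 2, 0, 2, 0, 2],
    [1, 0, 3, 0, 2, 0, 1, 0],
    [0, 2, 0, 3, 0, 1, 0, 1],
    [1, 0, 3, 0, 2, 0, 0, 0],
    [0, 2, 0, 2, 0, 1, 0, 2],
    [1, 0, 3, 0, 1, 0, 1, 0],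
    [0, 2, 0, 2, 0, 1, 0, 1],
    [1, 0, 2, 0, 2, 0, 0, 0],
    [0, 1, 0, 2, 0, 1, 0, 1],
    [0, 0, 2, 0, 1, 0, 1, 0],
    [0, 1, 0, 1, 0, 1, 0, 1],
    [1, 0, 1, 0, 1, 0, 0, 0],
    [0, 1, 0, 1, 0, 0, 0, 0],
    [0, 0, 1, 0, 0, 0, 0, 0],
    [0, 0, 0, 0, 0, 0, 0, 1],
    [0, 0, 0, 0, 0, 0, 0, 0]]

end Pool.Agent.Lib.MP_4c1f79_al
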