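import Pool.Agent.Lib.MP_4c1f79_al.StmD
import Pool.Agent.Lib.MP_4c1f79_al.Graphs

/-!
# MP_4c1f79_al : statements, part T (tables by computation)
-/

set_option autoImplicit false

namespace Pool.Agent.Lib.MP_4c1f79_al

open Finset Module

/-- [TBB] (uses `S_TAB`, `S_BND`) The table checker (if `l₀ > k₀`, everything is zero by `S_BND`). Proof: `S_TAB` with
`D p = if lv p ≤ k₀ ∧ p ∈ winB U then tval T p.1 p.2 else 0` (above `k₀` no condition is needed,
`k₀ < L`); the Boolean checks are unfolded with `List.all_eq_true`, `List.mem_finRange`,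
`List.mem_range`; `sA`, `sT` of the grid are sums over `Fin n × Fin L` with at most one level. -/
def S_TBB : Prop := ∀ (n L : ℕ) (adj : Fin n → Fin n → Bool)
  (hs : ∀ v w, adj v w = true → adj w v = true) (U : Fin n → ℕ → Bool) (T : List (List ℕ))
  (v₀ : Fin n) (l₀ : Fin L) (k₀ : ℕ), k₀ < L → okT adj U T v₀ l₀ k₀ = true → ncT U k₀ = true →
  ∀ (K : Type) [Field K] (R : Rp (grid (fun v w => adj v w = true) hs L) K),
  R.Good (winB U) → (∀ p, R.sc p = ind {(v₀, l₀)} p) →
  ∀ p : Fin n × Fin L, (p.2 : ℕ) ≤ k₀ → R.dm p = tval T p.1 p.2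

end Pool.Agent.Lib.MP_4c1f79_al
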