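import Pool.Agent.Lib.MP_4c1f79_al.StmE
import Pool.Agent.Lib.MP_4c1f79_al.StmT

/-!
# MP_4c1f79_al : the block for type F4 (the graph E6 with its reflection)

Section 9 of the paper proof. Positions `Fin 6 × Fin 12`: path `0 - 1 - 2 - 3 - 4` and `5`
attached to `2`; the reflection exchanges `0, 4` and `1, 3`. The result is `S_F : PosT MF sF 2
univ (ind bF)` for the orbit `bF = {(1, 0), (3, 0)}`, given `PosC` for the rows `1, 2, 3, 5`
(`U4F`, type D4).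

Main point: if `N` is of type `ind bF`, the subs of `N` whose dimension on the rows `0, 4` is `1` on
the levels `1, 3, 5` and `0` elsewhere are sorted by the line `K x` which they have at `(0, 5)`,
`x = y₁` or `x = c • y₁ + y₃` for a certain basis `y₁, y₃` of `N(0, 5)`; the dimension vector of
the sub generated by the rows `0, 4` is `gamF 0` for `x = y₁`, `gamF 1` for `c * φ c = 1` (there are
`q + 1` such `c`), `gamF 2` for the other `c`.
-/

set_option autoImplicit false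

namespace Pool.Agent.Lib.MP_4c1f79_al

open Finset Module

/-- The graph E6 on `Fin 6`: the path `0 - 1 - 2 - 3 - 4` and the edge `2 - 5`. -/
def eF (v w : Fin 6) : Bool :=
  (v.1 + 1 == w.1 && w.1 ≤ 4) || (w.1 + 1 == v.1 && v.1 ≤ 4) || (v.1 == 2 && w.1 == 5)
    || (v.1 == 5 && w.1 == 2)

theorem eF_symm : ∀ v w, eF v w = true → eF w v = true := by decide

/-- The mesh quiver of E6 with levels `0, …, 11`. -/
def MF : Mesh (Fin 6 × Fin 12) := grid (fun v w => eF v w = true) eF_symm 12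

instance : DecidableRel MF.Ar := fun p q =>
  inferInstanceAs (Decidable (eF p.1 q.1 = true ∧ (p.2 : ℕ) = q.2 + 1))

instance : DecidableRel MF.Tau := fun p q =>
  inferInstanceAs (Decidable (p.1 = q.1 ∧ (p.2 : ℕ) = q.2 + 2))

/-- The reflection of E6. -/
def sgF : Equiv.Perm (Fin 6) := Equiv.swap 0 4 * Equiv.swap 1 3

/-- The reflection on the positions. -/
def sF : Equiv.Perm (Fin 6 × Fin 12) := gperm sgF 12

theorem sgF_adj : ∀ v w : Fin 6, (eF (sgF v) (sgF w) = true) ↔ (eF v w = true) := by decide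

theorem sF_sym : Sym MF sF := grid_sym _ eF_symm 12 sgF sgF_adj

theorem sF_per : ∀ p, (⇑sF)^[2] p = p := by decide

/-- The orbit of `(1, 0)`. -/
def bF : Set (Fin 6 × Fin 12) := {p | (p.1 = 1 ∨ p.1 = 3) ∧ p.2 = 0}

/-- The window: everything except the rows `0, 4` at the levels `k` with `A k`. -/
def WF (A : ℕ → Bool) : Fin 6 → ℕ → Bool := fun v k => !((v == 0 || v == 4) && A k)

/-- The rows `0, 4` at the levels `k` with `A k`. -/
def RF (A : ℕ → Bool) : Set (Fin 6 × Fin 12) := {p | (p.1 = 0 ∨ p.1 = 4) ∧ A p.2 = true}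

/-- The rows `0, 4`. -/
def LF : Set (Fin 6 × Fin 12) := {p | p.1 = 0 ∨ p.1 = 4}

/-- The rows `1, 2, 3, 5` (type D4). -/
def U4F : Set (Fin 6 × Fin 12) := {p | p.1 ≠ 0 ∧ p.1 ≠ 4}

theorem mem_WF (A : ℕ → Bool) (p : Fin 6 × Fin 12) :
    p ∈ (winB (WF A) : Set (Fin 6 × Fin 12)) ↔ ¬ ((p.1 = 0 ∨ p.1 = 4) ∧ A p.2 = true) := by
  simp only [winB, WF, Set.mem_ofPred_eq, Bool.not_eq_true', Bool.and_eq_false_iff,
    Bool.or_eq_false_iff, beq_eq_false_iff_ne, ne_eq, not_and, Bool.not_eq_true]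
  tauto

theorem WF_diff (A A' : ℕ → Bool) :
    (winB (WF A) : Set (Fin 6 × Fin 12)) \ RF A' = winB (WF fun k => A k || A' k) := by
  ext p
  simp only [Set.mem_sdiff, mem_WF, RF, Set.mem_ofPred_eq, Bool.or_eq_true]
  tauto

theorem WF_all : (winB (WF fun _ => true) : Set (Fin 6 × Fin 12)) = U4F := by
  ext p
  simp only [mem_WF, U4F, Set.mem_ofPred_eq, and_true]
  tauto

theorem WF_none : (winB (WF fun _ => false) : Set (Fin 6 × Fin 12)) = Set.univ := by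
  ext p
  simp [mem_WF]

theorem sF_0 (p : Fin 6 × Fin 12) : ((sF p).1 = 0 ∨ (sF p).1 = 4) ↔ (p.1 = 0 ∨ p.1 = 4) := by
  revert p; decide

theorem sF_2 (p : Fin 6 × Fin 12) : (sF p).2 = p.2 := rfl

theorem adm_F (A : ℕ → Bool) : Adm MF sF 2 (winB (WF A)) :=
  ⟨sF_sym, sF_per, fun p => by rw [mem_WF, mem_WF, sF_0, sF_2]⟩

theorem RF_stab (A : ℕ → Bool) (p : Fin 6 × Fin 12) : sF p ∈ RF A ↔ p ∈ RF A := by
  show ((sF p).1 = 0 ∨ (sF p).1 = 4) ∧ A (sF p).2 = true ↔ _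
  rw [sF_0, sF_2]
  rfl

theorem LF_stab (p : Fin 6 × Fin 12) : sF p ∈ LF ↔ p ∈ LF := sF_0 p

theorem adm_U4F : Adm MF sF 2 U4F := WF_all ▸ adm_F _

theorem adm_univF : Adm MF sF 2 Set.univ := ⟨sF_sym, sF_per, fun _ => by simp⟩

theorem orb_bF : Orb sF bF := by
  refine ⟨(1, 0), Set.ext fun p => ⟨?_, ?_⟩⟩
  · rintro ⟨h1 | h1, h2⟩
    · exact ⟨0, Prod.ext h1 h2⟩
    · refine ⟨1, Prod.ext ?_ ?_⟩
      · rw [h1]; decide
      · rw [h2]; decide
  · rintro ⟨i, rfl⟩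
    have : ∀ i : ℕ, (⇑sF)^[i] (1, 0) ∈ bF := by
      intro i
      induction i with
      | zero => exact ⟨Or.inl rfl, rfl⟩
      | succ i ih =>
        rw [Function.iterate_succ_apply']
        revert ih
        generalize (⇑sF)^[i] (1, 0) = p
        revert p
        show ∀ p : Fin 6 × Fin 12, ((p.1 = 1 ∨ p.1 = 3) ∧ p.2 = 0) →
          (((sF p).1 = 1 ∨ (sF p).1 = 3) ∧ (sF p).2 = 0)
        decide
    exact this i

/-! ## Tables -/

/-- The tables of E6 for the socle at `(v, 0)`. -/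
def tabF : Fin 6 → List (List ℕ) := ![
  [[1, 0, 0, 0, 0, 0], [0, 1, 0, 0, 0, 0], [0, 0, 1, 0, 0, 0], [0, 0, 0, 1, 0, 1],
   [0, 0, 1, 0, 1, 0], [0, 1, 0, 1, 0, 0], [1, 0, 1, 0, 0, 0], [0, 1, 0, 0, 0, 1],
   [0, 0, 1, 0, 0, 0], [0, 0, 0, 1, 0, 0], [0, 0, 0, 0, 1, 0], [0, 0, 0, 0, 0, 0]],
  [[0, 1, 0, 0, 0, 0], [1, 0, 1, 0, 0, 0], [0, 1, 0, 1, 0, 1], [0, 0, 2, 0, 1, 0],
   [0, 1, 0, 2, 0, 1], [1, 0, 2, 0, 1, 0], [0, 2, 0, 1, 0, 1], [1, 0, 2, 0, 0, 0],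
   [0, 1, 0, 1, 0, 1], [0, 0, 1, 0, 1, 0], [0, 0, 0, 1, 0, 0], [0, 0, 0, 0, 0, 0]],
  [[0, 0, 1, 0, 0, 0], [0, 1, 0, 1, 0, 1], [1, 0, 2, 0, 1, 0], [0, 2, 0, 2, 0, 1],
   [1, 0, 3, 0, 1, 0], [0, 2, 0, 2, 0, 2], [1, 0, 3, 0, 1, 0], [0, 2, 0, 2, 0, 1],
   [1, 0, 2, 0, 1, 0], [0, 1, 0, 1, 0, 1], [0, 0, 1, 0, 0, 0], [0, 0, 0, 0, 0, 0]],
  [[0, 0, 0, 1, 0, 0], [0, 0, 1, 0, 1, 0], [0, 1, 0, 1, 0, 1], [1, 0, 2, 0, 0, 0],
   [0, 2, 0, 1, 0, 1], [1, 0, 2, 0, 1, 0], [0, 1, 0, 2, 0, 1], [0, 0, 2, 0, 1, 0],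
   [0, 1, 0, 1, 0, 1], [1, 0, 1, 0, 0, 0], [0, 1, 0, 0, 0, 0], [0, 0, 0, 0, 0, 0]],
  [[0, 0, 0, 0, 1, 0], [0, 0, 0, 1, 0, 0], [0, 0, 1, 0, 0, 0], [0, 1, 0, 0, 0, 1],
   [1, 0, 1, 0, 0, 0], [0, 1, 0, 1, 0, 0], [0, 0, 1, 0, 1, 0], [0, 0, 0, 1, 0, 1],
   [0, 0, 1, 0, 0, 0], [0, 1, 0, 0, 0, 0], [1, 0, 0, 0, 0, 0], [0, 0, 0, 0, 0, 0]],
  [[0, 0, 0, 0, 0, 1], [0, 0, 1, 0, 0, 0], [0, 1, 0, 1, 0, 0], [1, 0, 1, 0, 1, 0],
   [0, 1, 0, 1, 0, 1], [0, 0, 2, 0, 0, 0], [0, 1, 0, 1, 0, 1], [1, 0, 1, 0, 1, 0],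
   [0, 1, 0, 1, 0, 0], [0, 0, 1, 0, 0, 0], [0, 0, 0, 0, 0, 1], [0, 0, 0, 0, 0, 0]]]

/-- The tables of E6 for the socle at `(v, l)`. -/
def TF (v : Fin 6) (l : ℕ) : List (List ℕ) := List.replicate l [] ++ tabF v

/-- The table of D4 (rows `1, 2, 3, 5`) for the socle at `(5, l)`. -/
def TF5 (l : ℕ) : List (List ℕ) := List.replicate l [] ++
  [[0, 0, 0, 0, 0, 1], [0, 0, 1, 0, 0, 0], [0, 1, 0, 1, 0, 0], [0, 0, 1, 0, 0, 0],
   [0, 0, 0, 0, 0, 1]]

/-- The tables for the socles at `(1, 0)` and `(3, 0)` in the window `WF (k ≤ 1 ∨ 5 < k)`, levels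
`≤ 5`. -/
def TFb (v : Fin 6) : List (List ℕ) :=
  if v = 1 then [[0, 1, 0, 0, 0, 0], [0, 0, 1, 0, 0, 0], [0, 0, 0, 1, 0, 1], [0, 0, 1, 0, 1, 0],
    [0, 1, 0, 1, 0, 0], [1, 0, 1, 0, 0, 0]]
  else [[0, 0, 0, 1, 0, 0], [0, 0, 1, 0, 0, 0], [0, 1, 0, 0, 0, 1], [1, 0, 1, 0, 0, 0],
    [0, 1, 0, 1, 0, 0], [0, 0, 1, 0, 1, 0]]

theorem okF : ∀ (v : Fin 6) (l : Fin 12), okT eF (WF fun _ => false) (TF v l) v l 11 = true := by
  decide +kernel

theorem okF5 : ∀ l : Fin 12, okT eF (WF fun _ => true) (TF5 l) 5 l 11 = true := by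
  decide +kernel

theorem okFb : ∀ v : Fin 6, (v = 1 ∨ v = 3) →
    okT eF (WF fun k => k ≤ 1 || 5 < k) (TFb v) v 0 5 = true := by
  decide +kernel

theorem ncF : ncT (WF fun _ => false) 11 = true := by decide +kernel

theorem ncF5 : ncT (WF fun _ => true) 11 = true := by decide +kernel

theorem ncFb : ncT (WF fun k => k ≤ 1 || 5 < k) 5 = true := by decide +kernel

/-- Numerical form of the thinness: for a socle at `u` (and `sF u`) not in `bF`, the dimensions on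
the rows `0, 4` up to level `5` are at most one. -/
theorem thinF : ∀ (v : Fin 6) (l : Fin 12), ¬ ((v = 1 ∨ v = 3) ∧ l = 0) → ∀ w : Fin 6,
    (w = 0 ∨ w = 4) → ∀ k : Fin 6, tval (TF v l) w k
      + (if sgF v = v then 0 else tval (TF (sgF v) l) w k) ≤ 1 := by
  decide +kernel

/-- The dimensions of the module of type `ind bF` on the rows `0, 4`. -/
def xF (k : ℕ) : ℕ := if k = 5 then 2 else if k = 1 ∨ k = 3 ∨ k = 7 ∨ k = 9 then 1 else 0

theorem xF_tab : ∀ k : Fin 12, tval (TF 1 0) 0 k + tval (TF 3 0) 0 k = xF k ∧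
    tval (TF 1 0) 4 k + tval (TF 3 0) 4 k = xF k := by decide +kernel

/-- [TBM] (uses `S_TBB`, `S_RPE`, `S_DMS`) Tables for several socle positions. Proof: `S_RPE` gives
good representations `Ru u` with socle `ind {u}` for all `u ∈ winB U` (`K` is finite);
`S_DMS` and `S_TBB` (positions `u` outside the window have `R.sc u = 0` because `R` vanishes
there). -/
def S_TBM : Prop := ∀ (n L : ℕ) (adj : Fin n → Fin n → Bool)
  (hs : ∀ v w, adj v w = true → adj w v = true) (U : Fin n → ℕ → Bool)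
  (T : Fin n → Fin L → List (List ℕ)) (k₀ : ℕ), k₀ < L → ncT U k₀ = true →
  ∀ (K : Type) [Field K] [Finite K] (R : Rp (grid (fun v w => adj v w = true) hs L) K),
  R.Good (winB U) → (∀ v l, R.sc (v, l) ≠ 0 → okT adj U (T v l) v l k₀ = true) →
  ∀ p : Fin n × Fin L, (p.2 : ℕ) ≤ k₀ → R.dm p = ∑ u, R.sc u * tval (T u.1 u.2) p.1 p.2

/-- [FD1] (uses `S_TBM`) The dimensions of the module of type `ind bF` on the rows `0, 4`. Proof:
`S_TBM` with `TF`, `okF`, `ncF`, `k₀ = 11`, `WF_none`; `xF_tab`. (`K` is finite by `D.card_K`.) -/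
def S_FD1 : Prop := ∀ (K : Type) [Field K] (D : Fd K) (N : FM MF sF K D),
  N.GT Set.univ (ind bF) → ∀ k : Fin 12, N.toRp.dm (0, k) = xF k ∧ N.toRp.dm (4, k) = xF k

/-- [FD2] (uses `S_TBM`, `S_MON`, `S_RPE`) Thinness on the rows `0, 4` if these rows are cut above
level `5`. Proof: if `p ∈ LF` is not in the window, `dm p = 0`. Otherwise `p.2 ≤ 5`. First case
(`E ≠ bF`): `E` is `{u}` or `{u, sF u}`; `S_MON` compares `N` with a good representation of type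
`ind E` over the full window (`S_RPE`), whose dimensions are given by `S_TBM` with `TF`, `okF`,
`ncF`; use `thinF`. Second case (`E = bF`, `A 0 = A 1 = true`): the same with the window
`WF (k ≤ 1 ∨ 5 < k)`, `TFb`, `okFb`, `ncFb`, `k₀ = 5`; the sum of the two tables is at most one on
the rows `0, 4`. (The window `winB (WF A)` is contained in it. `bF` itself is contained in all
windows.) -/
def S_FD2 : Prop := ∀ A : ℕ → Bool, (∀ k, 5 < k → A k = true) →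
  ∀ E : Set (Fin 6 × Fin 12), Orb sF E → E ⊆ winB (WF A) →
  (E ≠ bF ∨ (A 0 = true ∧ A 1 = true)) → ∀ (K : Type) [Field K] (D : Fd K) (N : FM MF sF K D),
  N.GT (winB (WF A)) (ind E) → ∀ p ∈ LF, N.toRp.dm p ≤ 1

/-- [FD3] (uses `S_TBB`) Two thin modules over the rows `1, 2, 3, 5`. Proof: `S_TBB` with `TF5`,
`okF5`, `ncF5`, `WF_all`. -/
def S_FD3 : Prop := ∀ (K : Type) [Field K] (D : Fd K) (N : FM MF sF K D),
  (N.GT U4F (ind {(5, 2)}) ∨ N.GT U4F (ind {(5, 4)})) → ∀ p, N.toRp.dm p ≤ 1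

/-! ## The dimension vectors to which the thin step applies -/

/-- The special dimension vectors. -/
def patF (d : Fin 6 × Fin 12 → ℕ) : Prop := ∀ k : Fin 12,
  d (0, k) = (if k = 1 ∨ k = 3 ∨ k = 5 then 1 else 0) ∧
  d (4, k) = (if k = 1 ∨ k = 3 ∨ k = 5 then 1 else 0)

/-- [FW1] (uses `S_TH1`, `S_THN`, `S_PEM`, `S_FD2`) Positivity over the windows with cut rows.
Proof. First part: `S_TH1` with `U = winB (WF A)`, `Rs = RF (fun k => !A k)`; `WF_diff`, `WF_all`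
(`A k || !A k = true`); the rows `0, 4` are closed under `τ` and the window has no position in
`LF \ Rs`, so `τ p ∉ Rs` for `p` outside of the rows; the dimensions are at most one by `S_FD2`.
Second part: `S_PEM`; for an orbit `E` in the support of `m` (so `E ≠ bF`: `m` vanishes on `bF`)
and every `d`: `S_THN` with `U = winB (WF A)`, `Rs = RF (fun k => !A k)`; `dm ≤ 1` on `Rs` by
`S_FD2`, so `d p = 0` or `dm p ≤ 1 ≤ d p`. -/
def S_FW1 : Prop := PosC MF sF 2 U4F → ∀ A : ℕ → Bool, (∀ k, 5 < k → A k = true) →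
  ((A 0 = true ∧ A 1 = true) → PosC MF sF 2 (winB (WF A))) ∧
  ∀ m : Fin 6 × Fin 12 → ℕ, (∀ p ∈ bF, m p = 0) → PosT MF sF 2 (winB (WF A)) m

/-- [FW2] (uses `S_THN`, `S_FD1`, `S_FW1`, `S_DQ1`) The vectors `d` which are not special. Proof. Let
`x k = d (0, k)`. If `d (4, k) ≠ d (0, k)` for some `k`, all counts are zero (`F` maps the part of
a sub at `(0, k)` bijectively onto the part at `(4, k)`; `Fs = {0}`). If `xF k < x k` for some `k`,
all counts are zero by `S_FD1` and `S_DQ1`. So `x k = 0` for `k ∉ {1, 3, 5, 7, 9}`, `x k ≤ 1` for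
`k = 1, 3, 7, 9`, `x 5 ≤ 2`. In each of the following cases apply `S_THN` with `U = univ`,
`E = bF`, `Rs = RF A` (`univ \ RF A = winB (WF A)`, use `WF_none`, `WF_diff`); the condition on
`d p` is clear for `k ≠ 5` (`x k = 0` or `x k = 1 = xF k`).
(1) `x 5 ≠ 1`: `A = true`, `Rs = LF`, `PosC` over `U4F` is given.
(2) `x 5 = 1` and `x k ≠ 0` for some `k > 5`: `A k = (5 < k)`; the types `m'` which occur vanish on
`bF`: second part of `S_FW1`. (No `τ p`, `p ∉ Rs`, lies in `Rs`.)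
(3) `x 5 = 1`, `x k = 0` for `k > 5`, `x 3 = 0`: `A k = (k ≤ 3 ∨ 5 < k)`; the `p ∉ Rs` with
`τ p ∈ Rs` are `(v, 4), (v, 5)`, `τ p = (v, 2), (v, 3)`, where `d` is zero; first part of `S_FW1`.
(4) `x 5 = 1`, `x k = 0` for `k > 5`, `x 3 = 1`, `x 1 = 0`: the same with `A k = (k ≤ 1 ∨ 5 < k)`.
(5) `x 1 = x 3 = x 5 = 1` and `x k = 0` otherwise: `d` is special. -/
def S_FW2 : Prop := PosC MF sF 2 U4F → ∀ d : Fin 6 × Fin 12 → ℕ, ¬ patF d →
  ∃ Fs : Finset (Polynomial ℕ), ∀ (K : Type) [Field K] (D : Fd K), D.r = 2 →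
    ∀ N : FM MF sF K D, N.GT Set.univ (ind bF) → ∃ f ∈ Fs, N.cnt d = f.eval D.q

/-! ## The special dimension vectors -/

/-- The graded subspace on the rows `0, 4` with the line `K x` at `(0, 5)`, and everything at the
levels `1, 3`. -/
def BxF {K : Type} [Field K] {D : Fd K} (N : FM MF sF K D) (x : N.T) : Submodule K N.T :=
  Submodule.span K {x, N.F x} ⊔ LinearMap.range (N.e (0, 1)) ⊔ LinearMap.range (N.e (0, 3)) ⊔
    LinearMap.range (N.e (4, 1)) ⊔ LinearMap.range (N.e (4, 3))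

/-- The dimension vectors of the subs generated by `BxF N x`: case `0` is `x = y₁`, case `1` is
`x = c • y₁ + y₃` with `c * φ c = 1`, case `2` with `c * φ c ≠ 1`. -/
def gamF (i : Fin 3) (p : Fin 6 × Fin 12) : ℕ :=
  tval [[0, 1, 0, 1, 0, 0], [1, 0, 2, 0, 1, 0],
    [0, (if i = 0 then 1 else 2), 0, (if i = 0 then 1 else 2), 0, (if i = 1 then 1 else 2)],
    [1, 0, 2, 0, 1, 0], [0, 1, 0, 1, 0, 0], [1, 0, 0, 0, 1, 0]] p.1 p.2

/-- [FGR] (uses `S_DQ1`) `BxF N x` is graded and `F`-stable, supported on `LF`, and its dimensions.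
Proof: `F (F x) = x` by `F_r`, `D.r = 2`; `F` maps `range (e p)` to `range (e (sF p))`; `F x` is a
nonzero vector at `(4, 5)`. -/
def S_FGR : Prop := ∀ (K : Type) [Field K] (D : Fd K), D.r = 2 → ∀ (N : FM MF sF K D) (x : N.T),
  N.e (0, 5) x = x → x ≠ 0 → N.Grd LF (BxF N x) ∧
  (∀ k : Fin 12, (BxF N x).map (N.e (0, k)) = if k = 1 ∨ k = 3 then LinearMap.range (N.e (0, k))
    else if k = 5 then Submodule.span K {x} else ⊥) ∧
  (∀ k : Fin 12, (BxF N x).map (N.e (4, k)) = if k = 1 ∨ k = 3 then LinearMap.range (N.e (4, k))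
    else if k = 5 then Submodule.span K {N.F x} else ⊥)

/-- [NO1] The number of elements of norm one. Proof for `r = 2`: `K` has `q ^ 2` elements,
`k = {c | φ c = c}` is a subfield with `q` elements. Hilbert 90: `c * φ c = 1` iff
`c = v / φ v` for some `v ≠ 0` (take `v = u + c * φ u`, which is not zero for some `u`: otherwise
`u = 1` gives `c = -1` and `u = φ u` for all `u`; and `φ v * c = v`). The fibres of `v ↦ v / φ v`
on `Kˣ` are the cosets of `kˣ`; `(q ^ 2 - 1) / (q - 1) = q + 1`. -/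
def S_NO1 : Prop := ∀ (K : Type) [Field K] (D : Fd K), D.r = 2 →
  Nat.card {c : K // c * D.φ c = 1} = D.q + 1 ∧
  Nat.card {c : K // c * D.φ c ≠ 1} + (D.q + 1) = D.q ^ 2

/-- [FPT] (uses `S_FGR`, `S_NO1`, `S_DQ1`, `S_FD1`) Sorting the subs by the line at `(0, 5)`. Proof. Let
`W` be a sub with `dmS W = d`. Its part `W (0, 5)` is a line in `N (0, 5)`, which has the basis
`y₁, y₃` (dimension `xF 5 = 2`), so it is `K x` for exactly one `x` in
`{y₁} ∪ {c • y₁ + y₃ | c ∈ K}`. `W (4, 5) = K (F x)` because `F` is injective, `F W ≤ W`, and both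
have dimension `1`. At the levels `1, 3` the dimension of `N` on the rows `0, 4` is `1 = d`, so
`W` has the full part; at the other levels `d = 0`. So for a sub `W` with `dmS W = d`:
`Res LF (BxF N x) W ↔ W (0, 5) = K x`. Hence
`cnt d = cntP (Res LF (BxF N y₁)) d + ∑ c, cntP (Res LF (BxF N (c • y₁ + y₃))) d`; the sum over `c`
is `(q + 1) β + (q ^ 2 - (q + 1)) γ` by `S_NO1`. -/
def S_FPT : Prop := ∀ (K : Type) [Field K] (D : Fd K), D.r = 2 → ∀ N : FM MF sF K D,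
  N.GT Set.univ (ind bF) → ∀ y₁ y₃ : N.T, N.e (0, 5) y₁ = y₁ → N.e (0, 5) y₃ = y₃ →
  LinearIndependent K ![y₁, y₃] → ∀ d : Fin 6 × Fin 12 → ℕ, patF d → ∀ α β γ : ℕ,
  N.cntP (N.Res LF (BxF N y₁)) d = α →
  (∀ c : K, c * D.φ c = 1 → N.cntP (N.Res LF (BxF N (c • y₁ + y₃))) d = β) →
  (∀ c : K, c * D.φ c ≠ 1 → N.cntP (N.Res LF (BxF N (c • y₁ + y₃))) d = γ) →
  N.cnt d + (D.q + 1) * γ = α + (D.q + 1) * β + D.q ^ 2 * γ

/-- The properties of the basis `y₁, y₃` of the part at `(0, 5)`. -/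
structure BasF {K : Type} [Field K] {D : Fd K} (N : FM MF sF K D) (y₁ y₃ : N.T) : Prop where
  e1 : N.e (0, 5) y₁ = y₁
  e3 : N.e (0, 5) y₃ = y₃
  li : LinearIndependent K ![y₁, y₃]
  g0 : ∀ p, N.toRp.dmS (N.gen (BxF N y₁)) p = gamF 0 p
  g1 : ∀ c : K, c * D.φ c = 1 → ∀ p, N.toRp.dmS (N.gen (BxF N (c • y₁ + y₃))) p = gamF 1 p
  g2 : ∀ c : K, c * D.φ c ≠ 1 → ∀ p, N.toRp.dmS (N.gen (BxF N (c • y₁ + y₃))) p = gamF 2 p

/-- [FQM] The model: an explicit module `Q` of dimension `26`. Basis (position): `z (1,0)`,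
`a0 (0,1)`, `a2 (2,1)`, `b1 (1,2)`, `b3 (3,2)`, `b5 (5,2)`, `C1, C3 (2,3)`, `d4 (4,3)`, `g1 (1,4)`,
`g3 (3,4)`, `h0 (0,5)`, `h4 (4,5)`, with
`a0 ↦ z, a2 ↦ z, b1 ↦ a0 - a2, b3 ↦ a2, b5 ↦ a2, C1 ↦ b3 - b5, C3 ↦ b1 + b5, d4 ↦ b3, g1 ↦ C1,
g3 ↦ C3, h0 ↦ g1, h4 ↦ g3, z ↦ 0`, and a second copy `z', a0', …` with the positions reflected by
`sF` (`z' (3,0)`, `a0' (4,1)`, …); `F` exchanges the two copies (`F (c e) = φ c e'`). `y₁ = h0`,
`y₃ = h4'`. -/
def S_FQM : Prop := ∀ (K : Type) [Field K] (D : Fd K), D.r = 2 →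
  ∃ (Q : FM MF sF K D) (y₁ y₃ : Q.T), (∀ p, Q.toRp.sc p = ind bF p) ∧
    Q.toRp.dm (0, 1) = 1 ∧ Q.toRp.dm (0, 3) = 1 ∧ Q.toRp.dm (4, 1) = 1 ∧ Q.toRp.dm (4, 3) = 1 ∧
    BasF Q y₁ y₃

/-- [FNV] (uses `S_FQM`, `S_EMB`, `S_FD1`, `S_DQ1`, `S_GC1`, `S_FGR`) The basis exists for every good module
of type `ind bF`. Proof: `S_EMB` gives an injective `F`-morphism `f : Q → N`; since
`dm N (0, k) = dm N (4, k) = 1` for `k = 1, 3` (`S_FD1`) and `Q` has the same dimensions there,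
`f` maps `range (Q.e p)` onto `range (N.e p)` for these `p`; so
`BxF N (f x) = (BxF Q x).map f`, `N.gen (BxF N (f x)) = (Q.gen (BxF Q x)).map f` (images and
preimages of stable subspaces under `f` are stable), and the dimensions are the same because `f`
is injective and commutes with the `e p`. The last item: `B ≤ gen B` and both have the same
(finite) dimensions `gamF i p` on `LF`: `dmS (gen B) (0, k) = gamF i (0, k)` is `1` for
`k = 1, 3, 5` and `0` otherwise, and the dimensions of `B` are the same by `S_FGR`, `S_FD1`. -/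
def S_FNV : Prop := ∀ (K : Type) [Field K] (D : Fd K), D.r = 2 → ∀ N : FM MF sF K D,
  N.GT Set.univ (ind bF) → ∃ y₁ y₃ : N.T, BasF N y₁ y₃ ∧
    N.Res LF (BxF N y₁) (N.gen (BxF N y₁)) ∧
    ∀ c : K, N.Res LF (BxF N (c • y₁ + y₃)) (N.gen (BxF N (c • y₁ + y₃)))

/-- The types of the subquotients. -/
noncomputable def mtF (i : Fin 3) (p : Fin 6 × Fin 12) : ℕ :=
  if i = 0 then ind {(1, 2), (3, 2), (1, 4), (3, 4)} p
  else if i = 1 then ind {(2, 3)} p + ind {(5, 2)} p + ind {(5, 4)} p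
  else ind {(2, 3)} p + ind {(2, 3)} p

/-- [FTY] The types by computation: `eulN MF (ind {u}) y = y u - ∑_{Ar u q} y q + ∑_{Tau u r} y r`;
then check all `u` in `U4F` (`decide +kernel`, after replacing the classical decidability
instances and writing `ind` as `if`). -/
def S_FTY : Prop := ∀ i : Fin 3, (∀ u ∈ U4F,
  (ind bF u : ℤ) - eulN MF (ind {u}) (gamF i) = mtF i u) ∧ ∀ u, u ∉ U4F → mtF i u = 0

/-- [FS0] (uses `S_RST`, `S_COA`, `S_FD3`, `S_FNV`, `S_FPT`, `S_FGR`, `S_FTY`) The special vectors.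
Proof: for `d` special and `x = y₁` or `c • y₁ + y₃` in case `i`: `S_RST` with `U = univ`,
`Rs = LF` (closed under `τ` and `τ⁻¹`), `B = BxF N x` gives
`cntP (Res LF B) d = G.cnt (d - gamF i)` if `gamF i ≤ d` (zero otherwise) with `G` good over
`univ \ LF = U4F` of type `mtF i` (`S_FTY`). Let `α, β, γ` be the three values. By `S_FPT`:
`cnt d + (q + 1) γ = α + (q + 1) β + q ^ 2 γ`. `α`, `β`, `γ` are values of finitely many
polynomials (`PosC` over `U4F`). If `gamF 2 ≤ d`, then `d - gamF 1 = (d - gamF 2) + ind {(5, 2)}`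
and `S_COA` (`a = (5, 2)`, `b = (5, 4)`, `x = (2, 3)`, `m = ind {(2, 3)}`, window `U4F`; `S_FD3`)
gives `β = γ + f(q)`, so `cnt d = α + (q + 1) f(q) + q ^ 2 γ`. Otherwise `γ = 0`, and
`cnt d = α + (q + 1) β`. -/
def S_FS0 : Prop := PosC MF sF 2 U4F → ∀ d : Fin 6 × Fin 12 → ℕ, patF d →
  ∃ Fs : Finset (Polynomial ℕ), ∀ (K : Type) [Field K] (D : Fd K), D.r = 2 →
    ∀ N : FM MF sF K D, N.GT Set.univ (ind bF) → ∃ f ∈ Fs, N.cnt d = f.eval D.q

/-- [F] (uses `S_FW2`, `S_FS0`) The result for F4. -/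
def S_F : Prop := PosC MF sF 2 U4F → PosT MF sF 2 Set.univ (ind bF)

end Pool.Agent.Lib.MP_4c1f79_al
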