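import Pool.Agent.Lib.MP_4c1f79_al.DtBase
import Pool.Agent.Lib.MP_4c1f79_al.StmF
import Pool.Agent.Lib.J4c.Root

/-! MP_4c1f79_al : the datum for type F4. -/

set_option autoImplicit false

namespace Pool.Agent.Lib.MP_4c1f79_al

open J4c

/-- The map `v ↦ v*` of E6. -/
def stE6 (v : Fin 6) : Fin 6 := sgF v

theorem okTE6 : okG 12 eF TE6 stE6 = true := by decide +kernel

/-- The orbits `{0, 4}, {1, 3}, {2}, {5}`. -/
def obF (v : Fin 6) : Fin 4 :=
  if v = 0 ∨ v = 4 then 0 else if v = 1 ∨ v = 3 then 1 else if v = 2 then 2 else 3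

theorem obF_orb (v w : Fin 6) : obF v = obF w ↔ ∃ k : ℕ, w = (⇑sgF)^[k] v := by
  constructor
  · intro h
    have h1 : ∀ v w : Fin 6, obF v = obF w → w = (⇑sgF)^[0] v ∨ w = (⇑sgF)^[1] v := by decide
    rcases h1 v w h with h | h
    · exact ⟨0, h⟩
    · exact ⟨1, h⟩
  · rintro ⟨k, rfl⟩
    have h1 : ∀ v : Fin 6, obF (sgF v) = obF v := by decide
    induction k with
    | zero => rfl
    | succ k ih =>
      rw [Function.iterate_succ_apply', h1]
      exact ih

/-- The datum for type F4. -/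
def dtF (hb : GoodForm DT.F4.form) : Dt where
  V := Fin 6
  adj v w := eF v w = true
  hs := eF_symm
  L := 12
  L2 := by decide
  T v w k := tval (TE6 v) w k
  st := stE6
  st_inj := by decide
  T0 v w := (okG_all okTE6 v w).1
  T1 v w := (okG_all okTE6 v w).2.1
  tre v w k hk := (okG_all okTE6 v w).2.2.2.2 k hk
  top v w := (okG_all okTE6 v w).2.2.1
  bot v w := (okG_all okTE6 v w).2.2.2.1
  ι := Fin 4
  b := DT.F4.form
  hb := hb
  σ := sgF
  r := 2
  r_pos := by decide
  ob := obF
  rep := ![0, 1, 2, 5]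
  ob_rep := by decide
  orb := obF_orb
  c i := decide (i = 0 ∨ i = 2)
  bip := by decide
  adj_σ := sgF_adj
  per := by decide
  st_σ := fun _ => rfl
  diag := by decide
  off := by
    intro i j hij
    fin_cases i <;> fin_cases j <;> first | exact absurd rfl hij | decide

end Pool.Agent.Lib.MP_4c1f79_al
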