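import Pool.Agent.Lib.MP_4c1f79_al.DtBase
import Pool.Agent.Lib.MP_4c1f79_al.DtF4
import Pool.Agent.Lib.J4c.Root

/-! MP_4c1f79_al : the data for the types E6, E7, E8. -/

set_option autoImplicit false

namespace Pool.Agent.Lib.MP_4c1f79_al

open J4c

private theorem orb_refl {V ι : Type} (ob : V → ι) (h : Function.Injective ob) (v w : V) :
    ob v = ob w ↔ ∃ k : ℕ, w = (⇑(Equiv.refl V))^[k] v := by
  constructor
  · intro h'
    exact ⟨0, (h h').symm⟩
  · rintro ⟨k, rfl⟩
    rw [Equiv.coe_refl, Function.iterate_id]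
    rfl

private theorem per_refl {V : Type} (v : V) : (⇑(Equiv.refl V))^[1] v = v := rfl

/-! ## E6 -/

/-- Cartan labels of the vertices of the graph E6. -/
def obE6 : Fin 6 → Fin 6 := ![0, 2, 3, 4, 5, 1]

/-- The inverse. -/
def repE6 : Fin 6 → Fin 6 := ![0, 5, 1, 2, 3, 4]

/-- The datum for type E6. -/
def dtE6 (hb : GoodForm DT.E6.form) : Dt where
  V := Fin 6
  adj v w := eF v w = true
  hs := eF_symm
  L := 12
  L2 := by decide
  T v w k := tval (TE6 v) w k
  st := stE6
  st_inj := by decide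
  T0 v w := (okG_all okTE6 v w).1
  T1 v w := (okG_all okTE6 v w).2.1
  tre v w k hk := (okG_all okTE6 v w).2.2.2.2 k hk
  top v w := (okG_all okTE6 v w).2.2.1
  bot v w := (okG_all okTE6 v w).2.2.2.1
  ι := Fin 6
  b := DT.E6.form
  hb := hb
  σ := Equiv.refl _
  r := 1
  r_pos := by decide
  ob := obE6
  rep := repE6
  ob_rep := by decide
  orb := orb_refl _ (by decide)
  c i := decide ((repE6 i : ℕ) % 2 = 0 ∧ repE6 i ≠ 5)
  bip := by decide
  adj_σ := fun _ _ => Iff.rfl
  per := per_refl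
  st_σ := fun _ => rfl
  diag := by decide +kernel
  off := by
    intro i j hij
    fin_cases i <;> fin_cases j <;> first | exact absurd rfl hij | decide +kernel

/-! ## E7 -/

/-- The graph E7 on `Fin 7`: the path `0 - 1 - 2 - 3 - 4 - 5` and the edge `2 - 6`. -/
def e7B (v w : Fin 7) : Bool :=
  (v.1 + 1 == w.1 && w.1 ≤ 5) || (w.1 + 1 == v.1 && v.1 ≤ 5) || (v.1 == 2 && w.1 == 6)
    || (v.1 == 6 && w.1 == 2)

theorem e7B_symm : ∀ v w, e7B v w = true → e7B w v = true := by decide

theorem okTE7 : okG 18 e7B TE7 (fun v => v) = true := by decide +kernel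

/-- Cartan labels of the vertices of the graph E7. -/
def obE7 : Fin 7 → Fin 7 := ![0, 2, 3, 4, 5, 6, 1]

/-- The inverse. -/
def repE7 : Fin 7 → Fin 7 := ![0, 6, 1, 2, 3, 4, 5]

/-- The datum for type E7. -/
def dtE7 (hb : GoodForm DT.E7.form) : Dt where
  V := Fin 7
  adj v w := e7B v w = true
  hs := e7B_symm
  L := 18
  L2 := by decide
  T v w k := tval (TE7 v) w k
  st v := v
  st_inj := fun _ _ h => h
  T0 v w := (okG_all okTE7 v w).1
  T1 v w := (okG_all okTE7 v w).2.1
  tre v w k hk := (okG_all okTE7 v w).2.2.2.2 k hk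
  top v w := (okG_all okTE7 v w).2.2.1
  bot v w := (okG_all okTE7 v w).2.2.2.1
  ι := Fin 7
  b := DT.E7.form
  hb := hb
  σ := Equiv.refl _
  r := 1
  r_pos := by decide
  ob := obE7
  rep := repE7
  ob_rep := by decide
  orb := orb_refl _ (by decide)
  c i := decide ((repE7 i : ℕ) % 2 = 1 ∨ repE7 i = 6)
  bip := by decide
  adj_σ := fun _ _ => Iff.rfl
  per := per_refl
  st_σ := fun _ => rfl
  diag := by decide +kernel
  off := by
    intro i j hij
    fin_cases i <;> fin_cases j <;> first | exact absurd rfl hij | decide +kernel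

/-! ## E8 -/

theorem okTE8 : okG 30 eB TE8 (fun v => v) = true := by decide +kernel

/-- Cartan labels of the vertices of the graph E8. -/
def obE8 : Fin 8 → Fin 8 := ![0, 2, 3, 4, 5, 6, 7, 1]

/-- The inverse. -/
def repE8 : Fin 8 → Fin 8 := ![0, 7, 1, 2, 3, 4, 5, 6]

/-- The datum for type E8. -/
def dtE8 (hb : GoodForm DT.E8.form) : Dt where
  V := Fin 8
  adj v w := eB v w = true
  hs := eB_symm
  L := 30
  L2 := by decide
  T v w k := tval (TE8 v) w k
  st v := v
  st_inj := fun _ _ h => h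
  T0 v w := (okG_all okTE8 v w).1
  T1 v w := (okG_all okTE8 v w).2.1
  tre v w k hk := (okG_all okTE8 v w).2.2.2.2 k hk
  top v w := (okG_all okTE8 v w).2.2.1
  bot v w := (okG_all okTE8 v w).2.2.2.1
  ι := Fin 8
  b := DT.E8.form
  hb := hb
  σ := Equiv.refl _
  r := 1
  r_pos := by decide
  ob := obE8
  rep := repE8
  ob_rep := by decide
  orb := orb_refl _ (by decide)
  c i := decide ((repE8 i : ℕ) % 2 = 1)
  bip := by decide
  adj_σ := fun _ _ => Iff.rfl
  per := per_refl
  st_σ := fun _ => rfl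
  diag := by decide +kernel
  off := by
    intro i j hij
    fin_cases i <;> fin_cases j <;> first | exact absurd rfl hij | decide +kernel

end Pool.Agent.Lib.MP_4c1f79_al
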