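import Pool.Agent.Lib.MP_4c1f79_al.StmC

/-!
# MP_4c1f79_al : the block for type G2 (the graph D4 with the rotation of order three)

Section 8 of the paper proof. Positions `Fin 4 × Fin 6`: leaves `0, 1, 2`, centre `3`. Below we
write `R p` for `LinearMap.range (N.e p)` and use all the time: `x ∈ R p ↔ N.e p x = x`
(`e_e`), `x = ∑ p, N.e p x` (`e_sum`).
-/

set_option autoImplicit false

namespace Pool.Agent.Lib.MP_4c1f79_al

open Finset Module

variable {P : Type} [Fintype P] {M : Mesh P} {s : Equiv.Perm P} {K : Type} [Field K] {D : Fd K}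

/-! ## General lemmas -/

/-- Stable families of subspaces of the components. -/
def FM.Fam (N : FM M s K D) (C : P → Submodule K N.T) : Prop :=
  (∀ p, C p ≤ LinearMap.range (N.e p)) ∧
  (∀ p q, M.Ar p q → ∀ x ∈ C p, N.e q (N.a x) ∈ C q) ∧
  ∀ p, ∀ x ∈ C p, N.F x ∈ C (s p)

/-- [FAM] Subs are the same as stable families. Proof: `W ↦ (p ↦ W.map (e p))`, with inverse
`C ↦ ⨅ p, (C p).comap (e p)`, i.e. `x ∈ W ↔ ∀ p, e p x ∈ C p`. For a stable `W`:
`x ∈ W ↔ ∀ p, e p x ∈ W` by `e_sum`; `W.map (e p) = W ⊓ R p`. For a family `C` and `y ∈ C p` one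
has `e p y = y`, `e q y = 0` for `q ≠ p`, so `W.map (e p) = C p`; `a x = ∑ p, a (e p x)` and
`e q (a (e p x)) = 0` unless `Ar p q`. -/
def S_FAM : Prop := ∀ (P : Type) [Fintype P] (M : Mesh P) (s : Equiv.Perm P) (K : Type) [Field K]
  (D : Fd K) (N : FM M s K D) (d : P → ℕ),
  N.cnt d = Nat.card {C : P → Submodule K N.T // N.Fam C ∧ ∀ p, finrank K (C p) = d p}

/-- [LIN] (uses `S_DES`) The number of `G`-stable lines of a space of dimension `n` is
`(q ^ n - 1) / (q - 1)`. Proof: every `G`-stable line `L` contains exactly `q - 1` nonzero fixed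
vectors (`S_DES` for `L`); every nonzero fixed vector lies in exactly one line, which is
`G`-stable; there are `q ^ n - 1` nonzero fixed vectors (`S_DES`). -/
def S_LIN : Prop := ∀ (K : Type) [Field K] (D : Fd K) (V : Type) [AddCommGroup V] [Module K V]
  [Finite V] (G : V →ₛₗ[(D.φ : K →+* K)] V), (∀ x, (⇑G)^[D.r] x = x) →
  Nat.card {L : Submodule K V // finrank K L = 1 ∧ ∀ x ∈ L, G x ∈ L} * (D.q - 1)
    = D.q ^ finrank K V - 1

/-- [HYP] (uses `S_LIN`) The same for hyperplanes. Proof: apply `S_LIN` to the dual space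
`Module.Dual K V` with `(G' f) x = φ (f (G^(r-1) x))` (linear in `x` since
`φ (φ^(r-1) c) = c`; `G'^r = 1`; it satisfies `(G' f) (G x) = φ (f x)` because `G^r = 1`). The
hyperplanes are the kernels of the nonzero functionals, i.e. correspond to the lines of the dual
space (`Submodule.dualAnnihilator`, `dualCoannihilator`), and `H` is `G`-stable if and only if its
annihilator is `G'`-stable. -/
def S_HYP : Prop := ∀ (K : Type) [Field K] (D : Fd K) (V : Type) [AddCommGroup V] [Module K V]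
  [Finite V] (G : V →ₛₗ[(D.φ : K →+* K)] V), (∀ x, (⇑G)^[D.r] x = x) →
  Nat.card {L : Submodule K V // finrank K L + 1 = finrank K V ∧ ∀ x ∈ L, G x ∈ L} * (D.q - 1)
    = D.q ^ finrank K V - 1

/-- [LN2] The number of lines of a two-dimensional subspace is `|K| + 1`
(`Projectivization.card_of_finrank_two` and `Projectivization.equivSubmodule`, or directly). -/
def S_LN2 : Prop := ∀ (K : Type) [Field K] [Finite K] (V : Type) [AddCommGroup V] [Module K V]
  [Finite V] (U : Submodule K V), finrank K U = 2 →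
  Nat.card {L : Submodule K V // L ≤ U ∧ finrank K L = 1} = Nat.card K + 1

/-! ## The positions -/

/-- Adjacency of the graph `D₄`: leaves `0, 1, 2` and centre `3`. -/
def adjG (v w : Fin 4) : Prop := ¬ (v = 3 ↔ w = 3)

instance (v w : Fin 4) : Decidable (adjG v w) := by unfold adjG; infer_instance

theorem adjG_symm : ∀ v w : Fin 4, adjG v w → adjG w v := fun _ _ h h' => h h'.symm

/-- The mesh quiver of type `D₄` with six levels. -/
def MG : Mesh (Fin 4 × Fin 6) := grid adjG adjG_symm 6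

/-- The rotation `0 ↦ 1 ↦ 2 ↦ 0` of the leaves. -/
def sgG : Equiv.Perm (Fin 4) := Equiv.swap 0 1 * Equiv.swap 1 2

/-- The rotation on the positions. -/
def sG : Equiv.Perm (Fin 4 × Fin 6) := gperm sgG 6

/-- The leaves at level `k`. -/
def EG (k : Fin 6) : Set (Fin 4 × Fin 6) := {p | p.1 ≠ 3 ∧ p.2 = k}

theorem sgG_adj : ∀ v w : Fin 4, adjG (sgG v) (sgG w) ↔ adjG v w := by decide

theorem sG_sym : Sym MG sG := grid_sym adjG adjG_symm 6 sgG sgG_adj

theorem sG_per : ∀ p, (⇑sG)^[3] p = p := by decide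

/-- The full window is admissible. -/
theorem adm_G : Adm MG sG 3 Set.univ :=
  ⟨sG_sym, sG_per, fun _ => by simp⟩

/-- The leaf rows. -/
def LG : Set (Fin 4 × Fin 6) := {p | p.1 ≠ 3}

/-- The positions where the module of type `1` on the leaves at level `0` vanishes. -/
def ZG (p : Fin 4 × Fin 6) : Prop :=
  (p.1 ≠ 3 ∧ (p.2 : ℕ) % 2 = 1) ∨ (p.1 = 3 ∧ (p.2 : ℕ) % 2 = 0) ∨ p = (3, 5)

/-! ## The module of type `1` on the leaves at level zero -/

/-- The facts about the module with socle the leaves at level zero. -/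
structure GFacts {K : Type} [Field K] {D : Fd K} (N : FM MG sG K D) : Prop where
  zero : ∀ p, ZG p → ∀ x, N.e p x = 0
  inj : ∀ p : Fin 4 × Fin 6, p.2 ≠ 0 → ∀ x, N.e p x = x → N.a x = 0 → x = 0
  kill : ∀ v x, N.a (N.e (v, 0) x) = 0
  dim0 : ∀ v, v ≠ 3 → finrank K (LinearMap.range (N.e (v, 0))) = 1
  dim1 : finrank K (LinearMap.range (N.e (3, 1))) = 3
  dim2 : ∀ v, v ≠ 3 → finrank K (LinearMap.range (N.e (v, 2))) = 2
  dim4 : ∀ v, v ≠ 3 → finrank K (LinearMap.range (N.e (v, 4))) ≤ 1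
  a1 : ∀ x, N.e (3, 1) x = x → ∀ p, p ∉ EG 0 → N.e p (N.a x) = 0
  s1 : ∀ y, (∀ p, p ∉ EG 0 → N.e p y = 0) → ∃ x, N.e (3, 1) x = x ∧ N.a x = y
  a2 : ∀ v, v ≠ 3 → ∀ x, N.e (v, 2) x = x →
    N.e (3, 1) (N.a x) = N.a x ∧ N.e (v, 0) (N.a (N.a x)) = 0
  s2 : ∀ v, v ≠ 3 → ∀ y, N.e (3, 1) y = y → N.e (v, 0) (N.a y) = 0 →
    ∃ x, N.e (v, 2) x = x ∧ N.a x = y
  a3 : ∀ x, N.e (3, 3) x = x → (∀ p, p ∉ EG 2 → N.e p (N.a x) = 0) ∧ N.a (N.a x) = 0
  s3 : ∀ y, (∀ p, p ∉ EG 2 → N.e p y = 0) → N.a y = 0 → ∃ x, N.e (3, 3) x = x ∧ N.a x = y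
  a4 : ∀ v, v ≠ 3 → ∀ x, N.e (v, 4) x = x →
    N.e (3, 3) (N.a x) = N.a x ∧ N.e (v, 2) (N.a (N.a x)) = 0

/-- [G1] (uses `S_BND`, `S_DQ3`) The facts. Proof, upwards by levels; `N` is good everywhere, the
socle is one-dimensional at `(v, 0)`, `v ≠ 3`, and zero elsewhere (`S_DQ3`, item 5, gives `inj`;
the case `p = (3, 0)` is not needed). `kill`: there are no arrows out of level `0` (`a_ar`,
`e_sum`); so `R (v, 0)` is its own socle: `dim0`, and `R (3, 0) = 0`. By the bound of `S_BND`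
style (`a` is injective on `R p` with values in the sum of the `R q`, `Ar p q`), the positions
`(v, 1)`, `(3, 2)`, `(v, 3)`, `(3, 4)`, `(v, 5)` vanish successively. `a1`, `a2`, `a3`, `a4`: `a_ar`
and `mesh` (in `a3`: `a x` is supported on `EG 2`, so `a (a x)` is supported on `(3, 1)`). `s1`,
`s2`, `s3`: goodness at `(3, 1)` (no `τ`), `(v, 2)` (`τ = (v, 0)`), `(3, 3)` (`τ = (3, 1)`); the
successors of `(3, k + 1)` are the elements of `EG k`, the only successor of `(v, k + 1)` is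
`(3, k)`. `dim1`: `a` is an isomorphism of `R (3, 1)` with the vectors supported on `EG 0`
(dimension `1 + 1 + 1`). `dim2`: `a` is an isomorphism of `R (v, 2)` with
`{h ∈ R (3, 1) | e (v, 0) (a h) = 0}`, and `h ↦ e (v, 0) (a h)` maps `R (3, 1)` onto `R (v, 0)`
(`s1`). `dim4`: let `v, j, l` be the three leaves; the linear map
`x ↦ e (v, 0) (a (a (e (j, 2) (a (a x)))))` from `R (v, 4)` to `R (v, 0)` is injective: let `x` be in
the kernel, `y = a (a x)`, `y_j = e (j, 2) y`, `y_l = e (l, 2) y`; `e (v, 2) y = 0`,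
so `y = y_j + y_l` and `a y = 0` by `a3`; `h = a y_j = - a y_l` has `e (v, 0) (a h) = 0`
(assumption), `e (j, 0) (a h) = 0` and `e (l, 0) (a h) = 0` by `a2`, so `a h = 0`, `h = 0`,
`y_j = y_l = 0`, `x = 0` by `inj`. `zero` at `(3, 5)`: let `x ∈ R (3, 5)`, `w_v = e (v, 4) (a x)`,
`z_v = a w_v ∈ R (3, 3)`; by mesh `∑ z_v = 0`, and `e (v, 2) (a z_v) = 0`. For three leaves
`v, j, l`: `e (v, 2) (a z_j) + e (v, 2) (a z_l) = 0`; put `y = e (v, 2) (a z_j)` and `h = a y`; then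
`e (v, 0) (a h) = 0` (`a2`); `a (a z_j) = 0` and `e (j, 2) (a z_j) = 0` give
`h = - a (e (l, 2) (a z_j))`, so `e (l, 0) (a h) = 0`; and in the same way from `z_l`:
`h = - a (e (v, 2) (a z_l)) = a (e (j, 2) (a z_l))`, so `e (j, 0) (a h) = 0`. Hence `h = 0`,
`y = 0`; so all components of `a z_j` vanish (for all `j`), `z_j = 0`, `w_j = 0`, `a x = 0`,
`x = 0`. -/
def S_G1 : Prop := ∀ (K : Type) [Field K] (D : Fd K) (N : FM MG sG K D),
  N.GT Set.univ (ind (EG 0)) → GFacts N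

/-- The `F`-stable space generated by `ℓ`. -/
def FM.FB (N : FM M s K D) (ℓ : Submodule K N.T) : Submodule K N.T :=
  Submodule.span K {y | ∃ x ∈ ℓ, ∃ i : ℕ, y = (⇑N.F)^[i] x}

/-- [G2A] The `F`-hull of a line `ℓ` at `(0, 2)`. Proof: `ℓ = K x`; `F^i (c x) = φ^i(c) F^i x` and
`F^3 = 1` (`D.r = 3`, `F_r`), so the hull is spanned by `x, F x, F² x`, which are nonzero vectors
(`F` is injective) at the positions `(0, 2), (1, 2), (2, 2)`, hence linearly independent. -/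
def S_G2A : Prop := ∀ (K : Type) [Field K] (D : Fd K), D.r = 3 → ∀ N : FM MG sG K D,
  ∀ ℓ : Submodule K N.T, ℓ ≤ LinearMap.range (N.e (0, 2)) → finrank K ℓ = 1 →
  (∀ x ∈ N.FB ℓ, N.F x ∈ N.FB ℓ) ∧ (∀ p, ∀ x ∈ N.FB ℓ, N.e p x ∈ N.FB ℓ) ∧
  (∀ p, p ∉ EG 2 → ∀ x ∈ N.FB ℓ, N.e p x = 0) ∧
  N.FB ℓ ⊓ LinearMap.range (N.e (0, 2)) = ℓ ∧
  (∀ p ∈ EG 2, finrank K (N.FB ℓ ⊓ LinearMap.range (N.e p) : Submodule K N.T) = 1) ∧
  finrank K (N.FB ℓ) = 3 ∧
  ∀ W : Submodule K N.T, ℓ ≤ W → (∀ x ∈ W, N.F x ∈ W) → N.FB ℓ ≤ W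

/-- [G2B] (uses `S_G1`, `S_G2A`) The image of the hull `B = FB ℓ` under `a`. Let `ℓ = K x`, so
`B` is spanned by `x, F x, F² x`, and put `h = a x`; `A = a B` is spanned by `h, F h, F² h`.
(1) `a2`. (2) `F` commutes with `a`. (3) `finrank A ≤ 3` by (1) and `dim1`. If `finrank A ≤ 1`, then
`h` is a multiple of `F h` and of `F² h` (all nonzero by `inj`), so `e (v, 0) (a h) = 0` for all
`v` (`a2` for `F^i x ∈ R (i, 2)`), so `a h = 0`, `h = 0`, `x = 0`, a contradiction. (4) rank and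
nullity for `a` on `B` (`finrank B = 3`); `a` maps `R (3, 3) ⊓ B.comap a` bijectively onto
`B ⊓ ker a` (`s3`, `a3`, `inj`). (5) `F` commutes with `a` and `e (3, 3)` (`sG (3, 3) = (3, 3)`).
(6) some `e (v, 0) (a h) ≠ 0` (as in (3)), so by `F` for every leaf `v` there is such an `F^i h`;
`dim0`. (7) let `y = a (a x') ∈ B`, `v, j, l` the three leaves; `e (v, 2) y = 0` (`a4`), `a y = 0`
(`a3`, `a x' ∈ R (3, 3)`). `y = y_j + y_l` with `y_j = c F^i x`, `y_l = c' F^k x`, `{i, k}` two of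
the residues mod `3`. If `c ≠ 0`, then `a y_j = - a y_l` shows that `F^i h`, `F^k h` are
proportional; applying `F` all three are proportional, so `finrank A ≤ 1`, a contradiction to (3).
So `y_j = 0`, `a y_l = 0`, `y_l = 0`, `y = 0`, `x' = 0` by `inj`. -/
def S_G2B : Prop := ∀ (K : Type) [Field K] (D : Fd K), D.r = 3 → ∀ N : FM MG sG K D,
  N.GT Set.univ (ind (EG 0)) →
  ∀ ℓ : Submodule K N.T, ℓ ≤ LinearMap.range (N.e (0, 2)) → finrank K ℓ = 1 →
  (N.FB ℓ).map N.a ≤ LinearMap.range (N.e (3, 1)) ∧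
  (∀ x ∈ (N.FB ℓ).map N.a, N.F x ∈ (N.FB ℓ).map N.a) ∧
  (2 ≤ finrank K ((N.FB ℓ).map N.a) ∧ finrank K ((N.FB ℓ).map N.a) ≤ 3) ∧
  finrank K (LinearMap.range (N.e (3, 3)) ⊓ (N.FB ℓ).comap N.a : Submodule K N.T)
    + finrank K ((N.FB ℓ).map N.a) = 3 ∧
  (∀ x ∈ (LinearMap.range (N.e (3, 3)) ⊓ (N.FB ℓ).comap N.a : Submodule K N.T),
    N.F x ∈ (LinearMap.range (N.e (3, 3)) ⊓ (N.FB ℓ).comap N.a : Submodule K N.T)) ∧
  (∀ v, v ≠ 3 → (((N.FB ℓ).map N.a).map N.a).map (N.e (v, 0)) = LinearMap.range (N.e (v, 0))) ∧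
  ∀ v, v ≠ 3 → ∀ x, N.e (v, 4) x = x → N.a (N.a x) ∈ N.FB ℓ → x = 0

/-- [G5] (uses `S_G1`, `S_G2A`, `S_G2B`, `S_HYP`) The number of the lines `ℓ` at `(0, 2)` for which
`a (FB ℓ)` is a plane. Proof: let `H = R (3, 1)`, of dimension `3`, with `F` restricted to `H`;
`V = a (R (0, 2)) = {h ∈ H | e (0, 0) (a h) = 0}` has dimension `2` (`inj`, `a2`, `s2`, `dim2`).
The `F`-stable planes of `H` are counted by `S_HYP`: `(q ^ 3 - 1) / (q - 1) = q ^ 2 + q + 1`. The map
`ℓ ↦ a (FB ℓ)` is a bijection from our set of lines onto the set of `F`-stable planes of `H`, with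
inverse `H' ↦ {x ∈ R (0, 2) | a x ∈ H'}`. Indeed for an `F`-stable plane `H'` one has `H' ≠ V`:
otherwise `V` is `F`-stable and every `h ∈ V` satisfies `e (v, 0) (a h) = 0` for all leaves
(`F^i h ∈ V`), so `h = 0`; hence `H' ⊓ V` is a line, and so is `ℓ = {x ∈ R (0, 2) | a x ∈ H'}`;
`a (FB ℓ) ≤ H'` and it has dimension `≥ 2` (`S_G2B`), so it is `H'`. Conversely if
`H' = a (FB ℓ)` is a plane, it is `F`-stable and `{x ∈ R (0, 2) | a x ∈ H'}` is a line which
contains `ℓ`. -/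
def S_G5 : Prop := ∀ (K : Type) [Field K] (D : Fd K), D.r = 3 → ∀ N : FM MG sG K D,
  N.GT Set.univ (ind (EG 0)) →
  Nat.card {ℓ : Submodule K N.T // (ℓ ≤ LinearMap.range (N.e (0, 2)) ∧ finrank K ℓ = 1) ∧
    finrank K ((N.FB ℓ).map N.a) = 2} = D.q ^ 2 + D.q + 1

open Classical in
/-- The family belonging to the line `ℓ` and the dimension vector `d`. -/
noncomputable def CG {K : Type} [Field K] {D : Fd K} (N : FM MG sG K D) (d : Fin 4 × Fin 6 → ℕ)
    (ℓ : Submodule K N.T) (p : Fin 4 × Fin 6) : Submodule K N.T :=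
  if p = (3, 1) then
    (if d (3, 1) = 3 then LinearMap.range (N.e (3, 1)) else (N.FB ℓ).map N.a)
  else if p = (3, 3) then
    (if d (3, 3) = 0 then ⊥ else LinearMap.range (N.e (3, 3)) ⊓ (N.FB ℓ).comap N.a)
  else if p ∈ EG 0 then LinearMap.range (N.e p)
  else if p ∈ EG 2 then N.FB ℓ ⊓ LinearMap.range (N.e p)
  else ⊥

/-- The conditions on `d` and `ℓ`. -/
def CdG {K : Type} [Field K] {D : Fd K} (N : FM MG sG K D) (d : Fin 4 × Fin 6 → ℕ)
    (ℓ : Submodule K N.T) : Prop :=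
  (∀ p ∈ EG 0, d p = 1) ∧ (∀ p ∈ EG 2, d p = 1) ∧
  (∀ p, p ∉ EG 0 → p ∉ EG 2 → p ≠ (3, 1) → p ≠ (3, 3) → d p = 0) ∧
  ((d (3, 1) = 3 ∧ d (3, 3) = 0) ∨
    (finrank K ((N.FB ℓ).map N.a) = 2 ∧ (d (3, 1) = 2 ∨ d (3, 1) = 3) ∧
      (d (3, 3) = 0 ∨ d (3, 3) = 1)))

/-- [G6A] (uses `S_G1`, `S_G2A`, `S_G2B`) Uniqueness: a stable family with dimension vector `d`,
`d = 1` on `EG 2`, is determined by its line `ℓ = C (0, 2)`. Proof: put `ℓ = C (0, 2)`. Since
`F^i` maps `C (0, 2)` to `C (i, 2)`, `FB ℓ ⊓ R p ≤ C p` for `p ∈ EG 2`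
(elements of `FB ℓ` have their component at `(i, 2)` in `C (i, 2)`: apply the last item of `S_G2A` to
`W = ⨅ p, (C p).comap (e p)`), with equality because both have dimension `1`. Hence
`a (FB ℓ) ≤ C (3, 1)` and by (6) of `S_G2B` `C p = R p` for `p ∈ EG 0`. For `x ∈ C (3, 3)` the
components of `a x` are in `C p`, `p ∈ EG 2`, so `a x ∈ FB ℓ` (`a3`):
`C (3, 3) ≤ R (3, 3) ⊓ (FB ℓ).comap a`; for `x ∈ C (v, 4)`: `a x ∈ C (3, 3)`, so `x = 0` by (7) of
`S_G2B`. The other positions are zero (`zero`). By (4) of `S_G2B` the dimensions satisfy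
`finrank A ≤ d (3, 1) ≤ 3`, `d (3, 3) ≤ 3 - finrank A`, `finrank A ∈ {2, 3}`, which gives all the
claims. -/
def S_G6A : Prop := ∀ (K : Type) [Field K] (D : Fd K), D.r = 3 → ∀ N : FM MG sG K D,
  N.GT Set.univ (ind (EG 0)) → ∀ d : Fin 4 × Fin 6 → ℕ, (∀ p ∈ EG 2, d p = 1) →
  ∀ C : Fin 4 × Fin 6 → Submodule K N.T, N.Fam C → (∀ p, finrank K (C p) = d p) →
  C = CG N d (C (0, 2)) ∧ CdG N d (C (0, 2))

/-- [G6B] (uses `S_G1`, `S_G2A`, `S_G2B`) Existence. Proof: check the conditions of `Fam` and the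
dimensions position by position, with `S_G2A` and `S_G2B`; in the second case of `CdG` we have
`finrank (R (3, 3) ⊓ (FB ℓ).comap a) = 1`, in the first case `d (3, 1) = 3`, `d (3, 3) = 0`. For the
arrows `(3, 1) → (v, 0)`: `C (v, 0) = R (v, 0)`; `(v, 2) → (3, 1)`: `a (FB ℓ)` is contained in
`C (3, 1)`; `(3, 3) → (v, 2)`: by definition and gradedness of `FB ℓ`; all other arrows start at
positions with `C p = ⊥` or end in a component which is zero. -/
def S_G6B : Prop := ∀ (K : Type) [Field K] (D : Fd K), D.r = 3 → ∀ N : FM MG sG K D,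
  N.GT Set.univ (ind (EG 0)) → ∀ d : Fin 4 × Fin 6 → ℕ,
  ∀ ℓ : Submodule K N.T, ℓ ≤ LinearMap.range (N.e (0, 2)) → finrank K ℓ = 1 → CdG N d ℓ →
  N.Fam (CG N d ℓ) ∧ (∀ p, finrank K (CG N d ℓ p) = d p) ∧ CG N d ℓ (0, 2) = ℓ

/-- [G7] (uses `S_FAM`, `S_LN2`, `S_G1`, `S_G2A`, `S_G2B`, `S_G5`, `S_G6A`, `S_G6B`) The counts for
vectors which are `1` on `EG 2`: `C ↦ C (0, 2)` is a bijection of the stable families of dimension
`d` with the lines `ℓ ≤ R (0, 2)` with `CdG N d ℓ`. If `d (3, 1) = 3`, `d (3, 3) = 0` (and `d` is as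
in `CdG` elsewhere) all lines are allowed: `q ^ 3 + 1`; otherwise none or those with
`finrank (a (FB ℓ)) = 2`: `q ^ 2 + q + 1`. -/
def S_G7 : Prop := ∀ (K : Type) [Field K] (D : Fd K), D.r = 3 → ∀ N : FM MG sG K D,
  N.GT Set.univ (ind (EG 0)) → ∀ d : Fin 4 × Fin 6 → ℕ, (∀ p ∈ EG 2, d p = 1) →
  N.cnt d = 0 ∨ N.cnt d = D.q ^ 3 + 1 ∨ N.cnt d = D.q ^ 2 + D.q + 1

/-! ## The centre row, and the results -/

/-- [G8] (uses `S_TH1`, `S_PE0`, `S_BND`, `S_DQ3`) The centre row: there are no arrows inside, so a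
module is its own socle and the fundamental modules have dimension at most one; `S_TH1` with
`Rs = U`, then `U \ Rs = ∅`. (In the centre row every orbit is a single position; `N` vanishes
outside the window by `Good`.) -/
def S_G8 : Prop := PosC MG sG 3 LGᶜ

/-- [G9] (uses `S_BND`, `S_DQ3`) The dimensions on the leaf rows for the type `1` at `(3, k)`: at
most one. Proof: levels below `k` vanish (`S_BND`), `dm (3, k) = sc (3, k) + 0 = 1`, and
`dm (v, k) = 0` (its successor `(3, k - 1)` vanishes). Parity: the positions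
`(v, j)` with `j - k` even and `(3, j)` with `j - k` odd vanish (successively, `S_BND`).
`dm (v, k + 1) ≤ dm (3, k) = 1`. For `n ≥ k + 1`, `v, j, l` the three leaves: `dm (v, n + 2) ≤
dm (j, n)`, because `x ↦ e (j, n) (a (a x))` is injective on `R (v, n + 2)`: if this is zero, then
`y = a (a x)` has `e (v, n) y = 0` (mesh), so `y = e (l, n) y`, and `a y = 0` by the mesh relation
at `(3, n + 1)`; the socle is zero at `(l, n)`, so `y = 0`; and zero at `(3, n + 1)`, `(v, n + 2)`,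
so `x = 0`. -/
def S_G9 : Prop := ∀ (K : Type) [Field K] (D : Fd K) (k : Fin 6) (N : FM MG sG K D),
  N.GT Set.univ (ind {((3 : Fin 4), k)}) → ∀ p ∈ LG, N.toRp.dm p ≤ 1

/-- [G10] (uses `S_THN`, `S_G8`, `S_G9`) Positivity for the types at the centre: `S_THN` with
`Rs = LG` (no `τ` leaves the leaf rows). -/
def S_G10 : Prop := ∀ k : Fin 6, PosT MG sG 3 Set.univ (ind {((3 : Fin 4), k)})

/-- [G11] (uses `S_THN`, `S_G8`, `S_G1`, `S_G7`, `S_DQ1`) Positivity for the leaves at level `0`. If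
`d` is not `sG`-invariant the count is `0` (`F` maps the part of a sub at `p` bijectively to the
one at `sG p`). If `d = 1` on `EG 2` use `S_G7`. Otherwise `d ≠ 1` on `EG 2` and `S_THN` applies
with `Rs = LG` (`GFacts`: dimensions `1, 2, ≤ 1` at the levels `0, 2, 4`, zero otherwise). -/
def S_G11 : Prop := PosT MG sG 3 Set.univ (ind (EG 0))

/-- [G12] (uses `S_PEM`, `S_G10`, `S_G11`) The result: positivity for all types supported on the
leaves at level `0` and the centre at level `1`. -/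
def S_G12 : Prop := ∀ m : Fin 4 × Fin 6 → ℕ, (∀ p, p ∉ EG 0 → p ≠ (3, 1) → m p = 0) →
  PosT MG sG 3 Set.univ m

end Pool.Agent.Lib.MP_4c1f79_al
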