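import Pool.Agent.Lib.MP_4c1f79_al.DtBase
import Pool.Agent.Lib.MP_4c1f79_al.StmG2
import Pool.Agent.Lib.J4c.Root

/-! MP_4c1f79_al : the datum for type G2. -/

set_option autoImplicit false

namespace Pool.Agent.Lib.MP_4c1f79_al

open J4c

/-- Boolean adjacency of D4. -/
def adjGb (v w : Fin 4) : Bool := decide (adjG v w)

theorem okTG4 : okG 6 adjGb TG4 (fun v => v) = true := by decide +kernel

/-- The orbits: leaves `0`, centre `1`. -/
def obG (v : Fin 4) : Fin 2 := if v = 3 then 1 else 0

theorem obG_orb (v w : Fin 4) : obG v = obG w ↔ ∃ k : ℕ, w = (⇑sgG)^[k] v := by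
  constructor
  · intro h
    have h1 : ∀ v w : Fin 4, obG v = obG w → w = (⇑sgG)^[0] v ∨ w = (⇑sgG)^[1] v ∨
        w = (⇑sgG)^[2] v := by decide
    rcases h1 v w h with h | h | h
    · exact ⟨0, h⟩
    · exact ⟨1, h⟩
    · exact ⟨2, h⟩
  · rintro ⟨k, rfl⟩
    have h1 : ∀ v : Fin 4, obG (sgG v) = obG v := by decide
    induction k with
    | zero => rfl
    | succ k ih =>
      rw [Function.iterate_succ_apply', h1]
      exact ih

/-- The datum for type G2. -/
def dtG (hb : GoodForm DT.G2.form) : Dt where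
  V := Fin 4
  adj := adjG
  hs := adjG_symm
  L := 6
  L2 := by decide
  T v w k := tval (TG4 v) w k
  st v := v
  st_inj := fun _ _ h => h
  T0 v w := (okG_all okTG4 v w).1
  T1 v w := by
    rw [(okG_all okTG4 v w).2.1]
    unfold adjGb
    by_cases h : adjG w v
    · rw [if_pos (decide_eq_true h), if_pos h]
    · rw [if_neg (fun h' => h (of_decide_eq_true h')), if_neg h]
  tre v w k hk := by
    rw [(okG_all okTG4 v w).2.2.2.2 k hk]
    refine Finset.sum_congr rfl fun u _ => ?_
    unfold adjGb
    by_cases h : adjG w u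
    · rw [if_pos (decide_eq_true h), if_pos h]
    · rw [if_neg (fun h' => h (of_decide_eq_true h')), if_neg h]
  top v w := (okG_all okTG4 v w).2.2.1
  bot v w := (okG_all okTG4 v w).2.2.2.1
  ι := Fin 2
  b := DT.G2.form
  hb := hb
  σ := sgG
  r := 3
  r_pos := by decide
  ob := obG
  rep i := if i = 0 then 0 else 3
  ob_rep := by decide
  orb := obG_orb
  c i := decide (i = 1)
  bip := by decide
  adj_σ := sgG_adj
  per := by decide
  st_σ := fun _ => rfl
  diag := by decide
  off := by
    intro i j hij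
    fin_cases i <;> fin_cases j <;> first | exact absurd rfl hij | decide

end Pool.Agent.Lib.MP_4c1f79_al
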