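import Pool.Agent.Lib.MP_4c1f79_al.StmG2

/-! MP_4c1f79_al, G2 block: elementary facts about representations of a mesh quiver. -/

set_option autoImplicit false

namespace Pool.Agent.Lib.MP_4c1f79_al

namespace G2F

open Finset Module

section general

variable {P : Type} [Fintype P] {M : Mesh P} {K : Type} [Field K] (R : Rp M K)

theorem mem_rg {p : P} {x : R.T} : x ∈ LinearMap.range (R.e p) ↔ R.e p x = x := by
  constructor
  · rintro ⟨y, rfl⟩
    exact R.e_e p y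
  · intro h
    exact ⟨x, h⟩

theorem ext0 {x : R.T} (h : ∀ p, R.e p x = 0) : x = 0 := by
  rw [← R.e_sum x]
  exact Finset.sum_eq_zero fun p _ => h p

theorem ext1 {x y : R.T} (h : ∀ p, R.e p x = R.e p y) : x = y := by
  rw [← sub_eq_zero]
  exact ext0 R fun p => by rw [map_sub, h p, sub_self]

theorem e_ne' {p q : P} {x : R.T} (hx : R.e p x = x) (hpq : q ≠ p) : R.e q x = 0 := by
  rw [← hx]
  exact R.e_ne q p x hpq

theorem single {q : P} {y : R.T} (h : ∀ p, p ≠ q → R.e p y = 0) : R.e q y = y := by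
  refine ext1 R fun p => ?_
  by_cases hp : p = q
  · subst hp
    exact R.e_e p y
  · rw [R.e_ne p q y hp, h p hp]

theorem a_ar' {p q : P} {x : R.T} (hx : R.e p x = x) (h : ¬ M.Ar p q) : R.e q (R.a x) = 0 := by
  rw [← hx]
  exact R.a_ar p q x h

theorem mesh' {p r : P} {x : R.T} (hx : R.e p x = x) (h : M.Tau p r) :
    R.e r (R.a (R.a x)) = 0 := by
  rw [← hx]
  exact R.mesh p r x h

theorem a_eq {p q : P} {x : R.T} (hx : R.e p x = x) (h : ∀ r, M.Ar p r → r = q) :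
    R.e q (R.a x) = R.a x :=
  single R fun r hr => a_ar' R hx fun h' => hr (h r h')

/-- Comparison of dimensions. -/
theorem dm_le {p q : P} (f : R.T →ₗ[K] R.T) (h1 : ∀ x, R.e p x = x → R.e q (f x) = f x)
    (h2 : ∀ x, R.e p x = x → f x = 0 → x = 0) : R.dm p ≤ R.dm q := by
  unfold Rp.dm
  have h : ∀ x : LinearMap.range (R.e p), f x.1 ∈ LinearMap.range (R.e q) := fun x =>
    (mem_rg R).mpr (h1 _ ((mem_rg R).mp x.2))
  let g : LinearMap.range (R.e p) →ₗ[K] LinearMap.range (R.e q) :=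
    LinearMap.codRestrict _ (f.comp (Submodule.subtype _)) h
  refine LinearMap.finrank_le_finrank_of_injective (f := g) ?_
  rw [← LinearMap.ker_eq_bot, LinearMap.ker_eq_bot']
  intro x hx
  exact Subtype.ext (h2 _ ((mem_rg R).mp x.2) (congrArg Subtype.val hx))

theorem dm_zero {p : P} : R.dm p = 0 ↔ ∀ x, R.e p x = 0 := by
  unfold Rp.dm
  rw [Submodule.finrank_eq_zero, LinearMap.range_eq_bot]
  exact ⟨fun h x => by rw [h]; rfl, fun h => LinearMap.ext h⟩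

theorem sc_zero {p : P} : R.sc p = 0 ↔ ∀ x, R.e p x = x → R.a x = 0 → x = 0 := by
  unfold Rp.sc
  rw [Submodule.finrank_eq_zero, Submodule.eq_bot_iff]
  constructor
  · intro h x hx hx'
    exact h x ⟨(mem_rg R).mpr hx, hx'⟩
  · intro h x hx
    exact h x ((mem_rg R).mp hx.1) hx.2

theorem dm_eq_sc {p : P} (h : ∀ x, R.e p x = x → R.a x = 0) : R.dm p = R.sc p := by
  unfold Rp.dm Rp.sc
  have h1 : LinearMap.range (R.e p) ≤ LinearMap.ker R.a := fun x hx => h x ((mem_rg R).mp hx)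
  rw [inf_eq_left.mpr h1]

end general

/-! ### Arrows of `MG` -/

theorem ar_leaf {v : Fin 4} {k j : Fin 6} {q : Fin 4 × Fin 6} (hv : v ≠ 3)
    (hk : (k : ℕ) = j + 1) (h : MG.Ar (v, k) q) : q = (3, j) := by
  obtain ⟨h1, h2⟩ := h
  obtain ⟨w, i⟩ := q
  have hw : w = 3 := by
    by_contra hw
    exact h1 (iff_of_false hv hw)
  subst hw
  have : i = j := Fin.ext (by simp only at h2; omega)
  rw [this]

theorem ar_cen {k j : Fin 6} {q : Fin 4 × Fin 6} (hk : (k : ℕ) = j + 1)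
    (h : MG.Ar (3, k) q) : q ∈ EG j := by
  obtain ⟨h1, h2⟩ := h
  obtain ⟨w, i⟩ := q
  refine ⟨fun hw => h1 (iff_of_true rfl hw), Fin.ext ?_⟩
  change (k : ℕ) = i + 1 at h2
  change (i : ℕ) = j
  omega

theorem ar_cen' {k j : Fin 6} {v : Fin 4} (hv : v ≠ 3) (hk : (k : ℕ) = j + 1) :
    MG.Ar (3, k) (v, j) :=
  ⟨fun h => hv (h.mp rfl), hk⟩

theorem ar_leaf' {k j : Fin 6} {v : Fin 4} (hv : v ≠ 3) (hk : (k : ℕ) = j + 1) :
    MG.Ar (v, k) (3, j) :=
  ⟨fun h => hv (h.mpr rfl), hk⟩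

theorem ar_zero {v : Fin 4} {q : Fin 4 × Fin 6} : ¬ MG.Ar (v, 0) q := by
  rintro ⟨_, h⟩
  simp at h

theorem tau_mk {v : Fin 4} {k j : Fin 6} (hk : (k : ℕ) = j + 2) : MG.Tau (v, k) (v, j) :=
  ⟨rfl, hk⟩

theorem tau_eq {v : Fin 4} {k j : Fin 6} {q : Fin 4 × Fin 6} (hk : (k : ℕ) = j + 2)
    (h : MG.Tau (v, k) q) : q = (v, j) :=
  MG.tau_fun _ _ _ h (tau_mk hk)

section rep

variable {K : Type} [Field K] (R : Rp MG K)

theorem kill (v : Fin 4) (x : R.T) : R.a (R.e (v, 0) x) = 0 :=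
  ext0 R fun q => R.a_ar (v, 0) q x ar_zero

theorem a_leaf {v : Fin 4} {k j : Fin 6} (hv : v ≠ 3) (hk : (k : ℕ) = j + 1) {x : R.T}
    (hx : R.e (v, k) x = x) : R.e (3, j) (R.a x) = R.a x :=
  a_eq R hx fun _ h => ar_leaf hv hk h

theorem a_cen {k j : Fin 6} (hk : (k : ℕ) = j + 1) {x : R.T} (hx : R.e (3, k) x = x)
    {p : Fin 4 × Fin 6} (hp : p ∉ EG j) : R.e p (R.a x) = 0 :=
  a_ar' R hx fun h => hp (ar_cen hk h)

/-- Three leaves. -/
theorem three {v : Fin 4} (hv : v ≠ 3) : ∃ j l : Fin 4, j ≠ 3 ∧ l ≠ 3 ∧ v ≠ j ∧ v ≠ l ∧ j ≠ l ∧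
    ∀ w : Fin 4, w ≠ 3 → w = v ∨ w = j ∨ w = l := by
  revert v
  decide

/-- The leaf step: the dimension at `(v, n + 2)` is at most the one at `(j, n)`. -/
theorem leaf_step {v j l : Fin 4} (hv : v ≠ 3) (hj : j ≠ 3) (hl : l ≠ 3) (hvj : v ≠ j)
    (hvl : v ≠ l) (hjl : j ≠ l) (hall : ∀ w : Fin 4, w ≠ 3 → w = v ∨ w = j ∨ w = l)
    {k m n : Fin 6} (hk : (k : ℕ) = m + 1) (hm : (m : ℕ) = n + 1) (h1 : R.sc (v, k) = 0)
    (h2 : R.sc (3, m) = 0) (h3 : R.sc (l, n) = 0) : R.dm (v, k) ≤ R.dm (j, n) := by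
  refine dm_le R (R.e (j, n) ∘ₗ R.a ∘ₗ R.a) (fun x _ => R.e_e _ _) fun x hx h0 => ?_
  have hz : R.e (3, m) (R.a x) = R.a x := a_leaf R hv hk hx
  have hv0 : R.e (v, n) (R.a (R.a x)) = 0 := mesh' R hx (tau_mk (by omega))
  have hy : R.e (l, n) (R.a (R.a x)) = R.a (R.a x) := by
    refine single R fun p hp => ?_
    by_cases hpn : p ∈ EG n
    · obtain ⟨w, i⟩ := p
      obtain ⟨hw, hi⟩ := hpn
      simp only at hw hi
      subst hi
      rcases hall w hw with rfl | rfl | rfl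
      · exact hv0
      · exact h0
      · exact absurd rfl hp
    · exact a_cen R hm hz hpn
  have hy0 : R.a (R.a (R.a x)) = 0 := by
    by_cases hn : (n : ℕ) = 0
    · have hn' : n = 0 := Fin.ext hn
      subst hn'
      rw [← hy]
      exact kill R l _
    · have hi : ((n : ℕ) - 1) < 6 := by omega
      have h4 : R.e (3, ⟨n - 1, hi⟩) (R.a (R.a (R.a x))) = R.a (R.a (R.a x)) :=
        a_leaf R hl (by simp only; omega) hy
      rw [← h4]
      exact mesh' R hz (tau_mk (by simp only; omega))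
  have hy1 := (sc_zero R).mp h3 _ hy hy0
  have hz1 := (sc_zero R).mp h2 _ hz hy1
  exact (sc_zero R).mp h1 _ hx hz1

theorem zl {v : Fin 4} {k j : Fin 6} (hv : v ≠ 3) (hk : (k : ℕ) = j + 1)
    (h0 : ∀ x, R.e (3, j) x = 0) (hs : R.sc (v, k) = 0) (x : R.T) : R.e (v, k) x = 0 := by
  refine (sc_zero R).mp hs _ (R.e_e _ _) ?_
  rw [← a_leaf R hv hk (R.e_e _ x)]
  exact h0 _

theorem zz {v : Fin 4} (hs : R.sc (v, 0) = 0) (x : R.T) : R.e (v, 0) x = 0 :=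
  (sc_zero R).mp hs _ (R.e_e _ _) (kill R v x)

theorem zc {k j : Fin 6} (hk : (k : ℕ) = j + 1) (h0 : ∀ v, v ≠ 3 → ∀ x, R.e (v, j) x = 0)
    (hs : R.sc (3, k) = 0) (x : R.T) : R.e (3, k) x = 0 := by
  refine (sc_zero R).mp hs _ (R.e_e _ _) (ext0 R fun p => ?_)
  by_cases hp : p ∈ EG j
  · obtain ⟨w, i⟩ := p
    obtain ⟨hw, hi⟩ := hp
    simp only at hw hi
    subst hi
    exact h0 w hw _
  · exact a_cen R hk (R.e_e _ x) hp

/-- `a (a x) = 0` for `x` at the centre. -/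
theorem aa_cen {k m j : Fin 6} (hk : (k : ℕ) = m + 1) (hm : (m : ℕ) = j + 1) {x : R.T}
    (hx : R.e (3, k) x = x) : R.a (R.a x) = 0 := by
  refine ext0 R fun q => ?_
  by_cases hq : q = (3, j)
  · subst hq
    exact mesh' R hx (tau_mk (by omega))
  · rw [← R.e_sum (R.a x), map_sum, map_sum]
    refine Finset.sum_eq_zero fun p _ => ?_
    by_cases hp : p ∈ EG m
    · obtain ⟨w, i⟩ := p
      obtain ⟨hw, hi⟩ := hp
      simp only at hw hi
      subst hi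
      exact R.a_ar _ q _ fun h => hq (ar_leaf hw hm h)
    · rw [a_cen R hk hx hp, map_zero, map_zero]

/-- Third leaf. -/
theorem third {v j : Fin 4} (hv : v ≠ 3) (hj : j ≠ 3) (hvj : v ≠ j) : ∃ l : Fin 4, l ≠ 3 ∧
    v ≠ l ∧ j ≠ l ∧ ∀ w : Fin 4, w ≠ 3 → w = v ∨ w = j ∨ w = l := by
  revert v j
  decide

theorem split3 {v j l : Fin 4} (hvj : v ≠ j) (hvl : v ≠ l) (hjl : j ≠ l)
    (hall : ∀ w : Fin 4, w ≠ 3 → w = v ∨ w = j ∨ w = l) {k : Fin 6} {y : R.T}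
    (hy : ∀ p, p ∉ EG k → R.e p y = 0) : y = R.e (v, k) y + R.e (j, k) y + R.e (l, k) y := by
  have hne : ∀ {a b : Fin 4}, a ≠ b → ((a, k) : Fin 4 × Fin 6) ≠ (b, k) :=
    fun h h' => h (congrArg Prod.fst h')
  refine ext1 R fun p => ?_
  rw [map_add, map_add]
  by_cases hp : p ∈ EG k
  · obtain ⟨w, i⟩ := p
    obtain ⟨hw, hi⟩ := hp
    simp only at hw hi
    subst hi
    rcases hall w hw with rfl | rfl | rfl
    · rw [R.e_e, R.e_ne _ _ _ (hne hvj), R.e_ne _ _ _ (hne hvl), add_zero, add_zero]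
    · rw [R.e_e, R.e_ne _ _ _ (hne hvj.symm), R.e_ne _ _ _ (hne hjl), zero_add, add_zero]
    · rw [R.e_e, R.e_ne _ _ _ (hne hvl.symm), R.e_ne _ _ _ (hne hjl.symm), zero_add, zero_add]
  · have h0 : ∀ w : Fin 4, R.e p (R.e (w, k) y) = 0 := by
      intro w
      by_cases hw : p = (w, k)
      · rw [← hw, R.e_e]
        exact hy p hp
      · exact R.e_ne _ _ _ hw
    rw [hy p hp, h0, h0, h0, add_zero, add_zero]

end rep

end G2F

end Pool.Agent.Lib.MP_4c1f79_al
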