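import Pool.Agent.Lib.MP_4c1f79_al.P.P_LD
import Pool.Agent.Lib.MP_4c1f79_al.P.P_DQ1
import Pool.Agent.Lib.MP_4c1f79_al.P.P_DQ2
import Pool.Agent.Lib.MP_4c1f79_al.P.P_DQ3
import Pool.Agent.Lib.MP_4c1f79_al.P.P_H2
import Pool.Agent.Lib.MP_4c1f79_al.P.P_H1
import Pool.Agent.Lib.MP_4c1f79_al.P.P_H1Q
import Pool.Agent.Lib.MP_4c1f79_al.P.P_EUL
import Pool.Agent.Lib.MP_4c1f79_al.P.P_HD
import Pool.Agent.Lib.MP_4c1f79_al.P.P_DES
import Pool.Agent.Lib.MP_4c1f79_al.P.P_TRC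
import Pool.Agent.Lib.MP_4c1f79_al.P.P_HF
import Pool.Agent.Lib.MP_4c1f79_al.P.P_FIB
import Pool.Agent.Lib.MP_4c1f79_al.P.P_SPL
import Pool.Agent.Lib.MP_4c1f79_al.P.P_SPC
import Pool.Agent.Lib.MP_4c1f79_al.P.P_ISO
import Pool.Agent.Lib.MP_4c1f79_al.P.P_EXT
import Pool.Agent.Lib.MP_4c1f79_al.P.P_EXF
import Pool.Agent.Lib.MP_4c1f79_al.P.P_FUN
import Pool.Agent.Lib.MP_4c1f79_al.P.P_EXM
import Pool.Agent.Lib.MP_4c1f79_al.P.P_SOC
import Pool.Agent.Lib.MP_4c1f79_al.P.P_PEE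
import Pool.Agent.Lib.MP_4c1f79_al.P.P_UNI
import Pool.Agent.Lib.MP_4c1f79_al.P.P_MON
import Pool.Agent.Lib.MP_4c1f79_al.P.P_BND
import Pool.Agent.Lib.MP_4c1f79_al.P.P_CCD
import Pool.Agent.Lib.MP_4c1f79_al.P.P_CSP
import Pool.Agent.Lib.MP_4c1f79_al.P.P_RPE
import Pool.Agent.Lib.MP_4c1f79_al.P.P_PEM
import Pool.Agent.Lib.MP_4c1f79_al.P.P_GC1
import Pool.Agent.Lib.MP_4c1f79_al.P.P_GC2
import Pool.Agent.Lib.MP_4c1f79_al.P.P_GC3
import Pool.Agent.Lib.MP_4c1f79_al.P.P_GC4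
import Pool.Agent.Lib.MP_4c1f79_al.P.P_RST
import Pool.Agent.Lib.MP_4c1f79_al.P.P_THN
import Pool.Agent.Lib.MP_4c1f79_al.P.P_TH1
import Pool.Agent.Lib.MP_4c1f79_al.P.P_PE0
import Pool.Agent.Lib.MP_4c1f79_al.P.P_BRK
import Pool.Agent.Lib.MP_4c1f79_al.P.P_DIM
import Pool.Agent.Lib.MP_4c1f79_al.P.P_TAB
import Pool.Agent.Lib.MP_4c1f79_al.P.P_TPU
import Pool.Agent.Lib.MP_4c1f79_al.P.P_SOE
import Pool.Agent.Lib.MP_4c1f79_al.P.P_DMS
import Pool.Agent.Lib.MP_4c1f79_al.P.P_EMB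
import Pool.Agent.Lib.MP_4c1f79_al.P.P_TOR
import Pool.Agent.Lib.MP_4c1f79_al.P.P_CR1
import Pool.Agent.Lib.MP_4c1f79_al.P.P_CR2
import Pool.Agent.Lib.MP_4c1f79_al.P.P_COR
import Pool.Agent.Lib.MP_4c1f79_al.P.P_COA
import Pool.Agent.Lib.MP_4c1f79_al.P.P_TBB
import Pool.Agent.Lib.MP_4c1f79_al.P.P_TBM

/-! MP_4c1f79_al : all general statements, without hypotheses. -/

set_option autoImplicit false

namespace Pool.Agent.Lib.MP_4c1f79_al

theorem base_LD : S_LD := LD_holds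

theorem base_DQ1 : S_DQ1 := DQ1_holds

theorem base_DQ2 : S_DQ2 := DQ2_holds

theorem base_DQ3 : S_DQ3 := DQ3_holds

theorem base_H2 : S_H2 := H2_holds

theorem base_H1 : S_H1 := H1_holds

theorem base_H1Q : S_H1Q := H1Q_holds base_H2 base_H1 base_DQ1

theorem base_EUL : S_EUL := EUL_holds base_LD

theorem base_HD : S_HD := HD_holds base_EUL base_H1Q base_H2 base_DQ1

theorem base_DES : S_DES := DES_holds

theorem base_TRC : S_TRC := TRC_holds

theorem base_HF : S_HF := HF_holds base_DES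

theorem base_FIB : S_FIB := FIB_holds

theorem base_SPL : S_SPL := SPL_holds base_FIB base_HF base_HD base_DQ1 base_DQ3

theorem base_SPC : S_SPC := SPC_holds base_SPL base_DQ2

theorem base_ISO : S_ISO := ISO_holds

theorem base_EXT : S_EXT := EXT_holds

theorem base_EXF : S_EXF := EXF_holds base_EXT base_TRC

theorem base_FUN : S_FUN := FUN_holds

theorem base_EXM : S_EXM := EXM_holds base_FUN base_DQ2

theorem base_SOC : S_SOC := SOC_holds base_DQ3

theorem base_PEE : S_PEE := PEE_holds base_EXF base_DES base_SOC base_ISO base_DQ2 base_DQ3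

theorem base_UNI : S_UNI := UNI_holds base_PEE base_FUN base_ISO base_DQ3

theorem base_MON : S_MON := MON_holds base_EXT base_DQ3

theorem base_BND : S_BND := BND_holds

theorem base_CCD : S_CCD := CCD_holds base_UNI base_ISO

theorem base_CSP : S_CSP := CSP_holds base_CCD base_EXM base_SPC base_DQ2

theorem base_RPE : S_RPE := RPE_holds base_EXM

theorem base_PEM : S_PEM := PEM_holds base_SPC base_PEE base_FUN base_ISO base_BND base_DQ3

theorem base_GC1 : S_GC1 := GC1_holds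

theorem base_GC2 : S_GC2 := GC2_holds base_GC1 base_DQ1

theorem base_GC3 : S_GC3 := GC3_holds base_GC1 base_DQ1 base_DQ3

theorem base_GC4 : S_GC4 := GC4_holds base_GC1 base_DQ1 base_DQ3

theorem base_RST : S_RST := RST_holds base_GC1 base_GC2 base_GC3 base_GC4

theorem base_THN : S_THN := THN_holds base_RST base_BND base_SOC base_DQ1 base_DQ3

theorem base_TH1 : S_TH1 := TH1_holds base_THN base_PEM

theorem base_PE0 : S_PE0 := PE0_holds

theorem base_BRK : S_BRK := BRK_holds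

theorem base_DIM : S_DIM := DIM_holds

theorem base_TAB : S_TAB := TAB_holds base_BRK base_DIM base_BND base_DQ3

theorem base_TPU : S_TPU := TPU_holds base_BRK base_DIM base_BND base_DQ1 base_DQ3

theorem base_SOE : S_SOE := SOE_holds base_DIM

theorem base_DMS : S_DMS := DMS_holds base_MON base_DQ2

theorem base_EMB : S_EMB := EMB_holds base_EXF base_DES base_SOC base_DQ3

theorem base_TOR : S_TOR := TOR_holds

theorem base_CR1 : S_CR1 := CR1_holds base_GC1 base_GC2 base_GC3 base_UNI base_EMB base_BND base_DQ1 base_DQ3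

theorem base_CR2 : S_CR2 := CR2_holds base_CR1 base_TOR base_FIB base_HF base_ISO base_DQ1 base_DQ2 base_DQ3

theorem base_COR : S_COR := COR_holds base_CR2

theorem base_COA : S_COA := COA_holds base_COR base_SPC base_UNI base_EXM base_ISO base_BND base_DQ2

theorem base_TBB : S_TBB := TBB_holds base_TAB base_BND

theorem base_TBM : S_TBM := TBM_holds base_TBB base_RPE base_DMS

end Pool.Agent.Lib.MP_4c1f79_al
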