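import Pool.Agent.Lib.MP_4c1f79_al.StmG
import Pool.Agent.Lib.J4c.NumStm

/-!
# MP_4c1f79_al : the link (section 5 and 6 of the paper proof)

From the positivity of the counts of the good modules of the types `typ a` (folded graph, with
`h = L` levels) to `NumPos b`. Everything is relative to a datum `X : Dt`. We write `q = D.q`.
-/

set_option autoImplicit false

namespace Pool.Agent.Lib.MP_4c1f79_al

open Finset Module

/-- The datum: a graph `adj` on `V` with Coxeter number `L`, its dimension tables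
(`T v w k` = dimension at `(w, k)` of the module with socle `(v, 0)`), the folding `σ` with
`σ ^ r = 1`, the orbits `ι`, the form `b` on `ι`, and the bipartition `c` (`true` = level `1`,
`false` = level `0`). -/
structure Dt where
  V : Type
  [fV : Fintype V]
  [dV : DecidableEq V]
  adj : V → V → Prop
  [dA : DecidableRel adj]
  hs : ∀ v w, adj v w → adj w v
  L : ℕ
  L2 : 2 ≤ L
  T : V → V → ℕ → ℕ
  st : V → V
  st_inj : Function.Injective st
  T0 : ∀ v w, T v w 0 = if w = v then 1 else 0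
  T1 : ∀ v w, T v w 1 = if adj w v then 1 else 0
  tre : ∀ v w k, k + 2 < L → T v w (k + 2) + T v w k = ∑ u, if adj w u then T v u (k + 1) else 0
  top : ∀ v w, T v w (L - 2) = if w = st v then 1 else 0
  bot : ∀ v w, T v w (L - 1) = 0
  ι : Type
  [fι : Fintype ι]
  [dι : DecidableEq ι]
  b : ι → ι → ℤ
  hb : J4c.GoodForm b
  σ : Equiv.Perm V
  r : ℕ
  r_pos : 0 < r
  ob : V → ι
  rep : ι → V
  ob_rep : ∀ i, ob (rep i) = i
  orb : ∀ v w, ob v = ob w ↔ ∃ k : ℕ, w = (⇑σ)^[k] v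
  c : ι → Bool
  bip : ∀ v w, adj v w → c (ob v) ≠ c (ob w)
  adj_σ : ∀ v w, adj (σ v) (σ w) ↔ adj v w
  per : ∀ v, (⇑σ)^[r] v = v
  st_σ : ∀ v, st (σ v) = σ (st v)
  diag : ∀ i, b i i = 2 * ((Finset.univ.filter fun v => ob v = i).card : ℤ)
  off : ∀ i j, i ≠ j →
    b i j = - ((Finset.univ.filter fun p : V × V => ob p.1 = i ∧ ob p.2 = j ∧ adj p.1 p.2).card : ℤ)

attribute [instance] Dt.fV Dt.dV Dt.dA Dt.fι Dt.dι

namespace Dt

variable (X : Dt)

/-- Positions. -/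
abbrev P : Type := X.V × Fin X.L

/-- The mesh quiver. -/
def M : Mesh X.P := grid X.adj X.hs X.L

/-- The permutation of the positions. -/
def s : Equiv.Perm X.P := gperm X.σ X.L

theorem adm : Adm X.M X.s X.r Set.univ where
  sym := grid_sym X.adj X.hs X.L X.σ X.adj_σ
  per := by
    rintro ⟨v, k⟩
    have h : ∀ n : ℕ, (⇑X.s)^[n] (v, k) = ((⇑X.σ)^[n] v, k) := by
      intro n
      induction n with
      | zero => rfl
      | succ n ih =>
        rw [Function.iterate_succ_apply', Function.iterate_succ_apply', ih]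
        rfl
    rw [h, X.per]
  stab _ := by simp

/-- Dimension vector for the socle `(v, 0)`. -/
def D0 (v : X.V) (p : X.P) : ℕ := X.T v p.1 p.2

/-- Dimension vector for the socle `(v, 1)`. -/
def D1 (v : X.V) (p : X.P) : ℕ := if (p.2 : ℕ) = 0 then 0 else X.T v p.1 (p.2 - 1)

/-- The type `a` on the vertices of `X` (level `1`). -/
def tX (a : X.ι → ℕ) (p : X.P) : ℕ :=
  if (p.2 : ℕ) = 1 ∧ X.c (X.ob p.1) = true then a (X.ob p.1) else 0

/-- The type `a` on the vertices of `Y` (level `0`). -/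
def tY (a : X.ι → ℕ) (p : X.P) : ℕ :=
  if (p.2 : ℕ) = 0 ∧ X.c (X.ob p.1) = false then a (X.ob p.1) else 0

/-- The type of `I(a) ⊕ P(a)`. -/
def typ (a : X.ι → ℕ) (p : X.P) : ℕ := X.tX a p + X.tY a p

/-- The dimension vector of `I(a)`. -/
def dX (a : X.ι → ℕ) (p : X.P) : ℕ :=
  ∑ v, if X.c (X.ob v) = true then a (X.ob v) * X.D1 v p else 0

/-- The dimension vector `δ_a` of `P(a)`. -/
def dY (a : X.ι → ℕ) (p : X.P) : ℕ :=
  ∑ v, if X.c (X.ob v) = false then a (X.ob v) * X.D0 v p else 0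

/-- The socle position of the orbit `i` (for `c i = true`). -/
def pX (i : X.ι) : X.P := (X.rep i, ⟨1, by have := X.L2; omega⟩)

/-- The top position of the orbit `i` (for `c i = false`). -/
def pY (i : X.ι) : X.P := (X.st (X.rep i), ⟨X.L - 2, by have := X.L2; omega⟩)

/-- The marked position. -/
def pos (i : X.ι) : X.P := if X.c i = true then X.pX i else X.pY i

/-- The counting function of `I(a)`. -/
noncomputable def ZX (K : Type) [Field K] (D : Fd K) (a : X.ι → ℕ) (N : X.P → ℕ) : ℕ :=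
  Cc X.M X.s K D Set.univ (X.tX a) N

open Classical in
/-- The counting function of `P(a)` by codimension. -/
noncomputable def ZY (K : Type) [Field K] (D : Fd K) (a : X.ι → ℕ) (N : X.P → ℕ) : ℕ :=
  if N ≤ X.dY a then Cc X.M X.s K D Set.univ (X.tY a) (X.dY a - N) else 0

end Dt

/-! ## Numerical facts -/

/-- [IEU] The Euler form. Proof: `eul x y = ∑ p, x p * (y p - ∑_{Ar p q} y q + ∑_{Tau p r} y r)`; for
`y = D1 v` and `p = (w, k)` the bracket is `[p = (v, 1)]`: for `k = 0` it is `0`; for `k = 1` it is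
`T v w 0`; for `k = 2` it is `T v w 1 - ∑_{u ~ w} T v u 0 = 0`; for `k ≥ 3` use `tre` (index `k - 3`;
`k ≤ L - 1`). And `eul y x = ∑ q, x q * (y q - ∑_{Ar p q} y p + ∑_{Tau p q} y p)`; for `y = D0 v` and
`q = (w, k)`: for `k + 2 ≤ L - 1` it is `0` by `tre` (the `p` with `Ar p q` are the
`(u, k + 1)`, `u ~ w`); for `k = L - 2` it is `T v w (L - 2) - ∑ T v u (L - 1) = [w = st v]` (there
is no `p` with `Tau p q`), for `k = L - 1` it is `T v w (L - 1) = 0`. -/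
def S_IEU : Prop := ∀ (X : Dt) (v : X.V) (x : X.P → ℤ),
  eul X.M x (fun p => (X.D1 v p : ℤ)) = x (v, ⟨1, by have := X.L2; omega⟩) ∧
  eul X.M (fun p => (X.D0 v p : ℤ)) x = x (X.st v, ⟨X.L - 2, by have := X.L2; omega⟩)

/-- [IBE] `e(a)`. Proof: `bq b a = (∑ b_ij a_i a_j) / 2`, `∑ bd_i a_i² = ∑ b_ii a_i² / 2`, and
`b_ij = - (number of edges between the orbits i and j)` for `i ≠ j`; there are no edges inside
an orbit, nor between orbits with the same `c`; so `e(a) = (1/2) ∑_{i ≠ j} (-b_ij) a_i a_j` is the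
sum over the pairs `(v, w)` with `v ~ w`, `c (ob v) = true` (half of the ordered edges, the swap
exchanges the two halves). Use `GoodForm` to see that `(∑ b_ij a_i a_j) / 2 ≥ 0` (`bq_pos`: for
`a ≠ 0` the `toNat` is positive) and that `bq b a ≤ ∑ bd_i a_i²`. -/
def S_IBE : Prop := ∀ (X : Dt) (a : X.ι → ℕ), (J4c.be X.b a : ℤ)
  = ∑ v, ∑ w, if X.c (X.ob v) = true ∧ X.adj v w then (a (X.ob v) : ℤ) * a (X.ob w) else 0

/-- [INM] Numerical facts on the vectors `tX`, `tY`, `dX`, `dY`: invariance under `s`, additivity, values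
at the marked positions. (`ob (σ v) = ob v` by `orb`; `T (σ v) (σ w) k = T v w k` for `k < L` by
induction from `tre`, or only: `dX`, `dY` are invariant because of this; `bd b i` is the number of
elements of the orbit; `st (rep j) = st v` iff `v = rep j`.) -/
def S_INM : Prop := ∀ (X : Dt),
  (∀ v w k, k < X.L → X.T (X.σ v) (X.σ w) k = X.T v w k) ∧
  (∀ i, J4c.bd X.b i = (Finset.univ.filter fun v => X.ob v = i).card) ∧
  (∀ (a : X.ι → ℕ) (p : X.P), X.tX a (X.s p) = X.tX a p ∧ X.tY a (X.s p) = X.tY a p ∧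
    X.dX a (X.s p) = X.dX a p ∧ X.dY a (X.s p) = X.dY a p) ∧
  (∀ (a a' : X.ι → ℕ) (p : X.P), X.tX (a + a') p = X.tX a p + X.tX a' p ∧
    X.tY (a + a') p = X.tY a p + X.tY a' p ∧ X.dX (a + a') p = X.dX a p + X.dX a' p ∧
    X.dY (a + a') p = X.dY a p + X.dY a' p) ∧
  (∀ (a : X.ι → ℕ) (i : X.ι), X.c i = true → X.dX a (X.pX i) = a i) ∧
  (∀ (a : X.ι → ℕ) (i : X.ι), X.c i = false → X.dY a (X.pY i) = a i) ∧
  (∀ (a : X.ι → ℕ) (v : X.V), X.c (X.ob v) = true → X.dY a (v, ⟨1, by have := X.L2; omega⟩)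
    = ∑ w, if X.adj v w then a (X.ob w) else 0) ∧
  (∀ (x : X.P → ℕ), (∀ p, x (X.s p) = x p) → ∀ v k, x (v, k) = x (X.rep (X.ob v), k)) ∧
  (∀ (x : X.P → ℕ), (∀ p, x (X.s p) = x p) → ∀ v k,
    x (X.st v, k) = x (X.st (X.rep (X.ob v)), k))

/-- [IEX] (uses `S_IEU`, `S_INM`) The Euler form with `dX a`, `dY a`, for `s`-invariant `x`.
Proof: `S_IEU` and linearity, then group the vertices by orbits (`bd b i` elements each). -/
def S_IEX : Prop := ∀ (X : Dt) (a : X.ι → ℕ) (x : X.P → ℤ), (∀ p, x (X.s p) = x p) →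
  eul X.M x (fun p => (X.dX a p : ℤ))
    = ∑ i, (if X.c i = true then (J4c.bd X.b i : ℤ) * a i * x (X.pX i) else 0) ∧
  eul X.M (fun p => (X.dY a p : ℤ)) x
    = ∑ i, (if X.c i = false then (J4c.bd X.b i : ℤ) * a i * x (X.pY i) else 0)

/-! ## Modules -/

/-- [IDM] (uses `S_TAB`) The modules with simple socle at level `0` or `1` have the dimension vectors
`D0`, `D1`. Proof: `S_TAB` with `k₀ = L - 1`, `U = univ` (`NoCut` is clear), and the recursion. -/
def S_IDM : Prop := ∀ (X : Dt) (K : Type) [Field K] (R : Rp X.M K) (v : X.V), R.Good Set.univ →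
  ((∀ p, R.sc p = ind {(v, ⟨0, by have := X.L2; omega⟩)} p) → ∀ p, R.dm p = X.D0 v p) ∧
  ((∀ p, R.sc p = ind {(v, ⟨1, by have := X.L2; omega⟩)} p) → ∀ p, R.dm p = X.D1 v p)

/-- [IDD] (uses `S_IDM`, `S_RPE`, `S_DMS`, `S_EXM`, `S_CCD`, `S_INM`) The dimension vectors of `I(a)`,
`P(a)`. Proof: choose `Ru u` by `S_RPE` for every `u`, apply `S_DMS`; only `u` of level `1` (resp.
`0`) have `sc u ≠ 0`, and `S_IDM` gives `dm (Ru u)`. (`K` is finite by `D.card_K`.) For `Dd` use a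
module from `S_EXM` and `S_CCD`. -/
def S_IDD : Prop := ∀ (X : Dt) (K : Type) [Field K] (D : Fd K), D.r = X.r → ∀ a : X.ι → ℕ,
  (∀ N : FM X.M X.s K D, N.GT Set.univ (X.tX a) → ∀ p, N.toRp.dm p = X.dX a p) ∧
  (∀ N : FM X.M X.s K D, N.GT Set.univ (X.tY a) → ∀ p, N.toRp.dm p = X.dY a p) ∧
  (∀ p, Dd X.M X.s K D Set.univ (X.tX a) p = X.dX a p) ∧
  (∀ p, Dd X.M X.s K D Set.univ (X.tY a) p = X.dY a p)

/-- [IBA] (uses `S_CCD`, `S_EXM`, `S_DQ1`, `S_DQ3`) Basic facts on the canonical counts. (The subs of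
dimension `0`, resp. of full dimension, are `⊥`, resp. `⊤`; `dmS W (s p) = dmS W p` because the
injective map `F` maps `W.map (e p)` into `W.map (e (s p))`, and `s ^ r = 1`: see the proof of
`G11_inv` in `P_G11.lean`.) -/
def S_IBA : Prop := ∀ (P : Type) [Fintype P] (M : Mesh P) (s : Equiv.Perm P) (K : Type) [Field K]
  (D : Fd K), Adm M s D.r Set.univ → ∀ m : P → ℕ, (∀ p, m (s p) = m p) →
  (∀ N, Cc M s K D Set.univ m N ≠ 0 → (∀ p, N p ≤ Dd M s K D Set.univ m p) ∧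
    ∀ p, N (s p) = N p) ∧
  Cc M s K D Set.univ m 0 = 1 ∧ Cc M s K D Set.univ m (Dd M s K D Set.univ m) = 1 ∧
  ((∀ p, m p = 0) → ∀ p, Dd M s K D Set.univ m p = 0)

/-- [ONT] If the numbers fit, the map is onto. Proof: `R.a` maps `R(p)` onto the kernel of
`z ↦ e r (a z)` on the sum of the `R(q)`, `Ar p q` (goodness at `p`, `tau_fun`), so this kernel has
dimension `dm p - sc p`, and the image has dimension `sA M dm p - (dm p - sc p) = dm r`. (Compare
the proof of `S_DIM`, file `P_DIM.lean`.) -/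
def S_ONT : Prop := ∀ (P : Type) [Fintype P] (M : Mesh P) (K : Type) [Field K] (R : Rp M K)
  (p r : P), R.GoodAt p → M.Tau p r → R.dm p + R.dm r = R.sc p + sA M R.dm p → R.Onto r

/-- [GEN] (uses `S_ONT`, `S_IDD`) `P(a)` is generated by its level `L - 2`. Proof: downward induction on
the level `k`: `W` contains all components of level `≥ k`. Level `L - 1` is zero (`bot`), level
`L - 2` is the hypothesis. For `r = (w, k)`, `k ≤ L - 3`: `p = (w, k + 2)`, `sc p = 0`, and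
`dm p + dm r = sA M dm p` by `tre` (`dm = dY a`), so `Onto r` by `S_ONT`: every `y` at `r` is
`e r (a x) = ∑_q e r (a (e q x))`, and only `q` of level `k + 1` contribute (`a_ar`). -/
def S_GEN : Prop := ∀ (X : Dt) (K : Type) [Field K] (D : Fd K), D.r = X.r → ∀ (a : X.ι → ℕ)
  (N : FM X.M X.s K D), N.GT Set.univ (X.tY a) → ∀ W : Submodule K N.T, N.toRp.St W →
  (∀ w : X.V, LinearMap.range (N.e (w, ⟨X.L - 2, by have := X.L2; omega⟩)) ≤ W) → W = ⊤

/-! ## Marks -/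

/-- [IX1] (uses `S_IDD`, `S_INM`, `S_SOC`, `S_CCD`, `S_EXM`, `S_DQ1`, `S_DQ3`) The nonzero subs of the
indecomposable `I_i` contain its socle. Proof: let `N` be of type `tX e_i = ind E`, `E` the orbit of
`(rep i, 1)`, and `W ≠ ⊥` a sub with `dmS W = x`; by `S_SOC` the socle vectors are in `W`, so
`x (pX i) ≥ 1`, and `x ≤ dX e_i`, which is `1` at `pX i` and `0` at `pX j`. -/
def S_IX1 : Prop := ∀ (X : Dt) (K : Type) [Field K] (D : Fd K), D.r = X.r → ∀ (i : X.ι),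
  X.c i = true → ∀ x : X.P → ℕ, X.ZX K D (Pi.single i 1) x ≠ 0 → x ≠ 0 →
  x (X.pX i) = 1 ∧ ∀ j, X.c j = true → j ≠ i → x (X.pX j) = 0

/-- [IY1] (uses `S_IDD`, `S_INM`, `S_GEN`, `S_CCD`, `S_EXM`, `S_DQ1`, `S_DQ3`) The proper subs of the
indecomposable `P_i` do not contain its top. Proof: let `N` be of type `tY e_i`, `W` a sub with
`dmS W = dY e_i - x`. We have `dY e_i (w, L-2) = #{v ∈ orbit i | st v = w}`, i.e. `1` on the orbit of
`pY i` and `0` at the other positions of level `L - 2`. If `x (pY i) = 0` then `W` contains the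
component of `N` at `pY i` and, by `F`, at its orbit, so `W = ⊤` by `S_GEN` and `x = 0`. -/
def S_IY1 : Prop := ∀ (X : Dt) (K : Type) [Field K] (D : Fd K), D.r = X.r → ∀ (i : X.ι),
  X.c i = false → ∀ x : X.P → ℕ, X.ZY K D (Pi.single i 1) x ≠ 0 → x ≠ 0 →
  x (X.pY i) = 1 ∧ ∀ j, X.c j = false → j ≠ i → x (X.pY j) = 0

/-- [IX2] (uses `S_CSP`, `S_IDD`, `S_INM`, `S_IBA`, `S_IEX`) The recursion for `I(a)`. Proof: `S_CSP` with
`m₁ = tX e_i`, `m₂ = tX a` (`m₁ + m₂ = tX (a + e_i)` by `S_INM`; the condition on `Tau` is empty as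
`m₂` lives on level `1`); `box N = Iic N`. The exponent for nonzero terms (`N - N₁` is then
invariant, `S_IBA`) is `eul (N - N₁) (dX e_i - N₁) = bd_i (N - N₁)(pX i) - eul (N - N₁) N₁` by
`S_IEX`, and it is `≥ 0`. For `N₁ ≤ N`: `((N - N₁ : ℕ) : ℤ) = N - N₁`. -/
def S_IX2 : Prop := ∀ (X : Dt) (K : Type) [Field K] (D : Fd K), D.r = X.r → ∀ (a : X.ι → ℕ)
  (i : X.ι), X.c i = true → ∀ N : X.P → ℕ, (X.ZX K D (a + Pi.single i 1) N : ℚ)
    = ∑ N₁ ∈ Finset.Iic N, (D.q : ℚ) ^ ((J4c.bd X.b i * (N - N₁) (X.pX i) : ℕ)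
        - eulN X.M (N - N₁) N₁) * X.ZX K D (Pi.single i 1) N₁ * X.ZX K D a (N - N₁)

/-- [IY2] (uses `S_CSP`, `S_IDD`, `S_INM`, `S_IBA`, `S_IEX`) The recursion for `P(a)`, by codimension.
Proof: if `N ≤ dY (a + e_i) = dY a + dY e_i` fails, both sides vanish. Otherwise `S_CSP` with
`m₁ = tY a`, `m₂ = tY e_i` at `d = dY (a + e_i) - N`: the terms with `K₁ ≤ dY a`,
`d - K₁ ≤ dY e_i` (the other ones vanish by `S_IBA`) correspond to the `N₁ ≤ N` with
`N₁ ≤ dY e_i`, `N - N₁ ≤ dY a` by `N₁ = dY e_i - (d - K₁)`, `N - N₁ = dY a - K₁`. The exponent is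
`eul (dY e_i - N₁) (N - N₁) = bd_i (N - N₁)(pY i) - eul N₁ (N - N₁)` by `S_IEX` (`N - N₁` is
invariant as `K₁` and `dY a` are). -/
def S_IY2 : Prop := ∀ (X : Dt) (K : Type) [Field K] (D : Fd K), D.r = X.r → ∀ (a : X.ι → ℕ)
  (i : X.ι), X.c i = false → ∀ N : X.P → ℕ, (X.ZY K D (a + Pi.single i 1) N : ℚ)
    = ∑ N₁ ∈ Finset.Iic N, (D.q : ℚ) ^ ((J4c.bd X.b i * (N - N₁) (X.pY i) : ℕ)
        - eulN X.M N₁ (N - N₁)) * X.ZY K D (Pi.single i 1) N₁ * X.ZY K D a (N - N₁)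

/-- [IX3] (uses `J4c.S_marks`, `S_IX1`, `S_IX2`, `S_IBA`, `S_IDD`, `S_INM`) Marks for `I(a)`. Proof:
`J4c.S_marks` with `κ = {i // c i = true}` (extend `a : κ → ℕ` by zero; `tX a` depends only on
the values with `c i = true`), `d = bd`, `p = pX`, `β x y = eulN x y`, `c i = ZX e_i`, `Z a = ZX a`.
`Z 0 N = [N = 0]` (`S_IBA`). -/
def S_IX3 : Prop := ∀ (X : Dt) (K : Type) [Field K] (D : Fd K), D.r = X.r → ∀ (a : X.ι → ℕ)
  (N : X.P → ℕ), X.ZX K D a N
    = (∏ i, if X.c i = true then J4c.gb (D.q ^ J4c.bd X.b i) (a i) (N (X.pX i)) else 1)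
      * X.ZX K D (fun i => N (X.pX i)) N

/-- [IY3] (uses `J4c.S_marks`, `S_IY1`, `S_IY2`, `S_IBA`, `S_IDD`, `S_INM`) Marks for `P(a)`:
`J4c.S_marks` with `κ = {i // c i = false}`, `p = pY`, `β x y = eulN y x`, `c i = ZY e_i`,
`Z a = ZY a`. -/
def S_IY3 : Prop := ∀ (X : Dt) (K : Type) [Field K] (D : Fd K), D.r = X.r → ∀ (a : X.ι → ℕ)
  (N : X.P → ℕ), X.ZY K D a N
    = (∏ i, if X.c i = false then J4c.gb (D.q ^ J4c.bd X.b i) (a i) (N (X.pY i)) else 1)
      * X.ZY K D (fun i => N (X.pY i)) N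

/-! ## The two formulas for `A` -/

/-- The number `A_a`. -/
noncomputable def Dt.AA (X : Dt) (K : Type) [Field K] (D : Fd K) (a : X.ι → ℕ) : ℕ :=
  Cc X.M X.s K D Set.univ (X.typ a) (X.dY a)

/-- [IA1] (uses `S_CSP`, `S_IDD`, `S_INM`, `S_IBA`) Proof: `S_CSP` with `m₁ = tY a`, `m₂ = tX a` at
`d = dY a`: sum over `K₁ ≤ dY a`, exponent `eul (dY a - K₁) (dY a - K₁)`; put `N = dY a - K₁`. -/
def S_IA1 : Prop := ∀ (X : Dt) (K : Type) [Field K] (D : Fd K), D.r = X.r → ∀ (a : X.ι → ℕ),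
  (X.AA K D a : ℚ) = ∑ N ∈ box (X.dY a), (D.q : ℚ) ^ (eulN X.M N N)
    * ((X.ZX K D a N : ℚ) * X.ZY K D a N)

/-- [IA2] (uses `S_CSP`, `S_IDD`, `S_INM`, `S_IBA`, `S_IEX`, `S_IBE`) Proof: `S_CSP` with `m₁ = tX a`,
`m₂ = tY a` at `d = dY a`; the exponent is `eul (dY a - N) (dX a - N)
= eul (dY a) (dX a) - eul (dY a) N - eul N (dX a) + eul N N`; `N` is invariant for nonzero terms;
`eul (dY a) (dX a) = e(a)` by `S_IEU`/`S_IEX`, `S_INM` (values of `dY a` at `(v, 1)`) and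
`S_IBE`; the other two by `S_IEX`. -/
def S_IA2 : Prop := ∀ (X : Dt) (K : Type) [Field K] (D : Fd K), D.r = X.r → ∀ (a : X.ι → ℕ),
  (X.AA K D a : ℚ) = (D.q : ℚ) ^ J4c.be X.b a * ∑ N ∈ box (X.dY a),
    (D.q : ℚ) ^ (eulN X.M N N - ∑ i, (J4c.bd X.b i * a i * N (X.pos i) : ℕ))
      * ((X.ZX K D a N : ℚ) * X.ZY K D a N)

/-- [ITH] (uses `J4c.S_identity`, `S_IA1`, `S_IA2`, `S_IX3`, `S_IY3`, `S_IBA`, `S_IDD`, `S_INM`)
THEOREM 1. Proof: `J4c.S_identity` with `T = (X.P → ℕ)`, `S a = box (dY a)`,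
`μ N i = N (pos i)`, `β N = eulN N N`, `W a N = ZX a N * ZY a N`, `A = AA`. `hS`: `ZY a N = 0`
unless `N ≤ dY a`. `hm`: `N (pX i) ≤ dX a (pX i) = a i`, `N (pY i) ≤ dY a (pY i) = a i`.
`hW`: `S_IX3`, `S_IY3`; the product of the two products is the product over all `i`, and
`ZX (fun i => N (pX i))`, `ZY (fun i => N (pY i))` depend only on the values with
`c i = true`, resp. `c i = false`. `A 0 = 1`: `S_IBA`. -/
def S_ITH : Prop := ∀ (X : Dt) (K : Type) [Field K] (D : Fd K), D.r = X.r → ∀ (a : X.ι → ℕ),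
  (X.AA K D a : ℚ)
    = (D.q : ℚ) ^ J4c.be X.b a
      * (J4c.vpm X.b ((D.q : ℚ)⁻¹) a ^ 2 * J4c.J X.b ((D.q : ℚ)⁻¹) a)

/-- [IFD] Frobenius data exist: for every prime `q` and every `r > 0` take `K = GaloisField q r`
and `φ = frobenius`. -/
def S_IFD : Prop := ∀ (q r : ℕ), q.Prime → 0 < r →
  ∃ (K : Type) (_ : Field K) (D : Fd K), D.q = q ∧ D.r = r

/-- [LNK] (uses `S_ITH`, `S_IFD`, `S_CCD`, `S_EXM`, `S_INM`) The link. Proof: for `a` take the finite set of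
`PosT` at `d = dY a`; for a prime `q` take `K`, `D` by `S_IFD`, `N` of type `typ a` by `S_EXM`,
`N.cnt (dY a) = AA` by `S_CCD`, and `S_ITH`. -/
def S_LNK : Prop := ∀ (X : Dt),
  (∀ a : X.ι → ℕ, PosT X.M X.s X.r Set.univ (X.typ a)) → J4c.NumPos X.b

end Pool.Agent.Lib.MP_4c1f79_al
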