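import Pool.Agent.Lib.MP_4c1f79_al.TabE
import Pool.Agent.Lib.MP_4c1f79_al.StmI
import Pool.Agent.Lib.MP_4c1f79_al.Asm

/-!
# MP_4c1f79_al : the types E6, E7, E8 (thin chains, positivity, data)
-/

set_option autoImplicit false

namespace Pool.Agent.Lib.MP_4c1f79_al

open Finset Module

namespace EC

theorem tval_of_le {T : List (List ℕ)} {k : ℕ} (h : T.length ≤ k) (v : ℕ) : tval T v k = 0 := by
  unfold tval
  rw [List.getD_eq_default _ _ h]
  simp

theorem nsum_eq {n : ℕ} (adj : Fin n → Fin n → Bool) (T : List (List ℕ)) (v : Fin n) (k : ℕ) :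
    nsum adj T v k = ∑ w, if adj v w = true then tval T w k else 0 := by
  rw [nsum, Fin.sum_univ_def]

theorem okR_zero {n : ℕ} {adj : Fin n → Fin n → Bool} {W : Fin n → Bool} {T : List (List ℕ)}
    {v : Fin n} (h : okR adj W T v = true) (w : Fin n) : tval T w 0 = if w = v then 1 else 0 := by
  rw [okR, Bool.and_eq_true, List.all_eq_true] at h
  exact beq_iff_eq.1 (h.1 w (List.mem_finRange w))

theorem okR_succ {n : ℕ} {adj : Fin n → Fin n → Bool} {W : Fin n → Bool} {T : List (List ℕ)}
    {v : Fin n} (h : okR adj W T v = true) (k : ℕ) (w : Fin n) :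
    (W w = false → tval T w (k + 1) = 0) ∧
    (W w = true → (tval T w (k + 1) + (if k = 0 then 0 else tval T w (k - 1)) = nsum adj T w k) ∨
      (tval T w (k + 1) = 0 ∧ ∀ u : Fin n, tval T u k = 0)) := by
  rw [okR, Bool.and_eq_true] at h
  obtain ⟨_, h⟩ := h
  rw [List.all_eq_true] at h
  by_cases hk : k < T.length
  · have h1 := h k (List.mem_range.2 hk)
    rw [List.all_eq_true] at h1
    have h2 := h1 w (List.mem_finRange w)
    constructor
    · intro hw
      rw [hw] at h2
      simpa using h2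
    · intro hw
      rw [hw, if_pos rfl, Bool.or_eq_true, Bool.and_eq_true, List.all_eq_true] at h2
      rcases h2 with h2 | ⟨h2, h3⟩
      · left
        exact beq_iff_eq.1 h2
      · right
        exact ⟨beq_iff_eq.1 h2, fun u => beq_iff_eq.1 (h3 u (List.mem_finRange u))⟩
  · have h1 : tval T w (k + 1) = 0 := tval_of_le (by omega) _
    exact ⟨fun _ => h1, fun _ => Or.inr ⟨h1, fun u => tval_of_le (by omega) _⟩⟩

theorem okR_out {n : ℕ} {adj : Fin n → Fin n → Bool} {W : Fin n → Bool} {T : List (List ℕ)}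
    {v : Fin n} (hv : W v = true) (h : okR adj W T v = true) (k : ℕ) (w : Fin n)
    (hw : W w = false) : tval T w k = 0 := by
  rcases k with _ | k
  · rw [okR_zero h, if_neg]
    rintro rfl
    rw [hv] at hw
    exact absurd hw (by decide)
  · exact (okR_succ h k w).1 hw

/-- The dimension vector of the good module with socle `(v, l)` over the rows `W`. -/
theorem dm_tab {n L : ℕ} (adj : Fin n → Fin n → Bool)
    (hs : ∀ v w, adj v w = true → adj w v = true) (W : Fin n → Bool) (T : List (List ℕ))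
    (v : Fin n) (hv : W v = true) (hok : okR adj W T v = true) (l : Fin L)
    (K : Type) [Field K] (R : Rp (grid (fun v w => adj v w = true) hs L) K)
    (hR : R.Good (winB (rowW W))) (hsc : ∀ p, R.sc p = ind {(v, l)} p) (p : Fin n × Fin L) :
    R.dm p = if (l : ℕ) ≤ p.2 then tval T p.1 (p.2 - l) else 0 := by
  have hL : 0 < L := by have := l.2; omega
  obtain ⟨hA1, _, hT1, hT2, _⟩ := c_SAG n L adj hs
    (fun p => if (l : ℕ) ≤ p.2 then tval T p.1 (p.2 - l) else 0)
  refine c_TAB _ _ K R (winB (rowW W)) (L - 1) (v, l) hR hsc hv ?_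
    (fun p => if (l : ℕ) ≤ p.2 then tval T p.1 (p.2 - l) else 0) ?_ ?_ ?_ ?_ p ?_
  · intro r hr hlv
    have hlv' : (r.2 : ℕ) + 2 ≤ L - 1 := hlv
    exact ⟨(r.1, ⟨r.2 + 2, by omega⟩), hr, rfl, rfl⟩
  · simp [okR_zero hok]
  · intro p hp hle
    have hle' : (p.2 : ℕ) ≤ l := hle
    show (if (l : ℕ) ≤ p.2 then tval T p.1 (p.2 - l) else 0) = 0
    by_cases h1 : (l : ℕ) ≤ p.2
    · rw [if_pos h1]
      have h2 : p.2 = l := Fin.ext (by omega)
      have h3 : p.1 ≠ v := fun h => hp (Prod.ext h h2)
      rw [h2, Nat.sub_self, okR_zero hok, if_neg h3]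
    · rw [if_neg h1]
  · intro p hp
    have hp' : W p.1 = false := by
      have : ¬ W p.1 = true := hp
      simpa using this
    show (if (l : ℕ) ≤ p.2 then tval T p.1 (p.2 - l) else 0) = 0
    rw [okR_out hv hok _ _ hp', ite_self]
  · rintro ⟨w, j, hj⟩ hp hlt _
    have hlt' : (l : ℕ) < j := hlt
    have hw : W w = true := hp
    obtain ⟨k, rfl⟩ : ∃ k, j = l + k + 1 := ⟨j - l - 1, by omega⟩
    rcases (okR_succ hok k w).2 hw with h1 | ⟨h1, h2⟩
    · left
      rw [hA1 w (l + k) hj]
      have h3 : sT (grid (fun v w => adj v w = true) hs L)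
          (fun p => if (l : ℕ) ≤ p.2 then tval T p.1 (p.2 - l) else 0) (w, ⟨l + k + 1, hj⟩)
          = if k = 0 then 0 else tval T w (k - 1) := by
        rcases k with _ | k
        · rw [if_pos rfl]
          by_cases hl0 : (l : ℕ) = 0
          · exact hT2 w ⟨l + 0 + 1, hj⟩ (by simp [hl0])
          · have := hT1 w ((l : ℕ) - 1) (by omega)
            have h4 : (⟨l + 0 + 1, hj⟩ : Fin L) = ⟨l - 1 + 2, by omega⟩ :=
              Fin.ext (by simp; omega)
            rw [h4, this]
            show (if (l : ℕ) ≤ (l : ℕ) - 1 then _ else _) = _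
            rw [if_neg (by omega)]
        · have := hT1 w (l + k) (by omega)
          have h4 : (⟨l + (k + 1) + 1, hj⟩ : Fin L) = ⟨l + k + 2, by omega⟩ :=
            Fin.ext (by simp; omega)
          rw [h4, this]
          simp
      rw [h3]
      show (if (l : ℕ) ≤ (l : ℕ) + k + 1 then tval T w (l + k + 1 - l) else 0) + _ = _
      rw [if_pos (by omega), show (l : ℕ) + k + 1 - l = k + 1 by omega, h1, nsum_eq]
      refine Finset.sum_congr rfl fun u _ => ?_
      simp
    · right
      constructor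
      · show (if (l : ℕ) ≤ (l : ℕ) + k + 1 then tval T w (l + k + 1 - l) else 0) = 0
        rw [if_pos (by omega), show (l : ℕ) + k + 1 - l = k + 1 by omega, h1]
      · rintro ⟨u, j', hj'⟩ hq
        have hq' : j' + 1 = l + k + 1 := hq
        have hq2 : j' = l + k := by omega
        subst hq2
        show (if (l : ℕ) ≤ (l : ℕ) + k then tval T u (l + k - l) else 0) = 0
        rw [if_pos (by omega), show (l : ℕ) + k - l = k by omega, h2]
  · show (p.2 : ℕ) ≤ L - 1
    have := p.2.2
    omega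

theorem thT_le {T : List (List ℕ)} {v₁ : ℕ} (h : thT T v₁ = true) (k : ℕ) : tval T v₁ k ≤ 1 := by
  rw [thT, List.all_eq_true] at h
  by_cases hk : k < T.length
  · exact Nat.le_of_ble_eq_true (h k (List.mem_range.2 hk))
  · rw [tval_of_le (by omega)]
    omega

theorem orb_refl {V : Type} {L : ℕ} {E : Set (V × Fin L)}
    (h : Orb (gperm (Equiv.refl V) L) E) : ∃ u, E = {u} := by
  obtain ⟨u, hu⟩ := h
  refine ⟨u, ?_⟩
  rw [hu]
  ext x
  have h1 : ∀ i : ℕ, (⇑(gperm (Equiv.refl V) L))^[i] u = u := by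
    intro i
    induction i with
    | zero => rfl
    | succ i ih => rw [Function.iterate_succ_apply', ih]; rfl
  constructor
  · rintro ⟨i, hi⟩
    rw [h1] at hi
    exact hi
  · intro hx
    exact ⟨0, hx⟩

theorem adm_row {n L : ℕ} (adj : Fin n → Fin n → Bool)
    (hs : ∀ v w, adj v w = true → adj w v = true) (U : Set (Fin n × Fin L)) :
    Adm (grid (fun v w => adj v w = true) hs L) (gperm (Equiv.refl (Fin n)) L) 1 U where
  sym := grid_sym _ hs L _ (fun _ _ => Iff.rfl)
  per _ := rfl
  stab _ := Iff.rfl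

theorem row_step {n L : ℕ} (adj : Fin n → Fin n → Bool)
    (hs : ∀ v w, adj v w = true → adj w v = true) (W : Fin n → Bool) (v₁ : Fin n)
    (T : Fin n → List (List ℕ))
    (hok : ∀ v, W v = true → okR adj W (T v) v = true ∧ thT (T v) v₁ = true)
    (h : PosC (grid (fun v w => adj v w = true) hs L) (gperm (Equiv.refl (Fin n)) L) 1
      (winB (rowW fun w => W w && w != v₁))) :
    PosC (grid (fun v w => adj v w = true) hs L) (gperm (Equiv.refl (Fin n)) L) 1
      (winB (rowW W)) := by
  refine c_TH1 _ _ _ 1 (winB (rowW W)) ({p | p.1 = v₁} ∩ winB (rowW W)) (adm_row adj hs _)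
    (fun p => Iff.rfl) Set.inter_subset_right ?_ ?_ ?_
  · rintro p hp hp' x ⟨hx, _⟩ ht
    apply hp'
    refine ⟨?_, hp⟩
    exact ht.1.trans hx
  · intro E hE hEU K _ D _ N hN p hp
    obtain ⟨u, rfl⟩ := orb_refl hE
    have hu : W u.1 = true := hEU rfl
    rw [dm_tab adj hs W (T u.1) u.1 hu (hok u.1 hu).1 u.2 K N.toRp hN.1 hN.2 p]
    split_ifs
    · have h6 : p.1 = v₁ := hp.1
      rw [h6]
      exact thT_le (hok u.1 hu).2 _
    · omega
  · have h7 : (winB (rowW W) : Set (Fin n × Fin L)) \ ({p | p.1 = v₁} ∩ winB (rowW W))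
        = winB (rowW fun w => W w && w != v₁) := by
      ext p
      simp only [winB, rowW, Set.mem_sdiff, Set.mem_inter_iff, Set.mem_setOf_eq,
        Bool.and_eq_true, bne_iff_ne, ne_eq]
      tauto
    rw [h7]
    exact h

theorem chain_pos {n L : ℕ} (adj : Fin n → Fin n → Bool)
    (hs : ∀ v w, adj v w = true → adj w v = true) (l : List (Fin n × List (List (List ℕ)))) :
    ∀ W : Fin n → Bool, okCh adj W l = true →
    PosC (grid (fun v w => adj v w = true) hs L) (gperm (Equiv.refl (Fin n)) L) 1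
      (winB (rowW W)) := by
  induction l with
  | nil =>
    intro W hW
    rw [okCh, List.all_eq_true] at hW
    have h1 : (winB (rowW W) : Set (Fin n × Fin L)) = ∅ := by
      ext p
      have := hW p.1 (List.mem_finRange _)
      simp only [winB, rowW, Set.mem_setOf_eq, Set.mem_empty_iff_false, iff_false]
      simpa using this
    rw [h1]
    exact c_PE0 _ _ _ 1
  | cons x l ih =>
    intro W hW
    rw [okCh, Bool.and_eq_true] at hW
    obtain ⟨h1, h2⟩ := hW
    rw [List.all_eq_true] at h1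
    refine row_step adj hs W x.1 (fun v => x.2.getD v []) ?_ (ih _ h2)
    intro v hv
    have h3 := h1 v (List.mem_finRange v)
    rw [hv] at h3
    simpa [Bool.and_eq_true] using h3

theorem win_all {n L : ℕ} :
    (winB (rowW fun _ : Fin n => true) : Set (Fin n × Fin L)) = Set.univ := by
  ext p
  simp [winB, rowW]

/-- Positivity for E6. -/
theorem E6_pos : PosC MF (gperm (Equiv.refl (Fin 6)) 12) 1 Set.univ := by
  rw [← win_all]
  exact chain_pos eF eF_symm ch6 _ ok_ch6

/-- Positivity for E7. -/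
theorem E7_pos : PosC (grid (fun v w => e7B v w = true) e7B_symm 18)
    (gperm (Equiv.refl (Fin 7)) 18) 1 Set.univ := by
  rw [← win_all]
  exact chain_pos e7B e7B_symm ch7 _ ok_ch7

theorem win_67 : (winB (rowW W67) : Set (Fin 8 × Fin 30)) = U7 := by
  ext p
  simp [winB, rowW, W67, U7]

/-- Positivity for the rows of E7 in E8. -/
theorem E87_pos : PosC M8 s8 1 U7 := by
  rw [← win_67]
  exact chain_pos eB eB_symm ch8 _ ok_ch8

/-- Positivity for E8, for the types which vanish at `(2, k)`, `k > 0`. -/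
theorem E8_pos (m : Fin 8 × Fin 30 → ℕ) (hm : ∀ p, p.1 = 2 → p.2 ≠ 0 → m p = 0) :
    PosT M8 s8 1 Set.univ m := by
  refine c_PEM _ M8 s8 1 Set.univ (adm_row eB eB_symm _) m ?_
  intro E hE _ hmE
  obtain ⟨u, rfl⟩ := orb_refl hE
  by_cases hu : u.1 = 2
  · have h0 : u.2 = 0 := by
      by_contra h
      exact hmE u rfl (hm u hu h)
    have h1 : u = (2, 0) := Prod.ext hu h0
    rw [h1]
    exact c_E8z E87_pos
  · intro d
    refine c_THN _ M8 s8 1 Set.univ R6 {u} (adm_row eB eB_symm _) (fun _ => Iff.rfl)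
      (Set.subset_univ _) hE (Set.subset_univ _) d ?_ ?_ ?_
    · intro p _ hp x hx ht
      exact absurd (ht.1.trans hx) hp
    · intro K _ D _ N hN p hp
      have h6 : p.1 = 6 := hp
      have h2 : N.toRp.dm p ≤ 1 := by
        have hN1 := hN.1
        rw [← win_all] at hN1
        have h7 : N.toRp.dm p = if (u.2 : ℕ) ≤ p.2
            then tval (tE8.getD u.1 []) p.1 (p.2 - u.2) else 0 :=
          dm_tab eB eB_symm (fun _ => true) (tE8.getD u.1 []) u.1 rfl (ok_tE8 u.1) u.2 K
            N.toRp hN1 hN.2 p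
        have h8 := thT_le (th_tE8 u.1 hu) (p.2 - u.2)
        have h9 : (p.1 : ℕ) = 6 := by rw [h6]; rfl
        rw [h9] at h7
        split_ifs at h7 <;> omega
      omega
    · intro m' _
      have h3 : (Set.univ : Set (Fin 8 × Fin 30)) \ R6 = U7 := by
        ext p
        simp [R6, U7]
      rw [h3]
      exact E87_pos m'

end EC

end Pool.Agent.Lib.MP_4c1f79_al
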