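import Pool.Agent.Lib.MP_4c1f79_al.P.P_FAM
import Pool.Agent.Lib.MP_4c1f79_al.P.P_DES
import Pool.Agent.Lib.MP_4c1f79_al.P.P_BND
import Pool.Agent.Lib.MP_4c1f79_al.P.P_PE0
import Pool.Agent.Lib.MP_4c1f79_al.P.P_LIN
import Pool.Agent.Lib.MP_4c1f79_al.P.P_HYP
import Pool.Agent.Lib.MP_4c1f79_al.P.P_LN2
import Pool.Agent.Lib.MP_4c1f79_al.P.P_G1
import Pool.Agent.Lib.MP_4c1f79_al.P.P_G2A
import Pool.Agent.Lib.MP_4c1f79_al.P.P_G2B
import Pool.Agent.Lib.MP_4c1f79_al.P.P_G5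
import Pool.Agent.Lib.MP_4c1f79_al.P.P_G6A
import Pool.Agent.Lib.MP_4c1f79_al.P.P_G6B
import Pool.Agent.Lib.MP_4c1f79_al.P.P_G7
import Pool.Agent.Lib.MP_4c1f79_al.P.P_G8
import Pool.Agent.Lib.MP_4c1f79_al.P.P_G9
import Pool.Agent.Lib.MP_4c1f79_al.P.P_G10
import Pool.Agent.Lib.MP_4c1f79_al.P.P_G11
import Pool.Agent.Lib.MP_4c1f79_al.P.P_G12

/-! MP_4c1f79_al : the block for type G2, assembled. -/

set_option autoImplicit false

namespace Pool.Agent.Lib.MP_4c1f79_al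

/-- Positivity for all types supported on the leaves at level `0` and the centre at level `1` of
the graph `D₄` with the rotation of order three. -/
theorem G2_pos (hTHN : S_THN) (hTH1 : S_TH1) (hPEM : S_PEM) :
    ∀ m : Fin 4 × Fin 6 → ℕ, (∀ p, p ∉ EG 0 → p ≠ (3, 1) → m p = 0) →
      PosT MG sG 3 Set.univ m := by
  have h2B := G2B_holds G1_holds G2A_holds
  have h8 := G8_holds hTH1 PE0_holds
  have h5 := G5_holds G1_holds G2A_holds h2B (HYP_holds (LIN_holds DES_holds))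
  have h7 := G7_holds FAM_holds LN2_holds G1_holds h5 (G6A_holds G1_holds G2A_holds h2B)
    (G6B_holds G1_holds G2A_holds h2B)
  exact G12_holds hPEM (G10_holds hTHN h8 (G9_holds BND_holds)) (G11_holds hTHN h8 G1_holds h7)

end Pool.Agent.Lib.MP_4c1f79_al
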