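import Pool.Agent.Lib.MP_4c1f79_al.MainBase
import Pool.Agent.Lib.MP_4c1f79_al.P.P_IEU
import Pool.Agent.Lib.MP_4c1f79_al.P.P_IBE
import Pool.Agent.Lib.MP_4c1f79_al.P.P_INM
import Pool.Agent.Lib.MP_4c1f79_al.P.P_IEX
import Pool.Agent.Lib.MP_4c1f79_al.P.P_IDM
import Pool.Agent.Lib.MP_4c1f79_al.P.P_IDD
import Pool.Agent.Lib.MP_4c1f79_al.P.P_IBA
import Pool.Agent.Lib.MP_4c1f79_al.P.P_ONT
import Pool.Agent.Lib.MP_4c1f79_al.P.P_GEN
import Pool.Agent.Lib.MP_4c1f79_al.P.P_IX1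
import Pool.Agent.Lib.MP_4c1f79_al.P.P_IY1
import Pool.Agent.Lib.MP_4c1f79_al.P.P_IX2
import Pool.Agent.Lib.MP_4c1f79_al.P.P_IY2
import Pool.Agent.Lib.MP_4c1f79_al.P.P_IX3
import Pool.Agent.Lib.MP_4c1f79_al.P.P_IY3
import Pool.Agent.Lib.MP_4c1f79_al.P.P_IA1
import Pool.Agent.Lib.MP_4c1f79_al.P.P_IA2
import Pool.Agent.Lib.MP_4c1f79_al.P.P_ITH
import Pool.Agent.Lib.MP_4c1f79_al.P.P_IFD
import Pool.Agent.Lib.MP_4c1f79_al.P.P_LNK
import Pool.Agent.Lib.J4c.P.marks
import Pool.Agent.Lib.J4c.P.identity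
import Pool.Agent.Lib.J4c.P.coords
import Pool.Agent.Lib.J4c.P.coord
import Pool.Agent.Lib.J4c.P.vand
import Pool.Agent.Lib.J4c.P.gb_vp
import Pool.Agent.Lib.J4c.P.gb_zero
import Pool.Agent.Lib.J4c.P.J_unique
import Pool.Agent.Lib.J4c.P.J_zero
import Pool.Agent.Lib.J4c.P.J_rec
import Pool.Agent.Lib.J4c.P.be_add

/-! MP_4c1f79_al : the link, assembled. -/

set_option autoImplicit false

namespace Pool.Agent.Lib.MP_4c1f79_al

theorem link_IEX : S_IEX := IEX_holds IEU_holds INM_holds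

theorem link_IDD : S_IDD :=
  IDD_holds (IDM_holds base_TAB) base_RPE base_DMS base_EXM base_CCD INM_holds

theorem link_IBA : S_IBA := IBA_holds base_CCD base_EXM base_DQ1 base_DQ3

theorem link_IX3 : S_IX3 :=
  IX3_holds J4c.p_marks (IX1_holds link_IDD INM_holds base_SOC base_CCD base_EXM base_DQ1 base_DQ3)
    (IX2_holds base_CSP link_IDD INM_holds link_IBA link_IEX) link_IBA INM_holds

theorem link_IY3 : S_IY3 :=
  IY3_holds J4c.p_marks
    (IY1_holds link_IDD INM_holds (GEN_holds ONT_holds link_IDD) base_DQ1)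
    (IY2_holds base_CSP link_IDD INM_holds link_IBA link_IEX) link_IBA link_IDD INM_holds

theorem link_identity : J4c.S_identity :=
  J4c.p_identity (J4c.p_coords (J4c.p_coord J4c.p_vand J4c.p_gb_vp J4c.p_gb_zero))
    (J4c.p_J_unique J4c.p_J_zero J4c.p_J_rec) J4c.p_be_add

theorem link_ITH : S_ITH :=
  ITH_holds link_identity (IA1_holds base_CSP link_IDD INM_holds link_IBA)
    (IA2_holds base_CSP link_IDD INM_holds link_IBA link_IEX IEU_holds IBE_holds) link_IX3 link_IY3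
    link_IBA link_IDD INM_holds

/-- The link: positivity of the types `typ a` gives `NumPos` for the form of the datum. -/
theorem link : S_LNK := LNK_holds link_ITH IFD_holds base_CCD base_EXM INM_holds

end Pool.Agent.Lib.MP_4c1f79_al
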