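import Pool.Agent.Lib.MP_4c1f79_al.NumX
import Pool.Agent.Lib.MP_4c1f79_al.MainE
import Pool.Agent.Lib.MP_4c1f79_al.DtE

/-! MP_4c1f79_al : `NumPos` for the types E6, E7, E8. -/

set_option autoImplicit false

namespace Pool.Agent.Lib.MP_4c1f79_al

open J4c

theorem numPos_E6 (hb : GoodForm DT.E6.form) : NumPos DT.E6.form :=
  link (dtE6 hb) fun a => EC.E6_pos ((dtE6 hb).typ a)

theorem numPos_E7 (hb : GoodForm DT.E7.form) : NumPos DT.E7.form :=
  link (dtE7 hb) fun a => EC.E7_pos ((dtE7 hb).typ a)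

theorem numPos_E8 (hb : GoodForm DT.E8.form) : NumPos DT.E8.form := by
  refine link (dtE8 hb) fun a => EC.E8_pos ((dtE8 hb).typ a) ?_
  rintro ⟨v, k⟩ (hv : v = 2) (hk : k ≠ 0)
  subst hv
  change (dtE8 hb).tX a ((2 : Fin 8), k) + (dtE8 hb).tY a ((2 : Fin 8), k) = 0
  have hx : (dtE8 hb).tX a ((2 : Fin 8), k) = 0 := by
    refine if_neg ?_
    rintro ⟨_, hc⟩
    have h1 : ∀ v : Fin 8, (dtE8 hb).ob v = obE8 v := fun _ => rfl
    have h2 : ∀ i : Fin 8, (dtE8 hb).c i = decide (((repE8 i : Fin 8) : ℕ) % 2 = 1) := fun _ => rfl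
    have h3 : (dtE8 hb).c ((dtE8 hb).ob (2 : Fin 8)) = true := hc
    rw [h1, h2] at h3
    exact absurd h3 (by decide)
  have hy : (dtE8 hb).tY a ((2 : Fin 8), k) = 0 := by
    refine if_neg ?_
    rintro ⟨hk', _⟩
    exact hk (Fin.ext hk')
  rw [hx, hy]

end Pool.Agent.Lib.MP_4c1f79_al
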