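import Pool.Agent.Lib.J4c.Main
import Pool.Agent.Lib.MP_4c1f79_al.AsmN
import Pool.Agent.Lib.MP_4c1f79_al.NumEx

/-!
MP_4c1f79_al: `NumPos` for all irreducible types.
-/

set_option autoImplicit false

namespace Pool.Agent.Lib.MP_4c1f79_al

open J4c

theorem numPos_all : ∀ t : DT, NumPos t.form
  | .A n => c_NPA n
  | .B n => c_NPB n
  | .C n => c_NPC n
  | .D n => c_NPD n
  | .E6 => numPos_E6 (good_form .E6)
  | .E7 => numPos_E7 (good_form .E7)
  | .E8 => numPos_E8 (good_form .E8)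
  | .F4 => numPos_F4 (good_form .F4)
  | .G2 => numPos_G2 (good_form .G2)

end Pool.Agent.Lib.MP_4c1f79_al
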