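import Pool.Agent.Lib.MP_4c1f79_al.MainLink
import Pool.Agent.Lib.MP_4c1f79_al.MainG2
import Pool.Agent.Lib.MP_4c1f79_al.DoneF
import Pool.Agent.Lib.MP_4c1f79_al.DtG2
import Pool.Agent.Lib.MP_4c1f79_al.DtF4

/-! MP_4c1f79_al : `NumPos` for the types G2 and F4. -/

set_option autoImplicit false

namespace Pool.Agent.Lib.MP_4c1f79_al

open J4c

theorem numPos_G2 (hb : GoodForm DT.G2.form) : NumPos DT.G2.form := by
  refine link (dtG hb) fun a => G2_pos base_THN base_TH1 base_PEM ((dtG hb).typ a) ?_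
  rintro ⟨v, k⟩ h0 h1
  change (dtG hb).tX a (v, k) + (dtG hb).tY a (v, k) = 0
  have hx : (dtG hb).tX a (v, k) = 0 := by
    refine if_neg ?_
    rintro ⟨hk, hc⟩
    have hv : ∀ v : Fin 4, decide (obG v = 1) = true → v = 3 := by decide
    exact h1 (Prod.ext (hv v hc) (Fin.ext hk))
  have hy : (dtG hb).tY a (v, k) = 0 := by
    refine if_neg ?_
    rintro ⟨hk, hc⟩
    have hv : ∀ v : Fin 4, decide (obG v = 1) = false → v ≠ 3 := by decide
    exact h0 ⟨hv v hc, Fin.ext hk⟩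
  rw [hx, hy]

theorem numPos_F4 (hb : GoodForm DT.F4.form) : NumPos DT.F4.form := by
  refine link (dtF hb) fun a => F4_done ((dtF hb).typ a) ?_
  rintro ⟨v, k⟩ (hv : v = 1 ∨ v = 3) (hk : k ≠ 0)
  change (dtF hb).tX a (v, k) + (dtF hb).tY a (v, k) = 0
  have hx : (dtF hb).tX a (v, k) = 0 := by
    refine if_neg ?_
    rintro ⟨_, hc⟩
    have h : ∀ v : Fin 6, (v = 1 ∨ v = 3) → ¬ decide (obF v = 0 ∨ obF v = 2) = true := by decide
    exact h v hv hc
  have hy : (dtF hb).tY a (v, k) = 0 := by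
    refine if_neg ?_
    rintro ⟨hk', _⟩
    exact hk (Fin.ext hk')
  rw [hx, hy]

end Pool.Agent.Lib.MP_4c1f79_al
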