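import Pool.Agent.Lib.MP_4c1f79_al.StmG
import Pool.Agent.Lib.MP_4c1f79_al.StmT

/-!
# MP_4c1f79_al : the block E8 (section 10 of the paper proof)
-/

set_option autoImplicit false

namespace Pool.Agent.Lib.MP_4c1f79_al

open Finset Module

/-- Positions. -/
abbrev P8 : Type := Fin 8 × Fin 30

/-- The position `* = (6, 14)`. -/
def st8 : P8 := (6, 14)

/-- The row `6`. -/
def R6 : Set P8 := {p | p.1 = 6}

/-- The window E7 together with `*`. -/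
def W8 : Set P8 := {p | p.1 ≠ 6 ∨ p = st8}

/-- The type of `T`: one at `(3, 5)`, `(5, 5)`, `(7, 5)`. -/
noncomputable def mT8 : P8 → ℕ := ind {((3, 5) : P8), (5, 5), (7, 5)}

/-- Dimension vector of the module with socle `(2, 0)` of type E8 (row `k` = level `k`). -/
def T8 : List (List ℕ) := [
  [0, 0, 1, 0, 0, 0, 0, 0],
  [0, 1, 0, 1, 0, 0, 0, 1],
  [1, 0, 2, 0, 1, 0, 0, 0],
  [0, 2, 0, 2, 0, 1, 0, 1],
  [1, 0, 3, 0, 2, 0, 1, 0],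
  [0, 2, 0, 3, 0, 2, 0, 2],
  [1, 0, 4, 0, 3, 0, 1, 0],
  [0, 3, 0, 4, 0, 2, 0, 2],
  [2, 0, 5, 0, 3, 0, 1, 0],
  [0, 4, 0, 4, 0, 2, 0, 3],
  [2, 0, 6, 0, 3, 0, 1, 0],
  [0, 4, 0, 5, 0, 2, 0, 3],
  [2, 0, 6, 0, 4, 0, 1, 0],
  [0, 4, 0, 5, 0, 3, 0, 3],
  [2, 0, 6, 0, 4, 0, 2, 0],
  [0, 4, 0, 5, 0, 3, 0, 3],
  [2, 0, 6, 0, 4, 0, 1, 0],
  [0, 4, 0, 5, 0, 2, 0, 3],
  [2, 0, 6, 0, 3, 0, 1, 0],
  [0, 4, 0, 4, 0, 2, 0, 3],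
  [2, 0, 5, 0, 3, 0, 1, 0],
  [0, 3, 0, 4, 0, 2, 0, 2],
  [1, 0, 4, 0, 3, 0, 1, 0],
  [0, 2, 0, 3, 0, 2, 0, 2],
  [1, 0, 3, 0, 2, 0, 1, 0],
  [0, 2, 0, 2, 0, 1, 0, 1],
  [1, 0, 2, 0, 1, 0, 0, 0],
  [0, 1, 0, 1, 0, 0, 0, 1],
  [0, 0, 1, 0, 0, 0, 0, 0],
  [0, 0, 0, 0, 0, 0, 0, 0]]

/-- The same over the window `U84` (levels `≤ 14`). -/
def T84 : List (List ℕ) := [
  [0, 0, 1, 0, 0, 0, 0, 0],
  [0, 1, 0, 1, 0, 0, 0, 1],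
  [1, 0, 2, 0, 1, 0, 0, 0],
  [0, 2, 0, 2, 0, 1, 0, 1],
  [1, 0, 3, 0, 2, 0, 0, 0],
  [0, 2, 0, 3, 0, 1, 0, 2],
  [1, 0, 4, 0, 2, 0, 1, 0],
  [0, 3, 0, 3, 0, 2, 0, 2],
  [2, 0, 4, 0, 3, 0, 1, 0],
  [0, 3, 0, 4, 0, 2, 0, 2],
  [1, 0, 5, 0, 3, 0, 1, 0],
  [0, 3, 0, 4, 0, 2, 0, 3],
  [2, 0, 5, 0, 3, 0, 1, 0],
  [0, 4, 0, 4, 0, 2, 0, 2],
  [2, 0, 5, 0, 3, 0, 1, 0]]

/-- E8: dimension vectors of the modules with socle `(v, 0)`, levels `≤ 14`. -/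
def E8b : Fin 8 → List (List ℕ)
  | 0 => [[1, 0, 0, 0, 0, 0, 0, 0],
    [0, 1, 0, 0, 0, 0, 0, 0],
    [0, 0, 1, 0, 0, 0, 0, 0],
    [0, 0, 0, 1, 0, 0, 0, 1],
    [0, 0, 1, 0, 1, 0, 0, 0],
    [0, 1, 0, 1, 0, 1, 0, 0],
    [1, 0, 1, 0, 1, 0, 1, 0],
    [0, 1, 0, 1, 0, 1, 0, 1],
    [0, 0, 2, 0, 1, 0, 0, 0],
    [0, 1, 0, 2, 0, 0, 0, 1],
    [1, 0, 2, 0, 1, 0, 0, 0],
    [0, 2, 0, 1, 0, 1, 0, 1],
    [1, 0, 2, 0, 1, 0, 1, 0],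
    [0, 1, 0, 2, 0, 1, 0, 1],
    [0, 0, 2, 0, 2, 0, 0, 0]]
  | 1 => [[0, 1, 0, 0, 0, 0, 0, 0],
    [1, 0, 1, 0, 0, 0, 0, 0],
    [0, 1, 0, 1, 0, 0, 0, 1],
    [0, 0, 2, 0, 1, 0, 0, 0],
    [0, 1, 0, 2, 0, 1, 0, 1],
    [1, 0, 2, 0, 2, 0, 1, 0],
    [0, 2, 0, 2, 0, 2, 0, 1],
    [1, 0, 3, 0, 2, 0, 1, 0],
    [0, 2, 0, 3, 0, 1, 0, 2],
    [1, 0, 4, 0, 2, 0, 0, 0],
    [0, 3, 0, 3, 0, 1, 0, 2],
    [2, 0, 4, 0, 2, 0, 1, 0],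
    [0, 3, 0, 3, 0, 2, 0, 2],
    [1, 0, 4, 0, 3, 0, 1, 0],
    [0, 2, 0, 4, 0, 2, 0, 2]]
  | 2 => [[0, 0, 1, 0, 0, 0, 0, 0],
    [0, 1, 0, 1, 0, 0, 0, 1],
    [1, 0, 2, 0, 1, 0, 0, 0],
    [0, 2, 0, 2, 0, 1, 0, 1],
    [1, 0, 3, 0, 2, 0, 1, 0],
    [0, 2, 0, 3, 0, 2, 0, 2],
    [1, 0, 4, 0, 3, 0, 1, 0],
    [0, 3, 0, 4, 0, 2, 0, 2],
    [2, 0, 5, 0, 3, 0, 1, 0],
    [0, 4, 0, 4, 0, 2, 0, 3],
    [2, 0, 6, 0, 3, 0, 1, 0],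
    [0, 4, 0, 5, 0, 2, 0, 3],
    [2, 0, 6, 0, 4, 0, 1, 0],
    [0, 4, 0, 5, 0, 3, 0, 3],
    [2, 0, 6, 0, 4, 0, 2, 0]]
  | 3 => [[0, 0, 0, 1, 0, 0, 0, 0],
    [0, 0, 1, 0, 1, 0, 0, 0],
    [0, 1, 0, 1, 0, 1, 0, 1],
    [1, 0, 2, 0, 1, 0, 1, 0],
    [0, 2, 0, 2, 0, 1, 0, 1],
    [1, 0, 3, 0, 2, 0, 0, 0],
    [0, 2, 0, 3, 0, 1, 0, 2],
    [1, 0, 4, 0, 2, 0, 1, 0],
    [0, 3, 0, 3, 0, 2, 0, 2],
    [2, 0, 4, 0, 3, 0, 1, 0],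
    [0, 3, 0, 4, 0, 2, 0, 2],
    [1, 0, 5, 0, 3, 0, 1, 0],
    [0, 3, 0, 4, 0, 2, 0, 3],
    [2, 0, 5, 0, 3, 0, 1, 0],
    [0, 4, 0, 4, 0, 2, 0, 2]]
  | 4 => [[0, 0, 0, 0, 1, 0, 0, 0],
    [0, 0, 0, 1, 0, 1, 0, 0],
    [0, 0, 1, 0, 1, 0, 1, 0],
    [0, 1, 0, 1, 0, 1, 0, 1],
    [1, 0, 2, 0, 1, 0, 0, 0],
    [0, 2, 0, 2, 0, 0, 0, 1],
    [1, 0, 3, 0, 1, 0, 0, 0],
    [0, 2, 0, 2, 0, 1, 0, 2],
    [1, 0, 3, 0, 2, 0, 1, 0],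
    [0, 2, 0, 3, 0, 2, 0, 1],
    [1, 0, 3, 0, 3, 0, 1, 0],
    [0, 2, 0, 3, 0, 2, 0, 2],
    [1, 0, 4, 0, 2, 0, 1, 0],
    [0, 3, 0, 3, 0, 1, 0, 2],
    [2, 0, 4, 0, 2, 0, 0, 0]]
  | 5 => [[0, 0, 0, 0, 0, 1, 0, 0],
    [0, 0, 0, 0, 1, 0, 1, 0],
    [0, 0, 0, 1, 0, 1, 0, 0],
    [0, 0, 1, 0, 1, 0, 0, 0],
    [0, 1, 0, 1, 0, 0, 0, 1],
    [1, 0, 2, 0, 0, 0, 0, 0],
    [0, 2, 0, 1, 0, 0, 0, 1],
    [1, 0, 2, 0, 1, 0, 0, 0],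
    [0, 1, 0, 2, 0, 1, 0, 1],
    [0, 0, 2, 0, 2, 0, 1, 0],
    [0, 1, 0, 2, 0, 2, 0, 1],
    [1, 0, 2, 0, 2, 0, 1, 0],
    [0, 2, 0, 2, 0, 1, 0, 1],
    [1, 0, 3, 0, 1, 0, 0, 0],
    [0, 2, 0, 2, 0, 0, 0, 2]]
  | 6 => [[0, 0, 0, 0, 0, 0, 1, 0],
    [0, 0, 0, 0, 0, 1, 0, 0],
    [0, 0, 0, 0, 1, 0, 0, 0],
    [0, 0, 0, 1, 0, 0, 0, 0],
    [0, 0, 1, 0, 0, 0, 0, 0],
    [0, 1, 0, 0, 0, 0, 0, 1],
    [1, 0, 1, 0, 0, 0, 0, 0],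
    [0, 1, 0, 1, 0, 0, 0, 0],
    [0, 0, 1, 0, 1, 0, 0, 0],
    [0, 0, 0, 1, 0, 1, 0, 1],
    [0, 0, 1, 0, 1, 0, 1, 0],
    [0, 1, 0, 1, 0, 1, 0, 0],
    [1, 0, 1, 0, 1, 0, 0, 0],
    [0, 1, 0, 1, 0, 0, 0, 1],
    [0, 0, 2, 0, 0, 0, 0, 0]]
  | 7 => [[0, 0, 0, 0, 0, 0, 0, 1],
    [0, 0, 1, 0, 0, 0, 0, 0],
    [0, 1, 0, 1, 0, 0, 0, 0],
    [1, 0, 1, 0, 1, 0, 0, 0],
    [0, 1, 0, 1, 0, 1, 0, 1],
    [0, 0, 2, 0, 1, 0, 1, 0],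
    [0, 1, 0, 2, 0, 1, 0, 1],
    [1, 0, 2, 0, 2, 0, 0, 0],
    [0, 2, 0, 2, 0, 1, 0, 1],
    [1, 0, 3, 0, 1, 0, 1, 0],
    [0, 2, 0, 2, 0, 1, 0, 2],
    [1, 0, 3, 0, 2, 0, 0, 0],
    [0, 2, 0, 3, 0, 1, 0, 1],
    [1, 0, 3, 0, 2, 0, 1, 0],
    [0, 2, 0, 2, 0, 2, 0, 2]]

/-- E7 (rows `0, …, 5, 7`): dimension vectors of the modules with socle `(v, 0)`, levels `≤ 14`. -/
def E7b : Fin 8 → List (List ℕ)
  | 0 => [[1, 0, 0, 0, 0, 0, 0, 0],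
    [0, 1, 0, 0, 0, 0, 0, 0],
    [0, 0, 1, 0, 0, 0, 0, 0],
    [0, 0, 0, 1, 0, 0, 0, 1],
    [0, 0, 1, 0, 1, 0, 0, 0],
    [0, 1, 0, 1, 0, 1, 0, 0],
    [1, 0, 1, 0, 1, 0, 0, 0],
    [0, 1, 0, 1, 0, 0, 0, 1],
    [0, 0, 2, 0, 0, 0, 0, 0],
    [0, 1, 0, 1, 0, 0, 0, 1],
    [1, 0, 1, 0, 1, 0, 0, 0],
    [0, 1, 0, 1, 0, 1, 0, 0],
    [0, 0, 1, 0, 1, 0, 0, 0],
    [0, 0, 0, 1, 0, 0, 0, 1],
    [0, 0, 1, 0, 0, 0, 0, 0]]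
  | 1 => [[0, 1, 0, 0, 0, 0, 0, 0],
    [1, 0, 1, 0, 0, 0, 0, 0],
    [0, 1, 0, 1, 0, 0, 0, 1],
    [0, 0, 2, 0, 1, 0, 0, 0],
    [0, 1, 0, 2, 0, 1, 0, 1],
    [1, 0, 2, 0, 2, 0, 0, 0],
    [0, 2, 0, 2, 0, 1, 0, 1],
    [1, 0, 3, 0, 1, 0, 0, 0],
    [0, 2, 0, 2, 0, 0, 0, 2],
    [1, 0, 3, 0, 1, 0, 0, 0],
    [0, 2, 0, 2, 0, 1, 0, 1],
    [1, 0, 2, 0, 2, 0, 0, 0],
    [0, 1, 0, 2, 0, 1, 0, 1],
    [0, 0, 2, 0, 1, 0, 0, 0],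
    [0, 1, 0, 1, 0, 0, 0, 1]]
  | 2 => [[0, 0, 1, 0, 0, 0, 0, 0],
    [0, 1, 0, 1, 0, 0, 0, 1],
    [1, 0, 2, 0, 1, 0, 0, 0],
    [0, 2, 0, 2, 0, 1, 0, 1],
    [1, 0, 3, 0, 2, 0, 0, 0],
    [0, 2, 0, 3, 0, 1, 0, 2],
    [1, 0, 4, 0, 2, 0, 0, 0],
    [0, 3, 0, 3, 0, 1, 0, 2],
    [2, 0, 4, 0, 2, 0, 0, 0],
    [0, 3, 0, 3, 0, 1, 0, 2],
    [1, 0, 4, 0, 2, 0, 0, 0],
    [0, 2, 0, 3, 0, 1, 0, 2],
    [1, 0, 3, 0, 2, 0, 0, 0],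
    [0, 2, 0, 2, 0, 1, 0, 1],
    [1, 0, 2, 0, 1, 0, 0, 0]]
  | 3 => [[0, 0, 0, 1, 0, 0, 0, 0],
    [0, 0, 1, 0, 1, 0, 0, 0],
    [0, 1, 0, 1, 0, 1, 0, 1],
    [1, 0, 2, 0, 1, 0, 0, 0],
    [0, 2, 0, 2, 0, 0, 0, 1],
    [1, 0, 3, 0, 1, 0, 0, 0],
    [0, 2, 0, 2, 0, 1, 0, 2],
    [1, 0, 3, 0, 2, 0, 0, 0],
    [0, 2, 0, 3, 0, 1, 0, 1],
    [1, 0, 3, 0, 2, 0, 0, 0],
    [0, 2, 0, 2, 0, 1, 0, 2],
    [1, 0, 3, 0, 1, 0, 0, 0],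
    [0, 2, 0, 2, 0, 0, 0, 1],
    [1, 0, 2, 0, 1, 0, 0, 0],
    [0, 1, 0, 1, 0, 1, 0, 1]]
  | 4 => [[0, 0, 0, 0, 1, 0, 0, 0],
    [0, 0, 0, 1, 0, 1, 0, 0],
    [0, 0, 1, 0, 1, 0, 0, 0],
    [0, 1, 0, 1, 0, 0, 0, 1],
    [1, 0, 2, 0, 0, 0, 0, 0],
    [0, 2, 0, 1, 0, 0, 0, 1],
    [1, 0, 2, 0, 1, 0, 0, 0],
    [0, 1, 0, 2, 0, 1, 0, 1],
    [0, 0, 2, 0, 2, 0, 0, 0],
    [0, 1, 0, 2, 0, 1, 0, 1],
    [1, 0, 2, 0, 1, 0, 0, 0],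
    [0, 2, 0, 1, 0, 0, 0, 1],
    [1, 0, 2, 0, 0, 0, 0, 0],
    [0, 1, 0, 1, 0, 0, 0, 1],
    [0, 0, 1, 0, 1, 0, 0, 0]]
  | 5 => [[0, 0, 0, 0, 0, 1, 0, 0],
    [0, 0, 0, 0, 1, 0, 0, 0],
    [0, 0, 0, 1, 0, 0, 0, 0],
    [0, 0, 1, 0, 0, 0, 0, 0],
    [0, 1, 0, 0, 0, 0, 0, 1],
    [1, 0, 1, 0, 0, 0, 0, 0],
    [0, 1, 0, 1, 0, 0, 0, 0],
    [0, 0, 1, 0, 1, 0, 0, 0],
    [0, 0, 0, 1, 0, 1, 0, 1],
    [0, 0, 1, 0, 1, 0, 0, 0],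
    [0, 1, 0, 1, 0, 0, 0, 0],
    [1, 0, 1, 0, 0, 0, 0, 0],
    [0, 1, 0, 0, 0, 0, 0, 1],
    [0, 0, 1, 0, 0, 0, 0, 0],
    [0, 0, 0, 1, 0, 0, 0, 0]]
  | 6 => []
  | 7 => [[0, 0, 0, 0, 0, 0, 0, 1],
    [0, 0, 1, 0, 0, 0, 0, 0],
    [0, 1, 0, 1, 0, 0, 0, 0],
    [1, 0, 1, 0, 1, 0, 0, 0],
    [0, 1, 0, 1, 0, 1, 0, 1],
    [0, 0, 2, 0, 1, 0, 0, 0],
    [0, 1, 0, 2, 0, 0, 0, 1],
    [1, 0, 2, 0, 1, 0, 0, 0],
    [0, 2, 0, 1, 0, 1, 0, 1],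
    [1, 0, 2, 0, 1, 0, 0, 0],
    [0, 1, 0, 2, 0, 0, 0, 1],
    [0, 0, 2, 0, 1, 0, 0, 0],
    [0, 1, 0, 1, 0, 1, 0, 1],
    [1, 0, 1, 0, 1, 0, 0, 0],
    [0, 1, 0, 1, 0, 0, 0, 0]]

/-- Shift a table upwards by `l` levels. -/
def shT (l : ℕ) (T : List (List ℕ)) : List (List ℕ) := List.replicate l [] ++ T

/-- [SAG] The sums `sA`, `sT` and the form `e2` on a grid. -/
def S_SAG : Prop := ∀ (n L : ℕ) (adj : Fin n → Fin n → Bool)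
  (hs : ∀ v w, adj v w = true → adj w v = true) (y : Fin n × Fin L → ℕ),
  (∀ (v : Fin n) (k : ℕ) (h : k + 1 < L),
    sA (grid (fun v w => adj v w = true) hs L) y (v, ⟨k + 1, h⟩)
      = ∑ w, if adj v w = true then y (w, ⟨k, by omega⟩) else 0) ∧
  (∀ (v : Fin n) (h : 0 < L), sA (grid (fun v w => adj v w = true) hs L) y (v, ⟨0, h⟩) = 0) ∧
  (∀ (v : Fin n) (k : ℕ) (h : k + 2 < L),
    sT (grid (fun v w => adj v w = true) hs L) y (v, ⟨k + 2, h⟩) = y (v, ⟨k, by omega⟩)) ∧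
  (∀ (v : Fin n) (k : Fin L), (k : ℕ) < 2 →
    sT (grid (fun v w => adj v w = true) hs L) y (v, k) = 0) ∧
  (∀ (x : Fin n × Fin L → ℕ) (k : ℕ) (h : k + 1 < L),
    e2 (grid (fun v w => adj v w = true) hs L) k x y
      = (∑ v, ((x (v, ⟨k, by omega⟩) : ℤ) * y (v, ⟨k, by omega⟩)
            + (x (v, ⟨k + 1, h⟩) : ℤ) * y (v, ⟨k + 1, h⟩)))
        - ∑ v, ∑ w, if adj v w = true then (x (v, ⟨k + 1, h⟩) : ℤ) * y (w, ⟨k, by omega⟩) else 0)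

/-- [FI8] (uses `S_FID`) For `M8`, `s8` (`s8 p = p`): every window is admissible, orbits are points,
and every representation comes from an `F`-module if `r = 1`. -/
def S_FI8 : Prop := (∀ p : P8, s8 p = p) ∧ (∀ U : Set P8, Adm M8 s8 1 U) ∧
  (∀ E : Set P8, Orb s8 E ↔ ∃ p, E = {p}) ∧
  ∀ (K : Type) [Field K] (D : Fd K), D.r = 1 → ∀ R : Rp M8 K,
    ∃ N : FM M8 s8 K D, N.toRp = R

/-- [T8a] (uses `S_TBB`) Table of `(2, 0)`, `k₀ = 29`, `U = fun _ _ => true` (so `winB U = univ`);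
the checks by `decide +kernel`. -/
def S_T8a : Prop := ∀ (K : Type) [Field K] (R : Rp M8 K), R.Good Set.univ →
  (∀ p, R.sc p = ind {((2, 0) : P8)} p) → ∀ p : P8, R.dm p = tval T8 p.1 p.2

/-- [T8b] (uses `S_TBB`) The window with row `6` only in the levels `5, …, 14` (`k₀ = 14`, table
`T84`; the window function of `S_TBB` can be `fun v k => decide (v ≠ 6 ∨ (4 < k ∧ k ≤ 14))`). -/
def S_T8b : Prop := ∀ (K : Type) [Field K] (R : Rp M8 K),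
  R.Good {p : P8 | p.1 ≠ 6 ∨ (4 < (p.2 : ℕ) ∧ (p.2 : ℕ) ≤ 14)} →
  (∀ p, R.sc p = ind {((2, 0) : P8)} p) → ∀ k : Fin 30, (k : ℕ) ≤ 14 → R.dm (6, k) ≤ 1

/-- [T8c] (uses `S_TBB`) Row `6` up to level `14` for all other socles, full window (`k₀ = 14`,
tables `shT u.2 (E8b u.1)`; for `u.2 > 14` they are zero). -/
def S_T8c : Prop := ∀ (K : Type) [Field K] (R : Rp M8 K) (u : P8), R.Good Set.univ →
  (∀ p, R.sc p = ind {u} p) → u ≠ (2, 0) → ∀ k : Fin 30, (k : ℕ) ≤ 14 → R.dm (6, k) ≤ 1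

/-- [T8d] (uses `S_TBB`) The window E7, levels `≤ 14`. -/
def S_T8d : Prop := ∀ (K : Type) [Field K] (R : Rp M8 K) (u : P8), u ∈ U7 → R.Good U7 →
  (∀ p, R.sc p = ind {u} p) → ∀ p : P8, (p.2 : ℕ) ≤ 14 →
  R.dm p = tval (shT u.2 (E7b u.1)) p.1 p.2

/-- [T8e] (uses `S_TBB`) The window `W8`: the dimension at `*` is the one of the E7 table at
`(5, 13)` (`k₀ = 14`, window function `fun v k => decide (v ≠ 6 ∨ k = 14)`; the row of level `14` of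
the table is the E7 row with the entry `6` replaced by the entry `5` of level `13`). -/
def S_T8e : Prop := ∀ (K : Type) [Field K] (R : Rp M8 K) (u : P8), u ∈ U7 → R.Good W8 →
  (∀ p, R.sc p = ind {u} p) → R.dm st8 = tval (shT u.2 (E7b u.1)) 5 13

/-- [T8f] (uses `S_TBB`) The modules with socle `(5, 5)`, `(5, 7)` over E7 are thin (`k₀ = 29`; the
table is `shT` of `E7b 5` completed by `[[0,1,0,0,0,0,0,0]` etc.: print it with the recursion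
`T (v, k) = ∑ T (w, k-1) - T (v, k-2)`; it ends at level `16` with the entry `1` at `v = 5`, and is
zero afterwards). -/
def S_T8f : Prop := ∀ (K : Type) [Field K] (R : Rp M8 K) (u : P8), (u = (5, 5) ∨ u = (5, 7)) →
  R.Good U7 → (∀ p, R.sc p = ind {u} p) → ∀ p, R.dm p ≤ 1

/-- [E8p] (uses `S_THN`, `S_PEM`, `S_MON`, `S_RPE`, `S_FID`, `S_FI8`, `S_T8c`) The window without the part of
row `6` above level `14`. Proof: `S_PEM`; for an orbit `{u}`, `u ≠ (2, 0)`, use `S_THN` with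
`Rs = {p | p.1 = 6 ∧ p.2 ≤ 14}`; thinness: compare with the good representation over `univ` with
socle `u` (`S_RPE`, `S_MON`) and `S_T8c`. -/
def S_E8p : Prop := PosC M8 s8 1 U7 → ∀ m : P8 → ℕ, m (2, 0) = 0 →
  PosT M8 s8 1 {p : P8 | p.1 ≠ 6 ∨ (p.2 : ℕ) ≤ 14} m

/-- [E8q] (uses `S_TH1`, `S_MON`, `S_RPE`, `S_FID`, `S_FI8`, `S_T8b`, `S_T8c`) Windows with a piece of row
`6`. Proof: `S_TH1` with `Rs = {p | p.1 = 6 ∧ t < p.2 ∧ p.2 ≤ 14}`; thinness: `S_MON` and `S_T8c`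
for `u ≠ (2, 0)`, and for `u = (2, 0)` compare with the window of `S_T8b`. -/
def S_E8q : Prop := PosC M8 s8 1 U7 → ∀ t : ℕ, 4 ≤ t →
  PosC M8 s8 1 {p : P8 | p.1 ≠ 6 ∨ (t < (p.2 : ℕ) ∧ (p.2 : ℕ) ≤ 14)}

/-- The special dimension vectors: one at the positions `(6, 4), …, (6, 12), (6, 14)` of row `6`, zero
at the others. -/
def S08 (d : P8 → ℕ) : Prop := ∀ k : Fin 30,
  d (6, k) = if (k : ℕ) = 14 then 1 else if (k : ℕ) < 14 then tval T8 6 k else 0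

/-- [E8r] (uses `S_THN`, `S_FI8`, `S_E8p`, `S_E8q`, `S_T8a`, `S_DQ1`) All other dimension vectors. Proof. If
`d (6, k) > tval T8 6 k` for some `k`, the count is zero. Otherwise `d = 0` on row `6` in odd levels
and levels `< 4`. If `d * ≠ 1`: `S_THN` with `Rs = R6`. If `d * = 1` and `d (6, k) ≠ 0` for some
`k > 14`: `S_THN` with `Rs = {p | p.1 = 6 ∧ 14 < p.2}`, and `S_E8p` for the types `m'` (which vanish
at `(2, 0)`). If `d * = 1` and `d (6, k) = 0` for all `k > 14`, then, as `S08 d` fails, there is a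
largest `t ∈ {4, 6, 8, 10, 12}` with `d (6, t) = 0`: `S_THN` with
`Rs = {p | p.1 = 6 ∧ (p.2 ≤ t ∨ 14 < p.2)}` and `S_E8q`. -/
def S_E8r : Prop := PosC M8 s8 1 U7 → ∀ d : P8 → ℕ, ¬ S08 d →
  ∃ Fs : Finset (Polynomial ℕ), ∀ (K : Type) [Field K] (D : Fd K), D.r = 1 →
    ∀ N : FM M8 s8 K D, N.GT Set.univ (ind {((2, 0) : P8)}) → ∃ f ∈ Fs, N.cnt d = f.eval D.q

variable {K : Type} [Field K] {D : Fd K}

/-- The part of the module on row `6`, levels `≤ 12`. -/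
noncomputable def B12 (R : Rp M8 K) : Submodule K R.T :=
  ⨆ k : Fin 30, ⨆ _ : (k : ℕ) ≤ 12, LinearMap.range (R.e (6, k))

/-- The subspace `S` generated by it. -/
noncomputable def S12 (R : Rp M8 K) : Submodule K R.T := R.gen (B12 R)

/-- [E8a] (uses `S_T8a`, `S_FID`, `S_FI8`, `S_GC1`, `S_DQ1`) First facts on `S = S12`. (`S` is stable and is
generated by levels `≤ 12` of row `6`; at `(5, 11)` it is the image of the one-dimensional `N(6, 12)`,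
injective because the socle of `N` is at `(2, 0)`; `cog R6 B12` contains everything of the rows `≠ 6`
up to level `14`, since nothing there generates row `6` at levels `≥ 14`.) -/
def S_E8a : Prop := ∀ (K : Type) [Field K] (D : Fd K), D.r = 1 → ∀ N : FM M8 s8 K D,
  N.GT Set.univ (ind {((2, 0) : P8)}) →
  N.gen (B12 N.toRp) = S12 N.toRp ∧ N.toRp.St (S12 N.toRp) ∧
  N.Grd R6 (B12 N.toRp) ∧ N.Res R6 (B12 N.toRp) (S12 N.toRp) ∧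
  (∀ p : P8, p.1 ≠ 6 → 12 ≤ (p.2 : ℕ) → N.toRp.dmS (S12 N.toRp) p = 0) ∧
  N.toRp.dmS (S12 N.toRp) (5, 11) = 1 ∧
  (∀ v : Fin 8, v ≠ 5 → v ≠ 6 → N.toRp.dmS (S12 N.toRp) (v, 11) = 0) ∧
  (∀ k : Fin 30, N.toRp.dmS (S12 N.toRp) (6, k) = if (k : ℕ) ≤ 12 then tval T8 6 k else 0) ∧
  (∀ p : P8, p.1 ≠ 6 → (p.2 : ℕ) ≤ 14 → ∀ x, N.e p x = x → x ∈ N.cog R6 (B12 N.toRp))

/-- The subquotient `T` and the comparison map `κ : N → T` on the rows `≠ 6`, levels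
`12, 13, 14`. -/
structure TK (N T : FM M8 s8 K D) (κ : N.T →ₗ[K] T.T) : Prop where
  good : T.toRp.Good U7
  sc : ∀ u ∈ U7, (T.toRp.sc u : ℤ)
    = ind {((2, 0) : P8)} u - eulN M8 (ind {u}) (N.toRp.dmS (S12 N.toRp))
  e : ∀ p x, κ (N.e p x) = T.e p (κ x)
  zero : ∀ p : P8, ¬ (p.1 ≠ 6 ∧ 12 ≤ (p.2 : ℕ) ∧ (p.2 : ℕ) ≤ 14) → ∀ x, κ (N.e p x) = 0
  inj : ∀ p : P8, p.1 ≠ 6 → 12 ≤ (p.2 : ℕ) → (p.2 : ℕ) ≤ 14 → ∀ x, N.e p x = x → κ x = 0 → x = 0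
  sur : ∀ p : P8, p.1 ≠ 6 → 12 ≤ (p.2 : ℕ) → (p.2 : ℕ) ≤ 14 → ∀ y, T.e p y = y →
    ∃ x, N.e p x = x ∧ κ x = y
  a : ∀ p : P8, p.1 ≠ 6 → 13 ≤ (p.2 : ℕ) → (p.2 : ℕ) ≤ 14 → ∀ x,
    κ (N.a (N.e p x)) = T.a (κ (N.e p x))
  gen : ∀ p : P8, p.1 ≠ 6 → 12 ≤ (p.2 : ℕ) → (p.2 : ℕ) ≤ 14 → ∀ x, N.e p x = x → ∀ w,
    N.toRp.dmS (S12 N.toRp ⊔ N.toRp.gen (K ∙ x)) w
      = N.toRp.dmS (S12 N.toRp) w + T.toRp.dmS (T.toRp.gen (K ∙ κ x)) w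

/-- [E8b] (uses `S_E8a`, `S_GC1`, `S_GC2`, `S_GC3`, `S_FID`, `S_FI8`, `S_DQ1`, `S_DQ3`) Existence of `T`, `κ`.
Proof: `T = N.subq (S12 N) (cog R6 (B12 N))` (`S_GC2`, `S_GC3` with `U = univ`, `Rs = R6`), `κ x` =
the class of the sum of the `N.e p x` over the positions `p` in question (they lie in `cog`). Injective
since `S` is zero there. `gen`: the classes of `gen (K ∙ x)` form `T.gen (K ∙ κ x)`. -/
def S_E8b : Prop := ∀ (K : Type) [Field K] (D : Fd K), D.r = 1 → ∀ N : FM M8 s8 K D,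
  N.GT Set.univ (ind {((2, 0) : P8)}) → ∃ (T : FM M8 s8 K D) (κ : N.T →ₗ[K] T.T), TK N T κ

/-- The dimension at row `v`, level `12` or `13` (according to the parity of `v`) of the E7 module
with socle `u`. -/
def b8 (u : P8) (v : Fin 8) : ℕ :=
  tval (shT u.2 (E7b u.1)) v (if v = 0 ∨ v = 2 ∨ v = 4 then 12 else 13)

/-- The Euler form of the levels `12`, `13` in terms of `b8`. -/
def e8 (u w : P8) : ℤ :=
  (∑ v, (b8 u v : ℤ) * b8 w v)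
    - ∑ v, ∑ v', if (v = 1 ∨ v = 3 ∨ v = 5 ∨ v = 7) ∧ eB v v' = true ∧ v' ≠ 6 then
        (b8 u v : ℤ) * b8 w v' else 0

/-- [E8n] Numerical part of the type theorem. Proof: `t = (2,4,6,5,4,3,-,3)` has `⟨t, t⟩ = 3`, all
`⟨b8 u, b8 u⟩ = 1`, `b8 u 5 ≤ 1`. From `∑ m u m w e8 u w = 3` and nonnegativity:
`∑ (m u)^2 ≤ 3`; from row `5`: `3 = ∑ m u * b8 u 5 ≤ ∑ m u`. So `m` takes the value `1` on exactly
three `u`, all with `b8 u 5 = 1`, and `e8 u w = 0` for `u ≠ w` among them. Among the triples of such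
`u` only `(3,5), (5,5), (7,5)` has the sum `t` (finite check, `decide +kernel`; 24 candidates). -/
def S_E8n : Prop := ∀ m : P8 → ℕ,
  (∀ p : P8, m p ≠ 0 → p.1 ≠ 6 ∧ (p.2 : ℕ) ≤ 12 ∧
    (((p.1 = 0 ∨ p.1 = 2 ∨ p.1 = 4) ∧ (p.2 : ℕ) % 2 = 0) ∨
     ((p.1 = 1 ∨ p.1 = 3 ∨ p.1 = 5 ∨ p.1 = 7) ∧ (p.2 : ℕ) % 2 = 1))) →
  (∀ v : Fin 8, v ≠ 6 → ∑ u, m u * b8 u v
    = tval T8 v (if v = 0 ∨ v = 2 ∨ v = 4 then 12 else 13)) →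
  (∀ u w : P8, m u ≠ 0 → m w ≠ 0 → 0 ≤ e8 u w) → ∀ p, m p = mT8 p

/-- [E8c] (uses `S_E8a`, `S_E8n`, `S_BRK`, `S_RG1`, `S_RG2`, `S_RG3`, `S_RTR`, `S_RPE`, `S_DMS`,
`S_T8a`, `S_T8d`, `S_SAG`, `S_EU1`, `S_FID`, `S_FI8`, `S_DQ3`) The type of `T`. Proof. `N.Brick 12` (`S_BRK`,
`k₀ = 29`) and `e2 M8 12 N.dm N.dm = 1` (table), so `N.Rig N 12`. Hence `T.Rig T 12`: given
`g : T → T`, apply it to the map `λ g κ`, `λ : T → N` the inverse of `κ` on the rows `≠ 6` of levels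
`12, 13` (zero elsewhere), and take `κ f λ`. For `u, w` with `sc T u, sc T w ≠ 0` let `I u`, `I w` be
good over `U7` with socle `u`, `w` (`S_RPE`); retracts (`S_RTR`), so
`0 ≤ e2 M8 12 (dm (I u)) (dm (I w)) = e8 u w` (`S_RG3`, `S_RG2`, `S_SAG`, `S_T8d`; the dimension
vectors vanish at the positions of the wrong parity). Let `m = sc T`. `m` vanishes at the wrong
parity (`T.dm ≤ N.dm` there: the formula `TK.sc` and `S_E8a`, or: for `p ∈ U7` of wrong parity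
`dmS S` and its neighbours vanish, so `TK.sc` gives zero), at levels `≥ 14` and at level `13`
(`TK.sc`, `S_E8a`: at `(5, 13)`: `-(0 - 1 + 1) = 0`; at other `(v, 13)`: `0`), and outside `U7`. The
dimension vector of `T` at levels `12, 13` is the one of `N` (`TK.inj`, `TK.sur`), and equals
`∑ m u dm (I u)` (`S_DMS`). Now `S_E8n`. -/
def S_E8c : Prop := ∀ (K : Type) [Field K] (D : Fd K), D.r = 1 → ∀ (N T : FM M8 s8 K D)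
  (κ : N.T →ₗ[K] T.T), N.GT Set.univ (ind {((2, 0) : P8)}) → TK N T κ →
  ∀ p, T.toRp.sc p = mT8 p

/-- [E8d] (uses `S_E8a`, `S_E8b`, `S_E8c`, `S_UNI`, `S_GC1`, `S_GC2`, `S_GC3`, `S_BRK`, `S_FID`, `S_FI8`,
`S_GNV`, `S_DQ1`, `S_DQ3`) Transfer to `J`. Proof. `T`, `κ` from `S_E8b`, type `mT8` by `S_E8c`.
`Z = cog {*} ⊥` in `J` is good over `U7 = W8 \ {*}` of type `mT8` (`S_GC2`, `S_GC3` with `B = ⊥`), so
there is an isomorphism of `T` with `J.sub Z` (`S_UNI`), i.e. an injective morphism `ψ : T → J` with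
range `Z`; `J(5, 13) ⊆ Z`. For `v` in `N(*)`: `κ (a v) ∈ T(5, 13)`, and by goodness of `J` at `*`
(only successor `(5, 13)`, `J(6, 12) = 0`) there is a unique `j v ∈ J(*)` with
`a (j v) = ψ (κ (a v))`. Injective. Dimensions: `gen (B12 ⊔ K v) = S12 ⊔ gen (K v)`,
`gen (K v) = K v + gen (K a v)`, `TK.gen` for `x = a v`, `ψ` maps `T.gen` onto `J.gen`,
`gen (K j v) = K j v + gen (K a (j v))`. Last part: `ε` preserves `Z` (`ε Z` is stable and zero at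
`*`), so it gives `ε' : T → T` with `ψ ε' = ε ψ`. Let `f : N → N` be `κ⁻¹ ε' κ` on the rows `≠ 6` of
the levels `13, 14`, `v ↦ v'` (`j v' = ε (j v)`) at `*`, zero elsewhere. It commutes with `a` on level
`14` (`TK.a`). `N.Brick 13` gives a scalar `c` with `f = c` on the levels `13, 14`. So `ε = c` on
`ψ T(5, 13) = J(5, 13)`, hence on `J(*)` (`a` is injective on `J(*)`). -/
def S_E8d : Prop := ∀ (K : Type) [Field K] (D : Fd K), D.r = 1 → ∀ N J : FM M8 s8 K D,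
  N.GT Set.univ (ind {((2, 0) : P8)}) → J.GT W8 mT8 →
  (∀ u ∈ U7, (mT8 u : ℤ)
    = ind {((2, 0) : P8)} u - eulN M8 (ind {u}) (N.toRp.dmS (S12 N.toRp))) ∧
  ∃ j : N.T →ₗ[K] J.T,
    (∀ v, J.e st8 (j v) = j v) ∧ (∀ v, N.e st8 v = v → j v = 0 → v = 0) ∧
    (∀ v, N.e st8 v = v → v ≠ 0 → ∀ p, N.toRp.dmS (N.toRp.gen (B12 N.toRp ⊔ K ∙ v)) p
      = N.toRp.dmS (S12 N.toRp) p + J.toRp.dmS (J.toRp.gen (K ∙ j v)) p) ∧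
    (∀ ε ∈ Rp.Hm J.toRp J.toRp,
      (∀ v, N.e st8 v = v → ∃ v', N.e st8 v' = v' ∧ ε (j v) = j v') →
      ∃ c : K, ∀ y, J.e st8 y = y → ε y = c • y)

/-- [E8e] (uses `S_E8a`, `S_E8d`, `S_RST`, `S_UNI`, `S_ISO`, `S_FID`, `S_FI8`, `S_GNV`, `S_T8a`, `S_DQ1`) Counts of
lines. Proof. Let `B = B12 ⊔ K v`, `d` special. `W` with `dmS W = d` and `W(*) = K v` has the part of
`B` on `R6` and conversely. `N.Res R6 B (gen B)`: dimensions by `S_E8d` (`J` has dimension zero on row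
`6` except at `*`). `S_RST` for `N`, `U = univ`, `Rs = R6`, `B`: module `G` over `U7` of type
`m' u = ind {(2,0)} u - ⟨1_u, dmS gen B⟩ = mT8 u - ⟨1_u, dmS gen (j v)⟩` (`S_E8d`, linearity of the
Euler form). `S_RST` for `J`, `U = W8`, `Rs = {*}`, `B = K (j v)`: module `G'` over `U7` of the same
type. So the counts agree (`S_UNI`, `S_ISO`). -/
def S_E8e : Prop := ∀ (K : Type) [Field K] (D : Fd K), D.r = 1 → ∀ N J : FM M8 s8 K D,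
  N.GT Set.univ (ind {((2, 0) : P8)}) → J.GT W8 mT8 →
  ∃ j : N.T →ₗ[K] J.T,
    (∀ v, J.e st8 (j v) = j v) ∧ (∀ v, N.e st8 v = v → j v = 0 → v = 0) ∧
    (∀ ε ∈ Rp.Hm J.toRp J.toRp,
      (∀ v, N.e st8 v = v → ∃ v', N.e st8 v' = v' ∧ ε (j v) = j v') →
      ∃ c : K, ∀ y, J.e st8 y = y → ε y = c • y) ∧
    ∀ d : P8 → ℕ, S08 d → ∀ v, N.e st8 v = v → v ≠ 0 →
      ((∀ p, N.toRp.dmS (S12 N.toRp) p ≤ d p) →
        N.cntP (fun W => W.map (N.e st8) = K ∙ v) d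
          = J.cntP (J.Res {st8} (K ∙ j v)) (fun p => d p - N.toRp.dmS (S12 N.toRp) p)) ∧
      (¬ (∀ p, N.toRp.dmS (S12 N.toRp) p ≤ d p) →
        N.cntP (fun W => W.map (N.e st8) = K ∙ v) d = 0)

/-- The 15 positions. -/
def Q8 : List P8 := [(5, 13), (4, 12), (3, 11), (2, 10), (1, 9), (7, 9), (0, 8), (2, 8), (1, 7),
  (3, 7), (2, 6), (4, 6), (3, 5), (5, 5), (7, 5)]

/-- Dimension vector of the sub generated by a generic vector at `*`. -/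
def s123 (p : P8) : ℕ := if p = st8 ∨ p ∈ Q8 then 1 else 0

/-- Dimension vector of the sub generated by a vector at `*` with second coordinate zero. -/
def s13 (p : P8) : ℕ := if (p = st8 ∨ p ∈ Q8) ∧ p ≠ (5, 5) then 1 else 0

/-- [E8m] Numerical: the inequalities force `s`. Proof: for `w ∈ U7` of level `≤ 12`, `w ∉ Q8`:
`s w = 0`. For `w = (v, k)`, `k ≤ 27`: `s (v, k+2) + s (v, k) ≤ ∑_{w ~ v} s (w, k+1)`. Chain (all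
values are `0` or `1`): `(7,5)`: `s (2,6) = 1`. Then `(2,6)`: `s (1,7) + s (3,7) ≥ 1 + s (2,8)`;
`(3,7)`: `s (3,7) ≤ s (2,8)`; `(0,8)`: `s (0,8) ≤ s (1,9)`;
`(1,7)`: `s (1,9) + s (1,7) ≤ s (0,8) + s (2,8)`; so `s (2,8) = s (1,7) = s (3,7) = 1`; `(2,8)`:
`s (2,10) + 1 ≤ s (1,9) + s (7,9)`; `(1,9)`, `(7,9)`: `≤ s (2,10)`; and so on; `omega` can finish
from the list of these inequalities. -/
def S_E8m : Prop := ∀ s : P8 → ℕ, s st8 = 1 → (∀ k : Fin 30, (6, k) ≠ st8 → s (6, k) = 0) →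
  (∀ p : P8, p ≠ st8 → 14 ≤ (p.2 : ℕ) → s p = 0) → (∀ p : P8, (p.2 : ℕ) < 5 → s p = 0) →
  (∀ p : P8, p ≠ st8 → s p ≤ if p ∈ Q8 then 1 else 0) → s (5, 13) = 1 →
  s (3, 5) = 1 → s (7, 5) = 1 →
  (∀ (v : Fin 8) (k : ℕ) (h : k + 2 < 30), v ≠ 6 → 6 ≤ k + 2 → (v ≠ 5 ∨ k ≠ 13) →
    s (v, ⟨k + 2, h⟩) + s (v, ⟨k, by omega⟩)
      ≤ ∑ w, if eB v w = true then s (w, ⟨k + 1, by omega⟩) else 0) →
  (s (5, 5) = 1 → s = s123) ∧ (s (5, 5) = 0 → s = s13)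

/-- [E8g] (uses `S_E8m`, `S_GNV`, `S_UPB`, `S_RPE`, `S_T8e`, `S_SAG`, `S_FID`, `S_FI8`, `S_DQ1`, `S_DQ2`, `S_DQ3`,
`S_BND`) The subs generated by the vectors at `*` in `J = J1 × (J2 × J3)`. Proof: `G = gen (K v)`,
`s = dmS G`. `S_GNV` gives `s * = 1`, zero at other positions of level `≥ 14`, and the inequalities
(`sc J t = 0` for `t ≠ (3,5), (5,5), (7,5)`). Upper bound: apply `S_UPB` to `X = J.sub G` (supported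
on `W8`), `R` good over `W8` with socle `w ∈ U7` (`S_RPE`), and `S_T8e`: the table entry at `(5, 13)`
is `1` for `w ∈ Q8`, and `0` for `w ∉ Q8` of level `≥ 5` (decide); for levels `< 5` the module `J`
vanishes (`S_BND`). `s (5, 13) = 1` (`a v ≠ 0`). At level `5` the module `J` is its socle: the
component `vᵢ ≠ 0` generates in `Jᵢ` a nonzero sub, which contains the socle `uᵢ`; the corresponding
element of `G`, projected to the position `uᵢ`, is the socle vector of `Jᵢ` (the other factors vanish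
at `uᵢ`). If `v₂ = 0` then `G ⊆ J1 × 0 × J3`, which vanishes at `(5, 5)`. -/
def S_E8g : Prop := ∀ (K : Type) [Field K] (D : Fd K), D.r = 1 → ∀ J1 J2 J3 : FM M8 s8 K D,
  J1.GT W8 (ind {((3, 5) : P8)}) → J2.GT W8 (ind {((5, 5) : P8)}) →
  J3.GT W8 (ind {((7, 5) : P8)}) →
  ∀ (v1 : J1.T) (v2 : J2.T) (v3 : J3.T), J1.e st8 v1 = v1 → J2.e st8 v2 = v2 →
  J3.e st8 v3 = v3 → v1 ≠ 0 → v3 ≠ 0 →
  (v2 ≠ 0 → ∀ p, (J1.prod (J2.prod J3)).toRp.dmS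
    ((J1.prod (J2.prod J3)).toRp.gen (K ∙ ((v1, (v2, v3)) : J1.T × (J2.T × J3.T)))) p = s123 p) ∧
  (v2 = 0 → ∀ p, (J1.prod (J2.prod J3)).toRp.dmS
    ((J1.prod (J2.prod J3)).toRp.gen (K ∙ ((v1, (v2, v3)) : J1.T × (J2.T × J3.T)))) p = s13 p)

/-- [E8h] (uses `S_EU1`, `S_SAG`) The types belonging to `s123`, `s13`. (By `decide` after rewriting
the Euler form; `mT8`, `ind` are indicators.) -/
def S_E8h : Prop := ∀ u ∈ U7,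
  ((mT8 u : ℤ) - eulN M8 (ind {u}) s123 = (ind {((2, 6) : P8)} u + ind {((4, 6) : P8)} u : ℕ)) ∧
  ((mT8 u : ℤ) - eulN M8 (ind {u}) s13
    = (ind {((2, 6) : P8)} u + ind {((5, 5) : P8)} u + ind {((5, 7) : P8)} u : ℕ))

/-- The number of subs of `J1 × (J2 × J3)` whose part at `*` is spanned by `(v1, v2, v3)`. -/
noncomputable def CJ (J1 J2 J3 : FM M8 s8 K D) (v1 : J1.T) (v2 : J2.T) (v3 : J3.T)
    (d : P8 → ℕ) : ℕ :=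
  (J1.prod (J2.prod J3)).cntP
    ((J1.prod (J2.prod J3)).Res {st8} (K ∙ ((v1, (v2, v3)) : J1.T × (J2.T × J3.T)))) d

/-- [E8i] (uses `S_FID`, `S_FI8`, `S_BND`, `S_DQ1`, `S_DQ3`) `CJ` depends only on the support. Proof: each
`Ji(*)` is at most one-dimensional (`Ji` is good at `*`, `Ji(5,13)` … use only: the vectors
`vᵢ, vᵢ'` are proportional, because `Ji(*)` embeds … `S_T8e`), so there is an automorphism of the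
product (scalars on the factors) which maps the first vector to the second. -/
def S_E8i : Prop := ∀ (K : Type) [Field K] (D : Fd K), D.r = 1 → ∀ J1 J2 J3 : FM M8 s8 K D,
  J1.toRp.dm st8 ≤ 1 → J2.toRp.dm st8 ≤ 1 → J3.toRp.dm st8 ≤ 1 →
  ∀ (v1 v1' : J1.T) (v2 v2' : J2.T) (v3 v3' : J3.T),
  J1.e st8 v1 = v1 → J2.e st8 v2 = v2 → J3.e st8 v3 = v3 →
  J1.e st8 v1' = v1' → J2.e st8 v2' = v2' → J3.e st8 v3' = v3' →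
  (v1 = 0 ↔ v1' = 0) → (v2 = 0 ↔ v2' = 0) → (v3 = 0 ↔ v3' = 0) →
  ∀ d, CJ J1 J2 J3 v1 v2 v3 d = CJ J1 J2 J3 v1' v2' v3' d

/-- [E8j] (uses `S_E8i`, `S_FID`, `S_FI8`, `S_SPC`, `S_RSP`, `S_ISO`, `S_BND`, `S_DQ1`, `S_DQ2`, `S_DQ3`) The bracket
`(q - 1) C₁₂₃ + C₁₂`. Proof: in `J3 × (J1 × J2)` count the subs `W` with `W ∩ J3` zero at `*` and
projection to `J1 × J2` equal to `K (v1, v2)` at `*`: by `S_SPC` (`N₁ = J3`, `N₂ = J1 × J2`, all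
socles at level `5`, `J3` vanishes below level `5`) it is
`∑ q^{..} cntP J3 (zero at *) cntP (J1 × J2) (K (v1, v2) at *)`; both factors are covered by `S_RSP`
(`Rs = {*}`, `W8 \ {*} = U7`), the exponents are bounded (`S_BND`). On the other hand `W(*)` is
spanned by `(t v3, (v1, v2))` for exactly one `t ∈ K` (`J3(*)` is one-dimensional, spanned by `v3`);
so the count is `∑_t CJ (v1, v2, t v3) = CJ (v1, v2, 0) + (q - 1) CJ (v1, v2, v3)` (`S_E8i`). -/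
def S_E8j : Prop := PosC M8 s8 1 U7 → ∀ d : P8 → ℕ, ∃ Fs : Finset (Polynomial ℕ),
  ∀ (K : Type) [Field K] (D : Fd K), D.r = 1 → ∀ J1 J2 J3 : FM M8 s8 K D,
  J1.GT W8 (ind {((3, 5) : P8)}) → J2.GT W8 (ind {((5, 5) : P8)}) →
  J3.GT W8 (ind {((7, 5) : P8)}) → J1.toRp.dm st8 ≤ 1 → J2.toRp.dm st8 ≤ 1 →
  J3.toRp.dm st8 ≤ 1 →
  ∀ (v1 : J1.T) (v2 : J2.T) (v3 : J3.T), J1.e st8 v1 = v1 → J2.e st8 v2 = v2 →
  J3.e st8 v3 = v3 → v1 ≠ 0 → v2 ≠ 0 → v3 ≠ 0 → ∃ f ∈ Fs,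
    (D.q - 1) * CJ J1 J2 J3 v1 v2 v3 d + CJ J1 J2 J3 v1 v2 0 d = f.eval D.q

/-- [E8k] (uses `S_E8g`, `S_E8h`, `S_RST`, `S_COA`, `S_T8f`, `S_UNI`, `S_ISO`, `S_FID`, `S_FI8`, `S_DQ1`,
`S_DQ2`) The difference `C₁₃ - C₁₂₃`. Proof: `S_RST` for `J`, `U = W8`, `Rs = {*}`, `B = K v`:
`CJ` of the generic vector at `d` is the count of the module over `U7` of type
`ind (2,6) + ind (4,6)` at `d - s123` (zero if `s123 ≤ d` fails), for `(v1, 0, v3)` it is the one of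
type `ind (2,6) + ind (5,5) + ind (5,7)` at `d - s13` (`S_E8g`, `S_E8h`). `S_COA` with
`m = ind {(2,6)}`, `a = (5,5)`, `b = (5,7)`, `x = (4,6)`, `U = U7` (thinness: `S_T8f`), at
`d - s123`; note `d - s13 = (d - s123) + ind {(5,5)}`. If `s123 ≤ d` fails, `C₁₂₃ = 0` and `C₁₃` is
covered by `PosC` (or zero). -/
def S_E8k : Prop := PosC M8 s8 1 U7 → ∀ d : P8 → ℕ, ∃ Fs : Finset (Polynomial ℕ),
  ∀ (K : Type) [Field K] (D : Fd K), D.r = 1 → ∀ J1 J2 J3 : FM M8 s8 K D,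
  J1.GT W8 (ind {((3, 5) : P8)}) → J2.GT W8 (ind {((5, 5) : P8)}) →
  J3.GT W8 (ind {((7, 5) : P8)}) →
  ∀ (v1 : J1.T) (v2 : J2.T) (v3 : J3.T), J1.e st8 v1 = v1 → J2.e st8 v2 = v2 →
  J3.e st8 v3 = v3 → v1 ≠ 0 → v2 ≠ 0 → v3 ≠ 0 → ∃ f ∈ Fs,
    CJ J1 J2 J3 v1 0 v3 d = CJ J1 J2 J3 v1 v2 v3 d + f.eval D.q

/-- [E8l] Lines in a plane in general position (linear algebra). Proof: `ker cᵢ ⊓ X` is a line for
each `i` (it is not zero as the rank is `≤ 1`, and not `X` since it meets the kernel of another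
`cⱼ` trivially), the three lines are distinct, and on the other `|K| + 1 - 3` lines all three `cᵢ` are
nonzero. -/
def S_E8l : Prop := ∀ (K : Type) [Field K] [Finite K] (T Y1 Y2 Y3 : Type) [AddCommGroup T]
  [Module K T] [Finite T] [AddCommGroup Y1] [Module K Y1] [AddCommGroup Y2] [Module K Y2]
  [AddCommGroup Y3] [Module K Y3] (X : Submodule K T) (c1 : T →ₗ[K] Y1) (c2 : T →ₗ[K] Y2)
  (c3 : T →ₗ[K] Y3), finrank K X = 2 → finrank K (X.map c1) ≤ 1 → finrank K (X.map c2) ≤ 1 →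
  finrank K (X.map c3) ≤ 1 → (∀ v ∈ X, c1 v = 0 → c2 v = 0 → v = 0) →
  (∀ v ∈ X, c1 v = 0 → c3 v = 0 → v = 0) → (∀ v ∈ X, c2 v = 0 → c3 v = 0 → v = 0) →
  ∀ (Γ : Submodule K T → ℕ) (g : Prop → Prop → Prop → ℕ),
  (∀ v ∈ X, v ≠ 0 → Γ (K ∙ v) = g (c1 v = 0) (c2 v = 0) (c3 v = 0)) →
  (∑ᶠ L ∈ {L : Submodule K T | L ≤ X ∧ finrank K L = 1}, Γ L) + 2 * g False False False
    = Nat.card K * g False False False + g True False False + g False True False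
      + g False False True

/-- [E8s] (uses `S_E8e`, `S_E8i`, `S_E8j`, `S_E8k`, `S_E8l`, `S_RSP`, `S_EXM`, `S_T8a`, `S_T8e`, `S_FID`, `S_FI8`,
`S_DQ1`, `S_DQ2`) The special vectors. Proof. Choose `J1, J2, J3` (`S_EXM`) and
`J = J1 × (J2 × J3)`, of type `mT8` over `W8`; `dm Ji * = 1` (`S_T8e`). `X = range (N.e *)` has
dimension `2` (`S_T8a`), `N.cnt d = ∑_L N.cntP (W(*) = L) d` over the lines `L ≤ X` (`d * = 1`).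
`cᵢ v` = the `i`-th component of `j v` (`S_E8e`). If `v ∈ X` is nonzero with two components zero,
e.g. `j v = (v1, 0, 0)`, then `j X` contains `J1(*)` (one-dimensional), so the projection `ε` of `J`
onto `J1` maps `j X` into itself; by `S_E8e` it is a scalar on `J(*)`, contradiction (it is `1` on
`J1(*)` and `0` on `J2(*)`). So `S_E8l` applies:
`N.cnt d + 2 C₁₂₃ = q C₁₂₃ + C₂₃ + C₁₃ + C₁₂` at `d - dmS S12` (or `N.cnt d = 0`), i.e.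
`N.cnt d = ((q-1) C₁₂₃ + C₁₂) + C₂₃ + (C₁₃ - C₁₂₃)`; use `S_E8j`, `S_RSP` (for `C₂₃`), `S_E8k`. The
vector `dmS S12` depends on `K`, but it is bounded by the table `T8`. -/
def S_E8s : Prop := PosC M8 s8 1 U7 → ∀ d : P8 → ℕ, S08 d →
  ∃ Fs : Finset (Polynomial ℕ), ∀ (K : Type) [Field K] (D : Fd K), D.r = 1 →
    ∀ N : FM M8 s8 K D, N.GT Set.univ (ind {((2, 0) : P8)}) → ∃ f ∈ Fs, N.cnt d = f.eval D.q

/-- [E8z] (uses `S_E8r`, `S_E8s`) The result of the block. -/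
def S_E8z : Prop := PosC M8 s8 1 U7 → PosT M8 s8 1 Set.univ (ind {((2, 0) : P8)})

end Pool.Agent.Lib.MP_4c1f79_al
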