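import Pool.Agent.Lib.MP_4c1f79_al.Core

/-!
# MP_4c1f79_al : statements, part A (homological algebra and splitting)

Each `S_X` is proved in its own file `P_X.lean` as `theorem X_holds : S_X`. Statements used by
another one are listed in the docstring; a piece may import only `StmA`, `StmB`, ... and take the
other statements as hypotheses (`theorem X_holds : S_Y → S_X`) exactly as listed after `uses`.
-/

set_option autoImplicit false

namespace Pool.Agent.Lib.MP_4c1f79_al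

open Finset Module

variable {P : Type} [Fintype P] {M : Mesh P} {s : Equiv.Perm P} {K : Type} [Field K] {D : Fd K}

/-- Linear maps `f : X → Y` of shape `S`: the component from position `p` to position `q` is zero
unless `S p q`. -/
def shp (X Y : Rp M K) (S : P → P → Prop) : Submodule K (X.T →ₗ[K] Y.T) where
  carrier := {f | ∀ p q, ¬ S p q → ∀ x, Y.e q (f (X.e p x)) = 0}
  zero_mem' := fun p q _ x => by simp
  add_mem' := fun {f g} hf hg p q h x => by simp [hf p q h x, hg p q h x]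
  smul_mem' := fun c f hf p q h x => by simp [hf p q h x]

/-- `X` is supported on `U`. -/
def Rp.Sup (X : Rp M K) (U : Set P) : Prop := ∀ p, p ∉ U → ∀ x, X.e p x = 0

/-- The number of subs `W` with dimension vector `d` which satisfy `A W`. -/
noncomputable def FM.cntP (N : FM M s K D) (A : Submodule K N.T → Prop) (d : P → ℕ) : ℕ :=
  Nat.card {W : Submodule K N.T // N.St W ∧ A W ∧ ∀ p, N.toRp.dmS W p = d p}

/-- [LD] Dimension of the space of maps of shape `S`.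
Proof: `f ↦ (e q ∘ f ∘ e p)` for `S p q` is a linear isomorphism of `shp X Y S` with the product
of the spaces `range (X.e p) →ₗ range (Y.e q)`. -/
def S_LD : Prop := ∀ (P : Type) [Fintype P] (M : Mesh P) (K : Type) [Field K] (X Y : Rp M K)
  (S : P → P → Prop) [∀ p q, Decidable (S p q)],
  finrank K (shp X Y S) = ∑ p, ∑ q, if S p q then X.dm p * Y.dm q else 0

/-- [DQ1] Dimension vectors of subs and quotients. Straightforward linear algebra. -/
def S_DQ1 : Prop := ∀ (P : Type) [Fintype P] (M : Mesh P) (K : Type) [Field K],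
  (∀ (R : Rp M K) (W : Submodule K R.T) (h : R.St W) (p : P), (R.sub W h).dm p = R.dmS W p) ∧
  (∀ (R : Rp M K) (W : Submodule K R.T) (h : R.St W) (p : P),
    (R.quo W h).dm p + R.dmS W p = R.dm p) ∧
  (∀ (R : Rp M K) (p : P), R.dmS ⊤ p = R.dm p) ∧
  (∀ (R : Rp M K) (W : Submodule K R.T), R.St W → ∀ p,
    R.dmS W p = finrank K (W ⊓ LinearMap.range (R.e p) : Submodule K R.T)) ∧
  (∀ (R : Rp M K) (W W' : Submodule K R.T), W ≤ W' → ∀ p, R.dmS W p ≤ R.dmS W' p) ∧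
  (∀ (R : Rp M K) (W W' : Submodule K R.T), R.St W → R.St W' → W ≤ W' →
    (∀ p, R.dmS W p = R.dmS W' p) → W = W')

/-- [DQ2] Products. -/
def S_DQ2 : Prop := ∀ (P : Type) [Fintype P] (M : Mesh P) (K : Type) [Field K],
  (∀ (R₁ R₂ : Rp M K) (p : P), (R₁.prod R₂).dm p = R₁.dm p + R₂.dm p) ∧
  (∀ (R₁ R₂ : Rp M K) (p : P), (R₁.prod R₂).sc p = R₁.sc p + R₂.sc p) ∧
  (∀ (R₁ R₂ : Rp M K) (U : Set P), R₁.Good U → R₂.Good U → (R₁.prod R₂).Good U) ∧
  (∀ (R₁ R₂ : Rp M K) (U : Set P), (R₁.prod R₂).Good U → R₁.Good U ∧ R₂.Good U) ∧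
  (∀ (R₁ R₂ : Rp M K) (W : Submodule K (R₁.T × R₂.T)) (p : P),
    (R₁.prod R₂).St W → (R₁.prod R₂).dmS W p
      = R₁.dmS (W.comap (LinearMap.inl K R₁.T R₂.T)) p
        + R₂.dmS (W.map (LinearMap.snd K R₁.T R₂.T)) p)

/-- [DQ3] Subspaces of subs and of quotients; the socle of a sub. -/
def S_DQ3 : Prop := ∀ (P : Type) [Fintype P] (M : Mesh P) (K : Type) [Field K],
  (∀ (R : Rp M K) (W : Submodule K R.T) (h : R.St W) (V : Submodule K (R.quo W h).T) (p : P),
    (R.quo W h).dmS V p + R.dmS W p = R.dmS (V.comap W.mkQ) p) ∧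
  (∀ (R : Rp M K) (W : Submodule K R.T) (h : R.St W) (V : Submodule K (R.sub W h).T) (p : P),
    (R.sub W h).dmS V p = R.dmS (V.map W.subtype) p) ∧
  (∀ (R : Rp M K) (W : Submodule K R.T) (h : R.St W) (p : P), (R.sub W h).sc p ≤ R.sc p) ∧
  (∀ (R : Rp M K) (p : P), R.dm p = 0 ↔ ∀ x, R.e p x = 0) ∧
  (∀ (R : Rp M K) (p : P), R.sc p = 0 ↔ ∀ x, R.e p x = x → R.a x = 0 → x = 0) ∧
  (∀ (R : Rp M K), (∀ p, R.sc p = 0) → ∀ x : R.T, x = 0)

/-- [H2] Second cohomology vanishes. Proof: choose `g` downwards. For every `n` there is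
`g ∈ shp X Z M.Ar` which satisfies the equation for all `p` with `n ≤ lv p` (induction on
`n` downwards from `1 + max lv`; for `n = 0` we are done). Step: let `lv p = n`, `Tau p r`. The
components of `g` on the arrows `q → r` (so `lv q + 1 = n`, `Ar p q` by `mesh_ar`) occur only in
the equations at levels `≤ n`; the equation at `(p, r)` asks for a linear map
`∑_q g_{q r} : ⨁_{Ar p q} X(q) → Z(r)` with given composite with `X.a : X(p) → ⨁ X(q)`. If
`X.sc p = 0`, then `X.a` is injective on `X(p)`, so it can be extended. If `X.sc p ≠ 0`, then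
`Z(r) = 0`. Distinct `p` at level `n` have distinct `r` (`tau_inj`), so they do not interfere. -/
def S_H2 : Prop := ∀ (P : Type) [Fintype P] (M : Mesh P) (K : Type) [Field K] (X Z : Rp M K),
  (∀ p r, M.Tau p r → X.sc p ≠ 0 → Z.dm r = 0) →
  ∀ h : X.T →ₗ[K] Z.T, ∃ g ∈ shp X Z M.Ar, ∀ p r, M.Tau p r → ∀ x,
    Z.e r (Z.a (g (X.e p x)) + g (X.a (X.e p x))) = Z.e r (h (X.e p x))

/-- [H1] First cohomology vanishes for good `Y`. Proof: choose `f` upwards: for every `n` there is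
`f ∈ shp X Y (· = ·)` with `g x = Y.a (f x) - f (X.a x)` for all `x = X.e p x`, `lv p < n`. Step:
let `lv p = n`, `p ∈ U` (otherwise `X(p) = 0`); for `x ∈ X(p)` put `y = g x + f (X.a x)`, supported
on the successors of `p`. For `Tau p r`:
`Y.e r (Y.a y) = Y.e r (Y.a (g x)) + Y.e r (Y.a (f (X.a x)))
 = Y.e r (Y.a (g x)) + Y.e r (g (X.a x)) + Y.e r (f (X.a (X.a x))) = 0` because the last term is
`f (X.e r (X.a (X.a x))) = 0`. So `y` is in the image of `Y.a` on `Y(p)` by `GoodAt p`; choose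
linearly (a linear section of the surjection from `Y(p)` onto its image, on a basis of `X(p)`). -/
def S_H1 : Prop := ∀ (P : Type) [Fintype P] (M : Mesh P) (K : Type) [Field K] (X Y : Rp M K)
  (U : Set P), Y.Good U → X.Sup U →
  ∀ g ∈ shp X Y M.Ar, (∀ p r, M.Tau p r → ∀ x,
    Y.e r (Y.a (g (X.e p x)) + g (X.a (X.e p x))) = 0) →
  ∃ f ∈ shp X Y (fun p q => p = q), ∀ x, g x = Y.a (f x) - f (X.a x)

/-- [H1Q] (uses `S_H2`, `S_H1`, `S_DQ1`) First cohomology with values in a quotient of a good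
module. Proof: lift `g` to `g' ∈ shp X Y M.Ar` (linear lift along `W.mkQ`, then take the
components along arrows). The map `h` whose `(p, r)` components (`Tau p r`) are
`e r (a g' + g' a) e p` has values in `W`; apply `S_H2` to `Z = Y.sub W` (`dm Z r ≤ dm Y r`) and
subtract: `g' - n` is a cocycle for `Y`; apply `S_H1`; reduce modulo `W`. -/
def S_H1Q : Prop := ∀ (P : Type) [Fintype P] (M : Mesh P) (K : Type) [Field K] (X Y : Rp M K)
  (U : Set P), Y.Good U → X.Sup U → (∀ p r, M.Tau p r → X.sc p ≠ 0 → Y.dm r = 0) →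
  ∀ (W : Submodule K Y.T) (hW : Y.St W),
  ∀ g ∈ shp X (Y.quo W hW) M.Ar, (∀ p r, M.Tau p r → ∀ x,
    (Y.quo W hW).e r ((Y.quo W hW).a (g (X.e p x)) + g (X.a (X.e p x))) = 0) →
  ∃ f ∈ shp X (Y.quo W hW) (fun p q => p = q),
    ∀ x, g x = (Y.quo W hW).a (f x) - f (X.a x)

/-- [EUL] (uses `S_LD`) Euler characteristic. If `H¹` and `H²` of the pair `(X, Y)` vanish, then
`dim Hom(X, Y) = ⟨dm X, dm Y⟩`. Proof: `d0 : shp (=) → shp Ar`, `f ↦ a f - f a`, has kernel
`Hm X Y`; `d1 : shp Ar → shp Tau`, `g ↦ ∑_{Tau p r} e r (a g + g a) e p`, has kernel `range d0` by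
`H¹ = 0` (`d1 d0 = 0` by the mesh relations of `X` and `Y`) and is onto by `H² = 0`; rank-nullity
and `S_LD`. -/
def S_EUL : Prop := ∀ (P : Type) [Fintype P] (M : Mesh P) (K : Type) [Field K] (X Y : Rp M K),
  (∀ g ∈ shp X Y M.Ar, (∀ p r, M.Tau p r → ∀ x,
      Y.e r (Y.a (g (X.e p x)) + g (X.a (X.e p x))) = 0) →
    ∃ f ∈ shp X Y (fun p q => p = q), ∀ x, g x = Y.a (f x) - f (X.a x)) →
  (∀ h : X.T →ₗ[K] Y.T, ∃ g ∈ shp X Y M.Ar, ∀ p r, M.Tau p r → ∀ x,
    Y.e r (Y.a (g (X.e p x)) + g (X.a (X.e p x))) = Y.e r (h (X.e p x))) →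
  (finrank K (Rp.Hm X Y) : ℤ) = eulN M X.dm Y.dm

/-- [HD] (uses `S_EUL`, `S_H1Q`, `S_H2`, `S_DQ1`) `dim Hom(X, Y/W) = ⟨dm X, dm Y - dm W⟩`.
Proof: `S_EUL` for `X` and `Y.quo W`; `H¹ = 0` is `S_H1Q`, `H² = 0` is `S_H2` (the dimension of the
quotient at `r` is zero if that of `Y` is). -/
def S_HD : Prop := ∀ (P : Type) [Fintype P] (M : Mesh P) (K : Type) [Field K] (X Y : Rp M K)
  (U : Set P), Y.Good U → X.Sup U → (∀ p r, M.Tau p r → X.sc p ≠ 0 → Y.dm r = 0) →
  ∀ (W : Submodule K Y.T) (hW : Y.St W),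
  (finrank K (Rp.Hm X (Y.quo W hW)) : ℤ)
    = eul M (fun p => (X.dm p : ℤ)) (fun p => (Y.dm p : ℤ) - (Y.dmS W p : ℤ))

/-- [DES] Descent for a semilinear map `G` of order dividing `r` on a finite `K`-space: the fixed
vectors span, and their number is `q ^ dim`. Proof: for `x ∈ V` and `c ∈ K` put
`t c x = ∑_{i<r} G^i (c • x) = ∑ φ^i(c) • G^i x`, a fixed vector. If a linear functional vanishes
on all fixed vectors, then `∑_i φ^i(c) • l (G^i x) = 0` for all `c`. If `φ` has order exactly `r`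
use independence of characters (`linearIndependent_monoidHom`); in general (order `m`,
`m ∣ r`; from `card_fix`, `card_K` and `Nat.card K = (fixed field)^m` (Artin,
`FixedPoints.finrank_eq_card` or counting) one gets `m = r`). Alternative for the span: the fixed
field `k` has `|K| = q ^ r`, the powers `φ^i`, `i < r`, are distinct. Hence `l (x) = 0` for all
`x`, so fixed vectors span `V`. A `k`-basis of the fixed vectors is a `K`-basis of `V`:
`k`-independent fixed vectors are `K`-independent (shortest relation, apply `G`). So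
`card = q ^ finrank K V`. -/
def S_DES : Prop := ∀ (K : Type) [Field K] (D : Fd K) (V : Type) [AddCommGroup V] [Module K V]
  [Finite V] (G : V →ₛₗ[(D.φ : K →+* K)] V), (∀ x, (⇑G)^[D.r] x = x) →
  Nat.card {x : V // G x = x} = D.q ^ finrank K V ∧ Submodule.span K {x : V | G x = x} = ⊤

/-- [TRC] There is `c ∈ K` with `∑_{i<r} φ^i(c) = 1`. (The trace to the fixed field is not zero:
independence of characters, as in `S_DES`; or `S_DES` for `V = K`.) Consequence, also to be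
proved: an `F`-stable affine subspace has a fixed point. -/
def S_TRC : Prop := ∀ (K : Type) [Field K] (D : Fd K),
  (∃ c : K, ∑ i ∈ range D.r, (⇑D.φ)^[i] c = 1) ∧
  ∀ (V : Type) [AddCommGroup V] [Module K V] (G : V →ₛₗ[(D.φ : K →+* K)] V),
    (∀ x, (⇑G)^[D.r] x = x) → ∀ (L : Submodule K V) (x₀ : V), (∀ x ∈ L, G x ∈ L) →
    G x₀ - x₀ ∈ L → ∃ x, x - x₀ ∈ L ∧ G x = x

/-- [HF] (uses `S_DES`) The number of `F`-morphisms. Proof: `F` is bijective (`F^r = 1`); on the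
`K`-space `Hm X Y` the map `G f = Y.F ∘ f ∘ X.F⁻¹` (`X.F⁻¹ = X.F^(r-1)`) is semilinear with
`G^r = 1` and its fixed points are the `F`-morphisms. -/
def S_HF : Prop := ∀ (P : Type) [Fintype P] (M : Mesh P) (s : Equiv.Perm P) (K : Type) [Field K]
  (D : Fd K) (X Y : FM M s K D),
  Nat.card (FM.HmF X Y) = D.q ^ finrank K (Rp.Hm X.toRp Y.toRp)

/-- [FIB] The subs of a direct sum with given intersection and projection.
Proof: `W ↦ (x ↦ class of y for (y, x) ∈ W)`. -/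
def S_FIB : Prop := ∀ (P : Type) [Fintype P] (M : Mesh P) (s : Equiv.Perm P) (K : Type) [Field K]
  (D : Fd K) (N₁ N₂ : FM M s K D) (W₁ : Submodule K N₁.T) (W₂ : Submodule K N₂.T)
  (h₁ : N₁.St W₁) (h₂ : N₂.St W₂),
  Nat.card {W : Submodule K (N₁.T × N₂.T) // (N₁.prod N₂).St W ∧
      W.comap (LinearMap.inl K N₁.T N₂.T) = W₁ ∧ W.map (LinearMap.snd K N₁.T N₂.T) = W₂}
    = Nat.card (FM.HmF (N₂.sub W₂ h₂) (N₁.quo W₁ h₁))

/-- [SPL] (uses `S_FIB`, `S_HF`, `S_HD`, `S_DQ1`, `S_DQ3`) Every fibre has `q ^ ⟨dim W₂, dim N₁ - dim W₁⟩`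
elements. (The socle of `N₂.sub W₂` is contained in the one of `N₂`: `sc` of the sub is at most
`sc` of `N₂`.) -/
def S_SPL : Prop := ∀ (P : Type) [Fintype P] (M : Mesh P) (s : Equiv.Perm P) (K : Type) [Field K]
  (D : Fd K) (N₁ N₂ : FM M s K D) (U : Set P), N₁.toRp.Good U → N₂.toRp.Sup U →
  (∀ p r, M.Tau p r → N₂.toRp.sc p ≠ 0 → N₁.toRp.dm r = 0) →
  ∀ (W₁ : Submodule K N₁.T) (W₂ : Submodule K N₂.T), N₁.St W₁ → N₂.St W₂ →
  ∃ n : ℕ, (n : ℤ) = eul M (fun p => (N₂.toRp.dmS W₂ p : ℤ))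
      (fun p => (N₁.toRp.dm p : ℤ) - (N₁.toRp.dmS W₁ p : ℤ)) ∧
    Nat.card {W : Submodule K (N₁.T × N₂.T) // (N₁.prod N₂).St W ∧
      W.comap (LinearMap.inl K N₁.T N₂.T) = W₁ ∧ W.map (LinearMap.snd K N₁.T N₂.T) = W₂}
      = D.q ^ n

/-- [SPC] (uses `S_SPL`, `S_DQ2`) The splitting formula, with side conditions `A`, `B` on the
intersection with `N₁` and the projection to `N₂`. (If `cntP` of both factors is not zero, the
exponent `eul …` is `≥ 0` by `S_SPL`.) -/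
def S_SPC : Prop := ∀ (P : Type) [Fintype P] (M : Mesh P) (s : Equiv.Perm P) (K : Type) [Field K]
  (D : Fd K) (N₁ N₂ : FM M s K D) (U : Set P), N₁.toRp.Good U → N₂.toRp.Sup U →
  (∀ p r, M.Tau p r → N₂.toRp.sc p ≠ 0 → N₁.toRp.dm r = 0) →
  ∀ (A : Submodule K N₁.T → Prop) (B : Submodule K N₂.T → Prop) (d : P → ℕ),
  (N₁.prod N₂).cntP (fun W => A (W.comap (LinearMap.inl K N₁.T N₂.T)) ∧
      B (W.map (LinearMap.snd K N₁.T N₂.T))) d
    = ∑ d₁ ∈ box d, D.q ^ (eul M (fun p => (d p : ℤ) - (d₁ p : ℤ))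
        (fun p => (N₁.toRp.dm p : ℤ) - (d₁ p : ℤ))).toNat
        * (N₁.cntP A d₁ * N₂.cntP B (d - d₁)) ∧
  ∀ d₁ ≤ d, N₁.cntP A d₁ ≠ 0 → N₂.cntP B (d - d₁) ≠ 0 →
    0 ≤ eul M (fun p => (d p : ℤ) - (d₁ p : ℤ)) (fun p => (N₁.toRp.dm p : ℤ) - (d₁ p : ℤ))

/-- [ISO] Isomorphic `F`-modules have the same invariants. -/
def S_ISO : Prop := ∀ (P : Type) [Fintype P] (M : Mesh P) (s : Equiv.Perm P) (K : Type) [Field K]
  (D : Fd K),
  (∀ (X Y : FM M s K D), X.Iso Y → (∀ d, X.cnt d = Y.cnt d) ∧ (∀ p, X.toRp.dm p = Y.toRp.dm p) ∧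
    (∀ p, X.toRp.sc p = Y.toRp.sc p) ∧ (∀ U, X.toRp.Good U → Y.toRp.Good U)) ∧
  (∀ (X : FM M s K D), X.Iso X) ∧ (∀ (X Y : FM M s K D), X.Iso Y → Y.Iso X) ∧
  (∀ (X Y Z : FM M s K D), X.Iso Y → Y.Iso Z → X.Iso Z) ∧
  (∀ (X Y X' Y' : FM M s K D), X.Iso X' → Y.Iso Y' → (X.prod Y).Iso (X'.prod Y')) ∧
  (∀ (X Y : FM M s K D), (X.prod Y).Iso (Y.prod X)) ∧
  (∀ (X Y Z : FM M s K D), ((X.prod Y).prod Z).Iso (X.prod (Y.prod Z)))

end Pool.Agent.Lib.MP_4c1f79_al
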