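import Pool.Agent.Lib.MP_4c1f79_al.StmA

/-!
# MP_4c1f79_al : statements, part B (injectivity, fundamental modules, peeling, canonical counts)
-/

set_option autoImplicit false

namespace Pool.Agent.Lib.MP_4c1f79_al

open Finset Module

variable {P : Type} [Fintype P] {M : Mesh P} {s : Equiv.Perm P} {K : Type} [Field K] {D : Fd K}

/-- The inclusion of a sub. -/
def Rp.inc (X : Rp M K) (W : Submodule K X.T) (h : X.St W) : (X.sub W h).T →ₗ[K] X.T := W.subtype

/-- Admissible window: `s` is a symmetry with `s ^ r = 1` and `U` is `s`-stable. -/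
structure Adm (M : Mesh P) (s : Equiv.Perm P) (r : ℕ) (U : Set P) : Prop where
  sym : Sym M s
  per : ∀ p, (⇑s)^[r] p = p
  stab : ∀ p, s p ∈ U ↔ p ∈ U

/-- `E` is an orbit of `s`. -/
def Orb (s : Equiv.Perm P) (E : Set P) : Prop := ∃ p, E = {x | ∃ i : ℕ, x = (⇑s)^[i] p}

/-- The type `1` on `E`. -/
noncomputable def ind (E : Set P) : P → ℕ := E.indicator 1

/-- [EXT] Good modules are injective. Proof: upwards by levels (as in `S_H1`): for every `n` there
is a position-preserving linear `f : X → R` which extends `g`, with `f (X.a x) = R.a (f x)` for all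
`x` at positions of level `< n`. Step at `p` of level `n` (`p ∈ U`, otherwise `X(p) = 0`): for
`x ∈ X(p)` the vector `y = f (X.a x)` is supported on successors of `p` and
`R.e r (R.a y) = f (X.e r (X.a (X.a x))) = 0` for `Tau p r`; so `y = R.a z`, `z ∈ R(p)`. Choose a
complement of `W(p)` in `X(p)` and choose `z` linearly there; on `W(p)` keep `g`. -/
def S_EXT : Prop := ∀ (P : Type) [Fintype P] (M : Mesh P) (K : Type) [Field K] (R X : Rp M K)
  (U : Set P), R.Good U → X.Sup U → ∀ (W : Submodule K X.T) (hW : X.St W),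
  ∀ g ∈ Rp.Hm (X.sub W hW) R, ∃ f ∈ Rp.Hm X R, ∀ w, f (X.inc W hW w) = g w

/-- [EXF] (uses `S_EXT`, `S_TRC`) The same for `F`-modules. Proof: apply the fixed point part of
`S_TRC` to the `K`-space `Rp.Hm X N`, `G f = N.F ∘ f ∘ X.F⁻¹`, `L = {h | h ∘ inc = 0}` and any
extension `x₀` of `g`. -/
def S_EXF : Prop := ∀ (P : Type) [Fintype P] (M : Mesh P) (s : Equiv.Perm P) (K : Type) [Field K]
  (D : Fd K) (N X : FM M s K D) (U : Set P), N.toRp.Good U → X.toRp.Sup U →
  ∀ (W : Submodule K X.T) (hW : X.St W),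
  ∀ g ∈ FM.HmF (X.sub W hW) N, ∃ f ∈ FM.HmF X N, ∀ w, f (X.toRp.inc W hW.1 w) = g w

/-- [FUN] Fundamental modules. Let `T` be the space of all functions `f : List P → K` with:
`f l = 0` unless `l = [p₀, …, pₙ]` is nonempty, is a path (consecutive entries satisfy `M.Ar`)
with all entries in `U`, and its last entry is in `E`; and for all lists `l₁, l₂` and all
`p r` with `M.Tau p r`: `∑ q, f (l₁ ++ p :: q :: r :: l₂) = 0`. (Paths have length at most the
number of levels, so `T` is finite.) `e p f` = `f` on lists with head `p` and `0` elsewhere;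
`(a f) l = ∑ p, f (p :: l)` for `l ≠ []` and `0` for `l = []`;
`(F f) l = φ (f (l.map s⁻¹))`. Goodness at `p ∈ U`: given `y`, put
`x (p :: l) = y l` for nonempty `l` whose head `q` satisfies `Ar p q`, zero otherwise. Socle at
`p`: functions supported on `[p]`, `p ∈ E`. -/
def S_FUN : Prop := ∀ (P : Type) [Fintype P] (M : Mesh P) (s : Equiv.Perm P) (K : Type) [Field K]
  (D : Fd K) (U : Set P), Adm M s D.r U → ∀ E : Set P, E ⊆ U → (∀ p, s p ∈ E ↔ p ∈ E) →
  ∃ N : FM M s K D, N.GT U (ind E)

/-- [EXM] (uses `S_FUN`, `S_DQ2`) Existence for every type. Proof: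
`m = ∑_{i < max m} ind {p | i < m p}`; products. (`E = ∅` gives the zero module.) -/
def S_EXM : Prop := ∀ (P : Type) [Fintype P] (M : Mesh P) (s : Equiv.Perm P) (K : Type) [Field K]
  (D : Fd K) (U : Set P), Adm M s D.r U → ∀ m : P → ℕ, (∀ p, m (s p) = m p) →
  (∀ p, p ∉ U → m p = 0) → ∃ N : FM M s K D, N.GT U m

/-- [SOC] (uses `S_DQ3`) A nonzero sub of a module whose socle is one-dimensional at every position
of an orbit `E` and zero elsewhere contains the socle. Proof: a nonzero stable `W` has a nonzero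
socle vector at some position (`S_DQ3` for `N.sub W`), which must be in `E`; apply `F`. -/
def S_SOC : Prop := ∀ (P : Type) [Fintype P] (M : Mesh P) (s : Equiv.Perm P) (K : Type) [Field K]
  (D : Fd K) (N : FM M s K D) (E : Set P), Orb s E → (∀ p, N.toRp.sc p = ind E p) →
  ∀ W : Submodule K N.T, N.St W → W ≠ ⊥ → ∀ p ∈ E, ∀ x, N.e p x = x → N.a x = 0 → x ∈ W

/-- [PEE] (uses `S_EXF`, `S_DES`, `S_SOC`, `S_ISO`, `S_DQ2`, `S_DQ3`) Peeling off a fundamental
module. Proof: the socle elements of `N` at the positions of `E` form an `F`-stable `K`-space; by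
`S_DES` there is an `F`-fixed `y` in it with `e p₀ y ≠ 0`, hence `e p y ≠ 0` for all `p ∈ E`
(`F (e p y) = e (s p) y`); similarly `y'` for `I`. The map `e p y' ↦ e p y` from the socle of `I`
is an `F`-morphism; extend it to `f : I → N` (`S_EXF`, `N` good); `f` is injective (its kernel is
a sub which does not contain the socle of `I`, `S_SOC`). Extend the inverse of `f` on
`range f` to `ρ : N → I` (`S_EXF`, `I` good), so `ρ ∘ f = id`, and `N ≅ ker ρ × I`. -/
def S_PEE : Prop := ∀ (P : Type) [Fintype P] (M : Mesh P) (s : Equiv.Perm P) (K : Type) [Field K]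
  (D : Fd K) (U : Set P) (N I : FM M s K D) (m : P → ℕ) (E : Set P), Orb s E →
  N.GT U m → I.GT U (ind E) → (∀ p ∈ E, 1 ≤ m p) →
  ∃ N' : FM M s K D, N'.GT U (fun p => m p - ind E p) ∧ N.Iso (N'.prod I)

/-- [UNI] (uses `S_PEE`, `S_FUN`, `S_ISO`, `S_DQ3`) Good modules of the same type are isomorphic.
Proof: induction on `∑ m`; `m (s p) = m p` because `F` maps the socle at `p` onto the one at
`s p`. If `m = 0` both are zero. Otherwise peel off the orbit of some `p` with `m p ≠ 0` from both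
(`p ∈ U` since the modules vanish outside `U`). -/
def S_UNI : Prop := ∀ (P : Type) [Fintype P] (M : Mesh P) (s : Equiv.Perm P) (K : Type) [Field K]
  (D : Fd K) (U : Set P), Adm M s D.r U → ∀ (m : P → ℕ) (N N' : FM M s K D),
  N.GT U m → N'.GT U m → N.Iso N'

/-- [MON] (uses `S_EXT`, `S_DQ3`) Monotonicity of dimension vectors. Proof: choose injective
linear maps from the socle of `R'` at `p` to the one of `R` at `p`; together they form a morphism
from the socle of `R'`; extend it to `R' → R` (`S_EXT`); the kernel has no socle, so it is zero. -/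
def S_MON : Prop := ∀ (P : Type) [Fintype P] (M : Mesh P) (K : Type) [Field K] (R R' : Rp M K)
  (U : Set P), R.Good U → R'.Sup U → (∀ p, R'.sc p ≤ R.sc p) → ∀ p, R'.dm p ≤ R.dm p

/-- [BND] Bounds. For every representation `dm p ≤ sc p + ∑_{Ar p q} dm q` (the kernel of `a` on
`R(p)` is the socle at `p`). Hence: a bound for `dm` which depends only on a bound for the socle,
and vanishing below the socle. -/
def S_BND : Prop := ∀ (P : Type) [Fintype P] (M : Mesh P),
  (∀ m : P → ℕ, ∃ b : P → ℕ, ∀ (K : Type) [Field K] (R : Rp M K),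
    (∀ p, R.sc p ≤ m p) → ∀ p, R.dm p ≤ b p) ∧
  (∀ (K : Type) [Field K] (R : Rp M K) (n : ℕ), (∀ p, M.lv p < n → R.sc p = 0) →
    ∀ p, M.lv p < n → R.dm p = 0)

open Classical in
/-- The number of subs of dimension `d` of the good module of type `m` over `U`. -/
noncomputable def Cc (M : Mesh P) (s : Equiv.Perm P) (K : Type) [Field K] (D : Fd K) (U : Set P)
    (m d : P → ℕ) : ℕ :=
  if h : ∃ N : FM M s K D, N.GT U m then h.choose.cnt d else 0

open Classical in
/-- The dimension vector of the good module of type `m` over `U`. -/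
noncomputable def Dd (M : Mesh P) (s : Equiv.Perm P) (K : Type) [Field K] (D : Fd K) (U : Set P)
    (m : P → ℕ) : P → ℕ :=
  if h : ∃ N : FM M s K D, N.GT U m then h.choose.toRp.dm else 0

/-- [CCD] (uses `S_UNI`, `S_ISO`) The canonical counts and dimensions are those of every good
module of the given type. -/
def S_CCD : Prop := ∀ (P : Type) [Fintype P] (M : Mesh P) (s : Equiv.Perm P) (K : Type) [Field K]
  (D : Fd K) (U : Set P), Adm M s D.r U → ∀ (m : P → ℕ) (N : FM M s K D), N.GT U m →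
  (∀ d, N.cnt d = Cc M s K D U m d) ∧ N.toRp.dm = Dd M s K D U m

/-- [CSP] (uses `S_CCD`, `S_EXM`, `S_SPC`, `S_DQ2`) The splitting formula for the canonical
counts. -/
def S_CSP : Prop := ∀ (P : Type) [Fintype P] (M : Mesh P) (s : Equiv.Perm P) (K : Type) [Field K]
  (D : Fd K) (U : Set P), Adm M s D.r U → ∀ m₁ m₂ : P → ℕ, (∀ p, m₁ (s p) = m₁ p) →
  (∀ p, m₂ (s p) = m₂ p) → (∀ p, p ∉ U → m₁ p = 0) → (∀ p, p ∉ U → m₂ p = 0) →
  (∀ p, Dd M s K D U (fun p => m₁ p + m₂ p) p = Dd M s K D U m₁ p + Dd M s K D U m₂ p) ∧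
  ((∀ p r, M.Tau p r → m₂ p ≠ 0 → Dd M s K D U m₁ r = 0) → ∀ d : P → ℕ,
    Cc M s K D U (fun p => m₁ p + m₂ p) d
      = ∑ d₁ ∈ box d, D.q ^ (eul M (fun p => (d p : ℤ) - (d₁ p : ℤ))
          (fun p => (Dd M s K D U m₁ p : ℤ) - (d₁ p : ℤ))).toNat
          * (Cc M s K D U m₁ d₁ * Cc M s K D U m₂ (d - d₁)) ∧
    ∀ d₁ ≤ d, Cc M s K D U m₁ d₁ ≠ 0 → Cc M s K D U m₂ (d - d₁) ≠ 0 →
      0 ≤ eul M (fun p => (d p : ℤ) - (d₁ p : ℤ))
        (fun p => (Dd M s K D U m₁ p : ℤ) - (d₁ p : ℤ)))

/-- [RPE] (uses `S_EXM`) Existence of good representations (no `F`) of every type. Proof: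
`S_EXM` with `s = 1` and the trivial datum `φ = 1`, `r = 1`, `q = |K|`. -/
def S_RPE : Prop := ∀ (P : Type) [Fintype P] (M : Mesh P) (K : Type) [Field K] [Finite K]
  (U : Set P) (m : P → ℕ), (∀ p, p ∉ U → m p = 0) →
  ∃ R : Rp M K, R.Good U ∧ ∀ p, R.sc p = m p

open Polynomial in
/-- Positivity for the type `m` over `U` (with `F` of order `r`): for every `d` the count lies in
the values of a finite set of polynomials with coefficients in `ℕ` which does not depend on the
field. -/
def PosT (M : Mesh P) (s : Equiv.Perm P) (r : ℕ) (U : Set P) (m : P → ℕ) : Prop :=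
  ∀ d : P → ℕ, ∃ Fs : Finset ℕ[X], ∀ (K : Type) [Field K] (D : Fd K), D.r = r →
    ∀ N : FM M s K D, N.GT U m → ∃ f ∈ Fs, N.cnt d = f.eval D.q

/-- Positivity for all types over `U`. -/
def PosC (M : Mesh P) (s : Equiv.Perm P) (r : ℕ) (U : Set P) : Prop := ∀ m, PosT M s r U m

/-- [PEM] (uses `S_SPC`, `S_PEE`, `S_FUN`, `S_ISO`, `S_BND`, `S_DQ3`) Positivity for the orbits
gives positivity for every type `m` supported on them. Proof: induction on `∑ m` (all subtypes of
`m`); `m` is `s`-invariant if there is a module at all. Choose `p₀` of minimal level with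
`m p₀ ≠ 0`, `E` its orbit, `N ≅ N' × I` (`S_PEE`), `N'` of type `m - ind E`; `N'` vanishes below
level `lv p₀` (`S_BND`), so `S_SPC` applies with `N₁ = N'`, `N₂ = I`, `A = B = True`. The
exponents are bounded (bound of `dm` from `S_BND`), so finitely many polynomials
`∑_{d₁} X^{n_{d₁}} f_{d₁} g_{d₁}` suffice. -/
def S_PEM : Prop := ∀ (P : Type) [Fintype P] (M : Mesh P) (s : Equiv.Perm P) (r : ℕ) (U : Set P),
  Adm M s r U → ∀ m : P → ℕ,
  (∀ E : Set P, Orb s E → E ⊆ U → (∀ p ∈ E, m p ≠ 0) → PosT M s r U (ind E)) →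
  PosT M s r U m

end Pool.Agent.Lib.MP_4c1f79_al
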