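import Pool.Agent.Lib.MP_4c1f79_al.StmB

/-!
# MP_4c1f79_al : statements, part C (restriction to a set of positions)
-/

set_option autoImplicit false

namespace Pool.Agent.Lib.MP_4c1f79_al

open Finset Module

variable {P : Type} [Fintype P] {M : Mesh P} {s : Equiv.Perm P} {K : Type} [Field K] {D : Fd K}

/-- The largest sub whose part on `Rs` is contained in the one of `B`. -/
def FM.cog (N : FM M s K D) (Rs : Set P) (B : Submodule K N.T) : Submodule K N.T :=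
  sSup {W | N.St W ∧ ∀ p ∈ Rs, W.map (N.e p) ≤ B.map (N.e p)}

/-- The part of `W` on `Rs` is the one of `B`. -/
def FM.Res (N : FM M s K D) (Rs : Set P) (B W : Submodule K N.T) : Prop :=
  ∀ p ∈ Rs, W.map (N.e p) = B.map (N.e p)

theorem Rp.St.comap {R : Rp M K} {S O : Submodule K R.T} (hO : R.St O) (hS : R.St S) :
    (R.sub O hO).St (S.comap O.subtype) :=
  ⟨fun p x hx => hS.1 p x.1 hx, fun x hx => hS.2 x.1 hx⟩

theorem FM.St.comap {N : FM M s K D} {S O : Submodule K N.T} (hO : N.St O) (hS : N.St S) :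
    (N.sub O hO).St (S.comap O.subtype) :=
  ⟨Rp.St.comap hO.1 hS.1, fun x hx => hS.2 x.1 hx⟩

/-- The subquotient `O / S` (`S` is replaced by `S ⊓ O`). -/
def FM.subq (N : FM M s K D) (S O : Submodule K N.T) (hS : N.St S) (hO : N.St O) : FM M s K D :=
  (N.sub O hO).quo (S.comap O.subtype) (FM.St.comap hO hS)

/-- `B` is a graded, `F`-stable subspace supported on `Rs`. -/
structure FM.Grd (N : FM M s K D) (Rs : Set P) (B : Submodule K N.T) : Prop where
  e : ∀ p, ∀ x ∈ B, N.e p x ∈ B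
  F : ∀ x ∈ B, N.F x ∈ B
  sup : ∀ p, p ∉ Rs → ∀ x ∈ B, N.e p x = 0
  rs : ∀ p, s p ∈ Rs ↔ p ∈ Rs

/-- [GC1] First properties of `gen` and `cog` for a graded `F`-stable `B` supported on `Rs`:
stability, and the universal properties; if `gen B` has the same part on `Rs` as `B`, then the
subs `W` whose part on `Rs` is the one of `B` are exactly the subs between `gen B` and
`cog Rs B`. (`sInf` and `sSup` of stable subspaces are stable; a map by `e p` of a stable subspace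
is its intersection with `range (e p)`.) -/
def S_GC1 : Prop := ∀ (P : Type) [Fintype P] (M : Mesh P) (s : Equiv.Perm P) (K : Type) [Field K]
  (D : Fd K) (N : FM M s K D) (Rs : Set P) (B : Submodule K N.T), N.Grd Rs B →
  N.St (N.gen B) ∧ B ≤ N.gen B ∧ (∀ W, N.St W → B ≤ W → N.gen B ≤ W) ∧
  N.St (N.cog Rs B) ∧ (∀ p ∈ Rs, (N.cog Rs B).map (N.e p) ≤ B.map (N.e p)) ∧
  (∀ W, N.St W → (∀ p ∈ Rs, W.map (N.e p) ≤ B.map (N.e p)) → W ≤ N.cog Rs B) ∧
  (∀ x, (∃ p, p ∉ Rs ∧ N.e p x = x) → N.a x ∈ N.cog Rs B → x ∈ N.cog Rs B) ∧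
  (∀ x ∈ N.gen B, ∀ p, p ∉ Rs → ∃ y ∈ N.gen B, N.e p x = N.e p (N.a y)) ∧
  (∀ x ∈ N.gen B, ∀ p, ∃ b ∈ B, ∃ y ∈ N.gen B, N.e p x = N.e p b + N.e p (N.a y)) ∧
  (N.Res Rs B (N.gen B) →
    (∀ W, N.St W → (N.Res Rs B W ↔ N.gen B ≤ W ∧ W ≤ N.cog Rs B)) ∧ N.gen B ≤ N.cog Rs B) ∧
  (¬ N.Res Rs B (N.gen B) → ∀ W, N.St W → ¬ N.Res Rs B W)

/-- [GC2] (uses `S_GC1`, `S_DQ1`) The subquotient is good. Let `N` be good over `U`, let `gen B`
and `B` have the same part on `Rs`, and assume for all `p ∈ U \ Rs` and `r ∈ Rs` with `Tau p r`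
that `B` has no component at `r`. Then `cog / gen` is good over `U \ Rs`.
Proof: at `p ∈ U \ Rs` let `y` (class of `y' ∈ cog`, supported on successors of `p`; components in
`Rs` may be dropped, because the parts of `cog` and `gen` on `Rs` coincide) with
`e r (a y') ∈ gen` for `Tau p r`. By `S_GC1` (the elements of `gen` at `r` are of the form
`e r b + e r (a z)`, `z ∈ gen`, and here `e r b = 0`; the predecessors of `r` are the successors of
`p`, so only the components of `z` on the successors of `p` matter) we have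
`e r (a y') = e r (a z)`. By goodness of `N` at `p`: `y' - z = a x` with `x` at `p`, and
`x ∈ cog` by `S_GC1`. Vanishing outside `U \ Rs` is clear. -/
def S_GC2 : Prop := ∀ (P : Type) [Fintype P] (M : Mesh P) (s : Equiv.Perm P) (K : Type) [Field K]
  (D : Fd K) (N : FM M s K D) (U Rs : Set P) (B : Submodule K N.T), N.Grd Rs B →
  N.toRp.Good U → N.Res Rs B (N.gen B) →
  (∀ p ∈ U, p ∉ Rs → ∀ r ∈ Rs, M.Tau p r → ∀ x ∈ B, N.e r x = 0) →
  ∀ (hS : N.St (N.gen B)) (hO : N.St (N.cog Rs B)),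
  (N.subq (N.gen B) (N.cog Rs B) hS hO).toRp.Good (U \ Rs)

/-- [GC3] (uses `S_GC1`, `S_DQ1`, `S_DQ3`) The type of the subquotient:
`sc (cog / gen) u = sc N u - ⟨1_u, dm gen⟩` for `u ∈ U \ Rs`. Proof: let
`L = {x at u | a x ∈ gen}`; it is contained in `cog` (`S_GC1`) and
`sc (cog / gen) u = dim L - dmS gen u`. The map `a : L → {z ∈ ⨁_q gen(q) | e r (a z) = 0}` is onto
by goodness of `N` at `u` (`Tau u r`; if there is no `r`, no condition) with kernel the socle of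
`N` at `u`; and `z ↦ e r (a z)` maps `⨁_{Ar u q} gen(q)` onto `gen(r)` (`S_GC1` and the
hypothesis on `Rs`). Outside `U \ Rs` the subquotient vanishes. -/
def S_GC3 : Prop := ∀ (P : Type) [Fintype P] (M : Mesh P) (s : Equiv.Perm P) (K : Type) [Field K]
  (D : Fd K) (N : FM M s K D) (U Rs : Set P) (B : Submodule K N.T), N.Grd Rs B →
  N.toRp.Good U → N.Res Rs B (N.gen B) →
  (∀ p ∈ U, p ∉ Rs → ∀ r ∈ Rs, M.Tau p r → ∀ x ∈ B, N.e r x = 0) →
  ∀ (hS : N.St (N.gen B)) (hO : N.St (N.cog Rs B)),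
  (∀ u ∈ U \ Rs, ((N.subq (N.gen B) (N.cog Rs B) hS hO).toRp.sc u : ℤ)
    = N.toRp.sc u - eulN M (ind {u}) (N.toRp.dmS (N.gen B))) ∧
  (∀ u, u ∉ U \ Rs → (N.subq (N.gen B) (N.cog Rs B) hS hO).toRp.dm u = 0) ∧
  (∀ u, (N.subq (N.gen B) (N.cog Rs B) hS hO).toRp.dm u + N.toRp.dmS (N.gen B) u
    = N.toRp.dmS (N.cog Rs B) u)

/-- [GC4] (uses `S_GC1`, `S_DQ1`, `S_DQ3`) The count. The subs of `N` with the part of `B` on `Rs`
correspond to the subs of `cog / gen`. -/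
def S_GC4 : Prop := ∀ (P : Type) [Fintype P] (M : Mesh P) (s : Equiv.Perm P) (K : Type) [Field K]
  (D : Fd K) (N : FM M s K D) (Rs : Set P) (B : Submodule K N.T), N.Grd Rs B →
  (¬ N.Res Rs B (N.gen B) → ∀ d, N.cntP (N.Res Rs B) d = 0) ∧
  (N.Res Rs B (N.gen B) → ∀ (hS : N.St (N.gen B)) (hO : N.St (N.cog Rs B)),
    (∀ d : P → ℕ, (∀ p, N.toRp.dmS (N.gen B) p ≤ d p) →
      N.cntP (N.Res Rs B) d = (N.subq (N.gen B) (N.cog Rs B) hS hO).cnt
        (fun p => d p - N.toRp.dmS (N.gen B) p)) ∧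
    (∀ d : P → ℕ, ¬ (∀ p, N.toRp.dmS (N.gen B) p ≤ d p) → N.cntP (N.Res Rs B) d = 0))

/-- [RST] (uses `S_GC1`, `S_GC2`, `S_GC3`, `S_GC4`) Summary of the restriction theorem in terms of
types. -/
def S_RST : Prop := ∀ (P : Type) [Fintype P] (M : Mesh P) (s : Equiv.Perm P) (K : Type) [Field K]
  (D : Fd K) (N : FM M s K D) (U Rs : Set P) (B : Submodule K N.T), N.Grd Rs B →
  N.toRp.Good U →
  (∀ p ∈ U, p ∉ Rs → ∀ r ∈ Rs, M.Tau p r → ∀ x ∈ B, N.e r x = 0) →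
  (¬ N.Res Rs B (N.gen B) → ∀ d, N.cntP (N.Res Rs B) d = 0) ∧
  (N.Res Rs B (N.gen B) → ∃ (G : FM M s K D) (m' : P → ℕ), G.GT (U \ Rs) m' ∧
    (∀ u ∈ U \ Rs, (m' u : ℤ) = N.toRp.sc u - eulN M (ind {u}) (N.toRp.dmS (N.gen B))) ∧
    (∀ u, u ∉ U \ Rs → m' u = 0) ∧ (∀ u, m' u ≤ N.toRp.dm u) ∧
    ∀ d : P → ℕ,
      ((∀ p, N.toRp.dmS (N.gen B) p ≤ d p) → N.cntP (N.Res Rs B) d
        = G.cnt (fun p => d p - N.toRp.dmS (N.gen B) p)) ∧
      (¬ (∀ p, N.toRp.dmS (N.gen B) p ≤ d p) → N.cntP (N.Res Rs B) d = 0))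

/-- [THN] (uses `S_RST`, `S_BND`, `S_SOC`, `S_DQ1`, `S_DQ3`) The thin step. `E` an orbit in `U`,
`Rs ⊆ U` stable, and the module of type `ind E` has dimension at most one on `Rs` up to exceptions:
we only need it for the vector `d` under consideration. Precisely: let `d` be such that for every
`K`, every `N` of type `ind E` and every `p ∈ Rs` either `d p = 0` or `d p ≥ dm N p`, and for
`p ∈ U \ Rs`, `r ∈ Rs` with `Tau p r` we have `d r = 0`. Then the counts at `d` lie in a finite set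
of polynomials, provided `PosT` holds over `U \ Rs` for all types `m'` which can occur: `m'`
vanishes on `E` if `d r ≠ 0` for some `r ∈ Rs`.
Proof: a sub `W` with `dmS W = d` has the part of
`B = ⨁_{p ∈ Rs, d p ≠ 0} N(p)` on `Rs` (if `d p > dm N p` for some `p`, there is no sub), so
`cnt N d = cntP (Res Rs B) d`; apply `S_RST`. `m' ≤ dm N ≤ b` and `dmS (gen B) ≤ b` for a bound `b`
(`S_BND`), so finitely many pairs `(m', d - dmS (gen B))` occur. If `d r ≠ 0` for some `r ∈ Rs` and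
the count is not zero, then `gen B ≠ ⊥` contains the socle (`S_SOC`), so for `u ∈ E \ Rs`:
`m' u ≤ dim (cog / gen)(u)` … use `(m' u) = 1 - ⟨1_u, dmS gen⟩ = 1 - 1 + …`; precisely
`G(u) ` has dimension `dm - dmS gen ≤ 0` when `N(u)` is the socle at `u` (this holds because all
elements of an orbit have the same level, so `N(u)` is one-dimensional by `S_BND`). -/
def S_THN : Prop := ∀ (P : Type) [Fintype P] (M : Mesh P) (s : Equiv.Perm P) (r : ℕ)
  (U Rs E : Set P), Adm M s r U → (∀ p, s p ∈ Rs ↔ p ∈ Rs) → Rs ⊆ U → Orb s E → E ⊆ U →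
  ∀ d : P → ℕ,
  (∀ p ∈ U, p ∉ Rs → ∀ x ∈ Rs, M.Tau p x → d x = 0) →
  (∀ (K : Type) [Field K] (D : Fd K), D.r = r → ∀ N : FM M s K D, N.GT U (ind E) →
    ∀ p ∈ Rs, d p = 0 ∨ N.toRp.dm p ≤ d p) →
  (∀ m' : P → ℕ, ((∃ x ∈ Rs, d x ≠ 0) → ∀ p ∈ E, m' p = 0) → PosT M s r (U \ Rs) m') →
  ∃ Fs : Finset (Polynomial ℕ), ∀ (K : Type) [Field K] (D : Fd K), D.r = r →
    ∀ N : FM M s K D, N.GT U (ind E) → ∃ f ∈ Fs, N.cnt d = f.eval D.q

/-- [TH1] (uses `S_THN`, `S_PEM`) The thin step for all types: if every fundamental module over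
`U` has dimension at most one on `Rs`, and no `τ p`, `p ∈ U \ Rs`, lies in `Rs`, then `PosC` for
`U \ Rs` implies `PosC` for `U`. -/
def S_TH1 : Prop := ∀ (P : Type) [Fintype P] (M : Mesh P) (s : Equiv.Perm P) (r : ℕ)
  (U Rs : Set P), Adm M s r U → (∀ p, s p ∈ Rs ↔ p ∈ Rs) → Rs ⊆ U →
  (∀ p ∈ U, p ∉ Rs → ∀ x ∈ Rs, ¬ M.Tau p x) →
  (∀ E : Set P, Orb s E → E ⊆ U → ∀ (K : Type) [Field K] (D : Fd K), D.r = r →
    ∀ N : FM M s K D, N.GT U (ind E) → ∀ p ∈ Rs, N.toRp.dm p ≤ 1) →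
  PosC M s r (U \ Rs) → PosC M s r U

/-- [PE0] Positivity over the empty window: the only module is zero. -/
def S_PE0 : Prop := ∀ (P : Type) [Fintype P] (M : Mesh P) (s : Equiv.Perm P) (r : ℕ),
  PosC M s r ∅

end Pool.Agent.Lib.MP_4c1f79_al
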