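import Pool.Agent.Lib.MP_4c1f79_al.StmD
import Pool.Agent.Lib.J4c.Tab

/-!
# MP_4c1f79_al : statements, classical types (tables, thinness, positivity)

Conventions as in the other files: each `S_X` is proved in `P/P_X.lean` as `theorem X_holds`, with
the statements listed after `uses` as hypotheses, in that order.
-/

set_option autoImplicit false

namespace Pool.Agent.Lib.MP_4c1f79_al

open Finset Module J4c

/-- The rows `lo ≤ v < hi`. -/
def rowI (N L lo hi : ℕ) : Set (Fin N × Fin L) := {p | lo ≤ p.1.1 ∧ p.1.1 < hi}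

/-- `adj` is the path on the vertices `v` with `lo ≤ v < hi`. -/
def PathOn {N : ℕ} (adj : Fin N → Fin N → Prop) (lo hi : ℕ) : Prop :=
  ∀ v w : Fin N, lo ≤ v.1 → v.1 < hi → lo ≤ w.1 → w.1 < hi →
    (adj v w ↔ v.1 + 1 = w.1 ∨ w.1 + 1 = v.1)

/-- [CKA] The table `tabA lo hi` (`lo ≤ u ≤ hi < N`) satisfies the recursion. The sum has at most
the two terms `w = v - 1`, `w = v + 1` (if they are in `[lo, hi]`). Everything is arithmetic with
`|u - v| ≤ k ≤ min (u + v - 2 lo) (2 hi - u - v)` and a parity condition. -/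
def S_CKA : Prop := ∀ (N : ℕ) (adj : Fin N → Fin N → Prop) [DecidableRel adj] (lo hi : ℕ),
  hi < N → PathOn adj lo (hi + 1) → ∀ u v : Fin N, lo ≤ u.1 → u.1 ≤ hi → lo ≤ v.1 → v.1 ≤ hi →
  (tabA lo hi u v 0 = if v = u then 1 else 0) ∧
  (tabA lo hi u v 1 = ∑ w : Fin N, if adj v w then tabA lo hi u w 0 else 0) ∧
  (∀ k, k + 2 ≤ hi + 1 - lo → tabA lo hi u v (k + 2) + tabA lo hi u v k
    = ∑ w : Fin N, if adj v w then tabA lo hi u w (k + 1) else 0) ∧
  (∀ k, tabA lo hi u v (k + 2) + tabA lo hi u v k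
      = (∑ w : Fin N, if adj v w then tabA lo hi u w (k + 1) else 0) ∨
    (tabA lo hi u v (k + 2) = 0 ∧ ∀ w : ℕ, tabA lo hi u w (k + 1) = 0)) ∧
  (tabA lo hi u v (hi - lo) = if v.1 + u.1 = lo + hi then 1 else 0) ∧
  (∀ k, hi - lo < k → tabA lo hi u v k = 0)

/-- [CKD] The same for the table `tabD N` of the graph `adjD N`, `N ≥ 3`. For `v < N - 2` the value
is `A_u(v) + A_u(2 N - 4 - v)` with the table `A` of the path `0, …, 2 N - 4` (`u < N - 2`), the
neighbour `N - 2` of `N - 3` in the path corresponds to the two neighbours `N - 2`, `N - 1`; use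
`CKA` (for the path with `2 N - 3` vertices) or arithmetic. -/
def S_CKD : Prop := ∀ (N : ℕ), 3 ≤ N → ∀ u v : Fin N,
  (tabD N u v 0 = if v = u then 1 else 0) ∧
  (tabD N u v 1 = ∑ w : Fin N, if adjD N v w then tabD N u w 0 else 0) ∧
  (∀ k, k + 2 < 2 * N - 2 → tabD N u v (k + 2) + tabD N u v k
    = ∑ w : Fin N, if adjD N v w then tabD N u w (k + 1) else 0) ∧
  (∀ k, tabD N u v (k + 2) + tabD N u v k
      = (∑ w : Fin N, if adjD N v w then tabD N u w (k + 1) else 0) ∨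
    (tabD N u v (k + 2) = 0 ∧ ∀ w : Fin N, tabD N u w (k + 1) = 0)) ∧
  (tabD N u v (2 * N - 4) = if v.1 = (if u.1 + 2 < N ∨ N % 2 = 0 then u.1 else 2 * N - 3 - u.1)
    then 1 else 0) ∧
  (∀ k, 2 * N - 4 < k → tabD N u v k = 0)

/-- [CDA] (uses `S_CKA`, `S_TAB`) The dimensions over the rows `lo, …, hi` of the grid. `S_TAB` with
`k₀ = L - 1` (there are no upper cuts). -/
def S_CDA : Prop := ∀ (N L : ℕ) (adj : Fin N → Fin N → Prop) (hs : ∀ v w, adj v w → adj w v)
  (lo hi : ℕ), hi < N → PathOn adj lo (hi + 1) → ∀ (K : Type) [Field K]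
  (R : Rp (grid adj hs L) K) (u : Fin N) (l₀ : Fin L), lo ≤ u.1 → u.1 ≤ hi →
  R.Good (rowI N L lo (hi + 1)) → (∀ p, R.sc p = ind {(u, l₀)} p) →
  ∀ (v : Fin N) (l : Fin L), R.dm (v, l)
    = if l₀.1 ≤ l.1 then tabA lo hi u v (l.1 - l₀.1) else 0

/-- [CDD] (uses `S_CKD`, `S_TAB`) The dimensions over the full window of the graph `D_N`. -/
def S_CDD : Prop := ∀ (N L : ℕ), 3 ≤ N → ∀ (K : Type) [Field K]
  (R : Rp (grid (adjD N) (adjD_symm N) L) K) (u : Fin N) (l₀ : Fin L),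
  R.Good Set.univ → (∀ p, R.sc p = ind {(u, l₀)} p) →
  ∀ (v : Fin N) (l : Fin L), R.dm (v, l)
    = if l₀.1 ≤ l.1 then tabD N u v (l.1 - l₀.1) else 0

/-- [CSO] (uses `S_DMS`, `S_RPE`) The dimension vector of an `F`-module of type `ind E` is the sum
of the ones of the modules with simple socle at the elements of `E` (`K` is finite by `D.card_K`). -/
def S_CSO : Prop := ∀ (P : Type) [Fintype P] (M : Mesh P) (s : Equiv.Perm P) (K : Type) [Field K]
  (D : Fd K) (U E : Set P), E ⊆ U → ∀ N : FM M s K D, N.GT U (ind E) → ∀ T : P → P → ℕ,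
  (∀ u ∈ E, ∀ R : Rp M K, R.Good U → (∀ p, R.sc p = ind {u} p) → ∀ p, R.dm p = T u p) →
  ∀ p, N.toRp.dm p = ∑ u, ind E u * T u p

/-- [CLA] (uses `S_CDA`, `S_CSO`, `S_TH1`, `S_PE0`) Positivity over a path window on whose rows `σ`
is the identity. Induction on `n`: remove the row `lo + n`; orbits are single positions; the
dimensions are values of `tabA`, hence `≤ 1`; the condition on `Tau` holds since `Tau` preserves
the row. -/
def S_CLA : Prop := ∀ (N L : ℕ) (adj : Fin N → Fin N → Prop) (hs : ∀ v w, adj v w → adj w v)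
  (σ : Equiv.Perm (Fin N)) (r : ℕ), (∀ v w, adj (σ v) (σ w) ↔ adj v w) → (∀ v, (⇑σ)^[r] v = v) →
  ∀ lo n : ℕ, lo + n ≤ N → PathOn adj lo (lo + n) →
  (∀ v : Fin N, lo ≤ v.1 → v.1 < lo + n → σ v = v) →
  PosC (grid adj hs L) (gperm σ L) r (rowI N L lo (lo + n))

/-- [CLB] (uses `S_CDA`, `S_CSO`, `S_TH1`, `S_PE0`) Type `B`: the path with `N` vertices and its
reflection. Windows: the rows `i, …, N - 1 - i`; remove the rows `i` and `N - 1 - i` (both at
once); the orbit of `(u, l₀)` is `{(u, l₀), (N - 1 - u, l₀)}`; `tabA i (N-1-i) u i k = 1` iff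
`k = u - i`, and `tabA i (N-1-i) u (N-1-i) k = 1` iff `k = N - 1 - i - u`; so for
`u ≠ N - 1 - u` the two summands are not `1` at the same place. -/
def S_CLB : Prop := ∀ (N L i : ℕ),
  PosC (grid (adjA N) (adjA_symm N) L) (gperm Fin.revPerm L) 2 (rowI N L i (N - i))

/-- [CLC] (uses `S_CDD`, `S_CSO`, `S_TH1`, `S_CLA`) Type `C`: the graph `D_N` with the exchange of
the vertices `N - 2` and `N - 1`. Remove the rows `N - 2`, `N - 1`; the rest is the path
`0, …, N - 3`, on which `σ` is the identity. Thinness: `tabD N u (N-2) k ≤ 1` for `u < N - 2`, and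
for the orbit `{(N-2, l₀), (N-1, l₀)}` the two summands at the row `N - 1` (or `N - 2`) are `1` for
`k ≡ 0`, resp. `k ≡ 2` modulo `4`. -/
def S_CLC : Prop := ∀ (N L : ℕ) (hN : 3 ≤ N),
  PosC (grid (adjD N) (adjD_symm N) L)
    (gperm (Equiv.swap (⟨N - 2, by omega⟩ : Fin N) ⟨N - 1, by omega⟩) L) 2 Set.univ

/-- [CLD] (uses `S_CDD`, `S_CSO`, `S_TH1`, `S_CLA`) Type `D`: remove the row `N - 1`, on which all
`tabD` are `≤ 1`; the rest is the path `0, …, N - 2`. -/
def S_CLD : Prop := ∀ (N L : ℕ), 3 ≤ N →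
  PosC (grid (adjD N) (adjD_symm N) L) (gperm (Equiv.refl _) L) 1 Set.univ

end Pool.Agent.Lib.MP_4c1f79_al
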