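import Pool.Agent.Lib.MP_4c1f79_al.StmC

/-!
# MP_4c1f79_al : statements, part D (bricks, dimension tables, tops); no Frobenius here
-/

set_option autoImplicit false

namespace Pool.Agent.Lib.MP_4c1f79_al

open Finset Module

variable {P : Type} [Fintype P] {M : Mesh P} {K : Type} [Field K]

open Classical in
/-- Sum of `D` over the successors of `p`. -/
noncomputable def sA (M : Mesh P) (D : P → ℕ) (p : P) : ℕ := ∑ q, if M.Ar p q then D q else 0

open Classical in
/-- `D (τ p)`, or zero if there is no `τ p`. -/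
noncomputable def sT (M : Mesh P) (D : P → ℕ) (p : P) : ℕ := ∑ r, if M.Tau p r then D r else 0

/-- `U` has no upper cuts up to level `k₀`. -/
def NoCut (M : Mesh P) (U : Set P) (k₀ : ℕ) : Prop :=
  ∀ r ∈ U, M.lv r + 2 ≤ k₀ → ∃ p ∈ U, M.Tau p r

/-- Every vector at `r` is the component at `r` of `a x` for some `x`. -/
def Rp.Onto (R : Rp M K) (r : P) : Prop := ∀ y, R.e r y = y → ∃ x, R.e r (R.a x) = y

/-- `R` is concentrated in `r` on the levels `lv r` and `lv r + 1`. -/
def Rp.Conc (R : Rp M K) (r : P) : Prop :=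
  ∀ p, p ≠ r → (M.lv p = M.lv r ∨ M.lv p = M.lv r + 1) → R.dm p = 0

/-- The pair of levels `k`, `k + 1` of `R` is a brick: every position-preserving linear map which
commutes with `a` on level `k + 1` is a scalar on the levels `k` and `k + 1`. -/
def Rp.Brick (R : Rp M K) (k : ℕ) : Prop :=
  ∀ f : R.T →ₗ[K] R.T, (∀ p x, f (R.e p x) = R.e p (f x)) →
    (∀ p, M.lv p = k + 1 → ∀ x, f (R.a (R.e p x)) = R.a (f (R.e p x))) →
    ∃ c : K, ∀ p, (M.lv p = k ∨ M.lv p = k + 1) → ∀ x, f (R.e p x) = c • R.e p x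

/-- [BRK] Bricks. `R` good over `U` with simple socle at `u`. For every `k` with `k + 1 ≤ k₀` the
pair of levels `k, k+1` is a brick, and every `r ∈ U` with `lv r + 2 ≤ k₀` is `Onto` or `Conc`.
Proof: below `lv u` everything vanishes, and level `lv u` is one-dimensional (socle). Induction on
`k` from `k + 1 = lv u` (level `k` is zero, level `k + 1` is `R(u)`, one-dimensional). Step
`k → k + 1`: first, for `r ∈ U` of level `k` (`k + 2 ≤ k₀`): if `r` is not `Onto`, let `f` be the
projection of `R(r)` onto a complement of the image `e r (a R)` along it, zero on the other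
positions; it satisfies the hypotheses (it kills `R.a (e p x)` for `p` of level `k + 1`: the
component at `r` is in the image, and `f` is zero elsewhere; and `f (e p x) = 0` for
`lv p = k + 1`), so it is a scalar `c` on the levels `k, k+1`; it is not zero on `R(r)`, so
`c ≠ 0`, and since it vanishes on all `R(p)`, `p ≠ r` in these levels, `r` is `Conc`. Second: let
`f` commute with `a` on level `k + 2`. For `r ∈ U` of level `k` which is `Onto` define
`f' (e r (a x)) = e r (a (f x))` (`x` of level `k + 1`); well defined: if `e r (a x) = 0`, with `x`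
supported on the predecessors of `r`, i.e. on the successors of `p = τ⁻¹ r` (`p ∈ U` by `NoCut`,
`mesh_ar`), then `x = a z` with `z ∈ R(p)` by goodness and
`e r (a (f x)) = e r (a (a (f z))) = 0`. So `f'` (= `f` on level `k + 1`) satisfies the hypothesis
for `k`, hence is a scalar `c` on level `k + 1`; for `x ∈ R(p)`, `lv p = k + 2 > lv u`:
`a (f x - c x) = f (a x) - c a x = 0`, so `f x = c x` because `a` is injective there. If some `r` of
level `k` is not `Onto`, then level `k + 1` is zero (`Conc`), hence level `k + 2` is zero too and the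
claim is trivial. -/
def S_BRK : Prop := ∀ (P : Type) [Fintype P] (M : Mesh P) (K : Type) [Field K] (R : Rp M K)
  (U : Set P) (k₀ : ℕ) (u : P), R.Good U → (∀ p, R.sc p = ind {u} p) → u ∈ U → NoCut M U k₀ →
  (∀ k, k + 1 ≤ k₀ → R.Brick k) ∧ (∀ r ∈ U, M.lv r + 2 ≤ k₀ → R.Onto r ∨ R.Conc r)

/-- [DIM] Exactness in numbers. `R` good at `p`: `dm p + dm (τ p) = sc p + ∑_{Ar p q} dm q` if
`τ p` does not exist, or `R` vanishes there, or it is `Onto`; in general `≥`. Proof: kernel of
`a` on `R(p)` = socle; image = kernel of `⨁ R(q) → R(τ p)`, `z ↦ e (τ p) (a z)`; the predecessors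
of `τ p` are the successors of `p`. -/
def S_DIM : Prop := ∀ (P : Type) [Fintype P] (M : Mesh P) (K : Type) [Field K] (R : Rp M K)
  (p : P), R.GoodAt p →
  (R.sc p + sA M R.dm p ≤ R.dm p + sT M R.dm p) ∧
  ((∀ r, M.Tau p r → R.Onto r ∨ R.dm r = 0) → R.sc p + sA M R.dm p = R.dm p + sT M R.dm p)

/-- [TAB] (uses `S_BRK`, `S_DIM`, `S_BND`, `S_DQ3`) The table theorem. Proof: induction on `lv p`.
Levels `≤ lv u`: `S_BND`. Let `lv p = k + 2 > lv u`, `p ∈ U`. If the second alternative holds, level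
`k + 1` of `R` is zero by induction and `R(p) = 0` (`p ≠ u`, `a` injective). Otherwise
`D p + D (τ p) = ∑ D q`: if `τ p = r` exists in `U`, `lv r + 2 = lv p ≤ k₀`: `Onto` gives the
claim by `S_DIM`; `Conc` gives `dm q = 0` for `lv q = lv r + 1`, so `D q = 0` there by induction,
so `D p = D r = 0`, and `R(p) = 0`. (The cases `lv p = 1` and no `τ p` in `U`: no condition.) -/
def S_TAB : Prop := ∀ (P : Type) [Fintype P] (M : Mesh P) (K : Type) [Field K] (R : Rp M K)
  (U : Set P) (k₀ : ℕ) (u : P), R.Good U → (∀ p, R.sc p = ind {u} p) → u ∈ U → NoCut M U k₀ →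
  ∀ D : P → ℕ, D u = 1 → (∀ p, p ≠ u → M.lv p ≤ M.lv u → D p = 0) → (∀ p, p ∉ U → D p = 0) →
  (∀ p ∈ U, M.lv u < M.lv p → M.lv p ≤ k₀ →
    (D p + sT M D p = sA M D p ∨ (D p = 0 ∧ ∀ q, M.lv q + 1 = M.lv p → D q = 0))) →
  ∀ p, M.lv p ≤ k₀ → R.dm p = D p

/-- [TPU] (uses `S_BRK`, `S_DIM`, `S_BND`, `S_DQ1`, `S_DQ3`) The top. `R` good over `U` with simple
socle at `u`, zero on all levels `> k₁`, `k₁ + 2 ≤ k₀`. Then there is a position `t ∈ U` with
`dm t = 1`, all other positions of level `≥ lv t` are zero, every stable `W` which contains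
`R(t)` is everything, and `⟨dm R, x⟩ = x t` for `x` vanishing outside `U` and at `τ u`.
Proof: let `t` be a position of maximal level with `R(t) ≠ 0`. It is not `Onto` (level
`lv t + 1` is zero), so it is `Conc`; `R(t)` is one-dimensional: the pair of levels
`lv t, lv t + 1` is a brick, and every endomorphism of the space `R(t)` gives an `f`. For `W`:
otherwise take `r` of maximal level with `R(r) ⊄ W`; `r ≠ t`; `r` is `Onto` (if `Conc`, then since
`R(r) ≠ 0` … level `lv r + 1` is zero, so all higher levels are zero and `r` has maximal level, so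
`r = t`), so `R(r)` is generated by higher levels. The formula: the coefficient of `x q` in
`⟨dm R, x⟩` is `dm q - ∑_{Ar p q} dm p + ∑_{Tau p q} dm p`; for `q ∈ U` with `q ≠ t` and
`lv q ≤ k₁` take `p = τ⁻¹ q ∈ U` (`NoCut`), `Ar p q' ↔ Ar q' q`, and use `S_DIM` at `p`
(`sc p = 0` unless `p = u`). -/
def S_TPU : Prop := ∀ (P : Type) [Fintype P] (M : Mesh P) (K : Type) [Field K] (R : Rp M K)
  (U : Set P) (k₀ k₁ : ℕ) (u : P), R.Good U → (∀ p, R.sc p = ind {u} p) → u ∈ U →
  NoCut M U k₀ → k₁ + 2 ≤ k₀ → (∀ p, k₁ < M.lv p → R.dm p = 0) →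
  ∃ t ∈ U, R.dm t = 1 ∧ M.lv u ≤ M.lv t ∧ M.lv t ≤ k₁ ∧
    (∀ p, M.lv t ≤ M.lv p → p ≠ t → R.dm p = 0) ∧
    (∀ W : Submodule K R.T, R.St W → LinearMap.range (R.e t) ≤ W → W = ⊤) ∧
    (∀ r ∈ U, M.lv r + 2 ≤ k₀ → r ≠ t → R.Onto r ∨ R.dm r = 0) ∧
    ∀ x : P → ℤ, (∀ p, p ∉ U → x p = 0) → (∀ r, M.Tau u r → x r = 0) →
      eul M (fun p => (R.dm p : ℤ)) x = x t

/-- [SOE] (uses `S_DIM`) `⟨x, dm R⟩ = x u` if `R` is good over `U` with simple socle at `u`, and `x`
vanishes outside `U` and at every `p` whose `τ p` is neither `Onto` nor a zero of `dm`. -/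
def S_SOE : Prop := ∀ (P : Type) [Fintype P] (M : Mesh P) (K : Type) [Field K] (R : Rp M K)
  (U : Set P) (u : P), R.Good U → (∀ p, R.sc p = ind {u} p) →
  ∀ x : P → ℤ, (∀ p, p ∉ U → x p = 0) →
  (∀ p r, M.Tau p r → ¬ (R.Onto r ∨ R.dm r = 0) → x p = 0) →
  eul M x (fun p => (R.dm p : ℤ)) = x u

/-- [DMS] (uses `S_MON`, `S_DQ2`) The dimension vector of a good representation of type `m` is the
sum of those of the simple socle ones. Proof: the product of `m u` copies of `Ru u` for all `u` with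
`m u ≠ 0` is good with the same socle type (induction on `∑ m`, `S_DQ2`); `S_MON` in both
directions. -/
def S_DMS : Prop := ∀ (P : Type) [Fintype P] (M : Mesh P) (K : Type) [Field K] (U : Set P)
  (R : Rp M K), R.Good U → ∀ Ru : P → Rp M K,
  (∀ u ∈ U, (Ru u).Good U ∧ ∀ p, (Ru u).sc p = ind {u} p) →
  ∀ p, R.dm p = ∑ u, R.sc u * (Ru u).dm p

end Pool.Agent.Lib.MP_4c1f79_al
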