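import Pool.Agent.Lib.MP_4c1f79_al.StmD

/-!
# MP_4c1f79_al : statements, part E (the core lemma, section 11)
-/

set_option autoImplicit false

namespace Pool.Agent.Lib.MP_4c1f79_al

open Finset Module

variable {P : Type} [Fintype P] {M : Mesh P} {s : Equiv.Perm P} {K : Type} [Field K] {D : Fd K}

/-- [EMB] (uses `S_EXF`, `S_DES`, `S_SOC`, `S_DQ3`) An `F`-module supported on `U` whose socle type
is `ind E` embeds into the good one. Proof: as in `S_PEE`: `F`-fixed socle vectors `y ∈ X`,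
`y' ∈ N` with nonzero components at all positions of `E`; `e p y ↦ e p y'` is an `F`-morphism from
the socle of `X` (it is one-dimensional at each `p ∈ E`); extend it by `S_EXF`; the kernel contains
no socle vector, so it is zero. -/
def S_EMB : Prop := ∀ (P : Type) [Fintype P] (M : Mesh P) (s : Equiv.Perm P) (K : Type) [Field K]
  (D : Fd K) (U : Set P) (X N : FM M s K D) (E : Set P), Orb s E → N.GT U (ind E) →
  X.toRp.Sup U → (∀ p, X.toRp.sc p = ind E p) → ∃ f ∈ FM.HmF X N, Function.Injective f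

/-- [TOR] Torsors. `f : X → Y` an `F`-morphism with kernel `Z`. The subs `W` of `X` with
`W ⊓ Z = Z₁` and `f W = N₂` are either none, or as many as the `F`-morphisms from `N₂` to
`Z / Z₁`. Proof: fix one such `W₀`. A linear map `h : N₂ → Z / Z₁` gives
`W = {w + z | w ∈ W₀, z ∈ Z, z mod Z₁ = h (f w)}`; conversely from `W` let `h (f w₀)` be the class
of `w - w₀`, for `w ∈ W`, `w₀ ∈ W₀` with `f w = f w₀`. -/
def S_TOR : Prop := ∀ (P : Type) [Fintype P] (M : Mesh P) (s : Equiv.Perm P) (K : Type) [Field K]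
  (D : Fd K) (X Y : FM M s K D) (f : X.T →ₗ[K] Y.T), f ∈ FM.HmF X Y →
  ∀ (hZ : X.St (LinearMap.ker f)) (Z₁ : Submodule K X.T) (h₁ : X.St Z₁)
    (_ : Z₁ ≤ LinearMap.ker f) (N₂ : Submodule K Y.T) (h₂ : Y.St N₂),
  Nat.card {W : Submodule K X.T // X.St W ∧ W ⊓ LinearMap.ker f = Z₁ ∧ W.map f = N₂} = 0 ∨
  Nat.card {W : Submodule K X.T // X.St W ∧ W ⊓ LinearMap.ker f = Z₁ ∧ W.map f = N₂}
    = Nat.card (FM.HmF (Y.sub N₂ h₂) (X.subq Z₁ (LinearMap.ker f) h₁ hZ))

/-- The configuration of the core lemma: `τ b = a`, and `x` is the only successor of `b` and the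
only predecessor of `a` in `U`; all three are fixed by `s`. -/
structure Cfg (M : Mesh P) (s : Equiv.Perm P) (U : Set P) (a b x : P) : Prop where
  sa : s a = a
  sb : s b = b
  sx : s x = x
  ua : a ∈ U
  ub : b ∈ U
  ux : x ∈ U
  tau : M.Tau b a
  ar : M.Ar b x
  succ : ∀ y ∈ U, M.Ar b y → y = x
  pred : ∀ y ∈ U, M.Ar y a → y = x

/-- [CR1] (uses `S_GC1`, `S_GC2`, `S_GC3`, `S_UNI`, `S_EMB`, `S_BND`, `S_DQ1`, `S_DQ3`) Structure of the
modules with socle `a`, `b`, `x`. Proof. `Na(b) = 0`: `a` maps `Na(b)` injectively into `Na(x)`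
with zero composite to `Na(a)` (mesh relation), and `Na(x) → Na(a)` is injective since
`Na` vanishes at the other positions of level `lv a` and `sc Na x = 0`. Let `B = range (Na.e a)`
(one-dimensional, killed by `a`, a sub). Apply `S_GC2`, `S_GC3` to `Na`, `Rs = {a, b}`, `B`:
`gen B = B`, `cog {a, b} B = ⊤` because `Na(b) = 0`; so `Na / B` is good over `U \ {a, b}` of type
`u ↦ ind {a} u - ⟨1_u, ind {a}⟩ = ind {x} u`. Apply them to `Nx`, `Rs = {a, b}`, `B = ⊥`:
`Z = cog {a, b} ⊥` is good over `U \ {a, b}` of type `ind {x}` (`Nx(a) = 0`, since `a` is below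
`x`). So `Z ≅ Na / B` (`S_UNI` over `U \ {a, b}`; it is admissible). `Nx(b)` is one-dimensional:
goodness at `b`, `Nx(x)` is one-dimensional, `Nx(a) = 0`, and `sc Nx b = 0`. `Nx / Z` has the socle
type `ind {b}`: if `y ∉ Z` is at `p ≠ b` and `a y ∈ Z`, then `Z + (y)` is a sub vanishing at `a`
and `b`, contradiction; so the socle is at `b`, and it is not zero and at most one-dimensional.
Embed `Nx / Z` into `Nb` (`S_EMB`); `f` is the composite `Nx → Nx / Z → Nb`. -/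
def S_CR1 : Prop := ∀ (P : Type) [Fintype P] (M : Mesh P) (s : Equiv.Perm P) (K : Type) [Field K]
  (D : Fd K) (U : Set P) (a b x : P), Adm M s D.r U → Cfg M s U a b x →
  ∀ Na Nb Nx : FM M s K D, Na.GT U (ind {a}) → Nb.GT U (ind {b}) → Nx.GT U (ind {x}) →
  ∃ (hB : Na.St (LinearMap.range (Na.e a))) (f : Nx.T →ₗ[K] Nb.T) (_ : f ∈ FM.HmF Nx Nb)
    (hZ : Nx.St (LinearMap.ker f)),
    (∀ p, Na.toRp.dmS (LinearMap.range (Na.e a)) p = ind {a} p) ∧
    (∀ W, Na.St W → W.map (Na.e a) ≠ ⊥ → LinearMap.range (Na.e a) ≤ W) ∧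
    Na.toRp.dm a = 1 ∧ Nb.toRp.dm a = 0 ∧ Nx.toRp.dm a = 0 ∧
    (Nx.sub (LinearMap.ker f) hZ).Iso (Na.quo (LinearMap.range (Na.e a)) hB)

/-- [CR2] (uses `S_CR1`, `S_TOR`, `S_FIB`, `S_HF`, `S_ISO`, `S_DQ1`, `S_DQ2`, `S_DQ3`) The core
lemma for one field. Proof. The subs of `Na × Nb` of dimension `d + ind {a}` have an intersection
`N₁` with `Na` which contains `B = range (Na.e a)` (`d a = 0`, `Nb(a) = 0`); `S_FIB` counts them
over the pairs `(N₁, N₂)`: `|HmF (N₂, Na / N₁)|`. The subs of `Nx` of dimension `d` are counted over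
the pairs `(Z₁, N₂)` by `S_TOR`: none or `|HmF (N₂, Z / Z₁)|`. The isomorphism `Z ≅ Na / B` gives a
bijection between the `Z₁` and the `N₁ ⊇ B`, with `Z / Z₁ ≅ Na / N₁` and
`dmS N₁ = dmS Z₁ + ind {a}`. So the difference is the sum over the pairs without lift of
`q ^ finrank (Hm ..)` (`S_HF`). Since all `dm Na`, `dm Nb` are at most one, a sub is determined by
its dimension vector, so the pairs are indexed by a subset of `box d` (`d₁ = dmS Z₁`), and
`finrank Hm ≤ finrank (Nb.T) * finrank (Na.T) ≤ (card P) ^ 2`. -/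
def S_CR2 : Prop := ∀ (P : Type) [Fintype P] (M : Mesh P) (s : Equiv.Perm P) (K : Type) [Field K]
  (D : Fd K) (U : Set P) (a b x : P), Adm M s D.r U → Cfg M s U a b x →
  ∀ Na Nb Nx : FM M s K D, Na.GT U (ind {a}) → Nb.GT U (ind {b}) → Nx.GT U (ind {x}) →
  (∀ p, Na.toRp.dm p ≤ 1) → (∀ p, Nb.toRp.dm p ≤ 1) →
  ∀ d : P → ℕ, d a = 0 → ∃ (S : Finset (P → ℕ)) (n : (P → ℕ) → ℕ), S ⊆ box d ∧
    (∀ y, n y ≤ (Fintype.card P) ^ 2) ∧
    (Na.prod Nb).cnt (fun p => d p + ind {a} p) = Nx.cnt d + ∑ y ∈ S, D.q ^ n y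

/-- [COR] (uses `S_CR2`) The core lemma. Proof: the polynomials `∑ y ∈ S, X ^ n y` for `S ⊆ box d`
and `n : box d → {0, …, (card P)^2}` (zero elsewhere) are finitely many. -/
def S_COR : Prop := ∀ (P : Type) [Fintype P] (M : Mesh P) (s : Equiv.Perm P) (r : ℕ)
  (U : Set P) (a b x : P), Adm M s r U → Cfg M s U a b x →
  (∀ (K : Type) [Field K] (D : Fd K), D.r = r → ∀ N : FM M s K D,
    (N.GT U (ind {a}) ∨ N.GT U (ind {b})) → ∀ p, N.toRp.dm p ≤ 1) →
  ∀ d : P → ℕ, d a = 0 → ∃ Fs : Finset (Polynomial ℕ), ∀ (K : Type) [Field K] (D : Fd K),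
    D.r = r → ∀ Na Nb Nx : FM M s K D, Na.GT U (ind {a}) → Nb.GT U (ind {b}) →
    Nx.GT U (ind {x}) → ∃ f ∈ Fs,
    (Na.prod Nb).cnt (fun p => d p + ind {a} p) = Nx.cnt d + f.eval D.q

/-- [COA] (uses `S_COR`, `S_SPC`, `S_UNI`, `S_EXM`, `S_ISO`, `S_BND`, `S_DQ2`) The core lemma with a
common summand of type `m` which lives on levels `> lv a`. Proof: if `d a ≠ 0`, then `N'.cnt d = 0`
(`N'(a) = 0`: the socle of `N'` is at levels `> lv a`), and `N.cnt` is covered by `PosT`. If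
`d a = 0`: `N ≅ A × (Na × Nb)`, `N' ≅ A × Nx` with `A` of type `m` (`S_EXM`, `S_UNI`); apply
`S_SPC` with `N₁ = A`, `N₂ = Na × Nb` resp. `Nx` (the hypothesis holds: `A` vanishes on levels
`≤ lv a`). The dimension vectors `d₁` (for `A`) vanish on levels `≤ lv a`, and
`eul (d + ind {a} - d₁, dm A - d₁) = eul (d - d₁, dm A - d₁)` because `dm A - d₁` vanishes at `a`,
at its successors and at `τ a`. If `d₁` does not vanish on the levels `≤ lv a`, `A.cnt d₁ = 0`. If
the bracket of `S_COR` for `d - d₁` is not zero, the exponent is taken as `toNat` on both sides. -/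
def S_COA : Prop := ∀ (P : Type) [Fintype P] (M : Mesh P) (s : Equiv.Perm P) (r : ℕ)
  (U : Set P) (a b x : P), Adm M s r U → Cfg M s U a b x →
  (∀ (K : Type) [Field K] (D : Fd K), D.r = r → ∀ N : FM M s K D,
    (N.GT U (ind {a}) ∨ N.GT U (ind {b})) → ∀ p, N.toRp.dm p ≤ 1) →
  ∀ m : P → ℕ, (∀ p, m (s p) = m p) → (∀ p, p ∉ U → m p = 0) → (∀ p, m p ≠ 0 → M.lv a < M.lv p) →
  PosT M s r U m → PosT M s r U (fun p => m p + ind {a} p + ind {b} p) →
  ∀ d : P → ℕ, ∃ Fs : Finset (Polynomial ℕ), ∀ (K : Type) [Field K] (D : Fd K),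
    D.r = r → ∀ N N' : FM M s K D, N.GT U (fun p => m p + ind {a} p + ind {b} p) →
    N'.GT U (fun p => m p + ind {x} p) → ∃ f ∈ Fs,
    N.cnt (fun p => d p + ind {a} p) = N'.cnt d + f.eval D.q

end Pool.Agent.Lib.MP_4c1f79_al
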