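import Pool.Agent.Lib.MP_4c1f79_al.StmE

/-!
# MP_4c1f79_al : statements, part G (general tools for the special windows)
-/

set_option autoImplicit false

namespace Pool.Agent.Lib.MP_4c1f79_al

open Finset Module

variable {P : Type} [Fintype P] {M : Mesh P} {s : Equiv.Perm P} {K : Type} [Field K] {D : Fd K}

/-- The stable subspace generated by `B` (no `F`). -/
def Rp.gen (R : Rp M K) (B : Submodule K R.T) : Submodule K R.T := sInf {W | R.St W ∧ B ≤ W}

/-- [EU1] `⟨1_u, y⟩ = y u - ∑_{Ar u q} y q + y (τ u)`. -/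
def S_EU1 : Prop := ∀ (P : Type) [Fintype P] (M : Mesh P) (u : P) (y : P → ℕ),
  eulN M (ind {u}) y = (y u : ℤ) - (sA M y u : ℤ) + (sT M y u : ℤ)

/-- [FID] For `r = 1` and `s = 1` the Frobenius is trivial: `F x = x`, `φ c = c`, `q = |K|`, stable
means stable for the representation, `gen` agrees, every position is an orbit, and every
representation over `K` comes from an `F`-module, with the same morphisms. -/
def S_FID : Prop := ∀ (P : Type) [Fintype P] (M : Mesh P) (K : Type) [Field K] (D : Fd K),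
  D.r = 1 →
  (∀ c, D.φ c = c) ∧ D.q = Nat.card K ∧
  (∀ (s : Equiv.Perm P) (N : FM M s K D) (x : N.T), N.F x = x) ∧
  (∀ (s : Equiv.Perm P) (N : FM M s K D) (W : Submodule K N.T), N.St W ↔ N.toRp.St W) ∧
  (∀ (s : Equiv.Perm P) (N : FM M s K D) (B : Submodule K N.T), N.gen B = N.toRp.gen B) ∧
  (∀ (s : Equiv.Perm P) (N N' : FM M s K D) (f : N.T →ₗ[K] N'.T),
    f ∈ FM.HmF N N' ↔ f ∈ Rp.Hm N.toRp N'.toRp) ∧
  (∀ R : Rp M K, ∃ N : FM M (Equiv.refl P) K D, N.toRp = R) ∧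
  (∀ E : Set P, Orb (Equiv.refl P) E ↔ ∃ p, E = {p})

/-- [RSP] (uses `S_RST`, `S_BND`) Positivity of restricted counts. Proof: `S_RST`; the types `m'`
and the vectors `dmS (gen B)` are bounded by `dm N ≤ b` (`S_BND`), so finitely many cases of `PosC`
over `U \ Rs`; also `0`. -/
def S_RSP : Prop := ∀ (P : Type) [Fintype P] (M : Mesh P) (s : Equiv.Perm P) (r : ℕ)
  (U Rs : Set P), PosC M s r (U \ Rs) → ∀ m d : P → ℕ, ∃ Fs : Finset (Polynomial ℕ),
  ∀ (K : Type) [Field K] (D : Fd K), D.r = r → ∀ N : FM M s K D, N.GT U m →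
  ∀ B : Submodule K N.T, N.Grd Rs B →
  (∀ p ∈ U, p ∉ Rs → ∀ x ∈ Rs, M.Tau p x → ∀ y ∈ B, N.e x y = 0) →
  ∃ f ∈ Fs, N.cntP (N.Res Rs B) d = f.eval D.q

/-- [UPB] (uses `S_EXT`) A representation generated by one vector at `p` has dimension at `w` at
most the one of the good representation with socle `w` at `p`. Proof: for a linear functional `l` on
`X(w)` let `W` be the sum of all `X(q)` with `lv q ≤ lv w` (stable), `g : W → R` equal to
`l · y₀` on `X(w)` (`y₀` the socle vector of `R` at `w`) and zero on the other positions; it is a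
morphism (`a y₀ = 0`); extend it to `f : X → R` (`S_EXT`). `f` is unique: a morphism which vanishes
on `X(w)` has an image without socle, so it is zero (a nonzero stable subspace of `R` contains a
nonzero socle vector, which is at `w`). So `l ↦ f` is linear and injective, and `f ↦ f x₀ ∈ R(p)` is
injective because `X` is generated by `x₀`. -/
def S_UPB : Prop := ∀ (P : Type) [Fintype P] (M : Mesh P) (K : Type) [Field K] (R X : Rp M K)
  (U : Set P) (w p : P), R.Good U → (∀ q, R.sc q = ind {w} q) → X.Sup U →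
  ∀ x₀ : X.T, X.e p x₀ = x₀ → (∀ W : Submodule K X.T, X.St W → x₀ ∈ W → W = ⊤) →
  X.dm w ≤ R.dm p

/-- [RTR] (uses `S_EXT`, `S_DQ3`) A good representation with simple socle `u` is a retract of a good
representation `T` with `sc T u ≠ 0`. Proof: as in `S_PEE` without `F`. -/
def S_RTR : Prop := ∀ (P : Type) [Fintype P] (M : Mesh P) (K : Type) [Field K] (T I : Rp M K)
  (U : Set P) (u : P), T.Good U → I.Good U → (∀ q, I.sc q = ind {u} q) → T.sc u ≠ 0 →
  ∃ ι ∈ Rp.Hm I T, ∃ ρ ∈ Rp.Hm T I, ∀ x, ρ (ι x) = x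

/-- [GNV] The stable subspace `G` generated by one vector `v ≠ 0` at `p`. -/
def S_GNV : Prop := ∀ (P : Type) [Fintype P] (M : Mesh P) (K : Type) [Field K] (R : Rp M K)
  (p : P) (v : R.T), R.e p v = v → v ≠ 0 →
  R.St (R.gen (K ∙ v)) ∧ v ∈ R.gen (K ∙ v) ∧ R.dmS (R.gen (K ∙ v)) p = 1 ∧
  (∀ q, q ≠ p → M.lv p ≤ M.lv q → R.dmS (R.gen (K ∙ v)) q = 0) ∧
  (∀ q, q ≠ p → ∀ x ∈ R.gen (K ∙ v), ∃ y ∈ R.gen (K ∙ v), R.e q x = R.e q (R.a y)) ∧
  (∀ t q, M.Tau t q → q ≠ p → R.sc t = 0 →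
    R.dmS (R.gen (K ∙ v)) t + R.dmS (R.gen (K ∙ v)) q ≤ sA M (R.dmS (R.gen (K ∙ v))) t)

/-- `Y`-valued arrow maps out of level `k + 1` are coboundaries. -/
def Rp.Rig (X Y : Rp M K) (k : ℕ) : Prop :=
  ∀ g : X.T →ₗ[K] Y.T, ∃ f ∈ shp X Y (fun p q => p = q),
    ∀ p q, M.lv p = k + 1 → M.Ar p q → ∀ x,
      Y.e q (g (X.e p x)) = Y.e q (Y.a (f (X.e p x)) - f (X.a (X.e p x)))

open Classical in
/-- The Euler form of the pair of levels `k`, `k + 1`. -/
noncomputable def e2 (M : Mesh P) (k : ℕ) (x y : P → ℕ) : ℤ :=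
  (∑ p, if M.lv p = k ∨ M.lv p = k + 1 then (x p : ℤ) * y p else 0)
    - ∑ p, ∑ q, if M.Ar p q ∧ M.lv p = k + 1 then (x p : ℤ) * y q else 0

/-- [RG1] (uses `S_LD`) A brick pair with `⟨x, x⟩ = 1` is rigid. Proof: consider
`f ↦ a f - f a` from the space `C⁰` of position-preserving `f` which vanish outside the levels
`k, k+1` (`shp` of the relation `p = q ∧ (lv p = k ∨ lv p = k + 1)`) to the space `C¹ = shp` of the
arrows out of level `k + 1` (take only these components). By `S_LD`,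
`dim C⁰ - dim C¹ = e2 = 1`; the kernel has dimension `≤ 1` because of `Brick k`; so the map is
onto. -/
def S_RG1 : Prop := ∀ (P : Type) [Fintype P] (M : Mesh P) (K : Type) [Field K] (R : Rp M K)
  (k : ℕ), R.Brick k → e2 M k R.dm R.dm = 1 → R.Rig R k

/-- [RG2] (uses `S_LD`) If the pair is rigid, then the Euler form is `≥ 0`. Proof: the map
`f ↦ a f - f a` from `C⁰` (as in `S_RG1`, for `X`, `Y`) to `C¹` is onto. -/
def S_RG2 : Prop := ∀ (P : Type) [Fintype P] (M : Mesh P) (K : Type) [Field K] (X Y : Rp M K)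
  (k : ℕ), X.Rig Y k → 0 ≤ e2 M k X.dm Y.dm

/-- [RG3] Rigidity passes to retracts. Proof: for `g : X' → Y'` apply rigidity to
`ιY ∘ g ∘ ρX`, and compose with `ρY`, `ιX`. -/
def S_RG3 : Prop := ∀ (P : Type) [Fintype P] (M : Mesh P) (K : Type) [Field K]
  (X Y X' Y' : Rp M K) (k : ℕ), X.Rig Y k →
  ∀ ιX ∈ Rp.Hm X' X, ∀ ρX ∈ Rp.Hm X X', (∀ x, ρX (ιX x) = x) →
  ∀ ιY ∈ Rp.Hm Y' Y, ∀ ρY ∈ Rp.Hm Y Y', (∀ x, ρY (ιY x) = x) → X'.Rig Y' k

end Pool.Agent.Lib.MP_4c1f79_al
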