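import Pool.Agent.Lib.J4c.Root

/-!
# MP_4c1f79_al : classification of Cartan forms

`CFK b` : `b` is the Gram matrix of the simple roots of a (finite) root system, up to a positive
factor on every component. Everything is rational. Result of this file: `S_KCL` (every connected
`CFK` form is a multiple of the form of one of the types `J4c.DT`) and `S_KSF` (an integral
normalised form is one of the forms `J4c.sform`).

Conventions as in `StmA.lean` (statements `S_X` with the proof in the docstring; files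
`P/P_X.lean` with `theorem X_holds (hY : S_Y) … : S_X`, hypotheses as listed after `uses`).
-/

set_option autoImplicit false

namespace Pool.Agent.Lib.MP_4c1f79_al

open Finset

/-- The bilinear form with matrix `b`. -/
def bilK {ι : Type} [Fintype ι] (b : ι → ι → ℚ) (x y : ι → ℚ) : ℚ := ∑ i, ∑ j, b i j * x i * y j

/-- Cartan forms. -/
structure CFK {ι : Type} [Fintype ι] (b : ι → ι → ℚ) : Prop where
  symm : ∀ i j, b i j = b j i
  pos : ∀ i, 0 < b i i
  nonpos : ∀ i j, i ≠ j → b i j ≤ 0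
  int : ∀ i j, ∃ z : ℤ, 2 * b i j = z * b i i
  pd : ∀ x : ι → ℚ, x ≠ 0 → 0 < bilK b x x

/-- The graph of `b` is connected. -/
def ConnK {ι : Type} (b : ι → ι → ℚ) : Prop :=
  ∀ x y, Relation.ReflTransGen (fun x y => b x y ≠ 0) x y

/-- Equal up to a bijection of the index sets and a positive factor. -/
def SimK {ι ι' : Type} (b : ι → ι → ℚ) (b' : ι' → ι' → ℚ) : Prop :=
  ∃ (c : ℚ) (e : ι ≃ ι'), 0 < c ∧ ∀ x y, b x y = c * b' (e x) (e y)

/-- The path `0 - 1 - … - (n-1)` with norm `2` at the vertices `i < k` and `2 κ` at the others. -/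
def linK (n k κ : ℕ) (x y : Fin n) : ℚ :=
  if x = y then (if x.1 < k then 2 else 2 * κ)
  else if x.1 + 1 = y.1 then (if y.1 < k then -1 else -κ)
  else if y.1 + 1 = x.1 then (if x.1 < k then -1 else -κ)
  else 0

/-- Edges of `trK`, from the smaller to the larger vertex. -/
def trA (p q : ℕ) (i j : ℕ) : Prop := (i + 1 = j ∧ i ≠ p + q) ∨ (i = p ∧ j = p + q + 1)

instance (p q i j : ℕ) : Decidable (trA p q i j) := by unfold trA; infer_instance

/-- The simply laced star with centre `p` and three arms: `p - 1, …, 0` (length `p`),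
`p + 1, …, p + q` (length `q`) and `p + q + 1, …, p + q + r` (length `r`). -/
def trK (p q r : ℕ) (x y : Fin (p + q + r + 1)) : ℚ :=
  if x = y then 2 else if trA p q x.1 y.1 ∨ trA p q y.1 x.1 then -1 else 0

/-- The shapes. -/
def ShapeK {ι : Type} (b : ι → ι → ℚ) : Prop :=
  (∃ n, 1 ≤ n ∧ SimK b (linK n n 1)) ∨
  (∃ n k κ, 1 ≤ k ∧ k < n ∧ (κ = 2 ∨ κ = 3) ∧ SimK b (linK n k κ)) ∨
  ∃ p q r, 1 ≤ p ∧ 1 ≤ q ∧ 1 ≤ r ∧ SimK b (trK p q r)

/-- `b` on `Option V` is `b'` with a leaf `none` attached at `j`. -/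
structure AttK {V : Type} (b' : V → V → ℚ) (b : Option V → Option V → ℚ) (j : V) : Prop where
  res : ∀ x y, b (some x) (some y) = b' x y
  ne : b none (some j) ≠ 0
  eq : ∀ x, x ≠ j → b none (some x) = 0

/-- Strength: there is a nonnegative vector `G` supported on `S` with `⟨G, G⟩ ≤ s ⟨y, y⟩` and
`⟨G, y⟩ ≤ - s ⟨y, y⟩`. -/
def StrK {ι : Type} [Fintype ι] (b : ι → ι → ℚ) (y : ι) (S : Set ι) (s : ℚ) : Prop :=
  y ∉ S ∧ ∃ G : ι → ℚ, (∀ i, 0 ≤ G i) ∧ (∀ i, i ∉ S → G i = 0) ∧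
    bilK b G G ≤ s * b y y ∧ ∑ i, b i y * G i ≤ -(s * b y y)

/-- [K1] Similarity. Reflexive, symmetric (`c⁻¹`, `e.symm`), transitive; `CFK`, `ConnK`, `ShapeK` are
invariant; restriction to a subset of a Cartan form is a Cartan form (extend vectors by zero). -/
def S_K1 : Prop :=
  (∀ (ι : Type) (b : ι → ι → ℚ), SimK b b) ∧
  (∀ (ι ι' : Type) (b : ι → ι → ℚ) (b' : ι' → ι' → ℚ), SimK b b' → SimK b' b) ∧
  (∀ (ι ι' ι'' : Type) (b : ι → ι → ℚ) (b' : ι' → ι' → ℚ) (b'' : ι'' → ι'' → ℚ),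
    SimK b b' → SimK b' b'' → SimK b b'') ∧
  (∀ (ι ι' : Type) [Fintype ι] [Fintype ι'] (b : ι → ι → ℚ) (b' : ι' → ι' → ℚ),
    SimK b b' → CFK b → CFK b') ∧
  (∀ (ι ι' : Type) (b : ι → ι → ℚ) (b' : ι' → ι' → ℚ), SimK b b' → ConnK b → ConnK b') ∧
  (∀ (ι ι' : Type) (b : ι → ι → ℚ) (b' : ι' → ι' → ℚ), SimK b b' → ShapeK b' → ShapeK b) ∧
  (∀ (ι : Type) [Fintype ι] (b : ι → ι → ℚ) (p : ι → Prop) [Fintype {x // p x}], CFK b →
    CFK fun x y : {x // p x} => b x y)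

/-- [K2] Bonds. Proof: `2 b i j = z b i i = w b j j` with integers `z, w < 0` (`int`, `symm`,
`pos`), and `z w b i i b j j = 4 (b i j) ^ 2 < 4 b i i b j j` (`pd` for
`x = (- b i j) e_i + (b i i) e_j`: `⟨x, x⟩ = b i i (b i i b j j - (b i j) ^ 2)`), so
`z w ∈ {1, 2, 3}` and one of `z, w` is `-1`. -/
def S_K2 : Prop := ∀ (ι : Type) [Fintype ι] (b : ι → ι → ℚ), CFK b → ∀ i j, i ≠ j → b i j ≠ 0 →
  ∃ κ : ℕ, (κ = 1 ∨ κ = 2 ∨ κ = 3) ∧
    ((b i i = κ * b j j ∧ 2 * b i j = -(κ * b j j)) ∨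
      (b j j = κ * b i i ∧ 2 * b i j = -(κ * b i i)))

/-- [KSA] Strength of a neighbour. Proof: `G = t e_u`, `t = - b u y / b u u ≥ 0`. -/
def S_KSA : Prop := ∀ (ι : Type) [Fintype ι] (b : ι → ι → ℚ), CFK b → ∀ u y, u ≠ y →
  StrK b y {u} (b u y ^ 2 / (b u u * b y y))

/-- [KSU] Strengths add up. Proof: `G + G'`; the cross terms `b i j G i G' j`, `i ∈ S`, `j ∈ S'`,
are `≤ 0` because `i ≠ j`. -/
def S_KSU : Prop := ∀ (ι : Type) [Fintype ι] (b : ι → ι → ℚ), CFK b → ∀ (y : ι) (S S' : Set ι)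
  (s s' : ℚ), Disjoint S S' → StrK b y S s → StrK b y S' s' → StrK b y (S ∪ S') (s + s')

/-- [KSL] Strengths are smaller than one. Proof: `x = e_y + G` is not zero (`x y = 1`), and
`0 < ⟨x, x⟩ ≤ b y y (1 - 2 s + s)`. -/
def S_KSL : Prop := ∀ (ι : Type) [Fintype ι] (b : ι → ι → ℚ), CFK b → ∀ (y : ι) (S : Set ι)
  (s : ℚ), StrK b y S s → s < 1

/-- [KSO] Monotonicity. Proof: `(s' / s) G` (if `s = 0` then `s' = 0`). -/
def S_KSO : Prop := ∀ (ι : Type) [Fintype ι] (b : ι → ι → ℚ), CFK b → ∀ (y : ι) (S S' : Set ι)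
  (s s' : ℚ), StrK b y S s → S ⊆ S' → y ∉ S' → 0 ≤ s' → s' ≤ s → StrK b y S' s'

/-- [KSM] (uses `S_KSL`) Moving the strength to another vertex. Proof: `G' = t (e_y + G)` with
`t = - b y y' / (b y y (1 - s)) ≥ 0`: `⟨e_y + G, e_y + G⟩ ≤ b y y (1 - s)`, and
`⟨G, e_y'⟩ ≤ 0` because `y' ∉ S`. -/
def S_KSM : Prop := ∀ (ι : Type) [Fintype ι] (b : ι → ι → ℚ), CFK b → ∀ (y y' : ι) (S : Set ι)
  (s : ℚ), StrK b y S s → y' ∉ S → y' ≠ y →
  StrK b y' (insert y S) (b y y' ^ 2 / (b y y * b y' y' * (1 - s)))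

/-- [KSP] (uses `S_K2`, `S_KSA`, `S_KSM`, `S_KSO`) Consequences. (1) a neighbour has strength at
least `1/4`, (2) at least `1/2` if the bond is not simple (`b u u ≠ b y y`); (3) strength
`1/2` moves along bonds; (4) it moves along paths `v 0, v 1, …, v n` of bonds; (5) a simple chain
`v 0 - v 1 - … - v n` (`2 b (v i) (v (i+1)) = - b (v 0) (v 0)`, all norms equal) has strength
`n / (2 (n + 1))` at `v n`. Proof: with `κ` of `S_K2` the number
`b u y ^ 2 / (b u u * b y y)` is `κ / 4`, and `κ = 1` iff `b u u = b y y`; (3) `κ / (4 (1 - 1/2))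
≥ 1/2`; (4), (5) induction on `n` (`1 / (4 (1 - n / (2 (n + 1)))) = (n + 1) / (2 (n + 2))`). -/
def S_KSP : Prop := ∀ (ι : Type) [Fintype ι] (b : ι → ι → ℚ), CFK b →
  (∀ u y, u ≠ y → b u y ≠ 0 → StrK b y {u} (1 / 4)) ∧
  (∀ u y, u ≠ y → b u y ≠ 0 → b u u ≠ b y y → StrK b y {u} (1 / 2)) ∧
  (∀ (y y' : ι) (S : Set ι), StrK b y S (1 / 2) → y' ∉ S → y' ≠ y → b y y' ≠ 0 →
    StrK b y' (insert y S) (1 / 2)) ∧
  (∀ (n : ℕ) (v : ℕ → ι) (S : Set ι), (∀ i j, i < j → j ≤ n → v i ≠ v j) →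
    (∀ i, i ≤ n → v i ∉ S) → (∀ i, i < n → b (v i) (v (i + 1)) ≠ 0) → StrK b (v 0) S (1 / 2) →
    StrK b (v n) (S ∪ {x | ∃ i, i < n ∧ x = v i}) (1 / 2)) ∧
  (∀ (n : ℕ) (v : ℕ → ι), (∀ i j, i < j → j ≤ n → v i ≠ v j) →
    (∀ i, i ≤ n → b (v i) (v i) = b (v 0) (v 0)) →
    (∀ i, i < n → 2 * b (v i) (v (i + 1)) = - b (v 0) (v 0)) →
    StrK b (v n) {x | ∃ i, i < n ∧ x = v i} (n / (2 * (n + 1))))

/-- [KLF] There is a leaf, and its complement is connected. Proof: if every vertex had two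
neighbours, then `⟨1, 1⟩ = ∑ i, (b i i + ∑ j ≠ i, b i j) ≤ ∑ i, (b i i - 2 (b i i / 2)) = 0` for the
all-ones vector (`b i j ≠ 0`, `i ≠ j` implies `2 b i j ≤ - b i i` by `int`), a contradiction to
`pd`. So some `l` has at most one neighbour, and at least one by connectedness. Connectedness of
the complement: let `j` be the neighbour; by induction along a chain from `j` every vertex `x` of
the chain is `l` or connected to `j` inside the complement (the only neighbour of `l` is `j`). -/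
def S_KLF : Prop := ∀ (ι : Type) [Fintype ι] (b : ι → ι → ℚ), CFK b → ConnK b →
  2 ≤ Fintype.card ι → ∃ l j, l ≠ j ∧ b l j ≠ 0 ∧ (∀ x, x ≠ l → x ≠ j → b l x = 0) ∧
    ConnK fun x y : {x // x ≠ l} => b x y

/-- [KTP] (uses `S_K1`) Transport of an attached leaf along a similarity. Proof:
`b'' x y = c⁻¹ * b (e.symm x) (e.symm y)` with `e : Option V ≃ Option V'`. -/
def S_KTP : Prop := ∀ (V V' : Type) (b₀ : V → V → ℚ) (b₁ : V' → V' → ℚ)
  (b : Option V → Option V → ℚ) (j : V), AttK b₀ b j → SimK b₀ b₁ →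
  ∃ (b'' : Option V' → Option V' → ℚ) (j' : V'), AttK b₁ b'' j' ∧ SimK b b''

/-! ## Attaching a leaf -/

/-- [KA1] (uses `S_K2`) Type A, leaf at the end. Proof by `S_K2` for `none` and `some j`,
`b (some j) (some j) = 2`: if `b none none = 2 κ`: `SimK b (linK (n+1) n κ)` for `κ = 2, 3`
(or `linK (n+1) (n+1) 1` for `κ = 1`), factor `1`, `none ↦ Fin.last`, `some x ↦ x.castSucc`; if
`b none none = 2 / κ`, `κ = 2, 3`: `SimK b (linK (n+1) 1 κ)` with the factor `1 / κ` and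
`none ↦ 0`, `some x ↦ n - x`. (`b none (some j) = - κ`, resp. `-1`; symmetric.) -/
def S_KA1 : Prop := ∀ (n : ℕ), 1 ≤ n → ∀ (b : Option (Fin n) → Option (Fin n) → ℚ) (j : Fin n),
  CFK b → AttK (linK n n 1) b j → j.1 + 1 = n → ShapeK b

/-- [KA2] (uses `S_K2`, `S_KSP`, `S_KSU`, `S_KSL`) Type A, leaf at an interior vertex `p`: the
bond is simple, otherwise the strengths `1/4, 1/4` of the two neighbours `p - 1`, `p + 1` and
`1/2` of the leaf add up to `1`. So `b` is `trK p q 1` with `none ↦ Fin.last`,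
`some x ↦ x.castSucc`. -/
def S_KA2 : Prop := ∀ (p q : ℕ), 1 ≤ p → 1 ≤ q →
  ∀ (b : Option (Fin (p + q + 1)) → Option (Fin (p + q + 1)) → ℚ) (j : Fin (p + q + 1)),
  CFK b → AttK (linK (p + q + 1) (p + q + 1) 1) b j → j.1 = p → SimK b (trK p q 1)

/-- [KA] (uses `S_K1`, `S_KTP`, `S_KA1`, `S_KA2`) Type A. Proof: leaf at `0`: reverse the path
(`SimK (linK n n 1) (linK n n 1)` by `Fin.rev`; use the construction of `S_KTP` with the leaf at
the last vertex, i.e. apply `S_KA1` to the transported form, whose leaf is at `Fin.rev j`). -/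
def S_KA : Prop := ∀ (n : ℕ), 1 ≤ n → ∀ (b : Option (Fin n) → Option (Fin n) → ℚ) (j : Fin n),
  CFK b → AttK (linK n n 1) b j → ShapeK b

/-- [KL1] (uses `S_KSP`, `S_KSU`, `S_KSL`, `S_KSO`) One multiple bond: the leaf is attached at an end by
a simple bond. Proof. Let `k ≤ j`. The strength of `{some i | i < j}` at `some j` is at least
`1/2`: start with the neighbour `k - 1` of `k` (norms `2` and `2 κ` differ) and move along
`k, k + 1, …, j` (`S_KSP` (2), (4), and `S_KSO` to enlarge the set). If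
`b none none ≠ b (some j) (some j)`, the leaf has strength `1/2` at `some j`, contradiction to
`S_KSL`. If `j + 1 < n`, the leaf and `some (j + 1)` have strength `1/4` each, a contradiction.
If `j < k`, the same from the other side: `{some i | j < i}`, start with the neighbour `k` of
`k - 1` and move down to `j`; neighbour `some (j - 1)` if `0 < j`. The last item by `S_K2`
(with equal norms the bond is simple, `κ = 1`). -/
def S_KL1 : Prop := ∀ (n k κ : ℕ), 1 ≤ k → k < n → (κ = 2 ∨ κ = 3) →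
  ∀ (b : Option (Fin n) → Option (Fin n) → ℚ) (j : Fin n), CFK b → AttK (linK n k κ) b j →
  b none none = b (some j) (some j) ∧ (j.1 = 0 ∨ j.1 + 1 = n)

/-- [KL] (uses `S_K2`, `S_KL1`) One multiple bond. Proof: `S_KL1`; the bond of the leaf is
`2 b none (some j) = - b none none` (`S_K2`). Leaf at `n - 1`: `linK (n+1) k κ`,
`none ↦ Fin.last`, `some x ↦ x.castSucc`. Leaf at `0` (`0 < k`): `linK (n+1) (k+1) κ`,
`none ↦ 0`, `some x ↦ x.succ`. -/
def S_KL : Prop := ∀ (n k κ : ℕ), 1 ≤ k → k < n → (κ = 2 ∨ κ = 3) →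
  ∀ (b : Option (Fin n) → Option (Fin n) → ℚ) (j : Fin n), CFK b → AttK (linK n k κ) b j →
  ShapeK b

/-- [KT1] (uses `S_KSP`, `S_KSU`, `S_KSL`, `S_KSO`) Stars: the leaf is attached at the end of an
arm by a simple bond. Proof. The neighbours of the centre `p` are `p - 1`, `p + 1`, `p + q + 1`,
each of strength `1/4`. If `j = p`, the leaf gives `4 · 1/4 = 1`, a contradiction. Otherwise `j` lies
on one arm; the first vertices of the two other arms have together strength `1/2` at the centre;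
move it along the arm to `j` (`S_KSP` (4)). As in `S_KL1` this excludes a non-simple bond, and a
next vertex of the arm after `j` (`j - 1`, `j + 1`, `j + 1` for the three arms). -/
def S_KT1 : Prop := ∀ (p q r : ℕ), 1 ≤ p → 1 ≤ q → 1 ≤ r →
  ∀ (b : Option (Fin (p + q + r + 1)) → Option (Fin (p + q + r + 1)) → ℚ)
  (j : Fin (p + q + r + 1)), CFK b → AttK (trK p q r) b j →
  b none none = b (some j) (some j) ∧ (j.1 = 0 ∨ j.1 = p + q ∨ j.1 = p + q + r)

/-- [KT2] Permutations of the arms, with the images of the end points. Explicit bijections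
`Fin (p + q + r + 1) ≃ Fin (q + p + r + 1)`: `i ↦ p + q - i` for `i ≤ p + q`, `i ↦ i` otherwise;
`Fin (p + q + r + 1) ≃ Fin (p + r + q + 1)`: `i ↦ i` for `i ≤ p`, `i ↦ i + r` for
`p < i ≤ p + q`, `i ↦ i - q` for `p + q < i`. All norms and bonds are preserved (`omega`). -/
def S_KT2 : Prop := ∀ p q r : ℕ,
  (∃ e : Fin (p + q + r + 1) ≃ Fin (q + p + r + 1),
    (∀ x y, trK p q r x y = trK q p r (e x) (e y)) ∧
    ∀ x, (x.1 = 0 → (e x).1 = p + q) ∧ (x.1 = p + q → (e x).1 = 0) ∧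
      (x.1 = p + q + r → 1 ≤ r → (e x).1 = p + q + r)) ∧
  ∃ e : Fin (p + q + r + 1) ≃ Fin (p + r + q + 1),
    (∀ x y, trK p q r x y = trK p r q (e x) (e y)) ∧
    ∀ x, (x.1 = p + q → 1 ≤ q → (e x).1 = p + q + r) ∧
      (x.1 = p + q + r → 1 ≤ r → (e x).1 = p + r)

/-- [KT] (uses `S_K1`, `S_K2`, `S_KT1`, `S_KT2`) Stars. Proof: `S_KT1`. If `j = p + q + r` (end of the third
arm): `SimK b (trK p q (r + 1))`, `none ↦ Fin.last`, `some x ↦ x.castSucc`. Otherwise permute the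
arms by `S_KT2` (apply the bijection to the `some` part of `b`; the result is again `AttK`). -/
def S_KT : Prop := ∀ (p q r : ℕ), 1 ≤ p → 1 ≤ q → 1 ≤ r →
  ∀ (b : Option (Fin (p + q + r + 1)) → Option (Fin (p + q + r + 1)) → ℚ)
  (j : Fin (p + q + r + 1)), CFK b → AttK (trK p q r) b j → ShapeK b

/-- [KIN] (uses `S_K1`, `S_KLF`, `S_KTP`, `S_KA`, `S_KL`, `S_KT`) Every connected Cartan form has one
of the shapes. Proof: induction on the number of vertices. One vertex: `linK 1 1 1` with the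
factor `b x x / 2`. Otherwise take a leaf `l` (`S_KLF`), `ι ≃ Option {x // x ≠ l}`
(`Equiv.optionSubtypeNe`), the complement is a connected Cartan form (`S_K1`), has a shape by
induction; transport (`S_KTP`) and apply `S_KA`, `S_KL` or `S_KT`; `S_K1` for the invariance of
`CFK` and `ShapeK`. -/
def S_KIN : Prop := ∀ (ι : Type) [Fintype ι] [Nonempty ι] (b : ι → ι → ℚ), CFK b → ConnK b →
  ShapeK b

/-! ## Restrictions -/

/-- [KR1] (uses `S_KSP`, `S_KSA`, `S_KSM`, `S_KSU`, `S_KSL`, `S_KSO`) The multiple bond. Proof. `κ = 3`: at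
the vertex `k` the neighbour `k - 1` has strength `9 / (2 · 6) = 3/4` (`S_KSA`), so there is no
neighbour `k + 1` (`1/4`), i.e. `k + 1 = n`; symmetrically at `k - 1`: `k = 1`. `κ = 2`: suppose
`2 ≤ k`, `k + 2 ≤ n` and not `(n, k) = (4, 2)`. If `3 ≤ k`: at `k - 1` the chain `k-3, k-2` has
strength `1/3` (`S_KSP` (5)); at `k` the set `{k-3, k-2, k-1}` has strength
`4 / (2 · 4 (1 - 1/3)) = 3/4` (`S_KSM`); with `k + 1` we get `1`. If `k = 2`, then `k + 3 ≤ n`:
`{k-2, k-1}` has strength `4 / (8 (1 - 1/4)) = 2/3` at `k`, and the chain `k+2, k+1` has strength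
`1/3`. -/
def S_KR1 : Prop := ∀ (n k κ : ℕ), 1 ≤ k → k < n → CFK (linK n k κ) →
  (κ = 3 → n = 2 ∧ k = 1) ∧ (κ = 2 → k = 1 ∨ k + 1 = n ∨ (n = 4 ∧ k = 2))

/-- [KR2] (uses `S_KSP`, `S_KSU`, `S_KSL`) The arms of a star. Proof: `S_KSP` (5) for the three
arms at the centre. -/
def S_KR2 : Prop := ∀ p q r : ℕ, 1 ≤ p → 1 ≤ q → 1 ≤ r → CFK (trK p q r) →
  (p / (2 * (p + 1)) + q / (2 * (q + 1)) + r / (2 * (r + 1)) : ℚ) < 1

/-- [KR3] (uses `S_KR2`, `S_KT2`) Sorted arms. Proof: by `S_KT2` (and `S_K1`-like invariance of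
`CFK`; or use the symmetric inequality of `S_KR2` only) assume `p ≤ q ≤ r`. From
`1/(p+1) + 1/(q+1) + 1/(r+1) > 1`: `p = 1` (otherwise the sum is at most `3 · 1/3`); `q ≤ 2`
(otherwise at most `1/2 + 1/4 + 1/4`); if `q = 2`, then `r ≤ 4` (`1/2 + 1/3 + 1/6 = 1`). -/
def S_KR3 : Prop := ∀ p q r : ℕ, 1 ≤ p → 1 ≤ q → 1 ≤ r → CFK (trK p q r) →
  ∃ q' r', ((q' = 1 ∧ 1 ≤ r') ∨ (q' = 2 ∧ 2 ≤ r' ∧ r' ≤ 4)) ∧
    SimK (trK p q r) (trK 1 q' r')

/-! ## The types -/

/-- The form of a type, over the rationals. -/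
def dtK (t : J4c.DT) (x y : Fin t.rank) : ℚ := (t.form x y : ℤ)

/-- [KD1] Types A, B, C, F, G. All with the factor `1`. `A`: identity. `B n`: `linK (n+2) 1 2` with
`Fin.rev` (in `DT.B n` the last root is short). `C n`: `linK (n+3) (n+2) 2`, identity.
`F4`: `Fin.rev` (there the first two roots are long). `G2`: `DT.G2` has norms `6, 2`: `Fin.rev`. -/
def S_KD1 : Prop :=
  (∀ n, SimK (linK (n + 1) (n + 1) 1) (dtK (.A n))) ∧
  (∀ n, SimK (linK (n + 2) 1 2) (dtK (.B n))) ∧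
  (∀ n, SimK (linK (n + 3) (n + 2) 2) (dtK (.C n))) ∧
  SimK (linK 4 2 2) (dtK .F4) ∧ SimK (linK 2 1 3) (dtK .G2)

/-- [KD2] Types D and E. `D m` (rank `m + 4`) is `trK 1 1 (m + 1)`: centre `1`, arms `0`, `2` and
`3, …, m + 3`; in `DT.D m` the branch vertex is `m + 1` with the leaves `m + 2`, `m + 3` and the
chain `m, …, 0`: `0 ↦ m + 2`, `1 ↦ m + 1`, `2 ↦ m + 3`, `i ↦ m + 3 - i` for `i ≥ 3`.
`E6` is `trK 1 2 2` (centre `1`, arms `0`; `2, 3`; `4, 5`): the branch vertex of `CartanMatrix.E₆` is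
`3`, with the arms `1`; `2, 0`; `4, 5`. `E7 = trK 1 2 3`: `1`; `2, 0`; `4, 5, 6`. `E8 = trK 1 2 4`:
`1`; `2, 0`; `4, 5, 6, 7`. (The E cases by `decide` after passing to integers.) -/
def S_KD2 : Prop :=
  (∀ m, SimK (trK 1 1 (m + 1)) (dtK (.D m))) ∧
  SimK (trK 1 2 2) (dtK .E6) ∧ SimK (trK 1 2 3) (dtK .E7) ∧ SimK (trK 1 2 4) (dtK .E8)

/-- [KCL] (uses `S_K1`, `S_KIN`, `S_KR1`, `S_KR3`, `S_KD1`, `S_KD2`) Classification of the
connected Cartan forms. -/
def S_KCL : Prop := ∀ (ι : Type) [Fintype ι] [Nonempty ι] (b : ι → ι → ℚ), CFK b → ConnK b →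
  ∃ t : J4c.DT, SimK b (dtK t)

/-- Integral, normalised Cartan forms: in every component the smallest norm is `2`. -/
structure RFK {ι : Type} [Fintype ι] (b : ι → ι → ℤ) : Prop where
  symm : ∀ i j, b i j = b j i
  even : ∀ i, 2 ∣ b i i
  pos : ∀ i, 0 < b i i
  nonpos : ∀ i j, i ≠ j → b i j ≤ 0
  int : ∀ i j, b i i ∣ 2 * b i j
  pd : ∀ x : ι → ℚ, x ≠ 0 → 0 < bilK (fun i j => (b i j : ℚ)) x x
  norm : ∀ i, ∃ j, Relation.ReflTransGen (fun x y => b x y ≠ 0) i j ∧ b j j = 2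

/-- [KNO] (uses `S_KCL`) The factor is one. Proof: `b x y = c * form (e x) (e y)` by `S_KCL`. The
norms of `form` are `2 * len`, `len ≥ 1`, and some `len` is `1`. So `2 c = b i i` for some `i`
is an even positive integer, `c ≥ 1`; and `2 = b j j = 2 c len ≥ 2 c`, so `c = 1`. -/
def S_KNO : Prop := ∀ (ι : Type) [Fintype ι] [Nonempty ι] (b : ι → ι → ℤ), RFK b →
  ConnK (fun x y => (b x y : ℚ)) →
  ∃ (t : J4c.DT) (e : ι ≃ Fin t.rank), ∀ x y, b x y = t.form (e x) (e y)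

/-- [KSF] (uses `S_K1`, `S_KNO`) Components. Proof: let `r` be the number of classes of the equivalence
relation `ReflTransGen (b x y ≠ 0)` (symmetric since `b` is), numbered by `Fin r`; every class
is connected (a chain stays in the class) and satisfies `RFK`; choose `t k` and `e k` by `S_KNO`;
`ι ≃ (k : Fin r) × class k ≃ (k : Fin r) × Fin (t k).rank`; `b x y = 0` for different classes. -/
def S_KSF : Prop := ∀ (ι : Type) [Fintype ι] (b : ι → ι → ℤ), RFK b →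
  ∃ (r : ℕ) (t : Fin r → J4c.DT) (e : ι ≃ (k : Fin r) × Fin (t k).rank),
    ∀ x y, b x y = J4c.sform t (e x) (e y)

/-- [KRI] The conclusion `PosJ` is invariant under reindexing. Proof: `bq`, `bd`, `vpm` are
(`Fintype.sum_equiv`, `Fintype.prod_equiv`); `J (b ∘ e) v (a ∘ e) = J b v a` by well-founded
induction on `a` (the unfolding of `J` by `WellFounded.fix_eq`, and the bijection
`β ↦ β ∘ e` of `Iio a` with `Iio (a ∘ e)`). -/
def S_KRI : Prop := ∀ (ι ι' : Type) [Fintype ι] [DecidableEq ι] [Fintype ι'] [DecidableEq ι']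
  (b : ι' → ι' → ℤ) (e : ι ≃ ι') (a : ι' → ℕ),
  J4c.PosJ b a → J4c.PosJ (fun x y => b (e x) (e y)) (fun x => a (e x))

/-- [KFI] (uses `S_KSF`, `S_KRI`) Positivity for all normalised forms follows from positivity for
the forms of all families of types. -/
def S_KFI : Prop := (∀ (r : ℕ) (t : Fin r → J4c.DT) (a : (k : Fin r) × Fin (t k).rank → ℕ),
    J4c.PosJ (J4c.sform t) a) →
  ∀ (ι : Type) [Fintype ι] [DecidableEq ι] (b : ι → ι → ℤ), RFK b → ∀ a : ι → ℕ, J4c.PosJ b a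

end Pool.Agent.Lib.MP_4c1f79_al
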