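import Pool.Agent.Lib.MP_4c1f79_al.StmI
import Pool.Agent.Lib.MP_4c1f79_al.StmCl

/-!
# MP_4c1f79_al : the classical types, `NumPos` from the link

In each case construct the datum `X : Dt` described in the docstring and apply `S_LNK`.
-/

set_option autoImplicit false

namespace Pool.Agent.Lib.MP_4c1f79_al

open J4c

/-- [NPA] (uses `S_LNK`, `S_CKA`, `S_CLA`, and `J4c.S_good_A`) Datum: `V = Fin (n+1)`,
`adj = adjA (n+1)`, `L = n + 2`, `T v w k = tabA 0 n v w k`, `st = Fin.rev`, `ι = Fin (n+1)`,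
`b = (DT.A n).form`, `σ = 1`, `r = 1`, `ob = rep = id`, `c i = (i even)`. The table facts are
`S_CKA (n+1) (adjA (n+1)) 0 n`. Positivity: `S_CLA` with `lo = 0` and `n + 1` rows
(`rowI (n+1) L 0 (n+1) = univ`). -/
def S_NPA : Prop := ∀ n, NumPos (DT.A n).form

/-- [NPB] (uses `S_LNK`, `S_CKA`, `S_CLB`, and `J4c.S_good_B`) Datum: `V = Fin (2n+3)`,
`adj = adjA (2n+3)`, `L = 2n + 4`, `T v w k = tabA 0 (2n+2) v w k`, `st = Fin.rev`,
`ι = Fin (n+2)`, `b = (DT.B n).form`, `σ = Fin.revPerm`, `r = 2`, `ob v = min v (2n+2-v)`,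
`rep i = i`, `c i = (i even)`. The orbit of `i < n + 1` is `{i, 2n+2-i}`, the one of `n + 1` is a
point. Positivity: `S_CLB (2n+3) L 0`. -/
def S_NPB : Prop := ∀ n, NumPos (DT.B n).form

/-- [NPC] (uses `S_LNK`, `S_CKD`, `S_CLC`, and `J4c.S_good_C`) Datum (`N = n + 4`): `V = Fin N`,
`adj = adjD N`, `L = 2 N - 2`, `T v w k = tabD N v w k`, `st v = v` if `v + 2 < N` or `N` is even,
otherwise `st v = 2 N - 3 - v` (exchange of `N - 2`, `N - 1`), `ι = Fin (n+3)`,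
`b = (DT.C n).form`, `σ` = exchange of `N - 2` and `N - 1`, `r = 2`, `ob v = min v (n+2)`,
`rep i = i`, `c i = (i even)`. Positivity: `S_CLC`. -/
def S_NPC : Prop := ∀ n, NumPos (DT.C n).form

/-- [NPD] (uses `S_LNK`, `S_CKD`, `S_CLD`, and `J4c.S_good_D`) Datum (`N = n + 4`): `V`, `adj`,
`L`, `T`, `st` as for `NPC`, `ι = Fin (n+4)`, `b = (DT.D n).form`, `σ = 1`, `r = 1`,
`ob = rep = id`, `c i = (min i (n+2) even)`. Positivity: `S_CLD`. -/
def S_NPD : Prop := ∀ n, NumPos (DT.D n).form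

end Pool.Agent.Lib.MP_4c1f79_al
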