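import Pool.Agent.Lib.MP_4c1f79_al.StmF
import Pool.Agent.Lib.MP_4c1f79_al.DtE

/-!
# MP_4c1f79_al : the types E6, E7, E8 (tables and their checks)
-/

set_option autoImplicit false

namespace Pool.Agent.Lib.MP_4c1f79_al

namespace EC

/-- The window of a set of rows. -/
def rowW {n : ℕ} (W : Fin n → Bool) : Fin n → ℕ → Bool := fun v _ => W v

/-- The table `T` for the socle at `(v, 0)` in the window of the rows `W`. -/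
def okR {n : ℕ} (adj : Fin n → Fin n → Bool) (W : Fin n → Bool) (T : List (List ℕ))
    (v : Fin n) : Bool :=
  ((List.finRange n).all fun w => tval T w 0 == (if w = v then 1 else 0)) &&
  (List.range T.length).all fun k => (List.finRange n).all fun w =>
    if W w then
      (tval T w (k + 1) + (if k = 0 then 0 else tval T w (k - 1)) == nsum adj T w k)
      || (tval T w (k + 1) == 0 && (List.finRange n).all fun u => tval T u k == 0)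
    else tval T w (k + 1) == 0

/-- The entries of the column `v₁` are at most one. -/
def thT (T : List (List ℕ)) (v₁ : ℕ) : Bool :=
  (List.range T.length).all fun k => Nat.ble (tval T v₁ k) 1

/-- The checks for the rows to be removed, one after the other. -/
def okCh {n : ℕ} (adj : Fin n → Fin n → Bool) :
    (W : Fin n → Bool) → List (Fin n × List (List (List ℕ))) → Bool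
  | W, [] => (List.finRange n).all fun v => !W v
  | W, x :: l => ((List.finRange n).all fun v => !W v ||
      (okR adj W (x.2.getD v []) v && thT (x.2.getD v []) x.1))
      && okCh adj (fun w => W w && w != x.1) l

/-- E8: tables for the full window. -/
def tE8 : List (List (List ℕ)) := [
  [[1, 0, 0, 0, 0, 0, 0, 0], [0, 1, 0, 0, 0, 0, 0, 0], [0, 0, 1, 0, 0, 0, 0, 0],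
    [0, 0, 0, 1, 0, 0, 0, 1], [0, 0, 1, 0, 1, 0, 0, 0], [0, 1, 0, 1, 0, 1, 0, 0],
    [1, 0, 1, 0, 1, 0, 1, 0], [0, 1, 0, 1, 0, 1, 0, 1], [0, 0, 2, 0, 1, 0, 0, 0],
    [0, 1, 0, 2, 0, 0, 0, 1], [1, 0, 2, 0, 1, 0, 0, 0], [0, 2, 0, 1, 0, 1, 0, 1],
    [1, 0, 2, 0, 1, 0, 1, 0], [0, 1, 0, 2, 0, 1, 0, 1], [0, 0, 2, 0, 2, 0, 0, 0],
    [0, 1, 0, 2, 0, 1, 0, 1], [1, 0, 2, 0, 1, 0, 1, 0], [0, 2, 0, 1, 0, 1, 0, 1],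
    [1, 0, 2, 0, 1, 0, 0, 0], [0, 1, 0, 2, 0, 0, 0, 1], [0, 0, 2, 0, 1, 0, 0, 0],
    [0, 1, 0, 1, 0, 1, 0, 1], [1, 0, 1, 0, 1, 0, 1, 0], [0, 1, 0, 1, 0, 1, 0, 0],
    [0, 0, 1, 0, 1, 0, 0, 0], [0, 0, 0, 1, 0, 0, 0, 1], [0, 0, 1, 0, 0, 0, 0, 0],
    [0, 1, 0, 0, 0, 0, 0, 0], [1, 0, 0, 0, 0, 0, 0, 0]],
  [[0, 1, 0, 0, 0, 0, 0, 0], [1, 0, 1, 0, 0, 0, 0, 0], [0, 1, 0, 1, 0, 0, 0, 1],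
    [0, 0, 2, 0, 1, 0, 0, 0], [0, 1, 0, 2, 0, 1, 0, 1], [1, 0, 2, 0, 2, 0, 1, 0],
    [0, 2, 0, 2, 0, 2, 0, 1], [1, 0, 3, 0, 2, 0, 1, 0], [0, 2, 0, 3, 0, 1, 0, 2],
    [1, 0, 4, 0, 2, 0, 0, 0], [0, 3, 0, 3, 0, 1, 0, 2], [2, 0, 4, 0, 2, 0, 1, 0],
    [0, 3, 0, 3, 0, 2, 0, 2], [1, 0, 4, 0, 3, 0, 1, 0], [0, 2, 0, 4, 0, 2, 0, 2],
    [1, 0, 4, 0, 3, 0, 1, 0], [0, 3, 0, 3, 0, 2, 0, 2], [2, 0, 4, 0, 2, 0, 1, 0],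
    [0, 3, 0, 3, 0, 1, 0, 2], [1, 0, 4, 0, 2, 0, 0, 0], [0, 2, 0, 3, 0, 1, 0, 2],
    [1, 0, 3, 0, 2, 0, 1, 0], [0, 2, 0, 2, 0, 2, 0, 1], [1, 0, 2, 0, 2, 0, 1, 0],
    [0, 1, 0, 2, 0, 1, 0, 1], [0, 0, 2, 0, 1, 0, 0, 0], [0, 1, 0, 1, 0, 0, 0, 1],
    [1, 0, 1, 0, 0, 0, 0, 0], [0, 1, 0, 0, 0, 0, 0, 0]],
  [[0, 0, 1, 0, 0, 0, 0, 0], [0, 1, 0, 1, 0, 0, 0, 1], [1, 0, 2, 0, 1, 0, 0, 0],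
    [0, 2, 0, 2, 0, 1, 0, 1], [1, 0, 3, 0, 2, 0, 1, 0], [0, 2, 0, 3, 0, 2, 0, 2],
    [1, 0, 4, 0, 3, 0, 1, 0], [0, 3, 0, 4, 0, 2, 0, 2], [2, 0, 5, 0, 3, 0, 1, 0],
    [0, 4, 0, 4, 0, 2, 0, 3], [2, 0, 6, 0, 3, 0, 1, 0], [0, 4, 0, 5, 0, 2, 0, 3],
    [2, 0, 6, 0, 4, 0, 1, 0], [0, 4, 0, 5, 0, 3, 0, 3], [2, 0, 6, 0, 4, 0, 2, 0],
    [0, 4, 0, 5, 0, 3, 0, 3], [2, 0, 6, 0, 4, 0, 1, 0], [0, 4, 0, 5, 0, 2, 0, 3],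
    [2, 0, 6, 0, 3, 0, 1, 0], [0, 4, 0, 4, 0, 2, 0, 3], [2, 0, 5, 0, 3, 0, 1, 0],
    [0, 3, 0, 4, 0, 2, 0, 2], [1, 0, 4, 0, 3, 0, 1, 0], [0, 2, 0, 3, 0, 2, 0, 2],
    [1, 0, 3, 0, 2, 0, 1, 0], [0, 2, 0, 2, 0, 1, 0, 1], [1, 0, 2, 0, 1, 0, 0, 0],
    [0, 1, 0, 1, 0, 0, 0, 1], [0, 0, 1, 0, 0, 0, 0, 0]],
  [[0, 0, 0, 1, 0, 0, 0, 0], [0, 0, 1, 0, 1, 0, 0, 0], [0, 1, 0, 1, 0, 1, 0, 1],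
    [1, 0, 2, 0, 1, 0, 1, 0], [0, 2, 0, 2, 0, 1, 0, 1], [1, 0, 3, 0, 2, 0, 0, 0],
    [0, 2, 0, 3, 0, 1, 0, 2], [1, 0, 4, 0, 2, 0, 1, 0], [0, 3, 0, 3, 0, 2, 0, 2],
    [2, 0, 4, 0, 3, 0, 1, 0], [0, 3, 0, 4, 0, 2, 0, 2], [1, 0, 5, 0, 3, 0, 1, 0],
    [0, 3, 0, 4, 0, 2, 0, 3], [2, 0, 5, 0, 3, 0, 1, 0], [0, 4, 0, 4, 0, 2, 0, 2],
    [2, 0, 5, 0, 3, 0, 1, 0], [0, 3, 0, 4, 0, 2, 0, 3], [1, 0, 5, 0, 3, 0, 1, 0],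
    [0, 3, 0, 4, 0, 2, 0, 2], [2, 0, 4, 0, 3, 0, 1, 0], [0, 3, 0, 3, 0, 2, 0, 2],
    [1, 0, 4, 0, 2, 0, 1, 0], [0, 2, 0, 3, 0, 1, 0, 2], [1, 0, 3, 0, 2, 0, 0, 0],
    [0, 2, 0, 2, 0, 1, 0, 1], [1, 0, 2, 0, 1, 0, 1, 0], [0, 1, 0, 1, 0, 1, 0, 1],
    [0, 0, 1, 0, 1, 0, 0, 0], [0, 0, 0, 1, 0, 0, 0, 0]],
  [[0, 0, 0, 0, 1, 0, 0, 0], [0, 0, 0, 1, 0, 1, 0, 0], [0, 0, 1, 0, 1, 0, 1, 0],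
    [0, 1, 0, 1, 0, 1, 0, 1], [1, 0, 2, 0, 1, 0, 0, 0], [0, 2, 0, 2, 0, 0, 0, 1],
    [1, 0, 3, 0, 1, 0, 0, 0], [0, 2, 0, 2, 0, 1, 0, 2], [1, 0, 3, 0, 2, 0, 1, 0],
    [0, 2, 0, 3, 0, 2, 0, 1], [1, 0, 3, 0, 3, 0, 1, 0], [0, 2, 0, 3, 0, 2, 0, 2],
    [1, 0, 4, 0, 2, 0, 1, 0], [0, 3, 0, 3, 0, 1, 0, 2], [2, 0, 4, 0, 2, 0, 0, 0],
    [0, 3, 0, 3, 0, 1, 0, 2], [1, 0, 4, 0, 2, 0, 1, 0], [0, 2, 0, 3, 0, 2, 0, 2],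
    [1, 0, 3, 0, 3, 0, 1, 0], [0, 2, 0, 3, 0, 2, 0, 1], [1, 0, 3, 0, 2, 0, 1, 0],
    [0, 2, 0, 2, 0, 1, 0, 2], [1, 0, 3, 0, 1, 0, 0, 0], [0, 2, 0, 2, 0, 0, 0, 1],
    [1, 0, 2, 0, 1, 0, 0, 0], [0, 1, 0, 1, 0, 1, 0, 1], [0, 0, 1, 0, 1, 0, 1, 0],
    [0, 0, 0, 1, 0, 1, 0, 0], [0, 0, 0, 0, 1, 0, 0, 0]],
  [[0, 0, 0, 0, 0, 1, 0, 0], [0, 0, 0, 0, 1, 0, 1, 0], [0, 0, 0, 1, 0, 1, 0, 0],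
    [0, 0, 1, 0, 1, 0, 0, 0], [0, 1, 0, 1, 0, 0, 0, 1], [1, 0, 2, 0, 0, 0, 0, 0],
    [0, 2, 0, 1, 0, 0, 0, 1], [1, 0, 2, 0, 1, 0, 0, 0], [0, 1, 0, 2, 0, 1, 0, 1],
    [0, 0, 2, 0, 2, 0, 1, 0], [0, 1, 0, 2, 0, 2, 0, 1], [1, 0, 2, 0, 2, 0, 1, 0],
    [0, 2, 0, 2, 0, 1, 0, 1], [1, 0, 3, 0, 1, 0, 0, 0], [0, 2, 0, 2, 0, 0, 0, 2],
    [1, 0, 3, 0, 1, 0, 0, 0], [0, 2, 0, 2, 0, 1, 0, 1], [1, 0, 2, 0, 2, 0, 1, 0],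
    [0, 1, 0, 2, 0, 2, 0, 1], [0, 0, 2, 0, 2, 0, 1, 0], [0, 1, 0, 2, 0, 1, 0, 1],
    [1, 0, 2, 0, 1, 0, 0, 0], [0, 2, 0, 1, 0, 0, 0, 1], [1, 0, 2, 0, 0, 0, 0, 0],
    [0, 1, 0, 1, 0, 0, 0, 1], [0, 0, 1, 0, 1, 0, 0, 0], [0, 0, 0, 1, 0, 1, 0, 0],
    [0, 0, 0, 0, 1, 0, 1, 0], [0, 0, 0, 0, 0, 1, 0, 0]],
  [[0, 0, 0, 0, 0, 0, 1, 0], [0, 0, 0, 0, 0, 1, 0, 0], [0, 0, 0, 0, 1, 0, 0, 0],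
    [0, 0, 0, 1, 0, 0, 0, 0], [0, 0, 1, 0, 0, 0, 0, 0], [0, 1, 0, 0, 0, 0, 0, 1],
    [1, 0, 1, 0, 0, 0, 0, 0], [0, 1, 0, 1, 0, 0, 0, 0], [0, 0, 1, 0, 1, 0, 0, 0],
    [0, 0, 0, 1, 0, 1, 0, 1], [0, 0, 1, 0, 1, 0, 1, 0], [0, 1, 0, 1, 0, 1, 0, 0],
    [1, 0, 1, 0, 1, 0, 0, 0], [0, 1, 0, 1, 0, 0, 0, 1], [0, 0, 2, 0, 0, 0, 0, 0],
    [0, 1, 0, 1, 0, 0, 0, 1], [1, 0, 1, 0, 1, 0, 0, 0], [0, 1, 0, 1, 0, 1, 0, 0],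
    [0, 0, 1, 0, 1, 0, 1, 0], [0, 0, 0, 1, 0, 1, 0, 1], [0, 0, 1, 0, 1, 0, 0, 0],
    [0, 1, 0, 1, 0, 0, 0, 0], [1, 0, 1, 0, 0, 0, 0, 0], [0, 1, 0, 0, 0, 0, 0, 1],
    [0, 0, 1, 0, 0, 0, 0, 0], [0, 0, 0, 1, 0, 0, 0, 0], [0, 0, 0, 0, 1, 0, 0, 0],
    [0, 0, 0, 0, 0, 1, 0, 0], [0, 0, 0, 0, 0, 0, 1, 0]],
  [[0, 0, 0, 0, 0, 0, 0, 1], [0, 0, 1, 0, 0, 0, 0, 0], [0, 1, 0, 1, 0, 0, 0, 0],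
    [1, 0, 1, 0, 1, 0, 0, 0], [0, 1, 0, 1, 0, 1, 0, 1], [0, 0, 2, 0, 1, 0, 1, 0],
    [0, 1, 0, 2, 0, 1, 0, 1], [1, 0, 2, 0, 2, 0, 0, 0], [0, 2, 0, 2, 0, 1, 0, 1],
    [1, 0, 3, 0, 1, 0, 1, 0], [0, 2, 0, 2, 0, 1, 0, 2], [1, 0, 3, 0, 2, 0, 0, 0],
    [0, 2, 0, 3, 0, 1, 0, 1], [1, 0, 3, 0, 2, 0, 1, 0], [0, 2, 0, 2, 0, 2, 0, 2],
    [1, 0, 3, 0, 2, 0, 1, 0], [0, 2, 0, 3, 0, 1, 0, 1], [1, 0, 3, 0, 2, 0, 0, 0],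
    [0, 2, 0, 2, 0, 1, 0, 2], [1, 0, 3, 0, 1, 0, 1, 0], [0, 2, 0, 2, 0, 1, 0, 1],
    [1, 0, 2, 0, 2, 0, 0, 0], [0, 1, 0, 2, 0, 1, 0, 1], [0, 0, 2, 0, 1, 0, 1, 0],
    [0, 1, 0, 1, 0, 1, 0, 1], [1, 0, 1, 0, 1, 0, 0, 0], [0, 1, 0, 1, 0, 0, 0, 0],
    [0, 0, 1, 0, 0, 0, 0, 0], [0, 0, 0, 0, 0, 0, 0, 1]]]

/-- E8: tables for the window of the rows `0, 1, 2, 3, 4, 5, 7`. -/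
def tE8_0 : List (List (List ℕ)) := [
  [[1, 0, 0, 0, 0, 0, 0, 0], [0, 1, 0, 0, 0, 0, 0, 0], [0, 0, 1, 0, 0, 0, 0, 0],
    [0, 0, 0, 1, 0, 0, 0, 1], [0, 0, 1, 0, 1, 0, 0, 0], [0, 1, 0, 1, 0, 1, 0, 0],
    [1, 0, 1, 0, 1, 0, 0, 0], [0, 1, 0, 1, 0, 0, 0, 1], [0, 0, 2, 0, 0, 0, 0, 0],
    [0, 1, 0, 1, 0, 0, 0, 1], [1, 0, 1, 0, 1, 0, 0, 0], [0, 1, 0, 1, 0, 1, 0, 0],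
    [0, 0, 1, 0, 1, 0, 0, 0], [0, 0, 0, 1, 0, 0, 0, 1], [0, 0, 1, 0, 0, 0, 0, 0],
    [0, 1, 0, 0, 0, 0, 0, 0], [1, 0, 0, 0, 0, 0, 0, 0]],
  [[0, 1, 0, 0, 0, 0, 0, 0], [1, 0, 1, 0, 0, 0, 0, 0], [0, 1, 0, 1, 0, 0, 0, 1],
    [0, 0, 2, 0, 1, 0, 0, 0], [0, 1, 0, 2, 0, 1, 0, 1], [1, 0, 2, 0, 2, 0, 0, 0],
    [0, 2, 0, 2, 0, 1, 0, 1], [1, 0, 3, 0, 1, 0, 0, 0], [0, 2, 0, 2, 0, 0, 0, 2],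
    [1, 0, 3, 0, 1, 0, 0, 0], [0, 2, 0, 2, 0, 1, 0, 1], [1, 0, 2, 0, 2, 0, 0, 0],
    [0, 1, 0, 2, 0, 1, 0, 1], [0, 0, 2, 0, 1, 0, 0, 0], [0, 1, 0, 1, 0, 0, 0, 1],
    [1, 0, 1, 0, 0, 0, 0, 0], [0, 1, 0, 0, 0, 0, 0, 0]],
  [[0, 0, 1, 0, 0, 0, 0, 0], [0, 1, 0, 1, 0, 0, 0, 1], [1, 0, 2, 0, 1, 0, 0, 0],
    [0, 2, 0, 2, 0, 1, 0, 1], [1, 0, 3, 0, 2, 0, 0, 0], [0, 2, 0, 3, 0, 1, 0, 2],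
    [1, 0, 4, 0, 2, 0, 0, 0], [0, 3, 0, 3, 0, 1, 0, 2], [2, 0, 4, 0, 2, 0, 0, 0],
    [0, 3, 0, 3, 0, 1, 0, 2], [1, 0, 4, 0, 2, 0, 0, 0], [0, 2, 0, 3, 0, 1, 0, 2],
    [1, 0, 3, 0, 2, 0, 0, 0], [0, 2, 0, 2, 0, 1, 0, 1], [1, 0, 2, 0, 1, 0, 0, 0],
    [0, 1, 0, 1, 0, 0, 0, 1], [0, 0, 1, 0, 0, 0, 0, 0]],
  [[0, 0, 0, 1, 0, 0, 0, 0], [0, 0, 1, 0, 1, 0, 0, 0], [0, 1, 0, 1, 0, 1, 0, 1],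
    [1, 0, 2, 0, 1, 0, 0, 0], [0, 2, 0, 2, 0, 0, 0, 1], [1, 0, 3, 0, 1, 0, 0, 0],
    [0, 2, 0, 2, 0, 1, 0, 2], [1, 0, 3, 0, 2, 0, 0, 0], [0, 2, 0, 3, 0, 1, 0, 1],
    [1, 0, 3, 0, 2, 0, 0, 0], [0, 2, 0, 2, 0, 1, 0, 2], [1, 0, 3, 0, 1, 0, 0, 0],
    [0, 2, 0, 2, 0, 0, 0, 1], [1, 0, 2, 0, 1, 0, 0, 0], [0, 1, 0, 1, 0, 1, 0, 1],
    [0, 0, 1, 0, 1, 0, 0, 0], [0, 0, 0, 1, 0, 0, 0, 0]],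
  [[0, 0, 0, 0, 1, 0, 0, 0], [0, 0, 0, 1, 0, 1, 0, 0], [0, 0, 1, 0, 1, 0, 0, 0],
    [0, 1, 0, 1, 0, 0, 0, 1], [1, 0, 2, 0, 0, 0, 0, 0], [0, 2, 0, 1, 0, 0, 0, 1],
    [1, 0, 2, 0, 1, 0, 0, 0], [0, 1, 0, 2, 0, 1, 0, 1], [0, 0, 2, 0, 2, 0, 0, 0],
    [0, 1, 0, 2, 0, 1, 0, 1], [1, 0, 2, 0, 1, 0, 0, 0], [0, 2, 0, 1, 0, 0, 0, 1],
    [1, 0, 2, 0, 0, 0, 0, 0], [0, 1, 0, 1, 0, 0, 0, 1], [0, 0, 1, 0, 1, 0, 0, 0],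
    [0, 0, 0, 1, 0, 1, 0, 0], [0, 0, 0, 0, 1, 0, 0, 0]],
  [[0, 0, 0, 0, 0, 1, 0, 0], [0, 0, 0, 0, 1, 0, 0, 0], [0, 0, 0, 1, 0, 0, 0, 0],
    [0, 0, 1, 0, 0, 0, 0, 0], [0, 1, 0, 0, 0, 0, 0, 1], [1, 0, 1, 0, 0, 0, 0, 0],
    [0, 1, 0, 1, 0, 0, 0, 0], [0, 0, 1, 0, 1, 0, 0, 0], [0, 0, 0, 1, 0, 1, 0, 1],
    [0, 0, 1, 0, 1, 0, 0, 0], [0, 1, 0, 1, 0, 0, 0, 0], [1, 0, 1, 0, 0, 0, 0, 0],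
    [0, 1, 0, 0, 0, 0, 0, 1], [0, 0, 1, 0, 0, 0, 0, 0], [0, 0, 0, 1, 0, 0, 0, 0],
    [0, 0, 0, 0, 1, 0, 0, 0], [0, 0, 0, 0, 0, 1, 0, 0]],
  [],
  [[0, 0, 0, 0, 0, 0, 0, 1], [0, 0, 1, 0, 0, 0, 0, 0], [0, 1, 0, 1, 0, 0, 0, 0],
    [1, 0, 1, 0, 1, 0, 0, 0], [0, 1, 0, 1, 0, 1, 0, 1], [0, 0, 2, 0, 1, 0, 0, 0],
    [0, 1, 0, 2, 0, 0, 0, 1], [1, 0, 2, 0, 1, 0, 0, 0], [0, 2, 0, 1, 0, 1, 0, 1],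
    [1, 0, 2, 0, 1, 0, 0, 0], [0, 1, 0, 2, 0, 0, 0, 1], [0, 0, 2, 0, 1, 0, 0, 0],
    [0, 1, 0, 1, 0, 1, 0, 1], [1, 0, 1, 0, 1, 0, 0, 0], [0, 1, 0, 1, 0, 0, 0, 0],
    [0, 0, 1, 0, 0, 0, 0, 0], [0, 0, 0, 0, 0, 0, 0, 1]]]

/-- E8: tables for the window of the rows `0, 1, 2, 3, 4, 7`. -/
def tE8_1 : List (List (List ℕ)) := [
  [[1, 0, 0, 0, 0, 0, 0, 0], [0, 1, 0, 0, 0, 0, 0, 0], [0, 0, 1, 0, 0, 0, 0, 0],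
    [0, 0, 0, 1, 0, 0, 0, 1], [0, 0, 1, 0, 1, 0, 0, 0], [0, 1, 0, 1, 0, 0, 0, 0],
    [1, 0, 1, 0, 0, 0, 0, 0], [0, 1, 0, 0, 0, 0, 0, 1], [0, 0, 1, 0, 0, 0, 0, 0],
    [0, 0, 0, 1, 0, 0, 0, 0], [0, 0, 0, 0, 1, 0, 0, 0]],
  [[0, 1, 0, 0, 0, 0, 0, 0], [1, 0, 1, 0, 0, 0, 0, 0], [0, 1, 0, 1, 0, 0, 0, 1],
    [0, 0, 2, 0, 1, 0, 0, 0], [0, 1, 0, 2, 0, 0, 0, 1], [1, 0, 2, 0, 1, 0, 0, 0],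
    [0, 2, 0, 1, 0, 0, 0, 1], [1, 0, 2, 0, 0, 0, 0, 0], [0, 1, 0, 1, 0, 0, 0, 1],
    [0, 0, 1, 0, 1, 0, 0, 0], [0, 0, 0, 1, 0, 0, 0, 0]],
  [[0, 0, 1, 0, 0, 0, 0, 0], [0, 1, 0, 1, 0, 0, 0, 1], [1, 0, 2, 0, 1, 0, 0, 0],
    [0, 2, 0, 2, 0, 0, 0, 1], [1, 0, 3, 0, 1, 0, 0, 0], [0, 2, 0, 2, 0, 0, 0, 2],
    [1, 0, 3, 0, 1, 0, 0, 0], [0, 2, 0, 2, 0, 0, 0, 1], [1, 0, 2, 0, 1, 0, 0, 0],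
    [0, 1, 0, 1, 0, 0, 0, 1], [0, 0, 1, 0, 0, 0, 0, 0]],
  [[0, 0, 0, 1, 0, 0, 0, 0], [0, 0, 1, 0, 1, 0, 0, 0], [0, 1, 0, 1, 0, 0, 0, 1],
    [1, 0, 2, 0, 0, 0, 0, 0], [0, 2, 0, 1, 0, 0, 0, 1], [1, 0, 2, 0, 1, 0, 0, 0],
    [0, 1, 0, 2, 0, 0, 0, 1], [0, 0, 2, 0, 1, 0, 0, 0], [0, 1, 0, 1, 0, 0, 0, 1],
    [1, 0, 1, 0, 0, 0, 0, 0], [0, 1, 0, 0, 0, 0, 0, 0]],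
  [[0, 0, 0, 0, 1, 0, 0, 0], [0, 0, 0, 1, 0, 0, 0, 0], [0, 0, 1, 0, 0, 0, 0, 0],
    [0, 1, 0, 0, 0, 0, 0, 1], [1, 0, 1, 0, 0, 0, 0, 0], [0, 1, 0, 1, 0, 0, 0, 0],
    [0, 0, 1, 0, 1, 0, 0, 0], [0, 0, 0, 1, 0, 0, 0, 1], [0, 0, 1, 0, 0, 0, 0, 0],
    [0, 1, 0, 0, 0, 0, 0, 0], [1, 0, 0, 0, 0, 0, 0, 0]],
  [],
  [],
  [[0, 0, 0, 0, 0, 0, 0, 1], [0, 0, 1, 0, 0, 0, 0, 0], [0, 1, 0, 1, 0, 0, 0, 0],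
    [1, 0, 1, 0, 1, 0, 0, 0], [0, 1, 0, 1, 0, 0, 0, 1], [0, 0, 2, 0, 0, 0, 0, 0],
    [0, 1, 0, 1, 0, 0, 0, 1], [1, 0, 1, 0, 1, 0, 0, 0], [0, 1, 0, 1, 0, 0, 0, 0],
    [0, 0, 1, 0, 0, 0, 0, 0], [0, 0, 0, 0, 0, 0, 0, 1]]]

/-- E8: tables for the window of the rows `1, 2, 3, 4, 7`. -/
def tE8_2 : List (List (List ℕ)) := [
  [],
  [[0, 1, 0, 0, 0, 0, 0, 0], [0, 0, 1, 0, 0, 0, 0, 0], [0, 0, 0, 1, 0, 0, 0, 1],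
    [0, 0, 1, 0, 1, 0, 0, 0], [0, 1, 0, 1, 0, 0, 0, 0], [0, 0, 1, 0, 0, 0, 0, 0],
    [0, 0, 0, 0, 0, 0, 0, 1]],
  [[0, 0, 1, 0, 0, 0, 0, 0], [0, 1, 0, 1, 0, 0, 0, 1], [0, 0, 2, 0, 1, 0, 0, 0],
    [0, 1, 0, 2, 0, 0, 0, 1], [0, 0, 2, 0, 1, 0, 0, 0], [0, 1, 0, 1, 0, 0, 0, 1],
    [0, 0, 1, 0, 0, 0, 0, 0]],
  [[0, 0, 0, 1, 0, 0, 0, 0], [0, 0, 1, 0, 1, 0, 0, 0], [0, 1, 0, 1, 0, 0, 0, 1],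
    [0, 0, 2, 0, 0, 0, 0, 0], [0, 1, 0, 1, 0, 0, 0, 1], [0, 0, 1, 0, 1, 0, 0, 0],
    [0, 0, 0, 1, 0, 0, 0, 0]],
  [[0, 0, 0, 0, 1, 0, 0, 0], [0, 0, 0, 1, 0, 0, 0, 0], [0, 0, 1, 0, 0, 0, 0, 0],
    [0, 1, 0, 0, 0, 0, 0, 1], [0, 0, 1, 0, 0, 0, 0, 0], [0, 0, 0, 1, 0, 0, 0, 0],
    [0, 0, 0, 0, 1, 0, 0, 0]],
  [],
  [],
  [[0, 0, 0, 0, 0, 0, 0, 1], [0, 0, 1, 0, 0, 0, 0, 0], [0, 1, 0, 1, 0, 0, 0, 0],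
    [0, 0, 1, 0, 1, 0, 0, 0], [0, 0, 0, 1, 0, 0, 0, 1], [0, 0, 1, 0, 0, 0, 0, 0],
    [0, 1, 0, 0, 0, 0, 0, 0]]]

/-- E8: tables for the window of the rows `1, 2, 3, 7`. -/
def tE8_3 : List (List (List ℕ)) := [
  [],
  [[0, 1, 0, 0, 0, 0, 0, 0], [0, 0, 1, 0, 0, 0, 0, 0], [0, 0, 0, 1, 0, 0, 0, 1],
    [0, 0, 1, 0, 0, 0, 0, 0], [0, 1, 0, 0, 0, 0, 0, 0]],
  [[0, 0, 1, 0, 0, 0, 0, 0], [0, 1, 0, 1, 0, 0, 0, 1], [0, 0, 2, 0, 0, 0, 0, 0],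
    [0, 1, 0, 1, 0, 0, 0, 1], [0, 0, 1, 0, 0, 0, 0, 0]],
  [[0, 0, 0, 1, 0, 0, 0, 0], [0, 0, 1, 0, 0, 0, 0, 0], [0, 1, 0, 0, 0, 0, 0, 1],
    [0, 0, 1, 0, 0, 0, 0, 0], [0, 0, 0, 1, 0, 0, 0, 0]],
  [],
  [],
  [],
  [[0, 0, 0, 0, 0, 0, 0, 1], [0, 0, 1, 0, 0, 0, 0, 0], [0, 1, 0, 1, 0, 0, 0, 0],
    [0, 0, 1, 0, 0, 0, 0, 0], [0, 0, 0, 0, 0, 0, 0, 1]]]

/-- E8: tables for the window of the rows `1, 2, 7`. -/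
def tE8_4 : List (List (List ℕ)) := [
  [],
  [[0, 1, 0, 0, 0, 0, 0, 0], [0, 0, 1, 0, 0, 0, 0, 0], [0, 0, 0, 0, 0, 0, 0, 1]],
  [[0, 0, 1, 0, 0, 0, 0, 0], [0, 1, 0, 0, 0, 0, 0, 1], [0, 0, 1, 0, 0, 0, 0, 0]],
  [],
  [],
  [],
  [],
  [[0, 0, 0, 0, 0, 0, 0, 1], [0, 0, 1, 0, 0, 0, 0, 0], [0, 1, 0, 0, 0, 0, 0, 0]]]

/-- E8: tables for the window of the rows `2, 7`. -/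
def tE8_5 : List (List (List ℕ)) := [
  [],
  [],
  [[0, 0, 1, 0, 0, 0, 0, 0], [0, 0, 0, 0, 0, 0, 0, 1]],
  [],
  [],
  [],
  [],
  [[0, 0, 0, 0, 0, 0, 0, 1], [0, 0, 1, 0, 0, 0, 0, 0]]]

/-- E8: tables for the window of the rows `2`. -/
def tE8_6 : List (List (List ℕ)) := [
  [],
  [],
  [[0, 0, 1, 0, 0, 0, 0, 0]],
  [],
  [],
  [],
  [],
  []]

/-- E7: tables for the window of the rows `0, 1, 2, 3, 4, 5, 6`. -/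
def tE7_0 : List (List (List ℕ)) := [
  [[1, 0, 0, 0, 0, 0, 0], [0, 1, 0, 0, 0, 0, 0], [0, 0, 1, 0, 0, 0, 0], [0, 0, 0, 1, 0, 0, 1],
    [0, 0, 1, 0, 1, 0, 0], [0, 1, 0, 1, 0, 1, 0], [1, 0, 1, 0, 1, 0, 0], [0, 1, 0, 1, 0, 0, 1],
    [0, 0, 2, 0, 0, 0, 0], [0, 1, 0, 1, 0, 0, 1], [1, 0, 1, 0, 1, 0, 0], [0, 1, 0, 1, 0, 1, 0],
    [0, 0, 1, 0, 1, 0, 0], [0, 0, 0, 1, 0, 0, 1], [0, 0, 1, 0, 0, 0, 0], [0, 1, 0, 0, 0, 0, 0],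
    [1, 0, 0, 0, 0, 0, 0]],
  [[0, 1, 0, 0, 0, 0, 0], [1, 0, 1, 0, 0, 0, 0], [0, 1, 0, 1, 0, 0, 1], [0, 0, 2, 0, 1, 0, 0],
    [0, 1, 0, 2, 0, 1, 1], [1, 0, 2, 0, 2, 0, 0], [0, 2, 0, 2, 0, 1, 1], [1, 0, 3, 0, 1, 0, 0],
    [0, 2, 0, 2, 0, 0, 2], [1, 0, 3, 0, 1, 0, 0], [0, 2, 0, 2, 0, 1, 1], [1, 0, 2, 0, 2, 0, 0],
    [0, 1, 0, 2, 0, 1, 1], [0, 0, 2, 0, 1, 0, 0], [0, 1, 0, 1, 0, 0, 1], [1, 0, 1, 0, 0, 0, 0],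
    [0, 1, 0, 0, 0, 0, 0]],
  [[0, 0, 1, 0, 0, 0, 0], [0, 1, 0, 1, 0, 0, 1], [1, 0, 2, 0, 1, 0, 0], [0, 2, 0, 2, 0, 1, 1],
    [1, 0, 3, 0, 2, 0, 0], [0, 2, 0, 3, 0, 1, 2], [1, 0, 4, 0, 2, 0, 0], [0, 3, 0, 3, 0, 1, 2],
    [2, 0, 4, 0, 2, 0, 0], [0, 3, 0, 3, 0, 1, 2], [1, 0, 4, 0, 2, 0, 0], [0, 2, 0, 3, 0, 1, 2],
    [1, 0, 3, 0, 2, 0, 0], [0, 2, 0, 2, 0, 1, 1], [1, 0, 2, 0, 1, 0, 0], [0, 1, 0, 1, 0, 0, 1],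
    [0, 0, 1, 0, 0, 0, 0]],
  [[0, 0, 0, 1, 0, 0, 0], [0, 0, 1, 0, 1, 0, 0], [0, 1, 0, 1, 0, 1, 1], [1, 0, 2, 0, 1, 0, 0],
    [0, 2, 0, 2, 0, 0, 1], [1, 0, 3, 0, 1, 0, 0], [0, 2, 0, 2, 0, 1, 2], [1, 0, 3, 0, 2, 0, 0],
    [0, 2, 0, 3, 0, 1, 1], [1, 0, 3, 0, 2, 0, 0], [0, 2, 0, 2, 0, 1, 2], [1, 0, 3, 0, 1, 0, 0],
    [0, 2, 0, 2, 0, 0, 1], [1, 0, 2, 0, 1, 0, 0], [0, 1, 0, 1, 0, 1, 1], [0, 0, 1, 0, 1, 0, 0],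
    [0, 0, 0, 1, 0, 0, 0]],
  [[0, 0, 0, 0, 1, 0, 0], [0, 0, 0, 1, 0, 1, 0], [0, 0, 1, 0, 1, 0, 0], [0, 1, 0, 1, 0, 0, 1],
    [1, 0, 2, 0, 0, 0, 0], [0, 2, 0, 1, 0, 0, 1], [1, 0, 2, 0, 1, 0, 0], [0, 1, 0, 2, 0, 1, 1],
    [0, 0, 2, 0, 2, 0, 0], [0, 1, 0, 2, 0, 1, 1], [1, 0, 2, 0, 1, 0, 0], [0, 2, 0, 1, 0, 0, 1],
    [1, 0, 2, 0, 0, 0, 0], [0, 1, 0, 1, 0, 0, 1], [0, 0, 1, 0, 1, 0, 0], [0, 0, 0, 1, 0, 1, 0],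
    [0, 0, 0, 0, 1, 0, 0]],
  [[0, 0, 0, 0, 0, 1, 0], [0, 0, 0, 0, 1, 0, 0], [0, 0, 0, 1, 0, 0, 0], [0, 0, 1, 0, 0, 0, 0],
    [0, 1, 0, 0, 0, 0, 1], [1, 0, 1, 0, 0, 0, 0], [0, 1, 0, 1, 0, 0, 0], [0, 0, 1, 0, 1, 0, 0],
    [0, 0, 0, 1, 0, 1, 1], [0, 0, 1, 0, 1, 0, 0], [0, 1, 0, 1, 0, 0, 0], [1, 0, 1, 0, 0, 0, 0],
    [0, 1, 0, 0, 0, 0, 1], [0, 0, 1, 0, 0, 0, 0], [0, 0, 0, 1, 0, 0, 0], [0, 0, 0, 0, 1, 0, 0],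
    [0, 0, 0, 0, 0, 1, 0]],
  [[0, 0, 0, 0, 0, 0, 1], [0, 0, 1, 0, 0, 0, 0], [0, 1, 0, 1, 0, 0, 0], [1, 0, 1, 0, 1, 0, 0],
    [0, 1, 0, 1, 0, 1, 1], [0, 0, 2, 0, 1, 0, 0], [0, 1, 0, 2, 0, 0, 1], [1, 0, 2, 0, 1, 0, 0],
    [0, 2, 0, 1, 0, 1, 1], [1, 0, 2, 0, 1, 0, 0], [0, 1, 0, 2, 0, 0, 1], [0, 0, 2, 0, 1, 0, 0],
    [0, 1, 0, 1, 0, 1, 1], [1, 0, 1, 0, 1, 0, 0], [0, 1, 0, 1, 0, 0, 0], [0, 0, 1, 0, 0, 0, 0],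
    [0, 0, 0, 0, 0, 0, 1]]]

/-- E7: tables for the window of the rows `0, 1, 2, 3, 4, 6`. -/
def tE7_1 : List (List (List ℕ)) := [
  [[1, 0, 0, 0, 0, 0, 0], [0, 1, 0, 0, 0, 0, 0], [0, 0, 1, 0, 0, 0, 0], [0, 0, 0, 1, 0, 0, 1],
    [0, 0, 1, 0, 1, 0, 0], [0, 1, 0, 1, 0, 0, 0], [1, 0, 1, 0, 0, 0, 0], [0, 1, 0, 0, 0, 0, 1],
    [0, 0, 1, 0, 0, 0, 0], [0, 0, 0, 1, 0, 0, 0], [0, 0, 0, 0, 1, 0, 0]],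
  [[0, 1, 0, 0, 0, 0, 0], [1, 0, 1, 0, 0, 0, 0], [0, 1, 0, 1, 0, 0, 1], [0, 0, 2, 0, 1, 0, 0],
    [0, 1, 0, 2, 0, 0, 1], [1, 0, 2, 0, 1, 0, 0], [0, 2, 0, 1, 0, 0, 1], [1, 0, 2, 0, 0, 0, 0],
    [0, 1, 0, 1, 0, 0, 1], [0, 0, 1, 0, 1, 0, 0], [0, 0, 0, 1, 0, 0, 0]],
  [[0, 0, 1, 0, 0, 0, 0], [0, 1, 0, 1, 0, 0, 1], [1, 0, 2, 0, 1, 0, 0], [0, 2, 0, 2, 0, 0, 1],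
    [1, 0, 3, 0, 1, 0, 0], [0, 2, 0, 2, 0, 0, 2], [1, 0, 3, 0, 1, 0, 0], [0, 2, 0, 2, 0, 0, 1],
    [1, 0, 2, 0, 1, 0, 0], [0, 1, 0, 1, 0, 0, 1], [0, 0, 1, 0, 0, 0, 0]],
  [[0, 0, 0, 1, 0, 0, 0], [0, 0, 1, 0, 1, 0, 0], [0, 1, 0, 1, 0, 0, 1], [1, 0, 2, 0, 0, 0, 0],
    [0, 2, 0, 1, 0, 0, 1], [1, 0, 2, 0, 1, 0, 0], [0, 1, 0, 2, 0, 0, 1], [0, 0, 2, 0, 1, 0, 0],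
    [0, 1, 0, 1, 0, 0, 1], [1, 0, 1, 0, 0, 0, 0], [0, 1, 0, 0, 0, 0, 0]],
  [[0, 0, 0, 0, 1, 0, 0], [0, 0, 0, 1, 0, 0, 0], [0, 0, 1, 0, 0, 0, 0], [0, 1, 0, 0, 0, 0, 1],
    [1, 0, 1, 0, 0, 0, 0], [0, 1, 0, 1, 0, 0, 0], [0, 0, 1, 0, 1, 0, 0], [0, 0, 0, 1, 0, 0, 1],
    [0, 0, 1, 0, 0, 0, 0], [0, 1, 0, 0, 0, 0, 0], [1, 0, 0, 0, 0, 0, 0]],
  [],
  [[0, 0, 0, 0, 0, 0, 1], [0, 0, 1, 0, 0, 0, 0], [0, 1, 0, 1, 0, 0, 0], [1, 0, 1, 0, 1, 0, 0],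
    [0, 1, 0, 1, 0, 0, 1], [0, 0, 2, 0, 0, 0, 0], [0, 1, 0, 1, 0, 0, 1], [1, 0, 1, 0, 1, 0, 0],
    [0, 1, 0, 1, 0, 0, 0], [0, 0, 1, 0, 0, 0, 0], [0, 0, 0, 0, 0, 0, 1]]]

/-- E7: tables for the window of the rows `1, 2, 3, 4, 6`. -/
def tE7_2 : List (List (List ℕ)) := [
  [],
  [[0, 1, 0, 0, 0, 0, 0], [0, 0, 1, 0, 0, 0, 0], [0, 0, 0, 1, 0, 0, 1], [0, 0, 1, 0, 1, 0, 0],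
    [0, 1, 0, 1, 0, 0, 0], [0, 0, 1, 0, 0, 0, 0], [0, 0, 0, 0, 0, 0, 1]],
  [[0, 0, 1, 0, 0, 0, 0], [0, 1, 0, 1, 0, 0, 1], [0, 0, 2, 0, 1, 0, 0], [0, 1, 0, 2, 0, 0, 1],
    [0, 0, 2, 0, 1, 0, 0], [0, 1, 0, 1, 0, 0, 1], [0, 0, 1, 0, 0, 0, 0]],
  [[0, 0, 0, 1, 0, 0, 0], [0, 0, 1, 0, 1, 0, 0], [0, 1, 0, 1, 0, 0, 1], [0, 0, 2, 0, 0, 0, 0],
    [0, 1, 0, 1, 0, 0, 1], [0, 0, 1, 0, 1, 0, 0], [0, 0, 0, 1, 0, 0, 0]],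
  [[0, 0, 0, 0, 1, 0, 0], [0, 0, 0, 1, 0, 0, 0], [0, 0, 1, 0, 0, 0, 0], [0, 1, 0, 0, 0, 0, 1],
    [0, 0, 1, 0, 0, 0, 0], [0, 0, 0, 1, 0, 0, 0], [0, 0, 0, 0, 1, 0, 0]],
  [],
  [[0, 0, 0, 0, 0, 0, 1], [0, 0, 1, 0, 0, 0, 0], [0, 1, 0, 1, 0, 0, 0], [0, 0, 1, 0, 1, 0, 0],
    [0, 0, 0, 1, 0, 0, 1], [0, 0, 1, 0, 0, 0, 0], [0, 1, 0, 0, 0, 0, 0]]]

/-- E7: tables for the window of the rows `1, 2, 3, 6`. -/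
def tE7_3 : List (List (List ℕ)) := [
  [],
  [[0, 1, 0, 0, 0, 0, 0], [0, 0, 1, 0, 0, 0, 0], [0, 0, 0, 1, 0, 0, 1], [0, 0, 1, 0, 0, 0, 0],
    [0, 1, 0, 0, 0, 0, 0]],
  [[0, 0, 1, 0, 0, 0, 0], [0, 1, 0, 1, 0, 0, 1], [0, 0, 2, 0, 0, 0, 0], [0, 1, 0, 1, 0, 0, 1],
    [0, 0, 1, 0, 0, 0, 0]],
  [[0, 0, 0, 1, 0, 0, 0], [0, 0, 1, 0, 0, 0, 0], [0, 1, 0, 0, 0, 0, 1], [0, 0, 1, 0, 0, 0, 0],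
    [0, 0, 0, 1, 0, 0, 0]],
  [],
  [],
  [[0, 0, 0, 0, 0, 0, 1], [0, 0, 1, 0, 0, 0, 0], [0, 1, 0, 1, 0, 0, 0], [0, 0, 1, 0, 0, 0, 0],
    [0, 0, 0, 0, 0, 0, 1]]]

/-- E7: tables for the window of the rows `1, 2, 6`. -/
def tE7_4 : List (List (List ℕ)) := [
  [],
  [[0, 1, 0, 0, 0, 0, 0], [0, 0, 1, 0, 0, 0, 0], [0, 0, 0, 0, 0, 0, 1]],
  [[0, 0, 1, 0, 0, 0, 0], [0, 1, 0, 0, 0, 0, 1], [0, 0, 1, 0, 0, 0, 0]],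
  [],
  [],
  [],
  [[0, 0, 0, 0, 0, 0, 1], [0, 0, 1, 0, 0, 0, 0], [0, 1, 0, 0, 0, 0, 0]]]

/-- E7: tables for the window of the rows `2, 6`. -/
def tE7_5 : List (List (List ℕ)) := [
  [],
  [],
  [[0, 0, 1, 0, 0, 0, 0], [0, 0, 0, 0, 0, 0, 1]],
  [],
  [],
  [],
  [[0, 0, 0, 0, 0, 0, 1], [0, 0, 1, 0, 0, 0, 0]]]

/-- E7: tables for the window of the rows `2`. -/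
def tE7_6 : List (List (List ℕ)) := [
  [],
  [],
  [[0, 0, 1, 0, 0, 0, 0]],
  [],
  [],
  [],
  []]

/-- E6: tables for the window of the rows `0, 1, 2, 3, 4, 5`. -/
def tE6_0 : List (List (List ℕ)) := [
  [[1, 0, 0, 0, 0, 0], [0, 1, 0, 0, 0, 0], [0, 0, 1, 0, 0, 0], [0, 0, 0, 1, 0, 1],
    [0, 0, 1, 0, 1, 0], [0, 1, 0, 1, 0, 0], [1, 0, 1, 0, 0, 0], [0, 1, 0, 0, 0, 1],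
    [0, 0, 1, 0, 0, 0], [0, 0, 0, 1, 0, 0], [0, 0, 0, 0, 1, 0]],
  [[0, 1, 0, 0, 0, 0], [1, 0, 1, 0, 0, 0], [0, 1, 0, 1, 0, 1], [0, 0, 2, 0, 1, 0],
    [0, 1, 0, 2, 0, 1], [1, 0, 2, 0, 1, 0], [0, 2, 0, 1, 0, 1], [1, 0, 2, 0, 0, 0],
    [0, 1, 0, 1, 0, 1], [0, 0, 1, 0, 1, 0], [0, 0, 0, 1, 0, 0]],
  [[0, 0, 1, 0, 0, 0], [0, 1, 0, 1, 0, 1], [1, 0, 2, 0, 1, 0], [0, 2, 0, 2, 0, 1],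
    [1, 0, 3, 0, 1, 0], [0, 2, 0, 2, 0, 2], [1, 0, 3, 0, 1, 0], [0, 2, 0, 2, 0, 1],
    [1, 0, 2, 0, 1, 0], [0, 1, 0, 1, 0, 1], [0, 0, 1, 0, 0, 0]],
  [[0, 0, 0, 1, 0, 0], [0, 0, 1, 0, 1, 0], [0, 1, 0, 1, 0, 1], [1, 0, 2, 0, 0, 0],
    [0, 2, 0, 1, 0, 1], [1, 0, 2, 0, 1, 0], [0, 1, 0, 2, 0, 1], [0, 0, 2, 0, 1, 0],
    [0, 1, 0, 1, 0, 1], [1, 0, 1, 0, 0, 0], [0, 1, 0, 0, 0, 0]],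
  [[0, 0, 0, 0, 1, 0], [0, 0, 0, 1, 0, 0], [0, 0, 1, 0, 0, 0], [0, 1, 0, 0, 0, 1],
    [1, 0, 1, 0, 0, 0], [0, 1, 0, 1, 0, 0], [0, 0, 1, 0, 1, 0], [0, 0, 0, 1, 0, 1],
    [0, 0, 1, 0, 0, 0], [0, 1, 0, 0, 0, 0], [1, 0, 0, 0, 0, 0]],
  [[0, 0, 0, 0, 0, 1], [0, 0, 1, 0, 0, 0], [0, 1, 0, 1, 0, 0], [1, 0, 1, 0, 1, 0],
    [0, 1, 0, 1, 0, 1], [0, 0, 2, 0, 0, 0], [0, 1, 0, 1, 0, 1], [1, 0, 1, 0, 1, 0],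
    [0, 1, 0, 1, 0, 0], [0, 0, 1, 0, 0, 0], [0, 0, 0, 0, 0, 1]]]

/-- E6: tables for the window of the rows `1, 2, 3, 4, 5`. -/
def tE6_1 : List (List (List ℕ)) := [
  [],
  [[0, 1, 0, 0, 0, 0], [0, 0, 1, 0, 0, 0], [0, 0, 0, 1, 0, 1], [0, 0, 1, 0, 1, 0],
    [0, 1, 0, 1, 0, 0], [0, 0, 1, 0, 0, 0], [0, 0, 0, 0, 0, 1]],
  [[0, 0, 1, 0, 0, 0], [0, 1, 0, 1, 0, 1], [0, 0, 2, 0, 1, 0], [0, 1, 0, 2, 0, 1],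
    [0, 0, 2, 0, 1, 0], [0, 1, 0, 1, 0, 1], [0, 0, 1, 0, 0, 0]],
  [[0, 0, 0, 1, 0, 0], [0, 0, 1, 0, 1, 0], [0, 1, 0, 1, 0, 1], [0, 0, 2, 0, 0, 0],
    [0, 1, 0, 1, 0, 1], [0, 0, 1, 0, 1, 0], [0, 0, 0, 1, 0, 0]],
  [[0, 0, 0, 0, 1, 0], [0, 0, 0, 1, 0, 0], [0, 0, 1, 0, 0, 0], [0, 1, 0, 0, 0, 1],
    [0, 0, 1, 0, 0, 0], [0, 0, 0, 1, 0, 0], [0, 0, 0, 0, 1, 0]],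
  [[0, 0, 0, 0, 0, 1], [0, 0, 1, 0, 0, 0], [0, 1, 0, 1, 0, 0], [0, 0, 1, 0, 1, 0],
    [0, 0, 0, 1, 0, 1], [0, 0, 1, 0, 0, 0], [0, 1, 0, 0, 0, 0]]]

/-- E6: tables for the window of the rows `1, 2, 3, 5`. -/
def tE6_2 : List (List (List ℕ)) := [
  [],
  [[0, 1, 0, 0, 0, 0], [0, 0, 1, 0, 0, 0], [0, 0, 0, 1, 0, 1], [0, 0, 1, 0, 0, 0],
    [0, 1, 0, 0, 0, 0]],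
  [[0, 0, 1, 0, 0, 0], [0, 1, 0, 1, 0, 1], [0, 0, 2, 0, 0, 0], [0, 1, 0, 1, 0, 1],
    [0, 0, 1, 0, 0, 0]],
  [[0, 0, 0, 1, 0, 0], [0, 0, 1, 0, 0, 0], [0, 1, 0, 0, 0, 1], [0, 0, 1, 0, 0, 0],
    [0, 0, 0, 1, 0, 0]],
  [],
  [[0, 0, 0, 0, 0, 1], [0, 0, 1, 0, 0, 0], [0, 1, 0, 1, 0, 0], [0, 0, 1, 0, 0, 0],
    [0, 0, 0, 0, 0, 1]]]

/-- E6: tables for the window of the rows `1, 2, 5`. -/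
def tE6_3 : List (List (List ℕ)) := [
  [],
  [[0, 1, 0, 0, 0, 0], [0, 0, 1, 0, 0, 0], [0, 0, 0, 0, 0, 1]],
  [[0, 0, 1, 0, 0, 0], [0, 1, 0, 0, 0, 1], [0, 0, 1, 0, 0, 0]],
  [],
  [],
  [[0, 0, 0, 0, 0, 1], [0, 0, 1, 0, 0, 0], [0, 1, 0, 0, 0, 0]]]

/-- E6: tables for the window of the rows `2, 5`. -/
def tE6_4 : List (List (List ℕ)) := [
  [],
  [],
  [[0, 0, 1, 0, 0, 0], [0, 0, 0, 0, 0, 1]],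
  [],
  [],
  [[0, 0, 0, 0, 0, 1], [0, 0, 1, 0, 0, 0]]]

/-- E6: tables for the window of the rows `2`. -/
def tE6_5 : List (List (List ℕ)) := [
  [],
  [],
  [[0, 0, 1, 0, 0, 0]],
  [],
  [],
  []]

/-- E8: the chain of windows, from the rows of E7 on. -/
def ch8 : List (Fin 8 × List (List (List ℕ))) :=
  [(5, tE8_0), (0, tE8_1), (4, tE8_2), (3, tE8_3), (1, tE8_4), (7, tE8_5), (2, tE8_6)]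

/-- E7: the chain of windows. -/
def ch7 : List (Fin 7 × List (List (List ℕ))) :=
  [(5, tE7_0), (0, tE7_1), (4, tE7_2), (3, tE7_3), (1, tE7_4), (6, tE7_5), (2, tE7_6)]

/-- E6: the chain of windows. -/
def ch6 : List (Fin 6 × List (List (List ℕ))) :=
  [(0, tE6_0), (4, tE6_1), (3, tE6_2), (1, tE6_3), (5, tE6_4), (2, tE6_5)]

/-- The rows of E7 in E8. -/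
def W67 : Fin 8 → Bool := fun v => v != 6

set_option maxRecDepth 100000 in
theorem ok_ch6 : okCh eF (fun _ => true) ch6 = true := by decide +kernel

set_option maxRecDepth 100000 in
theorem ok_ch7 : okCh e7B (fun _ => true) ch7 = true := by decide +kernel

set_option maxRecDepth 100000 in
theorem ok_ch8 : okCh eB W67 ch8 = true := by decide +kernel

set_option maxRecDepth 100000 in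
theorem ok_tE8 : ∀ v : Fin 8, okR eB (fun _ => true) (tE8.getD v []) v = true := by
  decide +kernel

set_option maxRecDepth 100000 in
theorem th_tE8 : ∀ v : Fin 8, v ≠ 2 → thT (tE8.getD v []) 6 = true := by
  decide +kernel

end EC

end Pool.Agent.Lib.MP_4c1f79_al
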